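import Pool.Agent.H123Z.GSC.Defs
import Pool.Agent.Helper781.Fusion.PF

set_option autoImplicit false
set_option linter.all false

namespace Pool.Agent.H123Z.GSC

open Finset Filter Topology

namespace H183

variable {ι G : Type} [Fintype ι] [DecidableEq ι] [Group G] [Fintype G]

lemma coeff_one_nonneg (g : G) : 0 ≤ (1 : MonoidAlgebra ℝ G).coeff g := by
  classical
  rw [MonoidAlgebra.one_def, MonoidAlgebra.coeff_single, Finsupp.single_apply]
  split_ifs <;> norm_num

/-- sum of coefficients -/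
noncomputable def es (G : Type) [Group G] [Fintype G] : MonoidAlgebra ℝ G →+* ℝ where
  toFun x := ∑ g, x.coeff g
  map_one' := by
    classical
    simp [MonoidAlgebra.one_def, Finsupp.single_apply]
  map_mul' x y := by
    simp only [coeff_mul_sum]
    rw [sum_comm, sum_mul]
    refine sum_congr rfl fun h _ => ?_
    rw [← mul_sum]
    congr 1
    exact Fintype.sum_equiv (Equiv.mulLeft h⁻¹) _ _ (fun g => rfl)
  map_zero' := by simp
  map_add' x y := by simp [sum_add_distrib]

lemma es_apply (x : MonoidAlgebra ℝ G) : es G x = ∑ g, x.coeff g := rfl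

lemma es_smul (r : ℝ) (x : MonoidAlgebra ℝ G) : es G (r • x) = r * es G x := by
  simp [es_apply, mul_sum]

lemma ebar_coeff (g : G) : (ebar G).coeff g = (Fintype.card G : ℝ)⁻¹ := by
  classical
  simp [ebar, Finsupp.single_apply]

lemma es_ebar : es G (ebar G) = 1 := by
  simp [es_apply, ebar_coeff]

lemma mul_ebar (x : MonoidAlgebra ℝ G) : x * ebar G = es G x • ebar G := by
  ext g
  simp [coeff_mul_sum, ebar_coeff, es_apply, sum_mul]

/-- augmentation of real matrices -/
noncomputable def ag : MA ι G →+* Matrix ι ι ℝ := (es G).mapMatrix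

lemma ag_apply (X : MA ι G) (i j : ι) : ag X i j = es G (X i j) := rfl

lemma aug_eq (X : MZ ι G) : aug X = ag (toR X) := by
  ext i j
  simp [aug, ag_apply, es_apply, toR_coeff]

lemma mul_colV (X : MA ι G) (o : ι) (v : ι → ℝ) :
    X * colV G o 1 v = colV G o 1 ((ag X).mulVec v) := by
  ext1 i j
  simp only [Matrix.mul_apply, colV, Matrix.mulVec, dotProduct, ag_apply, one_mul]
  split_ifs
  · simp only [mul_smul_comm, mul_ebar, smul_smul, sum_smul, mul_comm]
  · simp

lemma colV_smul (o : ι) (c : ℝ) (v : ι → ℝ) : colV G o 1 (c • v) = c • colV G o 1 v := by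
  ext1 i j
  simp only [colV, Matrix.smul_apply, Pi.smul_apply, smul_eq_mul, one_mul]
  split_ifs <;> simp [smul_smul]

lemma colV_eq (o : ι) (c : ℝ) (v : ι → ℝ) : colV G o c v = c • colV G o 1 v := by
  ext1 i j
  simp only [colV, Matrix.smul_apply, one_mul]
  split_ifs <;> simp [smul_smul]

lemma ag_colV (o : ι) (v : ι → ℝ) (ho : v o = 1) : (ag (colV G o 1 v)).mulVec v = v := by
  funext i
  simp [Matrix.mulVec, dotProduct, ag_apply, colV, apply_ite (es G), es_smul, es_ebar, ho]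

lemma ag_smul (c : ℝ) (X : MA ι G) : ag (c • X) = c • ag X := by
  ext i j
  simp [ag_apply, es_smul]

/-- coordinatewise order -/
def Le (X Y : MA ι G) : Prop := ∀ i j g, (X i j).coeff g ≤ (Y i j).coeff g

lemma coeff_mul (X Y : MA ι G) (i j : ι) (g : G) :
    ((X * Y) i j).coeff g = ∑ l, ∑ h, (X i l).coeff h * (Y l j).coeff (h⁻¹ * g) := by
  simp [Matrix.mul_apply, coeff_mul_sum]

lemma Le.mul {X Y X' Y' : MA ι G} (h : Le X X') (h' : Le Y Y') (p : Le 0 X') (p' : Le 0 Y) :
    Le (X * Y) (X' * Y') := fun i j g => by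
  rw [coeff_mul, coeff_mul]
  exact sum_le_sum fun l _ => sum_le_sum fun k _ => mul_le_mul (h _ _ _) (h' _ _ _) (p' _ _ _) (p _ _ _)

lemma nn_mul {X Y : MA ι G} (p : Le 0 X) (p' : Le 0 Y) : Le 0 (X * Y) := fun i j g => by
  rw [coeff_mul]
  exact sum_nonneg fun l _ => sum_nonneg fun k _ => mul_nonneg (p _ _ _) (p' _ _ _)

lemma nn_one : Le 0 (1 : MA ι G) := fun i j g => by
  rw [Matrix.one_apply]
  split_ifs
  · exact coeff_one_nonneg g
  · exact le_rfl

lemma nn_pow {X : MA ι G} (p : Le 0 X) (k : ℕ) : Le 0 (X ^ k) := by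
  induction k with
  | zero => exact nn_one
  | succ k ih => rw [pow_succ]; exact nn_mul ih p

lemma Le.pow {X Y : MA ι G} (h : Le X Y) (p : Le 0 X) (k : ℕ) : Le (X ^ k) (Y ^ k) := by
  induction k with
  | zero => exact fun _ _ _ => le_rfl
  | succ k ih =>
    rw [pow_succ, pow_succ]
    exact ih.mul h (nn_pow (fun i j g => (p i j g).trans (h i j g)) k) p

lemma Le.ag {X Y : MA ι G} (h : Le X Y) (i j : ι) : ag X i j ≤ ag Y i j :=
  sum_le_sum fun g _ => h i j g

lemma ag_nn {X : MA ι G} (h : Le 0 X) (i j : ι) : 0 ≤ ag X i j := by simpa using h.ag i j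

lemma sub_pow {X : MA ι G} {v : ι → ℝ} {b : ℝ} (hb : 0 ≤ b) (p : Le 0 X)
    (h : ∀ i, (ag X).mulVec v i ≤ b * v i) (k : ℕ) : ∀ i, (ag (X ^ k)).mulVec v i ≤ b ^ k * v i := by
  induction k with
  | zero => simp
  | succ k ih =>
    intro i
    rw [pow_succ', map_mul, ← Matrix.mulVec_mulVec]
    calc _ ≤ (ag X).mulVec (b ^ k • v) i :=
          sum_le_sum fun j _ => mul_le_mul_of_nonneg_left (ih j) (ag_nn p i j)
      _ = b ^ k * (ag X).mulVec v i := by rw [Matrix.mulVec_smul]; rfl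
      _ ≤ b ^ k * (b * v i) := mul_le_mul_of_nonneg_left (h i) (pow_nonneg hb k)
      _ = _ := by ring

lemma norm_le {X : MA ι G} {v : ι → ℝ} {b m : ℝ} (hm : 0 < m) (hv : ∀ i, m ≤ v i) (p : Le 0 X)
    (h : ∀ i, (ag X).mulVec v i ≤ b * v i) : ‖X‖ ≤ (∑ i, v i) / m * b := by
  have e : ‖X‖ = ∑ i, ∑ j, ag X i j := by
    rw [norm_def']
    exact sum_congr rfl fun i _ => sum_congr rfl fun j _ => sum_congr rfl fun g _ =>
      abs_of_nonneg (p i j g)
  rw [e, div_mul_eq_mul_div, le_div_iff₀ hm, sum_mul, sum_mul]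
  refine sum_le_sum fun i _ => ?_
  rw [sum_mul, mul_comm (v i)]
  exact (sum_le_sum fun j _ => mul_le_mul_of_nonneg_left (hv j) (ag_nn p i j)).trans (h i)

lemma summ {f : ℕ → ℝ} {C β ρ : ℝ} {p : ℕ} (hp : 0 < p) (hβ : 0 ≤ β) (h0 : 0 < ρ) (h1 : ρ < 1)
    (h2 : β * ρ ^ p < 1) (hf : ∀ k, 0 ≤ f k) (h : ∀ k, f k ≤ C * β ^ (k / p)) :
    Summable fun k => f k * ρ ^ k := by
  have c : Tendsto (fun s : ℝ => s ^ p) (𝓝[<] 1) (𝓝 (1 ^ p)) :=
    ((continuous_pow p).tendsto 1).mono_left nhdsWithin_le_nhds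
  rw [one_pow] at c
  obtain ⟨s, s1, s2, s3⟩ := ((c.eventually (lt_mem_nhds h2)).and
    ((Ioo_mem_nhdsLT zero_lt_one : ∀ᶠ s in 𝓝[<] (1 : ℝ), s ∈ Set.Ioo 0 1))).exists
  have C0 : 0 ≤ C := by simpa [Nat.zero_div] using (hf 0).trans (h 0)
  refine Summable.of_nonneg_of_le (fun k => mul_nonneg (hf k) (by positivity)) (fun k => ?_)
    ((summable_geometric_of_lt_one s2.le s3).mul_left (C / s ^ p))
  have a : ρ ^ k ≤ (ρ ^ p) ^ (k / p) := by
    rw [← pow_mul]; exact pow_le_pow_of_le_one h0.le h1.le (Nat.mul_div_le k p)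
  have b : (s ^ p) ^ (k / p) * s ^ p ≤ s ^ k := by
    rw [← pow_mul, ← pow_add]
    refine pow_le_pow_of_le_one s2.le s3.le ?_
    have := Nat.div_add_mod k p
    have := Nat.mod_lt k hp
    omega
  calc f k * ρ ^ k ≤ C * β ^ (k / p) * (ρ ^ p) ^ (k / p) :=
        mul_le_mul (h k) a (by positivity) (by positivity)
    _ = C * (β * ρ ^ p) ^ (k / p) := by rw [mul_pow, mul_assoc]
    _ ≤ C * (s ^ p) ^ (k / p) := by gcongr
    _ ≤ _ := by
      rw [div_mul_eq_mul_div, le_div_iff₀ (by positivity), mul_assoc]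
      gcongr

lemma norm_pow_mod (X : MA ι G) {p : ℕ} (hp : 0 < p) (k : ℕ) :
    ‖X ^ (k % p)‖ ≤ ∑ i ∈ range p, ‖X ^ i‖ :=
  single_le_sum (f := fun i => ‖X ^ i‖) (fun _ _ => norm_nonneg _) (mem_range.2 (Nat.mod_lt k hp))

end H183

open H183 in
theorem aside {ι G : Type} [Fintype ι] [DecidableEq ι] [Group G] [Fintype G] (A : MZ ι G) (o : ι)
    (hA : ∀ i j g, 0 ≤ (A i j).coeff g) (p : ℕ) (hp : 0 < p)
    (hAp : ∀ i j g, 0 < ((A ^ p) i j).coeff g) :
    (Subsingleton G ∧ ∀ k, 0 < k → (Matrix.trace (A ^ k)).coeff 1 = 1) ∨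
    ∃ (lam ρ : ℝ) (v : ι → ℝ), 0 < ρ ∧ ρ < 1 ∧ 1 < lam * ρ ∧ v o = 1 ∧
      (aug A).mulVec v = lam • v ∧
      (Summable fun k : ℕ => ‖(toR A - colV G o lam v) ^ k‖ * ρ ^ k) ∧
      (Summable fun k : ℕ => ‖(toR (cut o A)) ^ k‖ * ρ ^ k) ∧
      ∀ k, p ≤ k → ∀ i j g, 0 < ((A ^ k) i j).coeff g := by
  have : Nonempty ι := ⟨o⟩
  set a := toR A with ha
  have an : Le 0 a := fun i j g => by
    change (0 : ℝ) ≤ _
    rw [ha, toR_coeff]; exact_mod_cast hA i j g
  have ap : ∀ i j g, (1 : ℝ) ≤ ((a ^ p) i j).coeff g := fun i j g => by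
    rw [ha, ← map_pow, toR_coeff]; exact_mod_cast hAp i j g
  have agp : ∀ i j, (Fintype.card G : ℝ) ≤ ag (a ^ p) i j := fun i j =>
    le_trans (by simp) (sum_le_sum fun g (_ : g ∈ univ) => ap i j g)
  have cG : (1 : ℝ) ≤ Fintype.card G := by exact_mod_cast Fintype.card_pos
  obtain ⟨r, hr, hc⟩ := Pool.Agent.Helper781.Fusion.pf_common (ag (a ^ p))
    fun i j => lt_of_lt_of_le (by linarith) (agp i j)
  obtain ⟨lam, hl⟩ := hc (ag a) (by rw [← map_mul, ← map_mul, ← pow_succ, ← pow_succ'])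
  obtain ⟨v, vo, vp, hv⟩ : ∃ v : ι → ℝ, v o = 1 ∧ (∀ i, 0 < v i) ∧ (ag a).mulVec v = lam • v :=
    ⟨(r o)⁻¹ • r, inv_mul_cancel₀ (hr o).ne', fun i => mul_pos (inv_pos.2 (hr o)) (hr i), by
      rw [Matrix.mulVec_smul, hl, smul_comm]⟩
  have hk : ∀ k : ℕ, (ag (a ^ k)).mulVec v = lam ^ k • v := by
    intro k
    induction k with
    | zero => simp
    | succ k ih =>
      rw [pow_succ, map_mul, ← Matrix.mulVec_mulVec, hv, Matrix.mulVec_smul, ih, smul_smul, pow_succ']
  have l0 : 0 ≤ lam := by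
    have := congrFun hv o
    rw [Pi.smul_apply, vo, smul_eq_mul, mul_one] at this
    rw [← this]
    exact sum_nonneg fun j _ => mul_nonneg (ag_nn an _ _) (vp j).le
  obtain ⟨i0, -, hi0⟩ := exists_min_image univ v univ_nonempty
  replace hi0 := fun i => hi0 i (mem_univ i)
  rcases le_or_gt lam 1 with l1 | l1
  · left
    have b : (Fintype.card ι : ℝ) * Fintype.card G ≤ lam ^ p := by
      have := congrFun (hk p) i0
      rw [Pi.smul_apply, smul_eq_mul] at this
      refine le_of_mul_le_mul_right ?_ (vp i0)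
      rw [← this]
      exact le_trans (by simp [mul_assoc]) (sum_le_sum fun j (_ : j ∈ univ) =>
        mul_le_mul (agp i0 j) (hi0 j) (vp i0).le (ag_nn (nn_pow an p) i0 j))
    have b1 := pow_le_one₀ (n := p) l0 l1
    have cI : (1 : ℝ) ≤ Fintype.card ι := by exact_mod_cast Fintype.card_pos
    have s1 : Subsingleton G := Fintype.card_le_one_iff_subsingleton.1
      (by exact_mod_cast (show (Fintype.card G : ℝ) ≤ 1 by nlinarith))
    have s2 : Subsingleton ι := Fintype.card_le_one_iff_subsingleton.1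
      (by exact_mod_cast (show (Fintype.card ι : ℝ) ≤ 1 by nlinarith))
    have e : lam = 1 := by
      by_contra c
      have := pow_lt_one₀ l0 (lt_of_le_of_ne l1 c) hp.ne'
      nlinarith
    refine ⟨s1, fun k _ => ?_⟩
    have := congrFun (hk k) o
    rw [e, one_pow, one_smul, vo, Matrix.mulVec, dotProduct, Fintype.sum_subsingleton _ o, vo,
      mul_one, ag_apply, es_apply, Fintype.sum_subsingleton _ 1, ha, ← map_pow, toR_coeff] at this
    rw [Matrix.trace, Fintype.sum_subsingleton _ o]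
    exact_mod_cast this
  right
  set P := colV G o 1 v with hP
  have sp : 0 < ∑ i, v i := sum_pos (fun i _ => vp i) univ_nonempty
  set c := (∑ i, v i)⁻¹ with hc'
  have c0 : 0 < c := inv_pos.2 sp
  set H := a ^ p - c • P with hH
  set β := lam ^ p - c with hβ
  have Hv : (ag H).mulVec v = β • v := by
    rw [hH, map_sub, ag_smul, Matrix.sub_mulVec, Matrix.smul_mulVec, hk, ag_colV o v vo, sub_smul]
  have Hc : ∀ i j g, (H i j).coeff g =
      ((a ^ p) i j).coeff g - if j = o then c * (v i * (Fintype.card G : ℝ)⁻¹) else 0 := by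
    intro i j g
    simp only [hH, hP, colV, Matrix.sub_apply, Matrix.smul_apply]
    split_ifs <;> simp [ebar_coeff]
  have Hn : Le 0 H := fun i j g => by
    rw [Hc]
    have a1 := ap i j g
    have a2 : c * v i ≤ 1 := by
      rw [hc', inv_mul_le_iff₀ sp, mul_one]
      exact single_le_sum (fun j _ => (vp j).le) (mem_univ i)
    have a3 : (Fintype.card G : ℝ)⁻¹ ≤ 1 := inv_le_one_of_one_le₀ cG
    have a4 := mul_le_mul a2 a3 (by positivity) zero_le_one
    change (0 : ℝ) ≤ _
    split_ifs <;> linarith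
  have b0 : 0 ≤ β := by
    have := congrFun Hv o
    rw [Pi.smul_apply, vo, smul_eq_mul, mul_one] at this
    rw [← this]
    exact sum_nonneg fun j _ => mul_nonneg (ag_nn Hn _ _) (vp j).le
  have lp : 0 < lam := by linarith
  obtain ⟨ρ, r1, r2, r3⟩ : ∃ ρ : ℝ, β * ρ ^ p < 1 ∧ lam⁻¹ < ρ ∧ ρ < 1 := by
    have t : Tendsto (fun s : ℝ => β * s ^ p) (𝓝[>] lam⁻¹) (𝓝 (β * lam⁻¹ ^ p)) :=
      (((continuous_pow p).const_mul β).tendsto _).mono_left nhdsWithin_le_nhds
    have lt : β * lam⁻¹ ^ p < 1 := by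
      rw [inv_pow, mul_inv_lt_iff₀ (by positivity)]; linarith
    exact ((t.eventually (gt_mem_nhds lt)).and ((Ioo_mem_nhdsGT (inv_lt_one_of_one_lt₀ l1) :
      ∀ᶠ s in 𝓝[>] lam⁻¹, s ∈ Set.Ioo lam⁻¹ 1))).exists
  have r0 : 0 < ρ := (inv_pos.2 lp).trans r2
  refine ⟨lam, ρ, v, r0, r3, by rwa [inv_lt_iff_one_lt_mul₀' lp] at r2, vo, by rw [aug_eq, hv],
    ?_, ?_, ?_⟩
  · rw [colV_eq, ← hP]
    set B := a - lam • P with hB
    have XP : ∀ (X : MA ι G) (t : ℝ), (ag X).mulVec v = t • v → X * P = t • P := fun X t h => by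
      rw [hP, mul_colV, h, colV_smul]
    have BP : B * P = 0 := by
      rw [hB, sub_mul, XP a lam hv, smul_mul_assoc, XP P 1 (by rw [ag_colV o v vo, one_smul]),
        one_smul, sub_self]
    have e1 : ∀ k, B ^ (k + 1) = B * a ^ k := by
      intro k
      induction k with
      | zero => simp
      | succ k ih =>
        rw [pow_succ, ih]
        conv_lhs => rw [mul_assoc, hB]
        rw [mul_sub, mul_smul_comm, XP _ _ (hk k), mul_sub, mul_smul_comm, mul_smul_comm, ← hB, BP,
          ← pow_succ]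
        simp
    have Hj : ∀ j : ℕ, H ^ j * P = β ^ j • P := by
      intro j
      induction j with
      | zero => simp
      | succ j ih => rw [pow_succ, mul_assoc, XP H β Hv, mul_smul_comm, ih, smul_smul, pow_succ']
    have e2 : ∀ j, B * (a ^ p) ^ j = B * H ^ j := by
      intro j
      induction j with
      | zero => simp
      | succ j ih =>
        rw [pow_succ, ← mul_assoc, ih, show a ^ p = H + c • P by rw [hH]; abel, mul_add,
          mul_smul_comm, mul_assoc _ _ P, Hj, mul_smul_comm, BP, mul_assoc, ← pow_succ]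
        simp
    rw [← summable_nat_add_iff 1]
    have := (summ (f := fun k => ‖B ^ (k + 1)‖)
      (C := ‖B‖ * ((∑ i, v i) / v i0) * ∑ i ∈ range p, ‖a ^ i‖) hp b0 r0 r3 r1
      (fun _ => norm_nonneg _) fun k => by
        have n1 := norm_le (vp i0) hi0 (nn_pow Hn (k / p))
          (sub_pow b0 Hn (fun i => (congrFun Hv i).le) (k / p))
        have n2 := norm_pow_mod a hp k
        rw [e1]
        conv_lhs => rw [← Nat.div_add_mod k p, pow_add, pow_mul, ← mul_assoc, e2]
        calc _ ≤ ‖B‖ * ‖H ^ (k / p)‖ * ‖a ^ (k % p)‖ :=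
              (norm_mul_le _ _).trans (mul_le_mul_of_nonneg_right (norm_mul_le _ _) (norm_nonneg _))
          _ ≤ ‖B‖ * ((∑ i, v i) / v i0 * β ^ (k / p)) * ∑ i ∈ range p, ‖a ^ i‖ := by
              have := vp i0
              gcongr
          _ = _ := by ring).mul_right ρ
    simpa only [pow_succ ρ, mul_assoc] using this
  · set d := toR (cut o A) with hd
    have dc : ∀ i j g, (d i j).coeff g = if i = o ∨ j = o then 0 else (a i j).coeff g := by
      intro i j g
      rw [hd, ha, toR_coeff, toR_coeff, cut]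
      split_ifs <;> simp
    have dn : Le 0 d := fun i j g => by
      rw [dc]; split_ifs
      · exact le_rfl
      · exact an i j g
    have da : Le d a := fun i j g => by
      rw [dc]; split_ifs
      · exact an i j g
      · exact le_rfl
    have dH : Le (d ^ p) H := fun i j g => by
      by_cases hj : j = o
      · obtain ⟨q, rfl⟩ := Nat.exists_eq_succ_of_ne_zero hp.ne'
        rw [pow_succ, coeff_mul]
        simpa [dc, hj] using Hn i o g
      · rw [Hc, if_neg hj, sub_zero]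
        exact da.pow dn p i j g
    refine summ (C := (∑ i, v i) / v i0 * ∑ i ∈ range p, ‖d ^ i‖) hp b0 r0 r3 r1
      (fun _ => norm_nonneg _) fun k => ?_
    have n1 := norm_le (vp i0) hi0 (nn_pow (nn_pow dn p) (k / p))
      (sub_pow b0 (nn_pow dn p) (fun i => le_trans (sum_le_sum fun j _ =>
        mul_le_mul_of_nonneg_right (dH.ag i j) (vp j).le) (congrFun Hv i).le) (k / p))
    have n2 := norm_pow_mod d hp k
    conv_lhs => rw [← Nat.div_add_mod k p, pow_add, pow_mul]
    calc _ ≤ ‖(d ^ p) ^ (k / p)‖ * ‖d ^ (k % p)‖ := norm_mul_le _ _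
      _ ≤ ((∑ i, v i) / v i0 * β ^ (k / p)) * ∑ i ∈ range p, ‖d ^ i‖ := by
          have := vp i0
          gcongr
      _ = _ := by ring
  · have key : ∀ k, p ≤ k → ∀ i j g, 0 < ((a ^ k) i j).coeff g := by
      intro k hk
      induction k, hk using Nat.le_induction with
      | base => exact fun i j g => lt_of_lt_of_le one_pos (ap i j g)
      | succ k _ ih =>
        intro i j g
        obtain ⟨l, h, hl⟩ : ∃ l h, 0 < (a i l).coeff h := by
          by_contra c
          push Not at c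
          have z : ∀ l h, (a i l).coeff h = 0 := fun l h => le_antisymm (c l h) (an i l h)
          obtain ⟨q, rfl⟩ := Nat.exists_eq_succ_of_ne_zero hp.ne'
          have := ap i j g
          rw [pow_succ', coeff_mul] at this
          simp [z] at this
          linarith
        rw [pow_succ', coeff_mul]
        exact sum_pos' (fun l _ => sum_nonneg fun h _ => mul_nonneg (an _ _ _) (ih _ _ _).le)
          ⟨l, mem_univ _, sum_pos' (fun h _ => mul_nonneg (an _ _ _) (ih _ _ _).le)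
            ⟨h, mem_univ _, mul_pos hl (ih _ _ _)⟩⟩
    intro k hk i j g
    have := key k hk i j g
    rw [ha, ← map_pow, toR_coeff] at this
    exact_mod_cast this

end Pool.Agent.H123Z.GSC
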