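import Pool.Agent.H183Z.Fold

set_option autoImplicit false

/-! An infinite folding sequence along which every word is eventually legal. -/

namespace Pool.Agent.H183Z

open FreeGroup Filter

variable {α : Type*} [DecidableEq α]

/-- a state of the folding sequence -/
structure St (α : Type*) where
  /-- marking -/
  ψ : FreeGroup α →* FreeGroup α
  /-- lengths of the petals -/
  ω : α → ℝ
  /-- shorter petal of the next fold -/
  x : α
  /-- longer petal of the next fold -/
  y : α
  /-- third petal -/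
  z : α

/-- invariants -/
structure St.Good (s : St α) : Prop where
  bij : Function.Bijective s.ψ
  pos : ∀ a, 0 < s.ω a
  xy : s.x ≠ s.y
  xz : s.x ≠ s.z
  yz : s.y ≠ s.z
  lt : s.ω s.x < s.ω s.y
  ind : ∀ p q r : ℤ, p * s.ω s.x + q * s.ω s.y + r * s.ω s.z = 0 → p = 0 ∧ q = 0 ∧ r = 0

/-- order the pair -/
noncomputable def St.mk2 (ψ : FreeGroup α →* FreeGroup α) (ω : α → ℝ) (a b c : α) : St α :=
  if ω a < ω b then ⟨ψ, ω, a, b, c⟩ else ⟨ψ, ω, b, a, c⟩

/-- one step -/
noncomputable def St.step (g : FreeGroup α) (s : St α) : St α :=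
  if cnt s.y s.x (fold s.x s.y (s.ψ g).toWord) ≤ cnt s.y s.z (fold s.x s.y (s.ψ g).toWord) then
    St.mk2 ((tau s.x s.y).comp s.ψ) (Function.update s.ω s.y (s.ω s.y - s.ω s.x)) s.y s.x s.z
  else
    St.mk2 ((tau s.x s.y).comp s.ψ) (Function.update s.ω s.y (s.ω s.y - s.ω s.x)) s.y s.z s.x

/-- number of illegal turns -/
def St.u (s : St α) (g : FreeGroup α) : ℕ := cnt s.x s.y (s.ψ g).toWord

/-- length function of a state -/
noncomputable def St.len (s : St α) (g : FreeGroup α) : ℝ := wlen s.ω (s.ψ g)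

omit [DecidableEq α] in
lemma St.mk2_good {ψ : FreeGroup α →* FreeGroup α} {ω : α → ℝ} {a b c : α}
    (bij : Function.Bijective ψ) (pos : ∀ a, 0 < ω a) (ab : a ≠ b) (ac : a ≠ c) (bc : b ≠ c)
    (ind : ∀ p q r : ℤ, p * ω a + q * ω b + r * ω c = 0 → p = 0 ∧ q = 0 ∧ r = 0) :
    (St.mk2 ψ ω a b c).Good := by
  unfold St.mk2
  split_ifs with h
  · exact ⟨bij, pos, ab, ac, bc, h, ind⟩
  · refine ⟨bij, pos, ab.symm, bc, ac, ?_, fun p q r e => ?_⟩
    · refine lt_of_le_of_ne (not_lt.1 h) fun e => ?_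
      have := (ind 1 (-1) 0 (by simp only at e; push_cast; linarith)).1
      omega
    · have := ind q p r (by simp only at e; linarith)
      tauto

lemma St.mk2_u (ψ : FreeGroup α →* FreeGroup α) (ω : α → ℝ) (a b c : α) (g : FreeGroup α) :
    (St.mk2 ψ ω a b c).u g = cnt a b (ψ g).toWord := by
  unfold St.mk2 St.u
  split_ifs
  · rfl
  · exact cnt_symm _ _ _

lemma St.mk2_len (ψ : FreeGroup α →* FreeGroup α) (ω : α → ℝ) (a b c : α) (g : FreeGroup α) :
    (St.mk2 ψ ω a b c).len g = wlen ω (ψ g) := by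
  unfold St.mk2 St.len
  split_ifs <;> rfl

omit [DecidableEq α] in
lemma St.mk2_psi (ψ : FreeGroup α →* FreeGroup α) (ω : α → ℝ) (a b c : α) :
    (St.mk2 ψ ω a b c).ψ = ψ := by
  unfold St.mk2
  split_ifs <;> rfl

lemma St.step_psi (s : St α) (g : FreeGroup α) : (s.step g).ψ = (tau s.x s.y).comp s.ψ := by
  unfold St.step
  split_ifs <;> exact St.mk2_psi _ _ _ _ _

lemma St.Good.step {s : St α} (h : s.Good) (g : FreeGroup α) : (s.step g).Good := by
  have bij : Function.Bijective ((tau s.x s.y).comp s.ψ) := (tau_bijective h.xy).comp h.bij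
  have pos : ∀ a, 0 < Function.update s.ω s.y (s.ω s.y - s.ω s.x) a := by
    intro a
    by_cases e : a = s.y
    · rw [e, Function.update_self]; linarith [h.lt]
    · rw [Function.update_of_ne e]; exact h.pos a
  unfold St.step
  split_ifs
  · refine St.mk2_good bij pos h.xy.symm h.yz h.xz fun p q r e => ?_
    rw [Function.update_self, Function.update_of_ne h.xy, Function.update_of_ne h.yz.symm] at e
    have := h.ind (q - p) p r (by push_cast; linarith)
    omega
  · refine St.mk2_good bij pos h.yz h.xy.symm h.xz.symm fun p q r e => ?_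
    rw [Function.update_self, Function.update_of_ne h.xy, Function.update_of_ne h.yz.symm] at e
    have := h.ind (r - p) p q (by push_cast; linarith)
    omega

lemma St.Good.u_step_le {s : St α} (h : s.Good) (g k : FreeGroup α) :
    (s.step g).u k ≤ s.u k := by
  have := cnt_fold h.xy h.xz h.yz (s.ψ k).toWord
  unfold St.step
  split_ifs <;> rw [St.mk2_u, MonoidHom.comp_apply, toWord_tau h.xy] <;> unfold St.u <;> omega

lemma St.Good.u_step_lt {s : St α} (h : s.Good) (g : FreeGroup α) (hg : s.u g ≠ 0) :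
    (s.step g).u g < s.u g := by
  have := cnt_fold h.xy h.xz h.yz (s.ψ g).toWord
  unfold St.u at hg
  unfold St.step
  split_ifs <;> rw [St.mk2_u, MonoidHom.comp_apply, toWord_tau h.xy] <;> unfold St.u <;> omega

lemma St.Good.len_step_eq {s : St α} (h : s.Good) (g k : FreeGroup α) :
    (s.step g).len k =
      wl (Function.update s.ω s.y (s.ω s.y - s.ω s.x)) (fold s.x s.y (s.ψ k).toWord) := by
  unfold St.step
  split_ifs <;> rw [St.mk2_len, MonoidHom.comp_apply, wlen, toWord_tau h.xy]

lemma St.Good.len_step {s : St α} (h : s.Good) (g k : FreeGroup α) (hk : s.u k = 0) :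
    (s.step g).len k = s.len k := by
  rw [h.len_step_eq, wl_fold h.xy _ _ hk]; rfl

lemma St.Good.lyndon {s : St α} (h : s.Good) : Lyndon s.len :=
  (lyndon_wlen fun a => (h.pos a).le).comp s.ψ

lemma St.Good.len_lt {s : St α} (h : s.Good) {g : FreeGroup α} (hg : g ≠ 1) :
    s.len g < s.len (g * g) := by
  unfold St.len
  rw [_root_.map_mul]
  refine wlen_lt_sq h.pos fun e => hg (h.bij.1 ?_)
  rw [e, _root_.map_one]

lemma cnt_replicate (a b c : α) (m : ℕ) : cnt a b (List.replicate m (c, true)) = 0 := by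
  induction m with
  | zero => rfl
  | succ m ih => rw [List.replicate_succ, cnt_cons_true, ih]

omit [DecidableEq α] in
lemma wl_replicate (ω : α → ℝ) (c : α) (m : ℕ) : wl ω (List.replicate m (c, true)) = m * ω c := by
  simp [wl]

lemma St.Good.pow_facts {s : St α} {k : FreeGroup α} {c : α} (hk : s.ψ k = of c) (m : ℕ) :
    s.u (k ^ m) = 0 ∧ s.len (k ^ m) = m * s.ω c := by
  unfold St.u St.len wlen
  rw [_root_.map_pow, hk, toWord_of_pow, cnt_replicate, wl_replicate]
  exact ⟨rfl, rfl⟩

/-- the folding sequence -/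
noncomputable def seq (s₀ : St α) (e : ℕ → FreeGroup α) : ℕ → St α
  | 0 => s₀
  | n + 1 => (seq s₀ e n).step (e n)

section
variable {s₀ : St α} {e : ℕ → FreeGroup α}

lemma seq_good (h : s₀.Good) (n : ℕ) : (seq s₀ e n).Good := by
  induction n with
  | zero => exact h
  | succ n ih => exact ih.step _

lemma seq_u_le (h : s₀.Good) (k : FreeGroup α) {n m : ℕ} (hnm : n ≤ m) :
    (seq s₀ e m).u k ≤ (seq s₀ e n).u k := by
  induction m, hnm using Nat.le_induction with
  | base => exact le_rfl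
  | succ m _ ih => exact ((seq_good h m).u_step_le _ _).trans ih

lemma seq_len_const (h : s₀.Good) (k : FreeGroup α) {n m : ℕ} (hn : (seq s₀ e n).u k = 0)
    (hnm : n ≤ m) : (seq s₀ e m).len k = (seq s₀ e n).len k := by
  induction m, hnm using Nat.le_induction with
  | base => rfl
  | succ m hm ih =>
    rw [← ih]
    apply (seq_good h m).len_step
    have := seq_u_le (e := e) h k hm
    omega

lemma seq_exists_zero (h : s₀.Good) (he : ∀ k n, ∃ m, n ≤ m ∧ e m = k) (k : FreeGroup α) :
    ∃ n, (seq s₀ e n).u k = 0 := by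
  have : ∀ c n, (seq s₀ e n).u k ≤ c → ∃ n, (seq s₀ e n).u k = 0 := by
    intro c
    induction c with
    | zero => intro n hn; exact ⟨n, by omega⟩
    | succ c ih =>
      intro n hn
      obtain ⟨m, hm, hem⟩ := he k n
      by_cases h0 : (seq s₀ e m).u k = 0
      · exact ⟨m, h0⟩
      · apply ih (m + 1)
        have a := (seq_good (e := e) h m).u_step_lt k h0
        have b := seq_u_le (e := e) h k hm
        have : seq s₀ e (m + 1) = (seq s₀ e m).step k := by rw [← hem]; rfl
        rw [this]; omega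
  exact this _ 0 le_rfl

lemma exists_limit (h : s₀.Good) (he : ∀ k n, ∃ m, n ≤ m ∧ e m = k) :
    ∃ L : FreeGroup α → ℝ, (∀ k, ∀ᶠ n in atTop, (seq s₀ e n).len k = L k) ∧
      ∀ k n, (seq s₀ e n).u k = 0 → L k = (seq s₀ e n).len k := by
  choose N hN using seq_exists_zero h he
  refine ⟨fun k => (seq s₀ e (N k)).len k, fun k => ?_, fun k n hn => ?_⟩
  · exact eventually_atTop.2 ⟨N k, fun m hm => seq_len_const h k (hN k) hm⟩
  · simp only []
    rw [← seq_len_const h k (hN k) (le_max_left (N k) n), seq_len_const h k hn (le_max_right _ _)]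

end

lemma lyndon_of_eventually {G : Type*} [Group G] {Ls : ℕ → G → ℝ} {L : G → ℝ}
    (H : ∀ n, Lyndon (Ls n)) (hL : ∀ k, ∀ᶠ n in atTop, Ls n k = L k) : Lyndon L := by
  refine ⟨?_, fun g => ?_, fun g h k => ?_⟩
  · obtain ⟨n, hn⟩ := (hL 1).exists
    rw [← hn, (H n).one]
  · obtain ⟨n, h1, h2⟩ := ((hL g).and (hL g⁻¹)).exists
    rw [← h1, ← h2, (H n).inv]
  · obtain ⟨n, ⟨⟨h1, h2⟩, h3⟩, ⟨h4, h5⟩, h6⟩ := ((((hL g).and (hL h)).and (hL k)).and
      (((hL (g⁻¹ * h)).and (hL (g⁻¹ * k))).and (hL (h⁻¹ * k)))).exists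
    have := (H n).hyp g h k
    unfold lc at this ⊢
    rw [← h1, ← h2, ← h3, ← h4, ← h5, ← h6]
    exact this

lemma exists_big {G : Type*} [Group G] {L : G → ℝ} {k : G} {a : ℝ} (ha : 0 < a)
    (hk : ∀ m : ℕ, L (k ^ m) = m * a) (R : ℝ) : ∃ k : G, L (k * k) = 2 * L k ∧ R < L k := by
  obtain ⟨m, hm⟩ := exists_nat_gt (R / a)
  refine ⟨k ^ m, ?_, ?_⟩
  · rw [← pow_add, hk, hk]; push_cast; ring
  · rw [hk]; rwa [div_lt_iff₀ ha] at hm

/-- The main combinatorial statement: a length function which agrees on every finite set with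
other length functions having different translation lengths. -/
theorem exists_unpinned [Countable α] {s₀ : St α} (h : s₀.Good) :
    ∃ L : FreeGroup α → ℝ, Lyndon L ∧ (∀ g, g ≠ 1 → L g < L (g * g)) ∧
      (∀ R : ℝ, ∃ k, L (k * k) = 2 * L k ∧ R < L k) ∧
      ∀ S : Set (FreeGroup α), S.Finite → ∃ L' : FreeGroup α → ℝ, Lyndon L' ∧
        (∀ g, g ≠ 1 → L' g < L' (g * g)) ∧ (∀ R : ℝ, ∃ k, L' (k * k) = 2 * L' k ∧ R < L' k) ∧
        (∀ g ∈ S, L' g = L g ∧ L' (g * g) = L (g * g)) ∧
        ∃ g, g ≠ 1 ∧ L' (g * g) - L' g ≠ L (g * g) - L g := by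
  have : Countable (FreeGroup α) := toWord_injective.countable
  obtain ⟨f, hf⟩ := exists_surjective_nat (FreeGroup α)
  let e : ℕ → FreeGroup α := fun n => f (Nat.unpair n).1
  have he : ∀ k n, ∃ m, n ≤ m ∧ e m = k := by
    intro k n
    obtain ⟨j, rfl⟩ := hf k
    exact ⟨Nat.pair j n, Nat.right_le_pair _ _, by simp [e]⟩
  obtain ⟨L, hL, hL'⟩ := exists_limit h he
  have big : ∀ n R, ∃ k, (seq s₀ e n).len (k * k) = 2 * (seq s₀ e n).len k ∧
      R < (seq s₀ e n).len k := by
    intro n R
    obtain ⟨k, hk⟩ := (seq_good (e := e) h n).bij.2 (of s₀.x)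
    exact exists_big ((seq_good (e := e) h n).pos s₀.x) (fun m => (St.Good.pow_facts hk m).2) R
  refine ⟨L, lyndon_of_eventually (fun n => (seq_good h n).lyndon) hL, fun g hg => ?_,
    fun R => ?_, fun S hS => ?_⟩
  · obtain ⟨n, h1, h2⟩ := ((hL g).and (hL (g * g))).exists
    rw [← h1, ← h2]; exact (seq_good h n).len_lt hg
  · obtain ⟨k, hk⟩ := h.bij.2 (of s₀.x)
    refine exists_big (k := k) (h.pos s₀.x) (fun m => ?_) R
    have := St.Good.pow_facts hk m
    rw [hL' _ 0 this.1]; exact this.2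
  · have ev : ∀ᶠ n in atTop, ∀ g ∈ S,
        (seq s₀ e n).len g = L g ∧ (seq s₀ e n).len (g * g) = L (g * g) :=
      (eventually_all_finite hS).2 fun g _ => (hL g).and (hL (g * g))
    obtain ⟨n, hn⟩ := ev.exists
    have hs := seq_good (e := e) h n
    refine ⟨(seq s₀ e n).len, hs.lyndon, fun g hg => hs.len_lt hg, big n, hn, ?_⟩
    set s := seq s₀ e n with hsdef
    obtain ⟨g, hg⟩ := hs.bij.2 ((of s.x)⁻¹ * of s.y)
    have hs1 : seq s₀ e (n + 1) = s.step (e n) := rfl
    have hpsi : (seq s₀ e (n + 1)).ψ g = of s.y := by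
      rw [hs1, St.step_psi, MonoidHom.comp_apply, hg, _root_.map_mul, _root_.map_inv,
        tau_of_left hs.xy, tau_of_right]
      group
    have r1 : IsReduced [(s.x, false), (s.y, true)] := by simp [hs.xy]
    have r2 : IsReduced [(s.x, false), (s.y, true), (s.x, false), (s.y, true)] := by
      simp [hs.xy, hs.xy.symm]
    have w1 : s.ψ g = mk [(s.x, false), (s.y, true)] := by
      rw [hg, ← mk_false, ← mk_true, mul_mk]; rfl
    have w2 : s.ψ (g * g) = mk [(s.x, false), (s.y, true), (s.x, false), (s.y, true)] := by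
      rw [_root_.map_mul, w1, mul_mk]; rfl
    have l1 : s.len g = s.ω s.x + s.ω s.y := by
      unfold St.len; rw [w1, wlen_mk r1]; simp
    have l2 : s.len (g * g) = 2 * (s.ω s.x + s.ω s.y) := by
      unfold St.len; rw [w2, wlen_mk r2]; simp; ring
    have p1 := St.Good.pow_facts hpsi 1
    have p2 := St.Good.pow_facts hpsi 2
    rw [pow_one] at p1
    rw [pow_two] at p2
    have l3 : (seq s₀ e (n + 1)).len g = s.ω s.y - s.ω s.x := by
      rw [hs1, hs.len_step_eq, w1, toWord_mk_of_reduced r1, fold3]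
      simp [fold]
    refine ⟨g, ?_, ?_⟩
    · rintro rfl
      rw [_root_.map_one] at hpsi
      exact one_ne_of _ hpsi
    · rw [hL' _ _ p1.1, hL' _ _ p2.1, p2.2, l1, l2]
      have := p1.2
      have := hs.pos s.x
      push_cast at *
      intro hh
      linarith

lemma exists_good {N : ℕ} (hN : 3 ≤ N) : ∃ s : St (Fin N), s.Good := by
  have ht : Transcendental ℤ (liouvilleNumber 2) := by
    have := transcendental_liouvilleNumber (m := 2) le_rfl
    simpa using this
  set t := liouvilleNumber 2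
  have t0 : t ≠ 0 := fun h => ht (h ▸ isAlgebraic_zero)
  let x : Fin N := ⟨0, by omega⟩
  let y : Fin N := ⟨1, by omega⟩
  let z : Fin N := ⟨2, by omega⟩
  refine ⟨St.mk2 (MonoidHom.id _) (fun a => t ^ (2 * a.val)) x y z,
    St.mk2_good Function.bijective_id (fun a => ?_) (by simp [x, y]) (by simp [x, z])
      (by simp [y, z]) fun p q r e => ?_⟩
  · rw [pow_mul]; positivity
  · have e' : Polynomial.aeval t
        (Polynomial.C p + Polynomial.C q * Polynomial.X ^ 2 + Polynomial.C r * Polynomial.X ^ 4)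
        = 0 := by
      simp only [x, y, z] at e
      simpa using e
    have := transcendental_iff.1 ht _ e'
    have c0 := congrArg (fun P => Polynomial.coeff P 0) this
    have c2 := congrArg (fun P => Polynomial.coeff P 2) this
    have c4 := congrArg (fun P => Polynomial.coeff P 4) this
    simp only [Polynomial.coeff_add, Polynomial.coeff_C_mul, Polynomial.coeff_C,
      Polynomial.coeff_X_pow, Polynomial.coeff_zero] at c0 c2 c4
    norm_num at c0 c2 c4
    exact ⟨c0, c2, c4⟩

end Pool.Agent.H183Z
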