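import Pool.Agent.H183Z.Exist
import Pool.Agent.H183Z.Seq

set_option autoImplicit false

/-! Automorphisms of the free group act on the boundary. -/

namespace Pool.Agent.H183Z

open MeasureTheory Filter FreeGroup Topology

variable {N : ℕ}

lemma wlen_add_le_sq {α : Type*} [DecidableEq α] {ω : α → ℝ} {ε : ℝ} (h0 : 0 ≤ ε)
    (h : ∀ a, ε ≤ ω a) {g : FreeGroup α} (hg : g ≠ 1) : wlen ω g + ε ≤ wlen ω (g * g) := by
  have h1 := reduceCyclically.reduce_flatten_replicate_succ (isReduced_toWord (x := g)) 1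
  have h2 := reduceCyclically.conj_conjugator_reduceCyclically g.toWord
  rw [← toWord_pow] at h1
  have e : g * g = g ^ (1 + 1) := by simp [pow_succ]
  have p : ε ≤ wl ω (reduceCyclically g.toWord) := by
    obtain ⟨s, l, hs⟩ := List.exists_cons_of_ne_nil (core_ne_nil hg)
    rw [hs, wl_cons]
    have := h s.1
    have := wl_nonneg (fun a => h0.trans (h a)) l
    linarith
  unfold wlen
  rw [e, h1]
  conv_lhs => rw [← h2]
  simp only [wl_append, List.replicate_succ, List.replicate_zero, List.flatten_cons,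
    List.flatten_nil, wl_nil]
  linarith

lemma inCV_ctree {L : FreeGroup (Fin N) → ℝ} (H : Lyndon L) {ε : ℝ} (hε : 0 < ε)
    (hf : ∀ g, g ≠ 1 → L g + ε ≤ L (g * g)) (hM : ∀ R : ℝ, ∃ k, L (k * k) = 2 * L k ∧ R < L k) :
    InCV N (CTree H) := by
  refine ⟨CTree.isMinimal hM, fun g x hx => ?_, fun x => ⟨ε, hε, fun g hg => ?_⟩⟩
  · by_contra hc
    exact CTree.free g (by linarith [hf g hc]) x hx
  · have hg1 : g ≠ 1 := by rintro rfl; exact hg (one_smul _ _)
    have a := CTree.transLength_eq' (H := H) g (by linarith [hf g hg1])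
    have b := transLength_le g x
    linarith [hf g hg1]

lemma len1_of_pow {α : Type*} [DecidableEq α] (i : α) (m : ℕ) : len1 (of i ^ m) = m * 1 := by
  unfold len1 wlen
  rw [toWord_of_pow, wl_replicate]

lemma inCV_aut (i : Fin N) {φ : FreeGroup (Fin N) →* FreeGroup (Fin N)}
    (hφ : Function.Bijective φ) : InCV N (CTree (lyndon_len1.comp φ)) := by
  refine inCV_ctree _ one_pos (fun g hg => ?_) ?_
  · rw [_root_.map_mul]
    exact wlen_add_le_sq zero_le_one (fun _ => le_rfl)
      fun e => hg (hφ.1 (e.trans (_root_.map_one φ).symm))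
  · obtain ⟨k, hk⟩ := hφ.2 (of i)
    exact exists_big (L := fun g => len1 (φ g)) (k := k) one_pos fun m => by
      rw [_root_.map_pow, hk, len1_of_pow]

lemma agree_of_le_cw {α : Type*} [DecidableEq α] (k : ℕ) (l m : List (α × Bool))
    (h : (k : ℝ) ≤ cw (fun _ => 1) l m) : ∀ j < k, ∃ s, l[j]? = some s ∧ m[j]? = some s := by
  induction k generalizing l m with
  | zero => intro j hj; omega
  | succ k ih =>
    have p : (0 : ℝ) < (k + 1 : ℕ) := by positivity
    cases l with
    | nil => simp only [cw] at h; linarith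
    | cons a l =>
      cases m with
      | nil => simp only [cw] at h; linarith
      | cons b m =>
        simp only [cw] at h
        split_ifs at h with c
        · subst c
          intro j hj
          cases j with
          | zero => exact ⟨a, rfl, rfl⟩
          | succ j =>
            simpa using ih l m (by push_cast at h; linarith) j (by omega)
        · linarith

lemma prefix_stable (i : Fin N) {φ : FreeGroup (Fin N) →* FreeGroup (Fin N)}
    (hφ : Function.Bijective φ) (k : ℕ) : ∃ m : ℕ, ∀ p r : List (Fin N × Bool), m ≤ p.length →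
      IsReduced (p ++ r) → ∀ j < k, ∃ s, (φ (mk p)).toWord[j]? = some s ∧
        (φ (mk (p ++ r))).toWord[j]? = some s := by
  have H := inCV_aut i hφ
  set Ly := lyndon_len1.comp φ
  obtain ⟨M, hM⟩ := (Set.finite_range fun s : Fin N × Bool =>
    dist (CTree.base Ly) (mk [s] • CTree.base Ly)).bddAbove
  obtain ⟨K, hK⟩ := bounded_cancellation H (CTree.base Ly) (le_max_right M 0)
    fun s => le_max_of_le_left (hM ⟨s, rfl⟩)
  obtain ⟨n, hn⟩ := exists_len_bound H (CTree.base Ly) (K + k)
  refine ⟨n + 1, fun p r hp red => agree_of_le_cw k _ _ ?_⟩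
  rw [← lc_wlen]
  have a : K + k < len1 (φ (mk p)) := by
    by_contra c
    have := hn p (List.IsChain.left_of_append red) (by rw [CTree.dist_base_smul]; exact not_lt.1 c)
    omega
  have b := hK (invRev p) r (by rw [invRev_invRev]; exact red)
  unfold gp at b
  rw [← inv_mk, ← CTree.isom (mk p) ((mk p)⁻¹ • _) (mk r • _), smul_inv_smul, ← mul_smul,
    CTree.dist_base_smul, CTree.dist_base_smul, CTree.dist_base_smul, _root_.map_inv,
    lyndon_len1.inv, mul_mk] at b
  have e : (φ (mk p))⁻¹ * φ (mk (p ++ r)) = φ (mk r) := by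
    rw [← mul_mk, _root_.map_mul, inv_mul_cancel_left]
  unfold lc
  rw [e]
  change _ ≤ (len1 _ + len1 _ - len1 _) / 2
  linarith

/-- initial segments -/
def pre (ξ : Bdry N) (n : ℕ) : List (Fin N × Bool) := List.ofFn fun i : Fin n => ξ.1 i

lemma pre_reduced (ξ : Bdry N) (n : ℕ) : IsReduced (pre ξ n) := by
  refine List.isChain_iff_getElem.2 fun i hi => ?_
  simp only [pre, List.getElem_ofFn]
  exact ξ.2 i

lemma lim_pre (ξ : Bdry N) : Lim (fun n => mk (pre ξ n)) ξ := by
  intro k
  filter_upwards [eventually_gt_atTop k] with n hn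
  rw [toWord_mk_of_reduced (pre_reduced ξ n), pre, List.getElem?_ofFn, dif_pos hn]

/-- `f` is the boundary extension of `φ`. -/
structure BMap (φ : FreeGroup (Fin N) →* FreeGroup (Fin N)) (f : Bdry N → Bdry N) : Prop where
  lim : ∀ y ξ, Lim y ξ → Lim (fun n => φ (y n)) (f ξ)
  unif : ∀ k, ∃ m, ∀ ξ ξ' : Bdry N, (∀ j < m, ξ.1 j = ξ'.1 j) → (f ξ).1 k = (f ξ').1 k

theorem exists_bmap (i : Fin N) {φ : FreeGroup (Fin N) →* FreeGroup (Fin N)}
    (hφ : Function.Bijective φ) : ∃ f, BMap φ f := by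
  choose m hm using prefix_stable i hφ
  let g : Bdry N → ℕ → Fin N × Bool := fun ξ k =>
    ((φ (mk (pre ξ (m (k + 1))))).toWord[k]?).getD (i, true)
  have key : ∀ y ξ, Lim y ξ → ∀ k, ∀ᶠ n in atTop, (φ (y n)).toWord[k]? = some (g ξ k) := by
    intro y ξ h k
    filter_upwards [h.eventually_eq_append (m (k + 1))] with n ⟨r, hr⟩
    obtain ⟨s, h1, h2⟩ := hm (k + 1) (pre ξ (m (k + 1))) r (by simp [pre])
      (by unfold pre; rw [← hr]; exact isReduced_toWord) k (by omega)
    unfold pre at h2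
    rw [← hr, mk_toWord] at h2
    simp only [g, h1, h2, Option.getD_some]
  have red : ∀ ξ, IsRedInf (g ξ) := by
    intro ξ k
    obtain ⟨n, h1, h2⟩ := ((key _ ξ (lim_pre ξ) k).and (key _ ξ (lim_pre ξ) (k + 1))).exists
    obtain ⟨l1, e1⟩ := List.getElem?_eq_some_iff.1 h1
    obtain ⟨l2, e2⟩ := List.getElem?_eq_some_iff.1 h2
    have := List.isChain_iff_getElem.1 (isReduced_toWord (x := φ (mk (pre ξ n)))) k l2
    rw [e1, e2] at this
    exact this
  refine ⟨fun ξ => ⟨g ξ, red ξ⟩, key, fun k => ⟨m (k + 1), fun ξ ξ' h => ?_⟩⟩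
  have : pre ξ (m (k + 1)) = pre ξ' (m (k + 1)) := by
    unfold pre
    congr 1
    funext j
    exact h j j.2
  simp only [g, this]

namespace BMap
variable {φ ψ : FreeGroup (Fin N) →* FreeGroup (Fin N)} {f f' : Bdry N → Bdry N}

lemma equivariant (h : BMap φ f) (g : FreeGroup (Fin N)) (ξ : Bdry N) :
    f (act g ξ) = act (φ g) (f ξ) := by
  have a := h.lim _ _ ((lim_pre ξ).mul g)
  have b := (h.lim _ _ (lim_pre ξ)).mul (φ g)
  simp only [_root_.map_mul] at a
  exact a.unique b

lemma left_inv (h : BMap φ f) (h' : BMap ψ f') (e : ∀ g, ψ (φ g) = g) (ξ : Bdry N) :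
    f' (f ξ) = ξ := by
  have a := h'.lim _ _ (h.lim _ _ (lim_pre ξ))
  simp only [e] at a
  exact a.unique (lim_pre ξ)

lemma attr (h : BMap φ f) {g : FreeGroup (Fin N)} {ξ : Bdry N} (ha : IsAttr g ξ) :
    IsAttr (φ g) (f ξ) := by
  have a := h.lim (fun n => g ^ n) ξ ha
  simp only [_root_.map_pow] at a
  exact a

lemma continuous (h : BMap φ f) : Continuous f := by
  refine Continuous.subtype_mk (f := fun ξ => (f ξ).1) (continuous_pi fun k => ?_) _
  obtain ⟨m, hm⟩ := h.unif k
  refine IsLocallyConstant.continuous ((IsLocallyConstant.iff_eventually_eq _).2 fun ξ => ?_)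
  have ev : ∀ᶠ ξ' in 𝓝 ξ, ∀ j ∈ Set.Iio m, (ξ' : Bdry N).1 j = ξ.1 j :=
    (eventually_all_finite (Set.finite_Iio m)).2 fun j _ =>
      ((continuous_coord j).tendsto ξ).eventually (p := fun y => y = ξ.1 j) (by
        rw [nhds_discrete]; exact eventually_pure.2 rfl)
  filter_upwards [ev] with ξ' h' using hm _ _ h'

end BMap

/-- an automorphism together with its inverse and the boundary maps -/
structure AutData (N : ℕ) where
  /-- the map -/
  φ : FreeGroup (Fin N) →* FreeGroup (Fin N)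
  /-- the inverse -/
  ψ : FreeGroup (Fin N) →* FreeGroup (Fin N)
  /-- boundary map -/
  f : Bdry N → Bdry N
  /-- inverse boundary map -/
  f' : Bdry N → Bdry N
  li : ∀ g, ψ (φ g) = g
  ri : ∀ g, φ (ψ g) = g
  hf : BMap φ f
  hf' : BMap ψ f'

lemma exists_autData (i : Fin N) {φ : FreeGroup (Fin N) →* FreeGroup (Fin N)}
    (hφ : Function.Bijective φ) : ∃ A : AutData N, A.φ = φ := by
  let e := MulEquiv.ofBijective φ hφ
  obtain ⟨f, hf⟩ := exists_bmap i hφ
  obtain ⟨f', hf'⟩ := exists_bmap i (φ := e.symm.toMonoidHom) e.symm.bijective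
  exact ⟨⟨φ, e.symm.toMonoidHom, f, f', fun g => e.symm_apply_apply g,
    fun g => e.apply_symm_apply g, hf, hf'⟩, rfl⟩

namespace AutData
variable (A : AutData N)

/-- the inverse -/
def symm : AutData N := ⟨A.ψ, A.φ, A.f', A.f, A.ri, A.li, A.hf', A.hf⟩

lemma f'_f (ξ : Bdry N) : A.f' (A.f ξ) = ξ := A.hf.left_inv A.hf' A.li ξ

lemma f_f' (ξ : Bdry N) : A.f (A.f' ξ) = ξ := A.hf'.left_inv A.hf A.ri ξ

lemma bijective : Function.Bijective A.φ :=
  Function.bijective_iff_has_inverse.2 ⟨A.ψ, A.li, A.ri⟩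

/-- the map on pairs -/
def f2 (q : DBdry N) : DBdry N :=
  ⟨(A.f q.1.1, A.f q.1.2), fun e => q.2 (Function.LeftInverse.injective A.f'_f e)⟩

lemma symm_f2_f2 (q : DBdry N) : A.symm.f2 (A.f2 q) = q :=
  Subtype.ext (Prod.ext (A.f'_f _) (A.f'_f _))

lemma f2_symm_f2 (q : DBdry N) : A.f2 (A.symm.f2 q) = q :=
  Subtype.ext (Prod.ext (A.f_f' _) (A.f_f' _))

lemma f2_act2 (g : FreeGroup (Fin N)) (q : DBdry N) : A.f2 (act2 g q) = act2 (A.φ g) (A.f2 q) :=
  Subtype.ext (Prod.ext (A.hf.equivariant _ _) (A.hf.equivariant _ _))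

lemma f2_flip2 (q : DBdry N) : A.f2 (flip2 q) = flip2 (A.f2 q) := rfl

lemma continuous_f2 : Continuous A.f2 :=
  Continuous.subtype_mk
    ((A.hf.continuous.comp (continuous_fst.comp continuous_subtype_val)).prodMk
      (A.hf.continuous.comp (continuous_snd.comp continuous_subtype_val))) _

/-- the homeomorphism of the double boundary -/
def homeo : DBdry N ≃ₜ DBdry N where
  toFun := A.f2
  invFun := A.symm.f2
  left_inv := A.symm_f2_f2
  right_inv := A.f2_symm_f2
  continuous_toFun := A.continuous_f2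
  continuous_invFun := A.symm.continuous_f2

end AutData

end Pool.Agent.H183Z
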