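import Pool.Agent.H183Z.Fold

set_option autoImplicit false

/-! Nielsen reduction with respect to a proper Lyndon length function on a free group. -/

namespace Pool.Agent.H183Z

open FreeGroup

section core
variable {G : Type*} [Group G] {L : G → ℝ}

lemma Lyndon.eq_of_lt (H : Lyndon L) {a b k : G} (h : lc L a b < lc L b k) :
    lc L a k = lc L a b := by
  have a1 := H.hyp a k b
  have a2 := H.hyp a b k
  rw [H.comm k b] at a1
  rcases a1 with a1 | a1 <;> rcases a2 with a2 | a2 <;> linarith

lemma eq_of_min_lt {r A c : ℝ} (h : min r A = c) (hc : c < r) : A = c := by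
  rcases min_choice r A with e | e <;> linarith

/-- the position of the midpoint of `[1, g]` -/
noncomputable def mv (L : G → ℝ) (f : ℕ → G) (g : G) : Lex (ℕ → ℝ) :=
  toLex fun n => min (L g / 2) (lc L g (f n))

lemma core_tie (H : Lyndon L) (f : ℕ → G) {a b : G} (h1 : lc L a⁻¹ b = L b / 2)
    (h2 : L b ≤ L a) (h3 : lc L b⁻¹ b < L b / 2) (h4 : mv L f b⁻¹ < mv L f b) :
    L (a * b) = L a ∧ mv L f (a * b) = mv L f a ∧ mv L f (a * b)⁻¹ < mv L f a⁻¹ := by
  have e1 : L (a * b) = L a := by rw [H.mul_eq, h1]; ring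
  have e2 : lc L a (a * b) = L a - L b / 2 := by have := H.add_eq a b; linarith
  refine ⟨e1, ?_, ?_⟩
  · unfold mv
    congr 1
    funext n
    rw [e1, H.min_eq (g := a) (h := a * b) (by linarith)]
  · have e3 : lc L (a * b)⁻¹ b⁻¹ = L b / 2 := by
      unfold lc
      rw [inv_inv, mul_inv_cancel_right, H.inv, H.inv, e1]; ring
    have m1 : ∀ k, min (L b / 2) (lc L a⁻¹ k) = min (L b / 2) (lc L b k) :=
      fun k => H.min_eq h1.ge k
    have m2 : ∀ k, min (L b / 2) (lc L (a * b)⁻¹ k) = min (L b / 2) (lc L b⁻¹ k) :=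
      fun k => H.min_eq e3.ge k
    obtain ⟨i, hi1, hi2⟩ := h4
    simp only [mv, Pi.toLex_apply, H.inv] at hi1 hi2
    refine ⟨i, fun j hj => ?_, ?_⟩
    · simp only [mv, Pi.toLex_apply, H.inv, e1]
      have q := hi1 j hj
      have q1 := m1 (f j)
      have q2 := m2 (f j)
      have q3 := H.hyp b⁻¹ b (f j)
      have lt : min (L b / 2) (lc L b (f j)) < L b / 2 := by
        rcases q3 with q3 | q3
        · rw [← q]; exact lt_of_le_of_lt (min_le_right _ _) (by linarith)
        · exact lt_of_le_of_lt (min_le_right _ _) (by linarith)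
      rw [eq_of_min_lt q1 lt, eq_of_min_lt (q2.trans q) lt]
    · simp only [mv, Pi.toLex_apply, H.inv, e1]
      have q1 := m1 (f i)
      have q2 := m2 (f i)
      have lt : min (L b / 2) (lc L b⁻¹ (f i)) < L b / 2 := lt_of_lt_of_le hi2 (min_le_left _ _)
      rw [eq_of_min_lt q2 lt]
      refine lt_of_le_of_lt (min_le_right _ _) (lt_of_lt_of_le hi2 ?_)
      rw [← q1]
      exact min_le_min_right _ (by linarith)

lemma mv_ne (H : Lyndon L) {f : ℕ → G} (hf : Function.Surjective f) {b : G}
    (h3 : lc L b⁻¹ b < L b / 2) : mv L f b⁻¹ ≠ mv L f b := by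
  intro e
  obtain ⟨n, hn⟩ := hf b
  have := congrFun (congrArg ofLex e) n
  simp only [mv, ofLex_toLex, hn, H.inv, H.self] at this
  have p := H.len_nonneg b
  rw [min_eq_right h3.le, min_eq_left (by linarith)] at this
  linarith

end core

variable {α : Type*} [DecidableEq α]

/-- inverse letter -/
def linv (s : α × Bool) : α × Bool := (s.1, !s.2)

omit [DecidableEq α] in
lemma mk_linv (s : α × Bool) : mk [linv s] = (mk [s])⁻¹ := by rw [inv_mk]; rfl

omit [DecidableEq α] in
@[simp] lemma linv_linv (s : α × Bool) : linv (linv s) = s := by simp [linv]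

omit [DecidableEq α] in
lemma eq_or_linv {s r : α × Bool} (h : r.1 = s.1) : r = s ∨ r = linv s := by
  rcases s with ⟨a, b⟩
  rcases r with ⟨c, d⟩
  simp only at h
  subst h
  cases b <;> cases d <;> simp [linv]

/-- elementary Nielsen map `s ↦ s w` -/
def nu (s : α × Bool) (w : FreeGroup α) : FreeGroup α →* FreeGroup α :=
  FreeGroup.lift fun j => if j = s.1 then (if s.2 then of j * w else w⁻¹ * of j) else of j

lemma nu_self (s : α × Bool) (w : FreeGroup α) : nu s w (mk [s]) = mk [s] * w := by
  rcases s with ⟨a, b⟩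
  cases b
  · rw [mk_false]; simp [nu]
  · rw [mk_true]; simp [nu]

lemma nu_other {s r : α × Bool} (w : FreeGroup α) (h : r.1 ≠ s.1) : nu s w (mk [r]) = mk [r] := by
  rcases r with ⟨a, b⟩
  simp only at h
  cases b
  · rw [mk_false]; simp [nu, h]
  · rw [mk_true]; simp [nu, h]

omit [DecidableEq α] in
lemma hom_ext_letter {G : Type*} [Group G] {φ ψ : FreeGroup α →* G} (s : α × Bool)
    (h1 : φ (mk [s]) = ψ (mk [s])) (h2 : ∀ j, j ≠ s.1 → φ (of j) = ψ (of j)) : φ = ψ := by
  ext j
  by_cases h : j = s.1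
  · rcases s with ⟨a, b⟩
    simp only at h
    subst h
    cases b
    · rw [mk_false, _root_.map_inv, _root_.map_inv] at h1
      exact inv_injective h1
    · exact h1
  · exact h2 j h

lemma nu_bijective {s t : α × Bool} (h : t.1 ≠ s.1) : Function.Bijective (nu s (mk [t])) := by
  have o : ∀ w j, j ≠ s.1 → nu s w (of j) = of j := fun w j hj => nu_other (r := (j, true)) w hj
  have h1 : (nu s (mk [t])⁻¹).comp (nu s (mk [t])) = MonoidHom.id _ := by
    refine hom_ext_letter s ?_ fun j hj => ?_
    · rw [MonoidHom.comp_apply, nu_self, _root_.map_mul, nu_self, nu_other _ h,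
        inv_mul_cancel_right]
      rfl
    · rw [MonoidHom.comp_apply, o _ j hj, o _ j hj]; rfl
  have h2 : (nu s (mk [t])).comp (nu s (mk [t])⁻¹) = MonoidHom.id _ := by
    refine hom_ext_letter s ?_ fun j hj => ?_
    · rw [MonoidHom.comp_apply, nu_self, _root_.map_mul, _root_.map_inv, nu_self, nu_other _ h,
        mul_inv_cancel_right]
      rfl
    · rw [MonoidHom.comp_apply, o _ j hj, o _ j hj]; rfl
  refine Function.bijective_iff_has_inverse.2 ⟨nu s (mk [t])⁻¹, fun g => ?_, fun g => ?_⟩
  · exact DFunLike.congr_fun h1 g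
  · exact DFunLike.congr_fun h2 g

omit [DecidableEq α] in
lemma mk_letter_ne_one (s : α × Bool) : mk [s] ≠ 1 := by
  rcases s with ⟨a, b⟩
  cases b
  · rw [mk_false]; simp
  · rw [mk_true]; simp

variable [Fintype α] {L : FreeGroup α → ℝ}

/-- total length of a basis -/
noncomputable def cost (L : FreeGroup α → ℝ) (φ : FreeGroup α →* FreeGroup α) : ℝ :=
  ∑ i, L (φ (of i))

lemma cost_nu (H : Lyndon L) (φ : FreeGroup α →* FreeGroup α) (s : α × Bool) (w : FreeGroup α) :
    cost L (φ.comp (nu s w)) = cost L φ - L (φ (mk [s])) + L (φ (mk [s]) * φ w) := by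
  have e : ∀ ψ : FreeGroup α →* FreeGroup α, L (ψ (of s.1)) = L (ψ (mk [s])) := by
    intro ψ
    rcases s with ⟨a, b⟩
    cases b
    · rw [mk_false, _root_.map_inv, H.inv]
    · rfl
  unfold cost
  rw [← Finset.add_sum_erase _ _ (Finset.mem_univ s.1),
    ← Finset.add_sum_erase _ (fun i => L (φ (of i))) (Finset.mem_univ s.1), e, e,
    MonoidHom.comp_apply, nu_self, _root_.map_mul]
  have : ∑ i ∈ Finset.univ.erase s.1, L ((φ.comp (nu s w)) (of i)) =
      ∑ i ∈ Finset.univ.erase s.1, L (φ (of i)) := by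
    refine Finset.sum_congr rfl fun i hi => ?_
    rw [MonoidHom.comp_apply]
    have := nu_other (s := s) (r := (i, true)) w (Finset.ne_of_mem_erase hi)
    rw [mk_true] at this
    rw [this]
  rw [this]; ring

/-- the small cancellation property -/
def NTwo (L : FreeGroup α → ℝ) (φ : FreeGroup α →* FreeGroup α) : Prop :=
  ∀ s t u : α × Bool, t ≠ linv s → u ≠ linv t →
    lc L (φ (mk [s]))⁻¹ (φ (mk [t])) + lc L (φ (mk [t]))⁻¹ (φ (mk [u])) < L (φ (mk [t]))

theorem exists_nielsen (H : Lyndon L) (hp : ∀ R, {g | L g ≤ R}.Finite)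
    (hh : ∀ g, g ≠ 1 → lc L g⁻¹ g < L g / 2) :
    ∃ φ : FreeGroup α →* FreeGroup α, Function.Bijective φ ∧ NTwo L φ := by
  have : Countable (FreeGroup α) := toWord_injective.countable
  obtain ⟨f, hf⟩ := exists_surjective_nat (FreeGroup α)
  have fin : ∀ R, {φ : FreeGroup α →* FreeGroup α | cost L φ ≤ R}.Finite := by
    intro R
    refine Set.Finite.of_finite_image (f := fun φ i => φ (of i)) ?_ ?_
    · refine (Set.Finite.pi' fun _ : α => hp R).subset ?_
      rintro _ ⟨φ, hφ, rfl⟩ i
      exact le_trans (Finset.single_le_sum (f := fun i => L (φ (of i)))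
        (fun j _ => H.len_nonneg _) (Finset.mem_univ i)) hφ
    · intro φ _ ψ _ e
      ext i
      exact congrFun e i
  obtain ⟨φ0, ⟨hb0, -⟩, hmin0⟩ := Set.exists_min_image
    {φ : FreeGroup α →* FreeGroup α | Function.Bijective φ ∧ cost L φ ≤ cost L (MonoidHom.id _)}
    (cost L) ((fin _).subset fun φ h => h.2) ⟨MonoidHom.id _, Function.bijective_id, le_rfl⟩
  have hmin : ∀ ψ : FreeGroup α →* FreeGroup α, Function.Bijective ψ → cost L φ0 ≤ cost L ψ := by
    intro ψ hψ
    rcases le_total (cost L ψ) (cost L (MonoidHom.id _)) with c | c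
    · exact hmin0 ψ ⟨hψ, c⟩
    · exact (hmin0 _ ⟨Function.bijective_id, le_rfl⟩).trans c
  obtain ⟨φ, ⟨hb, hc⟩, hm⟩ := Set.Finite.exists_minimalFor
    (fun (φ : FreeGroup α →* FreeGroup α) (s : α × Bool) => mv L f (φ (mk [s])))
    {φ : FreeGroup α →* FreeGroup α | Function.Bijective φ ∧ cost L φ = cost L φ0}
    ((fin (cost L φ0)).subset fun φ h => h.2.le) ⟨φ0, hb0, rfl⟩
  have n1 : ∀ s t : α × Bool, t.1 ≠ s.1 →
      lc L (φ (mk [s]))⁻¹ (φ (mk [t])) ≤ L (φ (mk [t])) / 2 := by
    intro s t h
    have a := hmin (φ.comp (nu s (mk [t]))) (hb.comp (nu_bijective h))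
    rw [cost_nu H, hc, H.mul_eq] at a
    linarith
  have n2 : ∀ s t : α × Bool, t.1 ≠ s.1 →
      lc L (φ (mk [s]))⁻¹ (φ (mk [t])) ≤ L (φ (mk [s])) / 2 := by
    intro s t h
    have a := n1 (linv t) (linv s) h.symm
    rw [mk_linv, mk_linv, _root_.map_inv, _root_.map_inv, inv_inv, H.inv, H.comm] at a
    exact a
  have n0 : ∀ s : α × Bool, lc L (φ (mk [s]))⁻¹ (φ (mk [s])) < L (φ (mk [s])) / 2 := by
    intro s
    apply hh
    intro e
    exact mk_letter_ne_one s (hb.1 (by rw [e, _root_.map_one]))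
  have tie : ∀ s t : α × Bool, t.1 ≠ s.1 →
      lc L (φ (mk [s]))⁻¹ (φ (mk [t])) = L (φ (mk [t])) / 2 →
      ¬ mv L f (φ (mk [t]))⁻¹ < mv L f (φ (mk [t])) := by
    intro s t h e hlt
    have a := n2 s t h
    obtain ⟨r1, r2, r3⟩ := core_tie H f e (by linarith) (n0 t) hlt
    have hle : (fun r : α × Bool => mv L f ((φ.comp (nu s (mk [t]))) (mk [r]))) ≤
        fun r : α × Bool => mv L f (φ (mk [r])) := by
      intro r
      simp only [MonoidHom.comp_apply]
      by_cases hr : r.1 = s.1
      · rcases eq_or_linv hr with rfl | rfl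
        · rw [nu_self, _root_.map_mul, r2]
        · rw [mk_linv, _root_.map_inv, _root_.map_inv, _root_.map_inv, nu_self, _root_.map_mul]
          exact r3.le
      · rw [nu_other _ hr]
    have := hm (j := φ.comp (nu s (mk [t])))
      ⟨hb.comp (nu_bijective h), by rw [cost_nu H, r1, hc]; ring⟩ hle (linv s)
    simp only [MonoidHom.comp_apply] at this
    rw [mk_linv, _root_.map_inv, _root_.map_inv, _root_.map_inv, nu_self, _root_.map_mul] at this
    exact absurd r3 (not_lt.2 this)
  refine ⟨φ, hb, fun s t u hst htu => ?_⟩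
  by_contra hc
  push Not at hc
  by_cases c1 : t.1 = s.1
  · have e : t = s := (eq_or_linv c1).resolve_right hst
    subst e
    have a := n0 t
    by_cases c2 : u.1 = t.1
    · have e : u = t := (eq_or_linv c2).resolve_right htu
      subst e
      linarith
    · have := n2 t u c2
      linarith
  · have a := n1 s t c1
    by_cases c2 : u.1 = t.1
    · have e : u = t := (eq_or_linv c2).resolve_right htu
      subst e
      have := n0 u
      linarith
    · have b := n2 t u c2
      rcases lt_or_gt_of_ne (mv_ne H hf (n0 t)) with q | q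
      · exact tie s t c1 (by linarith) q
      · refine tie (linv u) (linv t) (Ne.symm c2) ?_ ?_
        · rw [mk_linv, mk_linv, _root_.map_inv, _root_.map_inv, inv_inv, H.inv, H.comm]
          linarith
        · rw [mk_linv, _root_.map_inv, inv_inv]
          exact q

omit [Fintype α] [DecidableEq α] in
lemma ne_linv_of_red {s t : α × Bool} (h : s.1 = t.1 → s.2 = t.2) : t ≠ linv s := by
  rintro rfl
  simp [linv] at h

omit [Fintype α] [DecidableEq α] in
lemma NTwo.lc_word (H : Lyndon L) {φ : FreeGroup α →* FreeGroup α} (h : NTwo L φ)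
    (l : List (α × Bool)) (s t : α × Bool) (hl : IsReduced (s :: t :: l)) :
    lc L (φ (mk [s]))⁻¹ (φ (mk (t :: l))) = lc L (φ (mk [s]))⁻¹ (φ (mk [t])) := by
  induction l generalizing s t with
  | nil => rfl
  | cons u l ih =>
    rw [isReduced_cons_cons] at hl
    have a := ih t u hl.2
    have b := H.add_eq (φ (mk [t])) (φ (mk (u :: l)))
    have c := h s t u (ne_linv_of_red hl.1) (ne_linv_of_red (isReduced_cons_cons.1 hl.2).1)
    rw [mk_cons' t (u :: l), _root_.map_mul]
    apply H.eq_of_lt
    linarith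

/-- number of occurrences of a letter followed by a given letter -/
noncomputable def nq (q : (α × Bool) × Option (α × Bool)) : List (α × Bool) → ℝ
  | [] => 0
  | s :: l => (if q = (s, l.head?) then 1 else 0) + nq q l

/-- coefficients -/
noncomputable def lam (L : FreeGroup α → ℝ) (φ : FreeGroup α →* FreeGroup α) :
    (α × Bool) × Option (α × Bool) → ℝ
  | (s, none) => L (φ (mk [s]))
  | (s, some t) => L (φ (mk [s])) - 2 * lc L (φ (mk [s]))⁻¹ (φ (mk [t]))

omit [Fintype α] [DecidableEq α] in
lemma NTwo.len_cons (H : Lyndon L) {φ : FreeGroup α →* FreeGroup α} (h : NTwo L φ)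
    (s : α × Bool) (l : List (α × Bool)) (hl : IsReduced (s :: l)) :
    L (φ (mk (s :: l))) = lam L φ (s, l.head?) + L (φ (mk l)) := by
  cases l with
  | nil =>
    have : (mk ([] : List (α × Bool))) = 1 := rfl
    rw [this, _root_.map_one, H.one]; simp [lam]
  | cons t l =>
    rw [mk_cons' s (t :: l), _root_.map_mul, H.mul_eq, h.lc_word H l s t hl]
    simp only [lam, List.head?_cons]; ring

lemma NTwo.len_word (H : Lyndon L) {φ : FreeGroup α →* FreeGroup α} (h : NTwo L φ)
    (l : List (α × Bool)) (hl : IsReduced l) :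
    L (φ (mk l)) = ∑ q, lam L φ q * nq q l := by
  induction l with
  | nil =>
    have : (mk ([] : List (α × Bool))) = 1 := rfl
    rw [this, _root_.map_one, H.one]; simp [nq]
  | cons s l ih =>
    rw [h.len_cons H s l hl, ih (isReduced_tail hl)]
    simp only [nq, mul_add, Finset.sum_add_distrib, mul_ite, mul_one, mul_zero]
    rw [Finset.sum_ite_eq']
    simp

omit [Fintype α] [DecidableEq α] in
/-- two elements with disjoint axes -/
lemma NTwo.disjoint_axes (H : Lyndon L) {φ : FreeGroup α →* FreeGroup α} (h : NTwo L φ)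
    {i j : α} (hij : i ≠ j) :
    let a := φ (of i)
    let b := φ (of j * of i * (of j)⁻¹)
    (L (a * a) - L a) + (L (b * b) - L b) < L (a * b * (a * b)) - L (a * b) := by
  intro a b
  have w1 : a = φ (mk [(i, true)]) := rfl
  have w2 : a * a = φ (mk [(i, true), (i, true)]) := by
    rw [w1, ← _root_.map_mul, mul_mk]; rfl
  have w3 : b = φ (mk [(j, true), (i, true), (j, false)]) := by
    simp only [b]; rw [← mk_false, ← mk_true, ← mk_true, mul_mk, mul_mk]; rfl
  have w4 : b * b = φ (mk [(j, true), (i, true), (i, true), (j, false)]) := by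
    simp only [b]
    rw [← _root_.map_mul]
    congr 1
    have : mk [(j, true), (i, true), (i, true), (j, false)] =
        of j * of i * of i * (of j)⁻¹ := by
      rw [← mk_false, ← mk_true, ← mk_true, mul_mk, mul_mk, mul_mk]; rfl
    rw [this]; group
  have w5 : a * b = φ (mk [(i, true), (j, true), (i, true), (j, false)]) := by
    rw [w1, w3, ← _root_.map_mul, mul_mk]; rfl
  have w6 : a * b * (a * b) = φ (mk [(i, true), (j, true), (i, true), (j, false),
      (i, true), (j, true), (i, true), (j, false)]) := by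
    rw [w5, ← _root_.map_mul, mul_mk]; rfl
  have z : L (φ (mk [])) = 0 := by
    have : (mk ([] : List (α × Bool))) = 1 := rfl
    rw [this, _root_.map_one, H.one]
  have hji := hij.symm
  rw [w6, w5, w4, w3, w2, w1]
  repeat rw [h.len_cons H _ _ (by simp [hij, hji])]
  simp only [lam, List.head?_cons, List.head?_nil, mk_true, mk_false, _root_.map_inv, inv_inv,
    H.inv]
  have p1 := h (i, true) (j, true) (i, true) (by simp [linv, hji]) (by simp [linv, hij])
  have p2 := h (i, true) (j, true) (i, false) (by simp [linv, hji]) (by simp [linv, hij])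
  have p3 := h (i, false) (j, true) (i, true) (by simp [linv, hji]) (by simp [linv, hij])
  have p4 := h (i, false) (j, true) (i, false) (by simp [linv, hji]) (by simp [linv, hij])
  simp only [mk_true, mk_false, _root_.map_inv, inv_inv] at p1 p2 p3 p4
  have q1 := H.hyp (φ (of i))⁻¹ (φ (of i)) (φ (of j))
  have q2 := H.hyp (φ (of i))⁻¹ (φ (of i)) (φ (of j))⁻¹
  have c1 := H.comm (φ (of j)) (φ (of i))
  have c2 := H.comm (φ (of j))⁻¹ (φ (of i))
  have c3 := H.comm (φ (of j))⁻¹ (φ (of i))⁻¹
  rcases q1 with q1 | q1 <;> rcases q2 with q2 | q2 <;> linarith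

end Pool.Agent.H183Z
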