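import Pool.Agent.H183Z.CurrDefs
import Pool.Agent.H183Z.Nielsen

set_option autoImplicit false

/-! The action on the boundary and attracting points. -/

namespace Pool.Agent.H183Z

open MeasureTheory Filter FreeGroup

variable {N : ℕ}

instance : SecondCountableTopology (Bdry N) := TopologicalSpace.Subtype.secondCountableTopology _
instance : SecondCountableTopology (DBdry N) := TopologicalSpace.Subtype.secondCountableTopology _
instance : BorelSpace (DBdry N) := borelSpace_dbdry
instance : TopologicalSpace.MetrizableSpace (Bdry N) :=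
  Topology.IsEmbedding.subtypeVal.metrizableSpace
instance : TopologicalSpace.MetrizableSpace (DBdry N) :=
  Topology.IsEmbedding.subtypeVal.metrizableSpace

instance : CompactSpace (Bdry N) := by
  have : IsClosed {ξ : ℕ → Fin N × Bool | ∀ n, (ξ n).1 = (ξ (n + 1)).1 → (ξ n).2 = (ξ (n + 1)).2} := by
    rw [Set.ofPred_forall]
    refine isClosed_iInter fun n => ?_
    have c : Continuous fun ξ : ℕ → Fin N × Bool => (ξ n, ξ (n + 1)) := by fun_prop
    exact (isClosed_discrete {q : (Fin N × Bool) × (Fin N × Bool) |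
      q.1.1 = q.2.1 → q.1.2 = q.2.2}).preimage c
  exact isCompact_iff_compactSpace.1 this.isCompact

instance : LocallyCompactSpace (DBdry N) :=
  (isOpen_ne_fun continuous_fst continuous_snd :
    IsOpen {p : Bdry N × Bdry N | p.1 ≠ p.2}).locallyCompactSpace

lemma push_val (s : Fin N × Bool) (ξ : Bdry N) (n : ℕ) :
    (push s ξ).1 n = if ξ.1 0 = linv s then ξ.1 (n + 1) else Nat.casesOn n s ξ.1 := by
  unfold push pushWord linv
  simp only
  split_ifs <;> rfl

lemma continuous_coord (n : ℕ) : Continuous fun ξ : Bdry N => ξ.1 n :=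
  (continuous_apply n).comp continuous_subtype_val

lemma continuous_push (s : Fin N × Bool) : Continuous (push s) := by
  refine Continuous.subtype_mk (f := fun ξ => (push s ξ).1) (continuous_pi fun n => ?_) _
  simp only [push_val]
  have c : Continuous fun ξ : Bdry N => (ξ.1 0, ξ.1 (n + 1), ξ.1 (n - 1)) :=
    (continuous_coord 0).prodMk ((continuous_coord _).prodMk (continuous_coord _))
  have c2 : Continuous fun q : (Fin N × Bool) × (Fin N × Bool) × (Fin N × Bool) =>
      if q.1 = linv s then q.2.1 else (if n = 0 then s else q.2.2) :=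
    continuous_of_discreteTopology
  convert c2.comp c using 2 with ξ
  cases n <;> simp

lemma continuous_act (g : FreeGroup (Fin N)) : Continuous (act g) := by
  unfold act
  induction g.toWord with
  | nil => exact continuous_id
  | cons s l ih => exact (continuous_push s).comp ih

/-- the permutation given by a letter -/
def pushEquiv (s : Fin N × Bool) : Equiv.Perm (Bdry N) where
  toFun := push s
  invFun := push (s.1, !s.2)
  left_inv := push_inv_push s
  right_inv ξ := by
    have := push_inv_push (s.1, !s.2) ξ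
    simpa using this

/-- the action as a homomorphism -/
def actHom : FreeGroup (Fin N) →* Equiv.Perm (Bdry N) :=
  FreeGroup.lift fun i => pushEquiv (i, true)

lemma actHom_letter (s : Fin N × Bool) (ξ : Bdry N) : actHom (mk [s]) ξ = push s ξ := by
  rcases s with ⟨a, b⟩
  cases b
  · rw [mk_false, _root_.map_inv]
    simp only [actHom, lift_apply_of]
    rfl
  · rw [mk_true]
    simp only [actHom, lift_apply_of]
    rfl

lemma actHom_mk (l : List (Fin N × Bool)) (ξ : Bdry N) : actHom (mk l) ξ = l.foldr push ξ := by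
  induction l with
  | nil =>
    have : (mk ([] : List (Fin N × Bool))) = 1 := rfl
    rw [this, _root_.map_one]; rfl
  | cons s l ih => rw [mk_cons', _root_.map_mul, Equiv.Perm.mul_apply, ih, actHom_letter]; rfl

lemma act_eq (g : FreeGroup (Fin N)) (ξ : Bdry N) : act g ξ = actHom g ξ := by
  conv_rhs => rw [← mk_toWord (x := g), actHom_mk]
  rfl

lemma act_mul (g h : FreeGroup (Fin N)) (ξ : Bdry N) : act (g * h) ξ = act g (act h ξ) := by
  simp only [act_eq, _root_.map_mul, Equiv.Perm.mul_apply]

lemma act_one (ξ : Bdry N) : act 1 ξ = ξ := by simp [act_eq]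

lemma act_letter (s : Fin N × Bool) (ξ : Bdry N) : act (mk [s]) ξ = push s ξ := by
  rw [act_eq, actHom_letter]

lemma act2_mul (g h : FreeGroup (Fin N)) (p : DBdry N) : act2 (g * h) p = act2 g (act2 h p) := by
  apply Subtype.ext
  simp only [act2, act_mul]

lemma act2_one (p : DBdry N) : act2 1 p = p := by
  apply Subtype.ext
  simp only [act2, act_one]

lemma continuous_act2 (g : FreeGroup (Fin N)) : Continuous (act2 g) :=
  Continuous.subtype_mk
    (((continuous_act g).comp (continuous_fst.comp continuous_subtype_val)).prodMk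
      ((continuous_act g).comp (continuous_snd.comp continuous_subtype_val))) _

lemma continuous_flip2 : Continuous (flip2 : DBdry N → DBdry N) :=
  Continuous.subtype_mk
    ((continuous_snd.comp continuous_subtype_val).prodMk
      (continuous_fst.comp continuous_subtype_val)) _

lemma flip2_act2 (g : FreeGroup (Fin N)) (p : DBdry N) : flip2 (act2 g p) = act2 g (flip2 p) := rfl

lemma flip2_flip2 (p : DBdry N) : flip2 (flip2 p) = p := rfl

/-- convergence of group elements to a boundary point -/
def Lim (x : ℕ → FreeGroup (Fin N)) (ξ : Bdry N) : Prop :=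
  ∀ k : ℕ, ∀ᶠ n : ℕ in atTop, (x n).toWord[k]? = some (ξ.1 k)

lemma Lim.unique {x : ℕ → FreeGroup (Fin N)} {ξ ζ : Bdry N} (h : Lim x ξ) (h' : Lim x ζ) :
    ξ = ζ := by
  apply Subtype.ext
  funext k
  obtain ⟨n, h1, h2⟩ := ((h k).and (h' k)).exists
  exact Option.some_injective _ (h1.symm.trans h2)

lemma toWord_letter_mul {α : Type*} [DecidableEq α] (s : α × Bool) (y : FreeGroup α) :
    (mk [s] * y).toWord =
      if y.toWord.head? = some (linv s) then y.toWord.tail else s :: y.toWord := by
  have e : (mk [s] * y).toWord = reduce (s :: y.toWord) := by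
    conv_lhs => rw [← mk_toWord (x := y), ← mk_cons', toWord_mk]
  rw [e, reduce.cons, reduce_toWord]
  cases y.toWord with
  | nil => simp
  | cons t l =>
    have : (s.1 = t.1 ∧ s.2 = !t.2) ↔ t = linv s := by
      rcases s with ⟨a, b⟩
      rcases t with ⟨c, d⟩
      cases b <;> cases d <;> simp [linv, eq_comm]
    simp only [List.head?_cons, Option.some.injEq, List.tail_cons]
    by_cases h : t = linv s
    · rw [if_pos h, if_pos (this.2 h)]
    · rw [if_neg h, if_neg (fun c => h (this.1 c))]

lemma Lim.letter {x : ℕ → FreeGroup (Fin N)} {ξ : Bdry N} (h : Lim x ξ) (s : Fin N × Bool) :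
    Lim (fun n => mk [s] * x n) (push s ξ) := by
  intro k
  filter_upwards [h 0, h (k + 1), h (k - 1)] with n h0 h1 h2
  rw [toWord_letter_mul, push_val, List.head?_eq_getElem?, h0]
  simp only [Option.some.injEq]
  split_ifs with c
  · rw [List.getElem?_tail, h1]
  · cases k with
    | zero => simp
    | succ k => simpa using h2

lemma Lim.mul {x : ℕ → FreeGroup (Fin N)} {ξ : Bdry N} (h : Lim x ξ) (g : FreeGroup (Fin N)) :
    Lim (fun n => g * x n) (act g ξ) := by
  rw [act_eq, ← mk_toWord (x := g), actHom_mk]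
  induction g.toWord with
  | nil =>
    have : (mk ([] : List (Fin N × Bool))) = 1 := rfl
    simpa [this] using h
  | cons s l ih =>
    have := ih.letter s
    simp only [← mul_assoc, ← mk_cons'] at this
    exact this

lemma IsAttr.fixed {g : FreeGroup (Fin N)} {ξ : Bdry N} (h : IsAttr g ξ) : act g ξ = ξ := by
  have h1 : Lim (fun n => g ^ n) ξ := h
  refine (h1.mul g).unique fun k => ?_
  have := (tendsto_add_atTop_nat 1).eventually (h1 k)
  simpa [pow_succ'] using this

lemma getElem?_of_append {β : Type*} {l m r : List β} {k : ℕ} (h : l = m ++ r)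
    (hk : k < m.length) : l[k]? = m[k]? := by
  rw [h, List.getElem?_append_left hk]

lemma toWord_pow_succ {α : Type*} [DecidableEq α] (g : FreeGroup α) (n : ℕ) :
    (g ^ (n + 1)).toWord = reduceCyclically.conjugator g.toWord ++
      (List.replicate (n + 1) (reduceCyclically g.toWord)).flatten ++
      invRev (reduceCyclically.conjugator g.toWord) := by
  rw [toWord_pow, reduceCyclically.reduce_flatten_replicate_succ isReduced_toWord]

lemma exists_attr {g : FreeGroup (Fin N)} (hg : g ≠ 1) : ∃ ξ, IsAttr g ξ := by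
  set u := reduceCyclically.conjugator g.toWord
  set w := reduceCyclically g.toWord
  have hw : 0 < w.length := List.length_pos_iff.2 (core_ne_nil hg)
  let P : ℕ → List (Fin N × Bool) := fun m => u ++ (List.replicate m w).flatten
  have hP : ∀ m, m ≤ (P m).length := by
    intro m
    simp only [P, List.length_append, List.length_flatten, List.map_replicate, List.sum_replicate,
      smul_eq_mul]
    nlinarith
  have pre : ∀ m n, m ≤ n + 1 → ∃ r, (g ^ (n + 1)).toWord = P m ++ r := by
    intro m n h
    obtain ⟨d, hd⟩ := Nat.exists_eq_add_of_le h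
    refine ⟨(List.replicate d w).flatten ++ invRev u, ?_⟩
    rw [toWord_pow_succ, hd, List.replicate_add, List.flatten_append]
    simp only [P, List.append_assoc]
    rfl
  have lt : ∀ k, k < (P (k + 1)).length := fun k => hP (k + 1)
  let ξ : ℕ → Fin N × Bool := fun k => (P (k + 1))[k]'(lt k)
  have key : ∀ k n, k ≤ n → (g ^ (n + 1)).toWord[k]? = some (ξ k) := by
    intro k n h
    obtain ⟨r, hr⟩ := pre (k + 1) n (by omega)
    rw [getElem?_of_append hr (lt k), List.getElem?_eq_getElem (lt k)]
  refine ⟨⟨ξ, fun k => ?_⟩, fun k => ?_⟩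
  · have h1 := key k (k + 1) (by omega)
    have h2 := key (k + 1) (k + 1) le_rfl
    obtain ⟨l1, e1⟩ := List.getElem?_eq_some_iff.1 h1
    obtain ⟨l2, e2⟩ := List.getElem?_eq_some_iff.1 h2
    have := List.isChain_iff_getElem.1 (isReduced_toWord (x := g ^ (k + 1 + 1))) k l2
    rw [e1, e2] at this
    exact this
  · refine eventually_atTop.2 ⟨k + 1, fun n hn => ?_⟩
    obtain ⟨n, rfl⟩ := Nat.exists_eq_add_of_le' (le_trans (Nat.le_add_left 1 k) hn)
    exact key k n (by omega)

/-- word length -/
noncomputable abbrev len1 {α : Type*} [DecidableEq α] : FreeGroup α → ℝ := wlen fun _ => 1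

lemma wl_one {α : Type*} (l : List (α × Bool)) : wl (fun _ => 1) l = l.length := by simp [wl]

lemma lyndon_len1 {α : Type*} [DecidableEq α] : Lyndon (len1 (α := α)) :=
  lyndon_wlen fun _ => zero_le_one

lemma le_cw_one {α : Type*} [DecidableEq α] (k : ℕ) (l m : List (α × Bool))
    (h : ∀ j < k, ∃ s, l[j]? = some s ∧ m[j]? = some s) : (k : ℝ) ≤ cw (fun _ => 1) l m := by
  induction k generalizing l m with
  | zero => simpa using cw_nonneg (fun _ => zero_le_one) l m
  | succ k ih =>
    obtain ⟨s, h1, h2⟩ := h 0 (by omega)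
    cases l with
    | nil => simp at h1
    | cons a l =>
      cases m with
      | nil => simp at h2
      | cons b m =>
        simp only [List.getElem?_cons_zero, Option.some.injEq] at h1 h2
        rw [h1, h2]
        simp only [cw, if_true]
        have := ih l m fun j hj => by simpa using h (j + 1) (by omega)
        push_cast; linarith

lemma cw_eq_zero {α : Type*} [DecidableEq α] (ω : α → ℝ) {l m : List (α × Bool)} {s t : α × Bool}
    (h1 : l[0]? = some s) (h2 : m[0]? = some t) (h : s ≠ t) : cw ω l m = 0 := by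
  cases l with
  | nil => simp at h1
  | cons a l =>
    cases m with
    | nil => simp at h2
    | cons b m =>
      simp only [List.getElem?_cons_zero, Option.some.injEq] at h1 h2
      rw [h1, h2]
      simp [cw, h]

lemma len1_pow {α : Type*} [DecidableEq α] (g : FreeGroup α) (n : ℕ) :
    len1 (g ^ (n + 1)) = 2 * (reduceCyclically.conjugator g.toWord).length +
      (n + 1) * (reduceCyclically g.toWord).length := by
  unfold len1 wlen
  rw [wl_one, toWord_pow_succ]
  simp; ring

lemma attr_ne {g : FreeGroup (Fin N)} {ξ ζ : Bdry N} (h1 : IsAttr g⁻¹ ζ) (h2 : IsAttr g ξ) :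
    ζ ≠ ξ := by
  rintro rfl
  set K := (reduceCyclically.conjugator g.toWord).length + 1 with hK
  have ev : ∀ᶠ n : ℕ in atTop, ∀ j ∈ Set.Iio K,
      (g⁻¹ ^ n).toWord[j]? = some (ζ.1 j) ∧ (g ^ n).toWord[j]? = some (ζ.1 j) :=
    (eventually_all_finite (Set.finite_Iio K)).2 fun j _ => (h1 j).and (h2 j)
  obtain ⟨n, hn⟩ := ((tendsto_add_atTop_nat 1).eventually ev).exists
  have a := le_cw_one K _ _ fun j hj => ⟨_, hn j hj⟩
  rw [← lc_wlen] at a
  unfold lc at a
  rw [inv_pow, inv_inv, ← pow_add, (lyndon_wlen fun _ => zero_le_one).inv] at a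
  have e1 := len1_pow g n
  have e2 := len1_pow g (n + 1 + n)
  unfold len1 at e1 e2
  rw [← add_assoc, e1, e2, hK] at a
  push_cast at a
  linarith

lemma Lyndon.exists_step {G : Type*} [Group G] {L : G → ℝ} (H : Lyndon L) (x : ℕ → G) (k : ℕ)
    (h : lc L (x 0) (x (k + 1)) = 0) : ∃ j ≤ k, lc L (x j) (x (j + 1)) = 0 := by
  induction k with
  | zero => exact ⟨0, le_rfl, h⟩
  | succ k ih =>
    rcases H.hyp (x 0) (x (k + 1 + 1)) (x (k + 1)) with a | a
    · obtain ⟨j, hj, e⟩ := ih (le_antisymm (h ▸ a) (H.nonneg _ _))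
      exact ⟨j, by omega, e⟩
    · refine ⟨k + 1, le_rfl, ?_⟩
      rw [H.comm]
      exact le_antisymm (h ▸ a) (H.nonneg _ _)

lemma finite_len1 {α : Type*} [DecidableEq α] [Finite α] (R : ℝ) :
    {g : FreeGroup α | len1 g ≤ R}.Finite := by
  obtain ⟨n, hn⟩ := exists_nat_ge R
  refine ((List.finite_length_le (α × Bool) n).preimage toWord_injective.injOn).subset
    fun g hg => ?_
  have : len1 g ≤ n := le_trans hg hn
  unfold len1 wlen at this
  rw [wl_one] at this
  exact_mod_cast this

/-- pairs whose geodesic passes through the identity -/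
def UU (N : ℕ) : Set (DBdry N) := {p | p.1.1.1 0 ≠ p.1.2.1 0}

lemma isClopen_UU : IsClopen (UU N) := by
  have c : Continuous fun p : DBdry N => (p.1.1.1 0, p.1.2.1 0) :=
    ((continuous_coord 0).comp (continuous_fst.comp continuous_subtype_val)).prodMk
      ((continuous_coord 0).comp (continuous_snd.comp continuous_subtype_val))
  exact (isClopen_discrete {q : (Fin N × Bool) × (Fin N × Bool) | q.1 ≠ q.2}).preimage c

lemma exists_short {g c : FreeGroup (Fin N)} {p : DBdry N} (h1 : IsAttr g⁻¹ p.1.1)
    (h2 : IsAttr g p.1.2) (hc : act2 c p ∈ UU N) :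
    ∃ m : ℤ, len1 (c * g ^ m) ≤ len1 g := by
  have l1 : Lim (fun n => c * g⁻¹ ^ n) (act c p.1.1) := Lim.mul h1 c
  have l2 : Lim (fun n => c * g ^ n) (act c p.1.2) := Lim.mul h2 c
  obtain ⟨n, e1, e2⟩ := ((tendsto_add_atTop_nat 1).eventually ((l1 0).and (l2 0))).exists
  have z := cw_eq_zero (fun _ => 1) e1 e2 hc
  rw [← lc_wlen] at z
  let x : ℕ → FreeGroup (Fin N) := fun j => c * g ^ ((j : ℤ) - (n + 1))
  have x0 : x 0 = c * g⁻¹ ^ (n + 1) := by
    simp only [x]
    rw [inv_pow, ← zpow_natCast, ← zpow_neg]; congr 2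
  have x1 : x (n + 1 + n + 1) = c * g ^ (n + 1) := by
    simp only [x]
    rw [← zpow_natCast]; congr 2; push_cast; ring
  obtain ⟨j, -, hj⟩ := lyndon_len1.exists_step x (n + 1 + n) (by rw [x0, x1]; exact z)
  refine ⟨(j : ℤ) - (n + 1), ?_⟩
  have e : (x j)⁻¹ * x (j + 1) = g := by
    simp only [x]
    push_cast
    group
  unfold lc at hj
  rw [e] at hj
  have := lyndon_len1.len_nonneg (x (j + 1))
  change len1 (x j) ≤ len1 g
  linarith

lemma exists_act2_mem (p : DBdry N) : ∃ h : FreeGroup (Fin N), act2 h p ∈ UU N := by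
  obtain ⟨n, hn⟩ : ∃ n, p.1.1.1 n ≠ p.1.2.1 n := by
    by_contra hc
    push Not at hc
    exact p.2 (Subtype.ext (funext hc))
  induction n generalizing p with
  | zero => exact ⟨1, by rw [act2_one]; exact hn⟩
  | succ n ih =>
    by_cases h0 : p.1.1.1 0 = p.1.2.1 0
    · obtain ⟨h, hh⟩ := ih (act2 (mk [linv (p.1.1.1 0)]) p) (by
        simp only [act2, act_letter, push_val, linv_linv, h0, if_true]
        exact hn)
      exact ⟨h * mk [linv (p.1.1.1 0)], by rw [act2_mul]; exact hh⟩
    · exact ⟨1, by rw [act2_one]; exact h0⟩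

end Pool.Agent.H183Z
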