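import Pool.Agent.H183Z.Rigid

set_option autoImplicit false

/-! Bounded cancellation and the Busemann cocycle on the boundary. -/

namespace Pool.Agent.H183Z

open MeasureTheory Filter FreeGroup Topology

variable {N : ℕ} {T : Type*} [MetricSpace T] [MulAction (FreeGroup (Fin N)) T]

lemma exists_take_near (H : IsMinimalTreeAction (FreeGroup (Fin N)) T) (x : T) {M : ℝ}
    (hM0 : 0 ≤ M) (hM : ∀ s : Fin N × Bool, dist x (mk [s] • x) ≤ M)
    (l : List (Fin N × Bool)) (y : T)
    (hy : dist x y + dist y (mk l • x) = dist x (mk l • x)) :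
    ∃ p r, l = p ++ r ∧ dist y (mk p • x) ≤ M := by
  induction l using List.reverseRecOn with
  | nil =>
    refine ⟨[], [], rfl, ?_⟩
    have e : (mk ([] : List (Fin N × Bool))) = 1 := rfl
    rw [e, one_smul] at hy ⊢
    rw [dist_self, dist_comm x y] at hy
    linarith
  | append_singleton l s ih =>
    rcases H.tree.between_or (mk l • x) hy with h1 | h1
    · obtain ⟨p, r, e, h⟩ := ih (by
        rw [dist_comm x y, dist_comm y (mk l • x), dist_comm x (mk l • x)]; linarith)
      exact ⟨p, r ++ [s], by rw [e, List.append_assoc], h⟩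
    · refine ⟨l, [s], rfl, ?_⟩
      have a := hM s
      have b := dist_nonneg (x := y) (y := mk (l ++ [s]) • x)
      rw [← mul_mk, mul_smul, H.isom] at h1
      rw [← mul_mk, mul_smul] at b
      rw [dist_comm]
      linarith

lemma dist_word_le (H : IsMinimalTreeAction (FreeGroup (Fin N)) T) (x : T) {M : ℝ}
    (hM : ∀ s : Fin N × Bool, dist x (mk [s] • x) ≤ M) (l : List (Fin N × Bool)) :
    dist x (mk l • x) ≤ l.length * M := by
  induction l with
  | nil =>
    have e : (mk ([] : List (Fin N × Bool))) = 1 := rfl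
    simp [e]
  | cons s l ih =>
    have a := dist_triangle x (mk [s] • x) (mk [s] • mk l • x)
    rw [H.isom] at a
    have b := hM s
    rw [mk_cons', mul_smul, List.length_cons]
    push_cast
    linarith

lemma exists_len_bound (H : InCV N T) (x : T) (R : ℝ) :
    ∃ n : ℕ, ∀ l : List (Fin N × Bool), IsReduced l → dist x (mk l • x) ≤ R → l.length ≤ n := by
  obtain ⟨n, hn⟩ := ((H.proper x R).image fun g => g.toWord.length).bddAbove
  refine ⟨n, fun l hl h => ?_⟩
  have := hn ⟨mk l, h, rfl⟩
  simp only [toWord_mk_of_reduced hl] at this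
  exact this

lemma bounded_cancellation (H : InCV N T) (x : T) {M : ℝ}
    (hM0 : 0 ≤ M) (hM : ∀ s : Fin N × Bool, dist x (mk [s] • x) ≤ M) :
    ∃ K : ℝ, ∀ u v : List (Fin N × Bool), IsReduced (invRev u ++ v) →
      gp x (mk u • x) (mk v • x) ≤ K := by
  obtain ⟨n, hn⟩ := exists_len_bound H x (2 * M)
  refine ⟨n * M + M, fun u v huv => ?_⟩
  have c0 := gp_nonneg x (mk u • x) (mk v • x)
  obtain ⟨m, h1, h2⟩ := H.1.tree.exists_pt x (mk u • x) _ c0 (gp_le_left _ _ _)
  obtain ⟨m', h1', h2'⟩ := H.1.tree.exists_pt x (mk v • x) _ c0 (gp_le_right _ _ _)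
  have e : m = m' := H.1.tree.eq_of_between (p := x) (x := mk u • x) (y := mk v • x)
    (by linarith) (by linarith) (by linarith) h1.le
  subst e
  obtain ⟨p, r, e1, d1⟩ := exists_take_near H.1 x hM0 hM u m (by linarith)
  obtain ⟨q, t, e2, d2⟩ := exists_take_near H.1 x hM0 hM v m (by linarith)
  have red : IsReduced (invRev p ++ q) := by
    rw [e1, e2, invRev_append, List.append_assoc, ← List.append_assoc (invRev p)] at huv
    exact (List.IsChain.right_of_append huv).left_of_append
  have a := hn _ red (by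
    rw [← mul_mk, ← inv_mk, mul_smul, dist_inv_smul H.1.isom]
    have := dist_triangle_left (mk p • x) (mk q • x) m
    linarith)
  have b := dist_word_le H.1 x hM q
  have c := dist_triangle x (mk q • x) m
  rw [dist_comm (mk q • x) m] at c
  have : (q.length : ℝ) ≤ n := by
    rw [List.length_append] at a
    exact_mod_cast (by omega : q.length ≤ n)
  have : (q.length : ℝ) * M ≤ n * M := mul_le_mul_of_nonneg_right this hM0
  linarith

lemma Lim.eventually_eq_append {y : ℕ → FreeGroup (Fin N)} {ξ : Bdry N} (h : Lim y ξ) (m : ℕ) :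
    ∀ᶠ k in atTop, ∃ r, (y k).toWord = List.ofFn (fun i : Fin m => ξ.1 i) ++ r := by
  have ev : ∀ᶠ k in atTop, ∀ j ∈ Set.Iio m, (y k).toWord[j]? = some (ξ.1 j) :=
    (eventually_all_finite (Set.finite_Iio m)).2 fun j _ => h j
  filter_upwards [ev] with k hk
  refine ⟨(y k).toWord.drop m, ?_⟩
  conv_lhs => rw [← List.take_append_drop m (y k).toWord]
  congr 1
  apply List.ext_getElem?
  intro i
  rw [List.getElem?_take, List.getElem?_ofFn]
  split_ifs with c
  · exact hk i c
  · rfl

theorem exists_busemann (H : InCV N T) (x : T) : ∃ β : Bdry N → ℝ, Continuous β ∧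
    ∀ (y : ℕ → FreeGroup (Fin N)) (ξ : Bdry N), Lim y ξ → ∀ᶠ k in atTop,
      dist x (y k • x) - dist x (((mk [ξ.1 0])⁻¹ * y k) • x) = β ξ := by
  obtain ⟨M, hM⟩ := (Set.finite_range fun s : Fin N × Bool => dist x (mk [s] • x)).bddAbove
  have hM' : ∀ s : Fin N × Bool, dist x (mk [s] • x) ≤ max M 0 :=
    fun s => le_max_of_le_left (hM ⟨s, rfl⟩)
  obtain ⟨K, hK⟩ := bounded_cancellation H x (le_max_right M 0) hM'
  obtain ⟨n, hn⟩ := exists_len_bound H x (K + max M 0)
  have Ly := lyndon_of_action H.1.tree H.1.isom x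
  set L : FreeGroup (Fin N) → ℝ := fun g => dist x (g • x) with hL
  let G : (Fin (n + 1) → Fin N × Bool) → ℝ := fun v =>
    2 * lc L (mk [v 0]) (mk (List.ofFn v)) - L (mk [v 0])
  refine ⟨fun ξ => G fun i => ξ.1 i, (continuous_of_discreteTopology (f := G)).comp
    (continuous_pi fun i => continuous_coord _), fun y ξ h => ?_⟩
  filter_upwards [h.eventually_eq_append (n + 1)] with k ⟨r, hr⟩
  set p := List.ofFn (fun i : Fin (n + 1) => ξ.1 i) with hp
  have red : IsReduced (p ++ r) := hr ▸ isReduced_toWord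
  have ey : y k = mk p * mk r := by rw [mul_mk, ← hr, mk_toWord]
  have a : K + max M 0 < L (mk p) := by
    by_contra c
    have := hn p (List.IsChain.left_of_append red) (not_lt.1 c)
    simp [hp] at this
  have b := hK (invRev p) r (by rw [invRev_invRev]; exact red)
  have b' : lc L (mk p)⁻¹ (mk r) ≤ K := by
    rw [← inv_mk] at b
    unfold lc; unfold gp at b
    simp only [hL, inv_inv]
    rw [mul_smul, ← dist_inv_smul H.1.isom (mk p)⁻¹, inv_inv] at *
    exact b
  have c := Ly.add_eq (mk p) (mk r)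
  have d := Ly.le_left (mk [ξ.1 0]) (mk p)
  have d' := hM' (ξ.1 0)
  have e := Ly.eq_of_lt (a := mk [ξ.1 0]) (b := mk p) (k := mk p * mk r) (by
    change L (mk [ξ.1 0]) ≤ max M 0 at d'
    linarith)
  change L (y k) - L ((mk [ξ.1 0])⁻¹ * y k) = 2 * lc L (mk [ξ.1 0]) (mk p) - L (mk [ξ.1 0])
  rw [← e, ← ey]
  unfold lc; ring

lemma dist_pow_axis (h : IsRTree T)
    (hi : ∀ (g : FreeGroup (Fin N)) (x y : T), dist (g • x) (g • y) = dist x y)
    {g : FreeGroup (Fin N)} {m : T} (hne : g • m ≠ m) (ha : gp m (g⁻¹ • m) (g • m) = 0) (k : ℕ) :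
    dist m (g ^ k • m) = k * dist m (g • m) := by
  have key : ∀ k : ℕ, gp (g ^ (k + 1) • m) m (g ^ (k + 2) • m) = 0 := by
    have j : ∀ k : ℕ, gp (g ^ (k + 1) • m) (g ^ k • m) (g ^ (k + 2) • m) = 0 := by
      intro k
      rw [← ha, ← gp_smul hi (g ^ (k + 1)) m, ← mul_smul, ← mul_smul]
      congr 2
      group
    intro k
    induction k with
    | zero => simpa using j 0
    | succ k ih =>
      refine h.ext0 ih (j (k + 1)) ?_
      rw [pow_succ g (k + 1), mul_smul]
      exact smul_ne hne.symm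
  induction k with
  | zero => simp
  | succ k ih =>
    cases k with
    | zero => simp
    | succ k =>
      have := dist_of_gp0 (key k)
      rw [this, ih, pow_succ g (k + 1), mul_smul (g ^ (k + 1)), hi]
      push_cast; ring

lemma slope_eq (H : InCV N T) (x : T) {g : FreeGroup (Fin N)} (hg : g ≠ 1)
    (d : FreeGroup (Fin N)) {S : ℝ}
    (hS : ∀ᶠ k : ℕ in atTop, dist x ((d * g ^ (k + 1)) • x) - dist x ((d * g ^ k) • x) = S) :
    S = transLength T g := by
  obtain ⟨m, -, -, e, -, -⟩ := exists_axis_pt H.1.tree H.1.isom g x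
    (lt_of_no_fixed H.1.tree H.1.isom g x (H.no_fixed hg))
  have t := transLength_of_axis H.1.tree H.1.isom g m e
  have ha : gp m (g⁻¹ • m) (g • m) = 0 := by
    unfold gp
    rw [e, dist_inv_smul H.1.isom, dist_comm (g • m) m]; ring
  have pw := dist_pow_axis H.1.tree H.1.isom (H.no_fixed hg m) ha
  rw [← t] at pw
  obtain ⟨k0, hk0⟩ := eventually_atTop.1 hS
  have lin : ∀ j : ℕ, dist x ((d * g ^ (k0 + j)) • x) = dist x ((d * g ^ k0) • x) + j * S := by
    intro j
    induction j with
    | zero => simp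
    | succ j ih =>
      have := hk0 (k0 + j) (by omega)
      rw [← add_assoc]
      push_cast
      linarith
  have bd : ∀ j : ℕ, |j * (S - transLength T g)| ≤
      dist (d⁻¹ • x) m + dist x m + dist x ((d * g ^ k0) • x) + k0 * |transLength T g| := by
    intro j
    have a := lin j
    have b := pw (k0 + j)
    have c : dist x ((d * g ^ (k0 + j)) • x) = dist (d⁻¹ • x) (g ^ (k0 + j) • x) := by
      rw [mul_smul, ← H.1.isom d (d⁻¹ • x), smul_inv_smul]
    have t1 := dist_triangle4 (d⁻¹ • x) m (g ^ (k0 + j) • m) (g ^ (k0 + j) • x)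
    have t2 := dist_triangle4 m (d⁻¹ • x) (g ^ (k0 + j) • x) (g ^ (k0 + j) • m)
    rw [H.1.isom, dist_comm m x] at t1
    rw [H.1.isom, dist_comm m (d⁻¹ • x)] at t2
    have n1 : 0 ≤ dist x ((d * g ^ k0) • x) := dist_nonneg
    have n2 : (k0 : ℝ) * transLength T g ≤ k0 * |transLength T g| :=
      mul_le_mul_of_nonneg_left (le_abs_self _) (Nat.cast_nonneg _)
    have n3 : -((k0 : ℝ) * transLength T g) ≤ k0 * |transLength T g| := by
      rw [← mul_neg]; exact mul_le_mul_of_nonneg_left (neg_le_abs _) (Nat.cast_nonneg _)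
    push_cast at b
    rw [abs_le]
    constructor <;> nlinarith
  by_contra hc
  have pos : 0 < |S - transLength T g| := abs_pos.2 (sub_ne_zero.2 hc)
  obtain ⟨j, hj⟩ := exists_nat_gt ((dist (d⁻¹ • x) m + dist x m + dist x ((d * g ^ k0) • x) +
    k0 * |transLength T g|) / |S - transLength T g|)
  have := bd j
  rw [abs_mul, Nat.abs_cast] at this
  rw [div_lt_iff₀ pos] at hj
  linarith

end Pool.Agent.H183Z
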