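import Pool.Agent.H183Z.Tree

set_option autoImplicit false

/-! The Culler-Morgan theorem for free actions: the translation length function determines a
minimal action. -/

namespace Pool.Agent.H183Z

section
variable {T : Type*} [MetricSpace T]

lemma IsRTree.ext0 (h : IsRTree T) {x y z w : T} (h1 : gp y x z = 0) (h2 : gp z y w = 0)
    (hyz : y ≠ z) : gp z x w = 0 := by
  have := h.concat h1 h2 hyz
  unfold gp at h1 ⊢
  rw [dist_comm y x] at h1
  rw [dist_comm z x]
  linarith

lemma IsRTree.transfer (h : IsRTree T) {p y u u' : T} (h1 : 0 < gp p u u') (h2 : gp p y u = 0) :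
    gp p y u' = 0 := by
  have n := gp_nonneg p y u'
  rcases h.hyp' p y u u' with a | a <;> linarith

lemma dist_of_gp0 {x y z : T} (h : gp y x z = 0) : dist x z = dist x y + dist y z := by
  unfold gp at h; rw [dist_comm y x] at h; linarith

lemma gp_pos_of_gp0 {x y z : T} (h : gp y x z = 0) (hxy : x ≠ y) : 0 < gp x y z := by
  have := dist_of_gp0 h
  have := dist_pos.2 hxy
  unfold gp; linarith

end

variable {G : Type*} [Group G] {T : Type*} [MetricSpace T] [MulAction G T]

lemma gp_smul (hi : ∀ (g : G) (x y : T), dist (g • x) (g • y) = dist x y) (g : G) (p x y : T) :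
    gp (g • p) (g • x) (g • y) = gp p x y := by
  unfold gp; rw [hi, hi, hi]

lemma transLength_mul_le (hi : ∀ (g : G) (x y : T), dist (g • x) (g • y) = dist x y)
    (a b : G) (p q : T) :
    transLength T (a * b) ≤ dist p (a • p) + dist q (b • q) + 2 * dist p q := by
  have h1 := transLength_le (a * b) q
  have h2 := dist_triangle4 q p (a • p) (a • q)
  have h3 := dist_triangle q (a • q) ((a * b) • q)
  rw [hi, dist_comm q p] at h2
  rw [mul_smul, hi] at h3
  rw [mul_smul] at h1
  linarith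

omit [MetricSpace T] in
lemma smul_ne {g : G} {x y : T} (h : x ≠ y) : g • x ≠ g • y := fun e => h (MulAction.injective g e)

omit [MetricSpace T] in
lemma inv_smul_ne {g : G} {x : T} (h : g • x ≠ x) : g⁻¹ • x ≠ x := by
  intro e; apply h; conv_lhs => rw [← e]
  rw [smul_inv_smul]

lemma transLength_mul_eq (h : IsRTree T)
    (hi : ∀ (g : G) (x y : T), dist (g • x) (g • y) = dist x y) {a b : G} {p q : T}
    (hpq : p ≠ q) (ha : a • p ≠ p) (hb : b • q ≠ q)
    (h1 : gp p q (a • p) = 0) (h2 : gp p q (a⁻¹ • p) = 0)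
    (h3 : gp q p (b • q) = 0) (h4 : gp q p (b⁻¹ • q) = 0) :
    transLength T (a * b) = dist p (a • p) + dist q (b • q) + 2 * dist p q := by
  -- junctions
  have j1 : ∀ k : G, gp (k • p) (k • q) (k • a • p) = 0 := fun k => by rw [gp_smul hi, h1]
  have j2 : ∀ k : G, gp (k • a • p) (k • p) (k • a • q) = 0 := fun k => by
    rw [gp_smul hi, ← gp_smul hi a⁻¹, inv_smul_smul, inv_smul_smul, gp_comm, h2]
  have j3 : ∀ k : G, gp (k • a • q) (k • a • p) (k • a • b • q) = 0 := fun k => by
    rw [gp_smul hi, gp_smul hi, h3]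
  have j4 : gp (a • b • q) (a • q) (a • b • p) = 0 := by
    rw [gp_smul hi, ← gp_smul hi b⁻¹, inv_smul_smul, inv_smul_smul, gp_comm, h4]
  have c1 := j1 1
  have c2 := j2 1
  have c3 := j3 1
  simp only [one_smul] at c1 c2 c3
  have s2 := h.ext0 c1 c2 ha.symm
  have s3 := h.ext0 s2 c3 (smul_ne hpq)
  have s4 := h.ext0 s3 j4 (smul_ne hb.symm)
  have c5 := j1 (a * b)
  have c6 := j2 (a * b)
  have c7 := j3 (a * b)
  simp only [mul_smul] at c5 c6 c7
  have s5 := h.ext0 s4 c5 (smul_ne (smul_ne hpq.symm))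
  have s6 := h.ext0 s5 c6 (smul_ne (smul_ne ha.symm))
  have s7 := h.ext0 s6 c7 (smul_ne (smul_ne (smul_ne hpq)))
  have d1 := dist_of_gp0 c1
  have d2 := dist_of_gp0 s2
  have d3 := dist_of_gp0 s3
  have d4 := dist_of_gp0 s4
  have d5 := dist_of_gp0 s5
  have d6 := dist_of_gp0 s6
  have d7 := dist_of_gp0 s7
  simp only [hi] at d2 d3 d4 d5 d6 d7
  rw [dist_comm q p] at d1 d4
  have pp := dist_pos.2 hpq
  have n1 : 0 ≤ dist p (a • p) := dist_nonneg
  have n2 : 0 ≤ dist q (b • q) := dist_nonneg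
  rw [transLength_eq h hi (a * b) q (by simp only [mul_smul]; linarith)]
  simp only [mul_smul]
  linarith

/-- a point which is the centre of a tripod of three axes -/
structure Tri (p : T) (g : Fin 3 → G) : Prop where
  ne : ∀ i, g i • p ≠ p
  axis : ∀ i, dist p (g i • p) = transLength T (g i)
  dir : ∀ y : T, ∃ i, gp p y (g i • p) = 0 ∧ gp p y ((g i)⁻¹ • p) = 0

lemma exists_bridge (h : IsRTree T)
    (hi : ∀ (g : G) (x y : T), dist (g • x) (g • y) = dist x y) (x : T) {a b : G}
    (ha : ∀ y : T, a • y ≠ y) (hb : ∀ y : T, b • y ≠ y)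
    (hab : transLength T a + transLength T b < transLength T (a * b)) :
    ∃ p q : T, p ≠ q ∧ gp p (a⁻¹ • p) (a • p) = 0 ∧ gp p q (a • p) = 0 ∧ gp p q (a⁻¹ • p) = 0 ∧
      gp q p (b • q) = 0 ∧ gp q p (b⁻¹ • q) = 0 := by
  obtain ⟨q0, -, -, e0, -, -⟩ := exists_axis_pt h hi b x (lt_of_no_fixed h hi b x hb)
  obtain ⟨p, -, -, e1, f1, f2⟩ := exists_axis_pt h hi a q0 (lt_of_no_fixed h hi a q0 ha)
  obtain ⟨q, -, -, e2, f3, f4⟩ := exists_axis_pt h hi b p (lt_of_no_fixed h hi b p hb)
  have t0 := transLength_of_axis h hi b q0 e0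
  have t1 := transLength_of_axis h hi a p e1
  have t2 := transLength_of_axis h hi b q e2
  have hpq : p ≠ q := by
    rintro rfl
    have := transLength_mul_le hi a b p p
    rw [dist_self] at this
    linarith
  have k : gp q p q0 = 0 := by
    by_contra hc
    have pos : 0 < gp q p q0 := lt_of_le_of_ne (gp_nonneg _ _ _) (Ne.symm hc)
    have r1 : gp q (b • q) q0 = 0 := h.transfer pos (by rw [gp_comm, f3])
    have r2 : gp q (b⁻¹ • q) q0 = 0 := h.transfer pos (by rw [gp_comm, f4])
    have r3 : gp (b • q) q (b • q0) = 0 := by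
      rw [← gp_smul hi b⁻¹, inv_smul_smul, inv_smul_smul, r2]
    have := h.concat (x := q0) (by rw [gp_comm]; exact r1) r3 (hb q).symm
    rw [hi, dist_comm q0 q] at this
    have := gp_le_right q p q0
    linarith
  have pos : 0 < gp p q0 q := by rw [gp_comm]; exact gp_pos_of_gp0 k hpq
  refine ⟨p, q, hpq, ?_, ?_, ?_, f3, f4⟩
  · unfold gp
    rw [e1, dist_inv_smul hi, dist_comm (a • p) p]; ring
  · rw [gp_comm]; exact h.transfer pos (by rw [gp_comm, f1])
  · rw [gp_comm]; exact h.transfer pos (by rw [gp_comm, f2])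

lemma dir_prod (h : IsRTree T)
    (hi : ∀ (g : G) (x y : T), dist (g • x) (g • y) = dist x y) {a b : G} {p q : T}
    (hpq : p ≠ q) (ha : a • p ≠ p) (hb : b • q ≠ q)
    (h2 : gp p q (a⁻¹ • p) = 0) (h1 : gp p q (a • p) = 0)
    (h3 : gp q p (b • q) = 0) (h4 : gp q p (b⁻¹ • q) = 0) :
    0 < gp p (a • p) ((a * b) • p) ∧ 0 < gp p q ((a * b)⁻¹ • p) := by
  constructor
  · have c1 : gp (a • q) (a • b • p) (a • p) = 0 := by
      rw [gp_smul hi]
      refine h.ext0 (y := b • q) ?_ (by rw [gp_comm, h3]) hb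
      rw [← gp_smul hi b⁻¹, inv_smul_smul, inv_smul_smul, h4]
    have c2 : gp (a • p) (a • q) p = 0 := by
      rw [← gp_smul hi a⁻¹, inv_smul_smul, inv_smul_smul, h2]
    have := h.ext0 c1 c2 (smul_ne hpq.symm)
    rw [mul_smul]
    exact gp_pos_of_gp0 (by rw [gp_comm]; exact this) ha.symm
  · have c1 : gp (b⁻¹ • p) (b⁻¹ • a⁻¹ • p) (b⁻¹ • q) = 0 := by
      rw [gp_smul hi, gp_comm, h2]
    have c2 : gp (b⁻¹ • q) (b⁻¹ • p) q = 0 := by
      rw [← gp_smul hi b, smul_inv_smul, smul_inv_smul, h3]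
    have c3 := h.ext0 c1 c2 (smul_ne hpq)
    have c4 := h.ext0 c3 (by rw [gp_comm]; exact h4) (inv_smul_ne hb)
    rw [mul_inv_rev, mul_smul]
    have _ := h1
    exact gp_pos_of_gp0 (by rw [gp_comm]; exact c4) hpq

lemma exists_tri (h : IsRTree T)
    (hi : ∀ (g : G) (x y : T), dist (g • x) (g • y) = dist x y) (x : T) {a b : G}
    (ha : ∀ y : T, a • y ≠ y) (hb : ∀ y : T, b • y ≠ y)
    (hab : transLength T a + transLength T b < transLength T (a * b)) :
    ∃ p : T, Tri p ![a, a * b, a⁻¹ * b] := by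
  obtain ⟨p, q, hpq, e0, h1, h2, h3, h4⟩ := exists_bridge h hi x ha hb hab
  obtain ⟨d1, d2⟩ := dir_prod h hi hpq (ha p) (hb q) h2 h1 h3 h4
  obtain ⟨d3, d4⟩ := dir_prod h hi (a := a⁻¹) hpq (inv_smul_ne (ha p)) (hb q)
    (by rw [inv_inv]; exact h1) h2 h3 h4
  have ax : ∀ k : G, gp p (k⁻¹ • p) (k • p) = 0 → dist p (k • p) = transLength T k := by
    intro k hk
    symm
    apply transLength_of_axis h hi
    unfold gp at hk
    rw [dist_inv_smul hi, dist_comm (k • p) p] at hk
    linarith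
  have nz : ∀ u v : T, 0 < gp p u v → v ≠ p := by
    rintro u v huv rfl
    have := gp_le_right v u v
    rw [dist_self] at this
    linarith
  refine ⟨p, ?_, ?_, ?_⟩
  · intro i
    fin_cases i
    · exact ha p
    · exact nz _ _ d1
    · exact nz _ _ d3
  · intro i
    fin_cases i
    · exact ax a e0
    · apply ax (a * b)
      refine h.transfer d1 ?_
      rw [gp_comm]
      exact h.transfer d2 (by rw [gp_comm]; exact h1)
    · apply ax (a⁻¹ * b)
      refine h.transfer d3 ?_
      rw [gp_comm]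
      exact h.transfer d4 (by rw [gp_comm]; exact h2)
  · intro y
    by_cases c1 : gp p y (a • p) = 0
    · by_cases c2 : gp p y (a⁻¹ • p) = 0
      · exact ⟨0, c1, c2⟩
      · have pos : 0 < gp p (a⁻¹ • p) y := by
          rw [gp_comm]; exact lt_of_le_of_ne (gp_nonneg _ _ _) (Ne.symm c2)
        refine ⟨1, h.transfer d1 c1, h.transfer d2 ?_⟩
        rw [gp_comm]; exact h.transfer pos h2
    · have pos : 0 < gp p (a • p) y := by
        rw [gp_comm]; exact lt_of_le_of_ne (gp_nonneg _ _ _) (Ne.symm c1)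
      refine ⟨2, h.transfer d3 ?_, h.transfer d4 ?_⟩
      · rw [gp_comm]; exact h.transfer pos e0
      · rw [gp_comm]; exact h.transfer pos h1

lemma transLength_conj (hi : ∀ (g : G) (x y : T), dist (g • x) (g • y) = dist x y) (k b : G) :
    transLength T (k * b * k⁻¹) = transLength T b := by
  unfold transLength
  rw [← (MulAction.toPerm k).iInf_comp (g := fun y : T => dist y ((k * b * k⁻¹) • y))]
  congr 1
  ext x
  simp only [MulAction.toPerm_apply, mul_smul, inv_smul_smul, hi]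

variable {T' : Type*} [MetricSpace T'] [MulAction G T']

lemma Tri.dist_le (h : IsRTree T)
    (hi : ∀ (g : G) (x y : T), dist (g • x) (g • y) = dist x y)
    (hi' : ∀ (g : G) (x y : T'), dist (g • x) (g • y) = dist x y)
    (hl : ∀ g : G, transLength T g = transLength T' g) {g : Fin 3 → G} {p : T} {p' : T'}
    (H : Tri p g) (H' : Tri p' g) (k : G) : dist p (k • p) ≤ dist p' (k • p') := by
  by_cases hk : p = k • p
  · rw [← hk, dist_self]; exact dist_nonneg
  obtain ⟨i, a1, a2⟩ := H.dir (k • p)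
  obtain ⟨j, b1, b2⟩ := H.dir (k⁻¹ • p)
  have e1 : ∀ c : G, (k * c * k⁻¹) • k • p = k • c • p := fun c => by
    simp only [mul_smul, inv_smul_smul]
  have e2 : ∀ c : G, (k * c * k⁻¹) • k • p' = k • c • p' := fun c => by
    simp only [mul_smul, inv_smul_smul]
  have e3 : (k * g j * k⁻¹)⁻¹ = k * (g j)⁻¹ * k⁻¹ := by group
  have m := transLength_mul_eq h hi (a := g i) (b := k * g j * k⁻¹) hk (H.ne i)
    (by rw [e1]; exact smul_ne (H.ne j)) a1 a2
    (by rw [e1, ← gp_smul hi k⁻¹, inv_smul_smul, inv_smul_smul, b1])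
    (by rw [e3, e1, ← gp_smul hi k⁻¹, inv_smul_smul, inv_smul_smul, b2])
  have m' := transLength_mul_le hi' (g i) (k * g j * k⁻¹) p' (k • p')
  rw [e1, hi, H.axis, H.axis, hl, hl, hl] at m
  rw [e2, hi', H'.axis, H'.axis] at m'
  linarith

lemma equiv_of_based (H : IsMinimalTreeAction G T) (H' : IsMinimalTreeAction G T') {p : T} {p' : T'}
    (hL : ∀ k : G, dist p (k • p) = dist p' (k • p')) : EquivIsometric G T T' := by
  let R : T → T' → Prop := fun y y' => ∃ k : G, dist p y + dist y (k • p) = dist p (k • p) ∧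
    dist p' y' = dist p y ∧ dist p' y' + dist y' (k • p') = dist p' (k • p')
  have egp : ∀ k m : G, gp p (k • p) (m • p) = gp p' (k • p') (m • p') := by
    intro k m
    unfold gp
    rw [hL, hL, ← dist_inv_smul H.isom, ← dist_inv_smul H'.isom, ← mul_smul, ← mul_smul, hL]
  have Rd : ∀ y y' z z', R y y' → R z z' → dist y' z' = dist y z := by
    rintro y y' z z' ⟨k, a1, a2, a3⟩ ⟨m, b1, b2, b3⟩
    rw [H.tree.dist_between a1 b1, H'.tree.dist_between a3 b3, a2, b2, egp]
  have R1 : ∀ y, ∃ y', R y y' := by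
    intro y
    obtain ⟨k, hk⟩ := H.exists_between p y
    obtain ⟨y', h1, h2⟩ := H'.tree.exists_pt p' (k • p') (dist p y) dist_nonneg
      (by rw [← hL]; have := dist_nonneg (x := y) (y := k • p); linarith)
    exact ⟨y', k, hk, h1, by linarith⟩
  have R2 : ∀ y', ∃ y, R y y' := by
    intro y'
    obtain ⟨k, hk⟩ := H'.exists_between p' y'
    obtain ⟨y, h1, h2⟩ := H.tree.exists_pt p (k • p) (dist p' y') dist_nonneg
      (by rw [hL]; have := dist_nonneg (x := y') (y := k • p'); linarith)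
    exact ⟨y, k, by linarith, h1.symm, hk⟩
  have R3 : ∀ k : G, R (k • p) (k • p') := fun k => ⟨k, by simp, (hL k).symm, by simp⟩
  choose f hf using R1
  have iso : Isometry f := Isometry.of_dist_eq fun y z => Rd _ _ _ _ (hf y) (hf z)
  have sur : Function.Surjective f := by
    intro y'
    obtain ⟨y, hy⟩ := R2 y'
    exact ⟨y, dist_eq_zero.1 (by rw [Rd _ _ _ _ (hf y) hy, dist_self])⟩
  refine ⟨⟨Equiv.ofBijective f ⟨iso.injective, sur⟩, iso⟩, fun g y => ?_⟩
  change f (g • y) = g • f y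
  obtain ⟨k, a1, a2, a3⟩ := hf y
  have b1 : dist (g • p') (f (g • y)) = dist p y := by
    rw [Rd _ _ _ _ (R3 g) (hf _), H.isom]
  have b2 : dist (f (g • y)) (g • k • p') = dist y (k • p) := by
    rw [← mul_smul, Rd _ _ _ _ (hf _) (R3 (g * k)), mul_smul, H.isom]
  apply H'.tree.eq_of_between (p := g • p') (x := g • k • p') (y := g • k • p')
  · rw [b1, b2, H'.isom, ← hL, a1]
  · rw [H'.isom, H'.isom, H'.isom, a3]
  · rw [b1, H'.isom, a2]
  · unfold gp
    rw [b1, dist_self, H'.isom, ← hL]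
    have := dist_nonneg (x := y) (y := k • p)
    linarith

theorem culler_morgan (H : IsMinimalTreeAction G T) (H' : IsMinimalTreeAction G T')
    (hl : ∀ g : G, transLength T g = transLength T' g) {a b : G}
    (ha : ∀ y : T, a • y ≠ y) (hb : ∀ y : T, b • y ≠ y)
    (ha' : ∀ y : T', a • y ≠ y) (hb' : ∀ y : T', b • y ≠ y)
    (hab : transLength T a + transLength T b < transLength T (a * b)) :
    EquivIsometric G T T' := by
  obtain ⟨x⟩ := H.nonempty
  obtain ⟨x'⟩ := H'.nonempty
  obtain ⟨p, hp⟩ := exists_tri H.tree H.isom x ha hb hab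
  obtain ⟨p', hp'⟩ := exists_tri H'.tree H'.isom x' ha' hb' (by rwa [← hl, ← hl, ← hl])
  exact equiv_of_based H H' fun k => le_antisymm
    (hp.dist_le H.tree H.isom H'.isom hl hp' k)
    (hp'.dist_le H'.tree H'.isom H.isom (fun g => (hl g).symm) hp k)

end Pool.Agent.H183Z
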