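import Pool.Agent.H183Z.Nielsen

set_option autoImplicit false

/-! Jump counting in Laurent polynomials. -/

namespace Pool.Agent.H183Z.Coarse

open LaurentPolynomial Finset

/-- integral Laurent polynomials -/
abbrev Lau : Type := LaurentPolynomial ℤ

/-- pairing with a test function -/
noncomputable def pr (ψ : ℤ → ℤ) : Lau →+ ℤ where
  toFun c := Finsupp.linearCombination ℤ ψ c.coeff
  map_zero' := by simp
  map_add' x y := by simp

lemma pr_apply (ψ : ℤ → ℤ) (c : Lau) : pr ψ c = ∑ y ∈ c.coeff.support, c.coeff y * ψ y := rfl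

lemma pr_mono (ψ : ℤ → ℤ) (r n : ℤ) : pr ψ (C r * T n) = r * ψ n := by
  rw [← single_eq_C_mul_T]
  change Finsupp.linearCombination ℤ ψ (Finsupp.single n r) = _
  simp

lemma pr_T_mul (ψ : ℤ → ℤ) (h : ℤ) (c : Lau) : pr ψ (T h * c) = pr (fun y => ψ (y + h)) c := by
  induction c using LaurentPolynomial.induction_on' with
  | add p q hp hq => rw [mul_add, map_add, map_add, hp, hq]
  | C_mul_T n a => rw [mul_left_comm, ← T_add, pr_mono, pr_mono, add_comm]

lemma pr_sub (ψ ψ' : ℤ → ℤ) (c : Lau) : pr ψ c - pr ψ' c = pr (fun y => ψ y - ψ' y) c := by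
  simp only [pr_apply, ← sum_sub_distrib, mul_sub]

lemma pr_const (k : ℤ) (c : Lau) : pr (fun _ => k) c = k * pr (fun _ => 1) c := by
  simp only [pr_apply, sum_mul, mul_one, mul_comm k]

/-- `e` has norm at most `n` -/
def Bd (n : ℕ) (e : Lau) : Prop := ∀ (ψ : ℤ → ℤ) (B : ℤ), (∀ y, |ψ y| ≤ B) → |pr ψ e| ≤ n * B

lemma Bd.zero : Bd 0 0 := fun ψ B _ => by simp

lemma Bd.add {m n : ℕ} {e e' : Lau} (h : Bd m e) (h' : Bd n e') : Bd (m + n) (e + e') := by
  intro ψ B hB
  have := h ψ B hB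
  have := h' ψ B hB
  have := abs_add_le (pr ψ e) (pr ψ e')
  rw [map_add]; push_cast; linarith

lemma Bd.neg {n : ℕ} {e : Lau} (h : Bd n e) : Bd n (-e) := fun ψ B hB => by
  rw [map_neg, abs_neg]; exact h ψ B hB

lemma Bd.shift {n : ℕ} {e : Lau} (h : Bd n e) (k : ℤ) : Bd n (T k * e) := fun ψ B hB => by
  rw [pr_T_mul]; exact h _ B fun y => hB _

lemma Bd.mono {m n : ℕ} {e : Lau} (h : Bd m e) (hmn : m ≤ n) : Bd n e := fun ψ B hB =>
  (h ψ B hB).trans (mul_le_mul_of_nonneg_right (by exact_mod_cast hmn)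
    ((abs_nonneg _).trans (hB 0)))

lemma Bd.const {r : ℤ} (h : |r| ≤ 1) : Bd 1 (C r) := fun ψ B hB => by
  have := pr_mono ψ r 0
  rw [T_zero, mul_one] at this
  rw [this, abs_mul]
  exact_mod_cast mul_le_mul h (hB 0) (abs_nonneg _) zero_le_one

lemma Bd.sum_le {n : ℕ} {e : Lau} (h : Bd n e) : ∑ y ∈ e.coeff.support, |e.coeff y| ≤ n := by
  have := h (fun y => (e.coeff y).sign) 1 fun y => by
    rcases lt_trichotomy (e.coeff y) 0 with a | a | a
    · simp [Int.sign_eq_neg_one_of_neg a]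
    · simp [a]
    · simp [Int.sign_eq_one_of_pos a]
  rw [pr_apply, mul_one] at this
  simp only [Int.mul_sign_self, Int.natCast_natAbs] at this
  exact le_of_abs_le this

/-- bounded multiples of `L` up to bounded error -/
def Nk (K R : ℕ) (L : ℤ) (k : ℕ) (d : ℤ) : Prop :=
  ∃ q ρ : ℤ, |q| ≤ k * K ∧ |ρ| ≤ k * R ∧ d = q * L + ρ

section
variable {K R : ℕ} {L : ℤ}

lemma Nk.zero (k : ℕ) : Nk K R L k 0 := ⟨0, 0, by positivity, by positivity, by simp⟩

lemma Nk.add {k k' : ℕ} {d d' : ℤ} (h : Nk K R L k d) (h' : Nk K R L k' d') :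
    Nk K R L (k + k') (d + d') := by
  obtain ⟨q, ρ, a, b, rfl⟩ := h
  obtain ⟨q', ρ', a', b', rfl⟩ := h'
  refine ⟨q + q', ρ + ρ', ?_, ?_, by ring⟩
  · have := abs_add_le q q'
    push_cast; linarith
  · have := abs_add_le ρ ρ'
    push_cast; linarith

lemma Nk.mono {k k' : ℕ} {d : ℤ} (h : Nk K R L k d) (hk : k ≤ k') : Nk K R L k' d := by
  obtain ⟨j, rfl⟩ := Nat.exists_eq_add_of_le hk
  simpa using h.add (Nk.zero j)

lemma Nk.mul {k m : ℕ} {d v : ℤ} (h : Nk K R L k d) (hv : |v| ≤ m) : Nk K R L (m * k) (v * d) := by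
  obtain ⟨q, ρ, a, b, rfl⟩ := h
  refine ⟨v * q, v * ρ, ?_, ?_, by ring⟩
  · rw [abs_mul]; push_cast; rw [mul_assoc]; gcongr
  · rw [abs_mul]; push_cast; rw [mul_assoc]; gcongr

lemma Nk.neg {k : ℕ} {d : ℤ} (h : Nk K R L k d) : Nk K R L k (-d) := by
  simpa using h.mul (v := -1) (m := 1) (by simp)

lemma Nk.sum {k : ℕ} (s : Finset ℤ) (f : ℤ → ℤ) (h : ∀ y ∈ s, Nk K R L k (f y)) :
    Nk K R L (s.card * k) (∑ y ∈ s, f y) := by
  induction s using Finset.induction_on with
  | empty => simpa using Nk.zero 0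
  | insert a s ha ih =>
    rw [sum_insert ha, card_insert_of_notMem ha, add_mul, one_mul, add_comm _ k]
    exact (h a (mem_insert_self _ _)).add (ih fun y hy => h y (mem_insert_of_mem hy))

lemma moment_of_closed (n m : ℕ) (v : ℤ → ℤ) (P : Finset ℤ) (hn : P.card ≤ n)
    (hv : ∀ y ∈ P, |v y| ≤ m)
    (h : ∀ C ⊆ P, (∀ y ∈ C, ∀ y' ∈ P, Nk K R L 1 (y' - y) → y' ∈ C) → ∑ y ∈ C, v y = 0) :
    Nk K R L (P.card * (m * n)) (∑ y ∈ P, v y * y) := by
  classical
  induction P using Finset.strongInduction with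
  | H P ih =>
    rcases P.eq_empty_or_nonempty with rfl | ⟨y0, hy0⟩
    · simpa using Nk.zero 0
    let Cs : ℕ → Finset ℤ := fun k => P.filter fun y => Nk K R L k (y - y0)
    obtain ⟨k, hk, e⟩ : ∃ k ≤ n, Cs k = Cs (k + 1) := by
      by_contra c
      push Not at c
      have : ∀ k ≤ n + 1, k ≤ (Cs k).card := by
        intro k hk
        induction k with
        | zero => omega
        | succ k ih =>
          have a : Cs k ⊂ Cs (k + 1) := Finset.ssubset_iff_subset_ne.2 ⟨fun y hy =>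
            mem_filter.2 ⟨(mem_filter.1 hy).1, (mem_filter.1 hy).2.mono (by omega)⟩, c k (by omega)⟩
          have := card_lt_card a
          have := ih (by omega)
          omega
      have := (this (n + 1) le_rfl).trans (card_filter_le _ _)
      omega
    have cl : ∀ y ∈ Cs k, ∀ y' ∈ P, Nk K R L 1 (y' - y) → y' ∈ Cs k := by
      intro y hy y' hy' hN
      rw [e]
      refine mem_filter.2 ⟨hy', ?_⟩
      have := (mem_filter.1 hy).2.add hN
      rwa [show y - y0 + (y' - y) = y' - y0 by ring] at this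
    have sub : Cs k ⊆ P := filter_subset _ _
    have a1 : Nk K R L ((Cs k).card * (m * n)) (∑ y ∈ Cs k, v y * y) := by
      have : ∑ y ∈ Cs k, v y * y = ∑ y ∈ Cs k, v y * (y - y0) := by
        simp only [mul_sub, sum_sub_distrib, ← sum_mul, h _ sub cl, zero_mul, sub_zero]
      rw [this]
      exact Nk.sum _ _ fun y hy => ((mem_filter.1 hy).2.mono hk).mul (hv y (sub hy))
    have a2 := ih (P \ Cs k) (sdiff_ssubset sub ⟨y0, mem_filter.2 ⟨hy0, by simpa using Nk.zero k⟩⟩)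
      ((card_le_card sdiff_subset).trans hn) (fun y hy => hv y (mem_sdiff.1 hy).1)
      fun C hC hc => h C (hC.trans sdiff_subset) fun y hy y' hy' hN => by
        refine hc y hy y' (mem_sdiff.2 ⟨hy', fun c => (mem_sdiff.1 (hC hy)).2 ?_⟩) hN
        exact cl y' c y (mem_sdiff.1 (hC hy)).1 (by simpa using hN.neg)
    have := a2.add a1
    rwa [← add_mul, card_sdiff_add_card_eq_card sub, sum_sdiff sub] at this

end

lemma exists_bump (A : Finset ℤ) (R : ℕ) : ∃ ψ : ℤ → ℤ, (∀ y, |ψ y| ≤ R) ∧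
    (∀ y, |ψ y - ψ (y + 1)| ≤ 1) ∧ (∀ a ∈ A, ψ a = R) ∧
    ∀ y, (∀ a ∈ A, (R : ℤ) < |y - a|) → ψ y = 0 := by
  let g : ℤ → ℕ := fun y => A.sup fun a => R - (y - a).natAbs
  have le : ∀ y, g y ≤ R := fun y => Finset.sup_le fun a _ => Nat.sub_le _ _
  have lip : ∀ y z, (y - z).natAbs ≤ 1 → g y ≤ g z + 1 := fun y z h => Finset.sup_le fun a ha => by
    have : R - (z - a).natAbs ≤ g z := Finset.le_sup (f := fun a => R - (z - a).natAbs) ha
    omega
  refine ⟨fun y => g y, fun y => by simpa using le y, fun y => ?_, fun a ha => ?_, fun y h => ?_⟩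
  · have := lip y (y + 1) (by omega)
    have := lip (y + 1) y (by omega)
    rw [abs_le]; constructor <;> simp only <;> omega
  · have : R - (a - a).natAbs ≤ g a := Finset.le_sup (f := fun b => R - (a - b).natAbs) ha
    have := le a
    simp only; omega
  · have : g y ≤ 0 := Finset.sup_le fun a ha => by
      have := h a ha
      rw [← Int.natCast_natAbs] at this
      omega
    simp only; omega

lemma moment_lemma {R : ℕ} {L : ℤ} {e0 e1 e2 : Lau} (h0 : Bd R e0) (h1 : Bd (R * R) e1)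
    (h2 : Bd R e2) (h : (∑ j ∈ range (2 * R + 1), T (j * L)) * e0 = e2 - (1 - T 1) * e1) :
    Nk (2 * R + 1) R L (R * (R * R)) (pr id e0) := by
  classical
  have s := h0.sum_le
  have c : e0.coeff.support.card ≤ R := by
    have : ∑ y ∈ e0.coeff.support, (1 : ℤ) ≤ R := (sum_le_sum fun y hy =>
      Int.one_le_abs (Finsupp.mem_support_iff.1 hy)).trans s
    simpa using this
  refine (moment_of_closed R R e0.coeff _ c (fun y hy => (single_le_sum
    (f := fun y => |e0.coeff y|) (fun _ _ => abs_nonneg _) hy).trans s) fun C hC hc => ?_).mono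
    (Nat.mul_le_mul_right _ c)
  obtain ⟨ψ, p1, p2, p3, p4⟩ := exists_bump
    ((C ×ˢ range (2 * R + 1)).image fun z => z.1 + z.2 * L) R
  have a := congrArg (pr ψ) h
  rw [sum_mul, map_sum, map_sub, sub_mul, one_mul, map_sub, pr_T_mul, pr_sub] at a
  have b1 := h1 _ 1 p2
  have b2 := h2 _ _ p1
  have b3 : ∀ j ∈ range (2 * R + 1), pr ψ (T (j * L) * e0) = R * ∑ y ∈ C, e0.coeff y := by
    intro j hj
    rw [pr_T_mul, pr_apply, ← sum_subset hC, mul_sum]
    · refine sum_congr rfl fun y hy => ?_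
      rw [p3 _ (mem_image.2 ⟨(y, j), mem_product.2 ⟨hy, hj⟩, rfl⟩), mul_comm]
    · intro y hy hy'
      rw [p4, mul_zero]
      intro a ha
      obtain ⟨⟨z, i⟩, hz, rfl⟩ := mem_image.1 ha
      obtain ⟨hz, hi⟩ := mem_product.1 hz
      by_contra d
      refine hy' (hc z hz y hy ⟨i - j, _, ?_, by simpa using not_lt.1 d, by ring⟩)
      have := mem_range.1 hi
      have := mem_range.1 hj
      rw [abs_le]; constructor <;> push_cast <;> omega
  rw [sum_congr rfl b3, sum_const, card_range, nsmul_eq_mul] at a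
  by_contra d
  have d1 := Int.one_le_abs d
  have R0 : (0 : ℤ) < R := by
    obtain ⟨y, hy⟩ := nonempty_of_sum_ne_zero d
    have := card_pos.2 ⟨y, hC hy⟩
    omega
  have a2 := congrArg abs a
  rw [abs_mul, abs_mul, Nat.abs_cast, Nat.abs_cast] at a2
  have a3 := abs_sub (pr ψ e2) (pr (fun y => ψ y - ψ (y + 1)) e1)
  rw [← a2] at a3
  push_cast at a3 b1
  nlinarith [mul_le_mul_of_nonneg_left d1 (show (0 : ℤ) ≤ (2 * R + 1) * R by positivity)]

/-- approximate cocycle relation -/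
def Tri (D : ℕ) (c : ℕ → Lau) (h : ℕ → ℤ) (m n : ℕ) : Prop :=
  h m + h n = h (m + n) ∧ ∃ e, Bd D e ∧ c m + T (h m) * c n = c (m + n) + e

lemma comm_rel {D : ℕ} {c : ℕ → Lau} {h : ℕ → ℤ} (h1 : h 1 = 1) {n : ℕ} (a : Tri D c h n 1)
    (b : Tri D c h 1 n) : ∃ e, Bd (2 * D) e ∧ (1 - T 1) * c n = (1 - T (h n)) * c 1 + e := by
  obtain ⟨-, e, he, a⟩ := a
  obtain ⟨-, e', he', b⟩ := b
  rw [h1, add_comm 1 n] at b
  exact ⟨e + -e', two_mul D ▸ he.add he'.neg, by linear_combination a - b⟩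

lemma slope_lemma {D N : ℕ} {c : ℕ → Lau} {h : ℕ → ℤ} (h1 : h 1 = 1)
    (a1 : Tri D c h N 1) (a2 : Tri D c h 1 N) (a3 : Tri D c h ((4 * D + 1) * N) 1)
    (a4 : Tri D c h 1 ((4 * D + 1) * N)) (a5 : ∀ j < 4 * D, Tri D c h ((j + 1) * N) N) :
    Nk (2 * (2 * D) + 1) (2 * D) (h N) (2 * D * (2 * D * (2 * D)))
      (h N * pr (fun _ => 1) (c 1) - pr (fun _ => 1) (c N)) := by
  obtain ⟨e0, b0, r0⟩ := comm_rel h1 a1 a2
  obtain ⟨e2, b2, r2⟩ := comm_rel h1 a3 a4
  have key : ∀ j ≤ 4 * D, h ((j + 1) * N) = (j + 1 : ℕ) * h N ∧ ∃ e, Bd (j * D) e ∧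
      c ((j + 1) * N) = (∑ i ∈ range (j + 1), T (i * h N)) * c N + e := by
    intro j hj
    induction j with
    | zero => exact ⟨by simp, 0, by simpa using Bd.zero, by simp⟩
    | succ j ih =>
      obtain ⟨i1, e, he, i2⟩ := ih (by omega)
      obtain ⟨t1, e', he', t2⟩ := a5 j (by omega)
      rw [show (j + 1) * N + N = (j + 1 + 1) * N by ring, i1] at t1 t2
      refine ⟨by rw [← t1]; push_cast; ring, e + -e', ?_, ?_⟩
      · rw [add_mul, one_mul]; exact he.add he'.neg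
      · rw [sum_range_succ]
        linear_combination i2 - t2
  obtain ⟨k1, e1, b1, k2⟩ := key (4 * D) le_rfl
  have g : (∑ i ∈ range (4 * D + 1), (T (i * h N) : Lau)) * (1 - T (h N)) =
      1 - T (h ((4 * D + 1) * N)) := by
    rw [k1, ← T_pow, ← geom_sum_mul_neg]
    simp only [T_pow]
  have m := moment_lemma (R := 2 * D) (L := h N) b0 (b1.mono (by nlinarith)) b2 (by
    rw [show 2 * (2 * D) + 1 = 4 * D + 1 by ring]
    linear_combination r2 - (∑ i ∈ range (4 * D + 1), (T (i * h N) : Lau)) * r0 - (1 - T 1) * k2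
      - c 1 * g)
  have p : ∀ (k : ℤ) (x : Lau), pr id ((1 - T k) * x) = -k * pr (fun _ => 1) x := by
    intro k x
    rw [sub_mul, one_mul, map_sub, pr_T_mul, pr_sub, ← pr_const]
    congr 2
    funext y
    simp
  have := congrArg (pr id) r0
  rw [map_add, p, p] at this
  convert m using 1
  linarith

end Pool.Agent.H183Z.Coarse
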