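import Pool.Agent.H183Z.Bdry

set_option autoImplicit false

/-! Counting currents and their infinite combinations. -/

namespace Pool.Agent.H183Z

open MeasureTheory Filter FreeGroup Topology
open scoped NNReal ENNReal

variable {N : ℕ}

lemma measurable_act2 (g : FreeGroup (Fin N)) : Measurable (act2 g) :=
  (continuous_act2 g).measurable

lemma measurable_flip2 : Measurable (flip2 : DBdry N → DBdry N) := continuous_flip2.measurable

lemma regular_of_UU {μ : Measure (DBdry N)} (hi : ∀ g, μ.map (act2 g) = μ) (hU : μ (UU N) < ∞) :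
    μ.Regular := by
  have : IsLocallyFiniteMeasure μ := by
    refine ⟨fun p => ?_⟩
    obtain ⟨h, hh⟩ := exists_act2_mem p
    refine ⟨act2 h ⁻¹' UU N,
      (isClopen_UU.isOpen.preimage (continuous_act2 h)).mem_nhds hh, ?_⟩
    rw [← Measure.map_apply (measurable_act2 h) isClopen_UU.isOpen.measurableSet, hi]
    exact hU
  infer_instance

lemma act2_zpow {g : FreeGroup (Fin N)} {p : DBdry N} (h : act2 g p = p) (m : ℤ) :
    act2 (g ^ m) p = p := by
  have hi : act2 g⁻¹ p = p := by
    conv_lhs => rw [← h]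
    rw [← act2_mul, inv_mul_cancel, act2_one]
  induction m using Int.induction_on with
  | zero => rw [zpow_zero, act2_one]
  | succ m ih => rw [zpow_add_one, act2_mul, h, ih]
  | pred m ih => rw [zpow_sub_one, act2_mul, hi, ih]

lemma act2_fixed {g : FreeGroup (Fin N)} {p : DBdry N} (h1 : IsAttr g⁻¹ p.1.1)
    (h2 : IsAttr g p.1.2) : act2 g p = p := by
  apply Subtype.ext
  refine Prod.ext ?_ h2.fixed
  change act g p.1.1 = p.1.1
  conv_lhs => rw [← h1.fixed]
  rw [← act_mul, mul_inv_cancel, act_one]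

lemma act2_out {g : FreeGroup (Fin N)} {p : DBdry N} (h : act2 g p = p) (k : FreeGroup (Fin N)) :
    act2 (QuotientGroup.mk (s := Subgroup.zpowers g) k).out p = act2 k p := by
  obtain ⟨⟨z, m, rfl⟩, hz⟩ := QuotientGroup.mk_out_eq_mul (Subgroup.zpowers g) k
  rw [hz, act2_mul]
  exact congrArg _ (act2_zpow h m)

lemma finite_cosets {g : FreeGroup (Fin N)} {p : DBdry N} (h1 : IsAttr g⁻¹ p.1.1)
    (h2 : IsAttr g p.1.2) :
    {c : FreeGroup (Fin N) ⧸ Subgroup.zpowers g | act2 c.out p ∈ UU N}.Finite := by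
  refine ((finite_len1 (len1 g)).image (QuotientGroup.mk (s := Subgroup.zpowers g))).subset
    fun c hc => ?_
  obtain ⟨m, hm⟩ := exists_short h1 h2 hc
  refine ⟨c.out * g ^ m, hm, ?_⟩
  rw [QuotientGroup.mk_mul_of_mem _ (Subgroup.zpow_mem_zpowers g m), QuotientGroup.out_eq']

lemma IsCounting.facts {g : FreeGroup (Fin N)} {μ : Measure (DBdry N)} (h : IsCounting g μ) :
    μ ≠ 0 ∧ μ (UU N) < ∞ ∧ (∀ k, μ.map (act2 k) = μ) ∧ μ.map flip2 = μ := by
  obtain ⟨p, h1, h2, rfl⟩ := h
  unfold diracPair
  have fx := act2_fixed h1 h2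
  refine ⟨?_, ?_, fun k => ?_, ?_⟩
  · intro e
    have := Measure.le_sum (fun c : FreeGroup (Fin N) ⧸ Subgroup.zpowers g =>
      Measure.dirac (act2 c.out p) + Measure.dirac (flip2 (act2 c.out p)))
      (QuotientGroup.mk 1) Set.univ
    rw [e] at this
    simp at this
  · rw [Measure.sum_apply _ isClopen_UU.isOpen.measurableSet,
      tsum_eq_sum (s := (finite_cosets h1 h2).toFinset)]
    · exact ENNReal.sum_lt_top.2 fun c _ => measure_lt_top _ _
    · intro c hc
      rw [Set.Finite.mem_toFinset] at hc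
      have h3 : act2 c.out p ∉ UU N := hc
      have h4 : flip2 (act2 c.out p) ∉ UU N := fun e => h3 (Ne.symm e)
      rw [Measure.add_apply, Measure.dirac_apply, Measure.dirac_apply,
        Set.indicator_of_notMem h3, Set.indicator_of_notMem h4, add_zero]
  · rw [Measure.map_sum (measurable_act2 k).aemeasurable]
    rw [← Measure.sum_comp_equiv (MulAction.toPerm k) (fun c : FreeGroup (Fin N) ⧸
      Subgroup.zpowers g => Measure.dirac (act2 c.out p) + Measure.dirac (flip2 (act2 c.out p)))]
    congr 1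
    funext c
    have e : act2 (k • c).out p = act2 k (act2 c.out p) := by
      conv_lhs => rw [← QuotientGroup.out_eq' c]
      rw [MulAction.Quotient.smul_mk, act2_out fx, smul_eq_mul, act2_mul]
    simp only [Function.comp, MulAction.toPerm_apply]
    rw [Measure.map_add _ _ (measurable_act2 k), Measure.map_dirac' (measurable_act2 k),
      Measure.map_dirac' (measurable_act2 k), e, flip2_act2 k]
  · rw [Measure.map_sum measurable_flip2.aemeasurable]
    congr 1
    funext c
    rw [Measure.map_add _ _ measurable_flip2, Measure.map_dirac' measurable_flip2,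
      Measure.map_dirac' measurable_flip2, flip2_flip2, add_comm]

lemma IsCounting.isCurrent {g : FreeGroup (Fin N)} {μ : Measure (DBdry N)} (h : IsCounting g μ) :
    IsCurrent μ :=
  ⟨h.facts.1, regular_of_UU h.facts.2.2.1 h.facts.2.1, h.facts.2.2.1, h.facts.2.2.2⟩

lemma exists_counting {g : FreeGroup (Fin N)} (hg : g ≠ 1) : ∃ μ, IsCounting g μ := by
  obtain ⟨ξ, hξ⟩ := exists_attr hg
  obtain ⟨ζ, hζ⟩ := exists_attr (inv_ne_one.2 hg)
  exact ⟨_, ⟨(ζ, ξ), attr_ne hζ hξ⟩, hζ, hξ, rfl⟩

lemma isCurrent_sum {ι : Type*} [Nonempty ι] (η : ι → Measure (DBdry N)) (hη : ∀ i, IsCurrent (η i))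
    (hU : ∑' i, η i (UU N) < ∞) : IsCurrent (Measure.sum η) := by
  have inv : ∀ k, (Measure.sum η).map (act2 k) = Measure.sum η := by
    intro k
    rw [Measure.map_sum (measurable_act2 k).aemeasurable]
    congr 1; funext i; exact (hη i).inv k
  refine ⟨?_, regular_of_UU inv ?_, inv, ?_⟩
  · intro e
    obtain ⟨i⟩ := ‹Nonempty ι›
    have := Measure.le_sum η i
    rw [e] at this
    exact (hη i).ne_zero (Measure.nonpos_iff_eq_zero'.1 this)
  · rw [Measure.sum_apply _ isClopen_UU.isOpen.measurableSet]; exact hU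
  · rw [Measure.map_sum measurable_flip2.aemeasurable]
    congr 1; funext i; exact (hη i).flip

lemma isCompact_UU : IsCompact (UU N) := by
  rw [Topology.IsEmbedding.subtypeVal.isCompact_iff]
  have : (Subtype.val '' UU N) = {q : Bdry N × Bdry N | q.1.1 0 ≠ q.2.1 0} := by
    ext q
    constructor
    · rintro ⟨p, hp, rfl⟩; exact hp
    · intro hq
      exact ⟨⟨q, fun e => hq (by rw [e])⟩, hq, rfl⟩
  rw [this]
  have c : Continuous fun q : Bdry N × Bdry N => (q.1.1 0, q.2.1 0) :=
    ((continuous_coord 0).comp continuous_fst).prodMk ((continuous_coord 0).comp continuous_snd)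
  exact ((isClosed_discrete {q : (Fin N × Bool) × (Fin N × Bool) | q.1 ≠ q.2}).preimage c).isCompact

lemma IsCurrent.lt_top {μ : Measure (DBdry N)} (h : IsCurrent μ) : μ (UU N) < ∞ := by
  have := h.regular
  exact isCompact_UU.measure_lt_top

lemma IsCurrent.smul {μ : Measure (DBdry N)} (h : IsCurrent μ) {c : ℝ≥0} (hc : c ≠ 0) :
    IsCurrent (c • μ) := by
  have := h.regular
  refine ⟨?_, inferInstance, fun k => by rw [Measure.map_smul, h.inv], by
    rw [Measure.map_smul, h.flip]⟩
  intro e
  apply h.ne_zero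
  have : c⁻¹ • c • μ = 0 := by rw [e, smul_zero]
  rwa [smul_smul, inv_mul_cancel₀ hc, one_smul] at this

lemma IsCurrent.add {μ ν : Measure (DBdry N)} (h : IsCurrent μ) (h' : IsCurrent ν) :
    IsCurrent (μ + ν) := by
  have inv : ∀ k, (μ + ν).map (act2 k) = μ + ν := fun k => by
    rw [Measure.map_add _ _ (measurable_act2 k), h.inv, h'.inv]
  refine ⟨fun e => h.ne_zero (Measure.nonpos_iff_eq_zero'.1 (e ▸ Measure.le_add_right le_rfl)),
    regular_of_UU inv ?_, inv, by rw [Measure.map_add _ _ measurable_flip2, h.flip, h'.flip]⟩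
  rw [Measure.add_apply]
  exact ENNReal.add_lt_top.2 ⟨h.lt_top, h'.lt_top⟩

/-- An additive continuous functional evaluated at an infinite sum of currents. -/
lemma eval_sum {ι : Type*} [Countable ι] [Nonempty ι] (η : ι → Curr N)
    (hs : IsCurrent (Measure.sum fun i => (η i).1)) {I : Curr N → ℝ} (hc : Continuous I)
    (ha : ∀ μ ν ρ : Curr N, ρ.1 = μ.1 + ν.1 → I ρ = I μ + I ν)
    (hsum : Summable fun i => I (η i)) : I ⟨_, hs⟩ = ∑' i, I (η i) := by
  classical
  obtain ⟨i0⟩ := ‹Nonempty ι›
  have fin : ∀ F : Finset ι, F.Nonempty →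
      ∃ μ : Curr N, μ.1 = ∑ i ∈ F, (η i).1 ∧ I μ = ∑ i ∈ F, I (η i) := by
    intro F hF
    induction hF using Finset.Nonempty.cons_induction with
    | singleton i => exact ⟨η i, by simp, by simp⟩
    | cons i F hi _ ih =>
      obtain ⟨μ, h1, h2⟩ := ih
      refine ⟨⟨(η i).1 + μ.1, (η i).2.add μ.2⟩, by rw [Finset.sum_cons, ← h1], ?_⟩
      rw [Finset.sum_cons, ← h2]
      exact ha _ _ _ rfl
  choose Φ hΦ1 hΦ2 using fun F : Finset ι => fin (insert i0 F) (Finset.insert_nonempty _ _)
  have ins : Tendsto (fun F : Finset ι => insert i0 F) atTop atTop :=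
    tendsto_atTop_mono (fun F => Finset.subset_insert _ _) tendsto_id
  have t1 : Tendsto Φ atTop (𝓝 (⟨_, hs⟩ : Curr N)) := by
    refine (Topology.IsInducing.induced _).tendsto_nhds_iff.2 (tendsto_pi_nhds.2 fun f => ?_)
    have := hs.regular
    have int : Integrable f (Measure.sum fun i => (η i).1) :=
      f.continuous.integrable_of_hasCompactSupport f.hasCompactSupport
    have h := (hasSum_integral_measure int)
    have h' : Tendsto (fun F : Finset ι => ∑ i ∈ F, ∫ x, f x ∂(η i).1) atTop
      (𝓝 (∫ x, f x ∂(Measure.sum fun i => (η i).1))) := h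
    refine (h'.comp ins).congr fun F => ?_
    simp only [Function.comp, pairing]
    rw [hΦ1, integral_finsetSum_measure]
    intro i _
    exact int.mono_measure (Measure.le_sum _ i)
  have t2 : Tendsto (fun F => I (Φ F)) atTop (𝓝 (∑' i, I (η i))) := by
    have h' : Tendsto (fun F : Finset ι => ∑ i ∈ F, I (η i)) atTop (𝓝 (∑' i, I (η i))) :=
      hsum.hasSum
    exact (h'.comp ins).congr fun F => (hΦ2 F).symm
  exact tendsto_nhds_unique ((hc.tendsto _).comp t1) t2

end Pool.Agent.H183Z
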