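import Pool.Agent.H183Z.TreeDefs

set_option autoImplicit false

/-! Outer space, geodesic currents and the intersection form for the free group `F_N`. -/

namespace Pool.Agent.H183Z

open MeasureTheory Filter
open scoped NNReal

/-- `T` is a point of unprojectivized Outer space `cv_N`: a minimal isometric action of `F_N` on an
`ℝ`-tree which is free and has discrete orbits. -/
def InCV (N : ℕ) (T : Type*) [MetricSpace T] [MulAction (FreeGroup (Fin N)) T] : Prop :=
  IsMinimalTreeAction (FreeGroup (Fin N)) T ∧
    (∀ (g : FreeGroup (Fin N)) (x : T), g • x = x → g = 1) ∧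
    ∀ x : T, ∃ ε > 0, ∀ g : FreeGroup (Fin N), g • x ≠ x → ε ≤ dist x (g • x)

/-- An infinite word in the letters `(i, true) = a_i` and `(i, false) = a_i⁻¹` is reduced if no
letter is followed by its inverse. -/
def IsRedInf {N : ℕ} (ξ : ℕ → Fin N × Bool) : Prop :=
  ∀ n, (ξ n).1 = (ξ (n + 1)).1 → (ξ n).2 = (ξ (n + 1)).2

/-- The Gromov boundary of `F_N`: infinite reduced words, with the topology of pointwise
convergence. -/
abbrev Bdry (N : ℕ) : Type := {ξ : ℕ → Fin N × Bool // IsRedInf ξ}

variable {N : ℕ}

/-- Left multiplication of an infinite word by the letter `s`: cancel or prepend. -/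
def pushWord (s : Fin N × Bool) (ξ : ℕ → Fin N × Bool) : ℕ → Fin N × Bool :=
  if ξ 0 = (s.1, !s.2) then fun n => ξ (n + 1) else fun n => Nat.casesOn n s ξ

lemma isRedInf_pushWord (s : Fin N × Bool) (ξ : Bdry N) : IsRedInf (pushWord s ξ.1) := by
  unfold pushWord
  split_ifs with h
  · exact fun n => ξ.2 (n + 1)
  · intro n
    cases n with
    | zero =>
      intro e
      by_contra c
      apply h
      refine Prod.ext e.symm ?_
      change ¬ s.2 = (ξ.1 0).2 at c
      change (ξ.1 0).2 = !s.2
      cases h1 : s.2 <;> cases h2 : (ξ.1 0).2 <;> simp_all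
    | succ n => exact ξ.2 n

/-- Left multiplication of a boundary point by a letter. -/
def push (s : Fin N × Bool) (ξ : Bdry N) : Bdry N := ⟨pushWord s ξ.1, isRedInf_pushWord s ξ⟩

lemma push_inv_push (s : Fin N × Bool) (ξ : Bdry N) : push (s.1, !s.2) (push s ξ) = ξ := by
  apply Subtype.ext
  change pushWord (s.1, !s.2) (pushWord s ξ.1) = ξ.1
  by_cases h : ξ.1 0 = (s.1, !s.2)
  · have e : pushWord s ξ.1 = fun n => ξ.1 (n + 1) := if_pos h
    have h1 : ¬ ξ.1 1 = (s.1, !!s.2) := by
      intro c
      have := ξ.2 0
      rw [h, zero_add, c] at this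
      simp at this
    rw [e, pushWord, if_neg h1]
    funext n
    cases n with
    | zero => exact h.symm
    | succ n => rfl
  · have e : pushWord s ξ.1 = fun n => Nat.casesOn n s ξ.1 := if_neg h
    have h1 : pushWord s ξ.1 0 = (s.1, !!s.2) := by rw [e]; simp
    rw [pushWord, if_pos h1]
    funext n
    simp only [e]

/-- The action of `F_N` on its boundary by left multiplication. -/
def act (g : FreeGroup (Fin N)) (ξ : Bdry N) : Bdry N := g.toWord.foldr push ξ

lemma act_injective (g : FreeGroup (Fin N)) : Function.Injective (act g) := by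
  unfold act
  induction g.toWord with
  | nil => exact Function.injective_id
  | cons s l ih =>
    exact (Function.LeftInverse.injective (push_inv_push s)).comp ih

/-- The double boundary: pairs of distinct boundary points. -/
abbrev DBdry (N : ℕ) : Type := {p : Bdry N × Bdry N // p.1 ≠ p.2}

/-- The measurable structure on the double boundary is the Borel one. -/
lemma borelSpace_dbdry : BorelSpace (DBdry N) := by
  have : SecondCountableTopology (Bdry N) := TopologicalSpace.Subtype.secondCountableTopology _
  infer_instance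

lemma act_ne (g : FreeGroup (Fin N)) (p : DBdry N) : act g p.1.1 ≠ act g p.1.2 :=
  fun e => p.2 (act_injective g e)

lemma flip_ne (p : DBdry N) : p.1.2 ≠ p.1.1 := fun e => p.2 e.symm

/-- The diagonal action on the double boundary. -/
def act2 (g : FreeGroup (Fin N)) (p : DBdry N) : DBdry N :=
  ⟨(act g p.1.1, act g p.1.2), act_ne g p⟩

/-- The flip `(x, y) ↦ (y, x)`. -/
def flip2 (p : DBdry N) : DBdry N := ⟨(p.1.2, p.1.1), flip_ne p⟩

/-- Geodesic currents: nonzero Radon measures invariant under `F_N` and under the flip. -/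
structure IsCurrent (μ : Measure (DBdry N)) : Prop where
  ne_zero : μ ≠ 0
  regular : μ.Regular
  inv : ∀ g : FreeGroup (Fin N), μ.map (act2 g) = μ
  flip : μ.map flip2 = μ

/-- The space of geodesic currents. -/
def Curr (N : ℕ) : Type := {μ : Measure (DBdry N) // IsCurrent μ}

/-- The integral of a continuous function of compact support against a current. -/
noncomputable def pairing (μ : Curr N) (f : CompactlySupportedContinuousMap (DBdry N) ℝ) : ℝ :=
  ∫ x, f x ∂μ.1

/-- The weak-* topology: the coarsest one for which the integrals of all continuous functions of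
compact support are continuous. -/
noncomputable instance : TopologicalSpace (Curr N) :=
  TopologicalSpace.induced pairing inferInstance

/-- `ξ = g^{+∞}`: the reduced words of the powers `g ^ n` converge to `ξ`. -/
def IsAttr (g : FreeGroup (Fin N)) (ξ : Bdry N) : Prop :=
  ∀ k : ℕ, ∀ᶠ n : ℕ in atTop, (g ^ n).toWord[k]? = some (ξ.1 k)

/-- The sum of the Dirac masses at `q` and at its flip. -/
noncomputable def diracPair (q : DBdry N) : Measure (DBdry N) :=
  Measure.dirac q + Measure.dirac (flip2 q)

/-- `μ` is the counting current `η_g`: the sum over the cosets `h ⟨g⟩` of the Dirac masses at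
`h (g^{-∞}, g^{+∞})` and at its flip. (If `g = f ^ k` with `f` not a proper power, this is
`k η_f`.) -/
def IsCounting (g : FreeGroup (Fin N)) (μ : Measure (DBdry N)) : Prop :=
  ∃ p : DBdry N, IsAttr g⁻¹ p.1.1 ∧ IsAttr g p.1.2 ∧
    μ = Measure.sum fun c : FreeGroup (Fin N) ⧸ Subgroup.zpowers g => diracPair (act2 c.out p)

/-- `I = ⟨T, ·⟩` is the intersection form with the tree `T`: it is continuous, additive,
positively homogeneous and `⟨T, η_g⟩ = ‖g‖_T` for all nontrivial `g`. -/
structure IsIntersection (N : ℕ) (T : Type*) [MetricSpace T] [MulAction (FreeGroup (Fin N)) T]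
    (I : Curr N → ℝ) : Prop where
  cont : Continuous I
  add : ∀ μ ν ρ : Curr N, ρ.1 = μ.1 + ν.1 → I ρ = I μ + I ν
  smul : ∀ (c : ℝ≥0) (μ ν : Curr N), ν.1 = c • μ.1 → I ν = c * I μ
  counting : ∀ g : FreeGroup (Fin N), g ≠ 1 → ∀ μ : Curr N, IsCounting g μ.1 →
    I μ = transLength T g

/-- `S` is spectrally rigid: two trees of `cv_N` whose intersection forms agree on `S` are
equivariantly isometric. -/
def SpectrallyRigid (N : ℕ) (S : Set (Curr N)) : Prop :=
  ∀ (T T' : Type) [MetricSpace T] [MulAction (FreeGroup (Fin N)) T]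
    [MetricSpace T'] [MulAction (FreeGroup (Fin N)) T'], InCV N T → InCV N T' →
    ∀ I I' : Curr N → ℝ, IsIntersection N T I → IsIntersection N T' I' →
      (∀ μ ∈ S, I μ = I' μ) → EquivIsometric (FreeGroup (Fin N)) T T'

end Pool.Agent.H183Z
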