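import Pool.Agent.H183Z.Twist

set_option autoImplicit false

/-! A deformation of the rose which is invisible to words avoiding a family of turns. -/

namespace Pool.Agent.H183Z

open MeasureTheory Filter FreeGroup Topology

variable {N : ℕ}

lemma exists_core_line {g : FreeGroup (Fin N)} (hg : g ≠ 1) :
    ∃ (k : FreeGroup (Fin N)) (u : List (Fin N × Bool)) (t : Fin N × Bool),
      g = k * mk (u ++ [t]) * k⁻¹ ∧ IsReduced ((u ++ [t]) ++ (u ++ [t])) ∧
      len1 (g * g) - len1 g = (u ++ [t]).length ∧
      ∃ q ∈ Lines g, q.1.1.1 0 = linv t ∧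
        ∀ j < (u ++ [t]).length, (u ++ [t])[j]? = some (q.1.2.1 j) := by
  obtain ⟨u, t, hw⟩ := (List.eq_nil_or_concat' (reduceCyclically g.toWord)).resolve_left
    (core_ne_nil hg)
  have tw := toWord_pow_succ g
  have l0 := len1_pow g 0
  have l1 := len1_pow g 1
  have cy := reduceCyclically.isCyclicallyReduced (isReduced_toWord (x := g))
  have dec := reduceCyclically.conj_conjugator_reduceCyclically g.toWord
  rw [hw] at tw l0 l1 cy dec
  set c := reduceCyclically.conjugator g.toWord
  obtain ⟨ξ, hξ⟩ := exists_attr hg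
  obtain ⟨ζ, hζ⟩ := exists_attr (inv_ne_one.2 hg)
  have key : ∀ (z : FreeGroup (Fin N)) (m : List (Fin N × Bool)), z.toWord = c ++ m →
      ((mk c)⁻¹ * z).toWord = m := by
    intro z m h
    have r : IsReduced (c ++ m) := h ▸ isReduced_toWord
    rw [← mk_toWord (x := z), h, ← mul_mk, inv_mul_cancel_left,
      toWord_mk_of_reduced (List.IsChain.right_of_append r)]
  refine ⟨mk c, u, t, ?_, ?_, ?_, act2 (mk c)⁻¹ ⟨(ζ, ξ), attr_ne hζ hξ⟩,
    ⟨_, hζ, hξ, _, Or.inl rfl⟩, ?_, fun j hj => ?_⟩
  · rw [inv_mk, mul_mk, mul_mk, dec, mk_toWord]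
  · simpa using cy.flatten_replicate 2 |>.isReduced
  · rw [show g * g = g ^ (1 + 1) by simp [pow_succ], l1]
    rw [zero_add, pow_one] at l0
    rw [l0]; push_cast; ring
  · obtain ⟨n, hn⟩ := ((tendsto_add_atTop_nat 1).eventually (Lim.mul hζ (mk c)⁻¹ 0)).exists
    simp only at hn
    rw [key _ (invRev (List.replicate (n + 1) (u ++ [t])).flatten ++ invRev c) (by
      rw [inv_pow, toWord_inv, tw, invRev_append, invRev_append, invRev_invRev])] at hn
    rw [List.replicate_succ', List.flatten_concat, invRev_append, invRev_append] at hn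
    exact (Option.some_injective _ hn).symm
  · obtain ⟨n, hn⟩ := ((tendsto_add_atTop_nat 1).eventually (Lim.mul hξ (mk c)⁻¹ j)).exists
    simp only at hn
    rw [key _ ((List.replicate (n + 1) (u ++ [t])).flatten ++ invRev c) (by
      rw [tw, List.append_assoc])] at hn
    rw [List.replicate_succ, List.flatten_cons, List.append_assoc, List.getElem?_append_left hj] at hn
    exact hn

section
variable (x : Fin N × Bool) (χ : Fin N × Bool → Bool)

/-- path from the base vertex to the vertex carrying the germ `u` -/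
def gam (u : Fin N × Bool) : FreeGroup (Fin N ⊕ Bool) := if u = x then 1 else of (Sum.inr (χ u))

/-- the marking of the blown up graph -/
def iota : FreeGroup (Fin N) →* FreeGroup (Fin N ⊕ Bool) :=
  FreeGroup.lift fun i => gam x χ (i, true) * of (Sum.inl i) * (gam x χ (i, false))⁻¹

/-- the edge of a letter -/
def up (s : Fin N × Bool) : (Fin N ⊕ Bool) × Bool := (Sum.inl s.1, s.2)

lemma iota_letter (s : Fin N × Bool) :
    iota x χ (mk [s]) = gam x χ s * mk [up s] * (gam x χ (linv s))⁻¹ := by
  rcases s with ⟨i, b⟩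
  cases b
  · rw [mk_false, _root_.map_inv]
    simp only [iota, lift_apply_of, linv, Bool.not_false, up, mk_false]
    group
  · rw [mk_true]
    simp only [iota, lift_apply_of, linv, Bool.not_true, up, mk_true]

lemma iota_injective : Function.Injective (iota x χ) := by
  let r : FreeGroup (Fin N ⊕ Bool) →* FreeGroup (Fin N) := FreeGroup.lift (Sum.elim of fun _ => 1)
  have e : ∀ u, r (gam x χ u) = 1 := by
    intro u
    unfold gam
    split_ifs <;> simp [r]
  have : r.comp (iota x χ) = MonoidHom.id _ := by
    ext i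
    simp only [MonoidHom.comp_apply, iota, lift_apply_of, _root_.map_mul, _root_.map_inv, e]
    simp [r]
  exact Function.LeftInverse.injective (g := r) fun g => DFunLike.congr_fun this g

/-- connecting path -/
def con (y s : Fin N × Bool) : List ((Fin N ⊕ Bool) × Bool) :=
  if y = x then (if s = x then [] else [(Sum.inr (χ s), true)])
  else if s = x then [(Sum.inr (χ y), false)]
  else if χ y = χ s then [] else [(Sum.inr (χ y), false), (Sum.inr (χ s), true)]

lemma mk_con (y s : Fin N × Bool) : mk (con x χ y s) = (gam x χ y)⁻¹ * gam x χ s := by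
  have e : (mk ([] : List ((Fin N ⊕ Bool) × Bool))) = 1 := rfl
  unfold con gam
  split_ifs with h1 h2 h3 h4
  · simp [e]
  · simp [mk_true]
  · simp [mk_false]
  · simp [e, h4]
  · rw [mk_cons', mk_true, mk_false]

/-- the reduced path of a word -/
def WW : Fin N × Bool → List (Fin N × Bool) → List ((Fin N ⊕ Bool) × Bool)
  | y, [] => con x χ y x
  | y, s :: l => con x χ y s ++ up s :: WW (linv s) l

lemma mk_WW (y : Fin N × Bool) (l : List (Fin N × Bool)) :
    mk (WW x χ y l) = (gam x χ y)⁻¹ * iota x χ (mk l) := by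
  induction l generalizing y with
  | nil =>
    have e : (mk ([] : List (Fin N × Bool))) = 1 := rfl
    rw [WW, mk_con, e, _root_.map_one]; simp [gam]
  | cons s l ih =>
    rw [WW, ← mul_mk, mk_con, mk_cons', ih, mk_cons' s, _root_.map_mul, iota_letter]
    group

lemma red_WW (t : Fin N × Bool) (l : List (Fin N × Bool)) (h : IsReduced (t :: l)) :
    IsReduced (up t :: WW x χ (linv t) l) := by
  induction l generalizing t with
  | nil =>
    rw [WW, con]
    split_ifs <;> simp_all [isReduced_cons_cons, up]
  | cons s l ih =>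
    have a := ih s (isReduced_tail h)
    have b := (isReduced_cons_cons.1 h).1
    rw [WW, con]
    split_ifs <;> simp_all [isReduced_cons_cons, up]

lemma red_WW' (l : List (Fin N × Bool)) (h : IsReduced l) : IsReduced (WW x χ x l) := by
  cases l with
  | nil => simp [WW, con]
  | cons s l =>
    have a := red_WW x χ s l h
    rw [WW, con]
    split_ifs <;> simp_all [isReduced_cons_cons, up]

/-- edge lengths -/
noncomputable def om : Fin N ⊕ Bool → ℝ :=
  Sum.elim (fun i => if i = x.1 then 1 / 2 else 1) fun _ => 1 / 2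

lemma half_le_om (a : Fin N ⊕ Bool) : 1 / 2 ≤ om x a := by
  rcases a with a | a
  · simp only [om, Sum.elim_inl]; split_ifs <;> norm_num
  · simp [om]

/-- potential -/
noncomputable def pot (y : Fin N × Bool) : ℝ := if y = x then 1 / 2 else 0

/-- indicator of the forbidden turns -/
noncomputable def badt (y s : Fin N × Bool) : ℝ := if y ≠ x ∧ s ≠ x ∧ χ y ≠ χ s then 1 else 0

lemma wl_con {y s : Fin N × Bool} (h : y ≠ s) :
    wl (om x) (con x χ y s) = pot x y + pot x s + badt x χ y s := by
  unfold con pot badt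
  split_ifs <;> simp_all [om]
  norm_num

lemma om_up (s : Fin N × Bool) : om x (up s).1 = 1 - pot x s - pot x (linv s) := by
  simp only [om, up, Sum.elim_inl, pot]
  by_cases h : s.1 = x.1
  · rw [if_pos h]
    rcases eq_or_linv h with e | e
    · rw [if_pos e, if_neg (by rw [e]; exact linv_ne x)]; norm_num
    · rw [if_neg (by rw [e]; exact linv_ne x), if_pos (by rw [e, linv_linv])]; norm_num
  · rw [if_neg h, if_neg (fun e => h (by rw [e])), if_neg (fun e => h (by rw [← e]; rfl))]; norm_num

/-- last germ -/
def germ : Fin N × Bool → List (Fin N × Bool) → Fin N × Bool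
  | y, [] => y
  | _, s :: l => germ (linv s) l

/-- number of forbidden turns -/
noncomputable def bsum : Fin N × Bool → List (Fin N × Bool) → ℝ
  | _, [] => 0
  | y, s :: l => badt x χ y s + bsum (linv s) l

lemma germ_concat (y t : Fin N × Bool) (u : List (Fin N × Bool)) : germ y (u ++ [t]) = linv t := by
  induction u generalizing y with
  | nil => rfl
  | cons s u ih => exact ih _

lemma wl_WW (t : Fin N × Bool) (l : List (Fin N × Bool)) (h : IsReduced (t :: l)) :
    wl (om x) (WW x χ (linv t) l) = l.length + pot x (linv t) + bsum x χ (linv t) l +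
      (wl (om x) (con x χ (germ (linv t) l) x) - pot x (germ (linv t) l)) := by
  induction l generalizing t with
  | nil => simp [WW, bsum, germ]
  | cons s l ih =>
    rw [WW, wl_append, wl_cons, ih s (isReduced_tail h), om_up,
      wl_con x χ (ne_linv_of_red (isReduced_cons_cons.1 h).1).symm, bsum, germ, List.length_cons]
    push_cast; ring

lemma wl_WW_append (y : Fin N × Bool) (l m : List (Fin N × Bool)) :
    wl (om x) (WW x χ y (l ++ m)) = wl (om x) (WW x χ y l) - wl (om x) (con x χ (germ y l) x) +
      wl (om x) (WW x χ (germ y l) m) := by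
  induction l generalizing y with
  | nil => simp [WW, germ]
  | cons s l ih =>
    rw [List.cons_append, WW, WW, wl_append, wl_cons, ih, wl_append, wl_cons, germ]; ring

/-- the length function of the blown up graph -/
noncomputable def LL (g : FreeGroup (Fin N)) : ℝ := wlen (om x) (iota x χ g)

lemma LL_mk {l : List (Fin N × Bool)} (h : IsReduced l) :
    LL x χ (mk l) = wl (om x) (WW x χ x l) := by
  have := mk_WW x χ x l
  rw [gam, if_pos rfl, inv_one, one_mul] at this
  rw [LL, ← this, wlen_mk (red_WW' x χ l h)]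

lemma LL_sq {u : List (Fin N × Bool)} {t : Fin N × Bool}
    (h : IsReduced ((u ++ [t]) ++ (u ++ [t]))) :
    LL x χ (mk (u ++ [t]) * mk (u ++ [t])) - LL x χ (mk (u ++ [t])) =
      (u ++ [t]).length + bsum x χ (linv t) (u ++ [t]) := by
  have r : IsReduced (t :: (u ++ [t])) := by
    rw [List.append_assoc] at h
    exact List.IsChain.right_of_append h
  rw [mul_mk, LL_mk x χ h, LL_mk x χ (List.IsChain.left_of_append h), wl_WW_append, germ_concat,
    wl_WW x χ t _ r, germ_concat]
  ring

lemma bsum_eq_zero (y : Fin N × Bool) (l : List (Fin N × Bool)) (ξ : ℕ → Fin N × Bool)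
    (h : ∀ j < l.length, l[j]? = some (ξ j)) (h0 : badt x χ y (ξ 0) = 0)
    (h1 : ∀ j, badt x χ (linv (ξ j)) (ξ (j + 1)) = 0) : bsum x χ y l = 0 := by
  induction l generalizing y ξ with
  | nil => rfl
  | cons s l ih =>
    have e : s = ξ 0 := by simpa using h 0 (by simp)
    rw [bsum, e, h0, zero_add]
    exact ih _ (fun j => ξ (j + 1)) (fun j hj => by simpa using h (j + 1) (by simpa using hj))
      (h1 0) fun j => h1 (j + 1)

lemma LL_pow (m : ℕ) : LL x χ (mk [x] ^ m) = m * 1 := by
  have r : IsReduced (List.replicate m x) := toWord_letter_pow x m ▸ isReduced_toWord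
  have c : wl (om x) (con x χ (linv x) x) = 1 / 2 := by simp [con, linv_ne, om]
  have o : om x (up x).1 = 1 / 2 := by simp [om, up]
  have a : ∀ n : ℕ, wl (om x) (WW x χ (linv x) (List.replicate n x)) = n + 1 / 2 := by
    intro n
    induction n with
    | zero => simpa [WW] using c
    | succ n ih =>
      rw [List.replicate_succ, WW, wl_append, wl_cons, ih, c, o]; push_cast; ring
  rw [← mk_toWord (x := mk [x] ^ m), toWord_letter_pow, LL_mk x χ r]
  cases m with
  | zero => simp [WW, con]
  | succ m =>
    rw [List.replicate_succ, WW, wl_append, wl_cons, a, o]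
    simp only [con, if_true, wl_nil]
    push_cast; ring

lemma lyndon_LL : Lyndon (LL x χ) :=
  (lyndon_wlen fun a => le_trans (by norm_num) (half_le_om x a)).comp (iota x χ)

lemma LL_add_le {g : FreeGroup (Fin N)} (hg : g ≠ 1) : LL x χ g + 1 / 2 ≤ LL x χ (g * g) := by
  unfold LL
  rw [_root_.map_mul]
  exact wlen_add_le_sq (by norm_num) (half_le_om x)
    fun e => hg (iota_injective x χ (e.trans (_root_.map_one _).symm))

end

theorem deform {T : Set ((Fin N × Bool) × (Fin N × Bool))} (sy : ∀ s t, (s, t) ∈ T → (t, s) ∈ T)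
    (h : ¬ TwoC T) : ∃ L : FreeGroup (Fin N) → ℝ, Lyndon L ∧ (∀ g, g ≠ 1 → L g + 1 / 2 ≤ L (g * g)) ∧
      (∃ k, ∀ m : ℕ, L (k ^ m) = m * 1) ∧
      (∀ g, g ≠ 1 → Tn g ⊆ T → L (g * g) - L g = len1 (g * g) - len1 g) ∧
      ∃ g, g ≠ 1 ∧ L (g * g) - L g ≠ len1 (g * g) - len1 g := by
  classical
  unfold TwoC at h
  push Not at h
  obtain ⟨x, χ', ⟨p, hp, hp'⟩, ⟨r, hr, hr'⟩, h⟩ := h
  let χ : Fin N × Bool → Bool := fun s => decide (χ' s)
  have ok : ∀ s t, (s, t) ∈ T → badt x χ s t = 0 := by
    intro s t hst
    refine if_neg fun ⟨a, b, c⟩ => c ?_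
    simp only [χ, decide_eq_decide]
    exact ⟨fun d => by_contra fun e => h s t a b d e hst,
      fun d => by_contra fun e => h t s b a d e (sy _ _ hst)⟩
  refine ⟨LL x χ, lyndon_LL x χ, fun g hg => LL_add_le x χ hg, ⟨_, LL_pow x χ⟩, fun g hg hT => ?_,
    mk ([linv p] ++ [r]), ?_⟩
  · obtain ⟨k, u, t, e, red, e2, q, hq, h0, h1⟩ := exists_core_line hg
    have w1 : mk (u ++ [t]) ≠ 1 := by
      intro c
      rw [c] at e
      exact hg (by simpa using e)
    have hU : q ∈ UU N := by
      have r : IsReduced (t :: (u ++ [t])) := by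
        rw [List.append_assoc] at red
        exact List.IsChain.right_of_append red
      have a := h1 0 (by simp)
      obtain ⟨s, l, hs⟩ := List.exists_cons_of_ne_nil (l := u ++ [t]) (by simp)
      rw [hs] at r a
      have b := ne_linv_of_red (isReduced_cons_cons.1 r).1
      change _ ≠ _
      rw [h0, ← Option.some_injective _ a]
      exact b.symm
    rw [e2, ← CTree.transLength_eq' (H := lyndon_LL x χ) g (by linarith [LL_add_le x χ hg])]
    conv_lhs => rw [e]
    rw [transLength_conj CTree.isom,
      CTree.transLength_eq' _ (by linarith [LL_add_le x χ w1]), LL_sq x χ red,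
      bsum_eq_zero x χ _ _ q.1.2.1 h1 (ok _ _ (hT (h0 ▸ Tn_of_mem hq hU)))
        fun j => ok _ _ (hT (Tn_succ hq hU j)), add_zero]
  · have pr : p ≠ r := fun e => hr' (e ▸ hp')
    have red : IsReduced (([linv p] ++ [r]) ++ ([linv p] ++ [r])) := by
      have a : (linv p).1 = r.1 → (linv p).2 = r.2 := fun e => by
        rcases eq_or_linv e.symm with z | z
        · rw [z]
        · rw [linv_linv] at z; exact absurd z.symm pr
      simp only [List.cons_append, List.nil_append, isReduced_cons_cons]
      exact ⟨a, fun e => (a e.symm).symm, a, IsReduced.singleton⟩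
    have red1 : IsReduced ([linv p] ++ [r]) := List.IsChain.left_of_append red
    refine ⟨fun c => ?_, ?_⟩
    · have := toWord_mk_of_reduced red1
      rw [c] at this
      simp at this
    · rw [LL_sq x χ red, mul_mk, len1, wlen_mk red, wlen_mk red1, wl_one, wl_one]
      have b1 : badt x χ p r = 1 := if_pos ⟨hp, hr, by simp [χ, hp', hr']⟩
      have b2 : 0 ≤ badt x χ (linv r) (linv p) := by unfold badt; split_ifs <;> norm_num
      simp only [List.cons_append, List.nil_append, bsum, linv_linv, b1, List.length_cons,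
        List.length_nil]
      push_cast
      linarith

end Pool.Agent.H183Z
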