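import Pool.Agent.H183Z.Buse

set_option autoImplicit false

/-! Existence of the intersection form with a tree of Outer space. -/

namespace Pool.Agent.H183Z

open MeasureTheory Filter FreeGroup Topology
open scoped NNReal ENNReal

variable {N : ℕ}

lemma len1_letter_mul {y : FreeGroup (Fin N)} {t : Fin N × Bool} (h : y.toWord[0]? = some t)
    (s : Fin N × Bool) : len1 (mk [s] * y) = len1 y + (if t = linv s then -1 else 1) := by
  unfold len1 wlen
  rw [wl_one, wl_one, toWord_letter_mul, List.head?_eq_getElem?, h]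
  simp only [Option.some.injEq]
  split_ifs
  · cases hy : y.toWord with
    | nil => rw [hy] at h; simp at h
    | cons a l => simp
  · simp

lemma exists_height {g : FreeGroup (Fin N)} {ξ : Bdry N} (h : IsAttr g ξ) (d : FreeGroup (Fin N)) :
    ∃ z : ℤ, ∀ᶠ k : ℕ in atTop, len1 (d * g ^ k) = len1 (g ^ k) + z := by
  rw [← mk_toWord (x := d)]
  induction d.toWord with
  | nil =>
    have e : (mk ([] : List (Fin N × Bool))) = 1 := rfl
    exact ⟨0, Eventually.of_forall fun k => by simp [e]⟩
  | cons s l ih =>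
    obtain ⟨z, hz⟩ := ih
    refine ⟨z + (if (act (mk l) ξ).1 0 = linv s then -1 else 1), ?_⟩
    filter_upwards [hz, Lim.mul h (mk l) 0] with k h1 h2
    rw [mk_cons', mul_assoc, len1_letter_mul h2, h1]
    split_ifs <;> push_cast <;> ring

lemma eq_one_of_len1 {y : FreeGroup (Fin N)} (h : len1 y ≤ 0) : y = 1 := by
  unfold len1 wlen at h
  rw [wl_one] at h
  have : y.toWord.length = 0 := by exact_mod_cast le_antisymm h (Nat.cast_nonneg _)
  exact toWord_eq_nil_iff.1 (List.length_eq_zero_iff.1 this)

lemma Lyndon.eq_of_height {G : Type*} [Group G] {L : G → ℝ} (H : Lyndon L) {A B d d' : G}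
    (h1 : lc L (d * A) (d * B) = 0) (h2 : lc L (d' * A) (d' * B) = 0)
    (h3 : L (d * B) = L (d' * B)) : L (d * d'⁻¹) ≤ 0 := by
  have a := H.hyp (d * A) (d * B) (d * d'⁻¹)
  rw [h1] at a
  unfold lc at a h1 h2
  have e1 : (d * A)⁻¹ * (d * d'⁻¹) = (d' * A)⁻¹ := by group
  have e2 : (d * B)⁻¹ * (d * d'⁻¹) = (d' * B)⁻¹ := by group
  have e3 : (d * A)⁻¹ * (d * B) = A⁻¹ * B := by group
  have e4 : (d' * A)⁻¹ * (d' * B) = A⁻¹ * B := by group
  rw [e1, e2, H.inv, H.inv] at a
  rw [e3] at h1
  rw [e4] at h2
  rcases a with a | a <;> linarith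

lemma succ_mem_UU {q : DBdry N} (h : q ∈ UU N) : act2 (mk [q.1.2.1 0])⁻¹ q ∈ UU N := by
  rw [← mk_linv]
  simp only [UU, Set.mem_ofPred_eq, act2, act_letter, push_val, linv_linv, if_true] at h ⊢
  rw [if_neg h]
  intro e
  have := q.1.2.2 0
  simp only [zero_add] at e this
  rw [← e] at this
  simp [linv] at this

section
variable {T : Type*} [MetricSpace T] [MulAction (FreeGroup (Fin N)) T]

lemma sum_busemann (H : InCV N T) (x : T) {β : Bdry N → ℝ}
    (hβ : ∀ (y : ℕ → FreeGroup (Fin N)) (ξ : Bdry N), Lim y ξ → ∀ᶠ k in atTop,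
      dist x (y k • x) - dist x (((mk [ξ.1 0])⁻¹ * y k) • x) = β ξ)
    {g : FreeGroup (Fin N)} (hg : g ≠ 1) {p : DBdry N} (h1 : IsAttr g⁻¹ p.1.1)
    (h2 : IsAttr g p.1.2) (Hs : Subgroup (FreeGroup (Fin N))) (hH : Hs = Subgroup.zpowers g) :
    HasSum (fun c : FreeGroup (Fin N) ⧸ Hs =>
      (UU N).indicator (fun q => β q.1.2) (act2 c.out p)) (transLength T g) := by
  classical
  subst hH
  have fx := act2_fixed h1 h2
  choose ht hht using exists_height h2
  set n := (reduceCyclically g.toWord).length with hn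
  have npos : 0 < n := List.length_pos_iff.2 (core_ne_nil hg)
  have ht_g : ∀ d, ht (d * g) = ht d + n := by
    intro d
    have s1 := (tendsto_add_atTop_nat 1).eventually (hht (d * g))
    have s2 := (tendsto_add_atTop_nat 2).eventually (hht d)
    obtain ⟨k, a, b⟩ := (s1.and s2).exists
    have c1 := len1_pow g k
    have c2 := len1_pow g (k + 1)
    have e : d * g * g ^ (k + 1) = d * g ^ (k + 2) := by group
    rw [e, b, c1, ← hn] at a
    rw [show k + 2 = k + 1 + 1 from rfl, c2, ← hn] at a
    push_cast at a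
    have : (ht (d * g) : ℝ) = ht d + n := by linarith
    exact_mod_cast this
  have ht_z : ∀ d (m : ℤ), ht (d * g ^ m) = ht d + m * n := by
    intro d m
    induction m using Int.induction_on with
    | zero => simp
    | succ m ih => rw [zpow_add_one, ← mul_assoc, ht_g, ih]; ring
    | pred m ih =>
      have := ht_g (d * g ^ (-(m : ℤ) - 1))
      rw [mul_assoc, ← zpow_add_one, sub_add_cancel, ih] at this
      linarith
  have inj : ∀ d d', act2 d p ∈ UU N → act2 d' p ∈ UU N → ht d = ht d' → d = d' := by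
    intro d d' hd hd' e
    obtain ⟨k, ⟨⟨a1, a2⟩, ⟨b1, b2⟩⟩, c1, c2⟩ :=
      ((((Lim.mul h1 d 0).and (Lim.mul h2 d 0)).and ((Lim.mul h1 d' 0).and (Lim.mul h2 d' 0))).and
        ((hht d).and (hht d'))).exists
    have z1 := cw_eq_zero (fun _ => 1) a1 a2 hd
    have z2 := cw_eq_zero (fun _ => 1) b1 b2 hd'
    rw [← lc_wlen] at z1 z2
    have := lyndon_len1.eq_of_height z1 z2 (by rw [c1, c2, e])
    exact mul_inv_eq_one.1 (eq_one_of_len1 this)
  let σ : FreeGroup (Fin N) → FreeGroup (Fin N) := fun d => (mk [(act d p.1.2).1 0])⁻¹ * d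
  have σD : ∀ d, act2 d p ∈ UU N → act2 (σ d) p ∈ UU N := by
    intro d hd
    simp only [σ]
    rw [act2_mul]
    exact succ_mem_UU hd
  have σh : ∀ d, ht (σ d) = ht d - 1 := by
    intro d
    obtain ⟨k, a, b, c⟩ := ((Lim.mul h2 d 0).and ((hht d).and (hht (σ d)))).exists
    have := len1_letter_mul a (linv ((act d p.1.2).1 0))
    rw [linv_linv, if_pos rfl, mk_linv, ← mul_assoc, b] at this
    simp only [σ] at c
    rw [this] at c
    have : (ht (σ d) : ℝ) = ht d - 1 := by simp only [σ]; linarith
    exact_mod_cast this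
  obtain ⟨d0, hd0⟩ := exists_act2_mem p
  let D : ℕ → FreeGroup (Fin N) := fun j => σ^[j] d0
  have Ds : ∀ j, D (j + 1) = σ (D j) := fun j => Function.iterate_succ_apply' σ j d0
  have DU : ∀ j, act2 (D j) p ∈ UU N := by
    intro j
    induction j with
    | zero => exact hd0
    | succ j ih => rw [Ds]; exact σD _ ih
  have Dh : ∀ j, ht (D j) = ht d0 - j := by
    intro j
    induction j with
    | zero => simp [D]
    | succ j ih => rw [Ds, σh, ih]; push_cast; ring
  have Uz : ∀ d (m : ℤ), act2 (d * g ^ m) p = act2 d p := fun d m => by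
    rw [act2_mul, act2_zpow fx]
  have Dn : D n = d0 * g ^ (-1 : ℤ) := by
    apply inj _ _ (DU n) (by rw [Uz]; exact hd0)
    rw [Dh, ht_z]; ring
  have tel : ∑ j ∈ Finset.range n, β (act (D j) p.1.2) = transLength T g := by
    apply slope_eq H x hg (D n)
    have ev : ∀ᶠ k : ℕ in atTop, ∀ j ∈ Finset.range n,
        dist x ((D j * g ^ k) • x) - dist x ((D (j + 1) * g ^ k) • x) = β (act (D j) p.1.2) := by
      refine (eventually_all_finset _).2 fun j _ => ?_
      filter_upwards [hβ _ _ (Lim.mul h2 (D j))] with k hk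
      rw [Ds, ← hk]
      simp only [σ, mul_assoc]
    filter_upwards [ev] with k hk
    rw [← Finset.sum_congr rfl hk, Finset.sum_range_sub' (fun j => dist x ((D j * g ^ k) • x))]
    have : D n * g ^ (k + 1) = D 0 * g ^ k := by
      rw [Dn]; simp only [D, Function.iterate_zero_apply]; group
    rw [this]
  let F : Finset (FreeGroup (Fin N) ⧸ Subgroup.zpowers g) :=
    (Finset.range n).image fun j => QuotientGroup.mk (D j)
  have hs := hasSum_sum_of_ne_finset_zero (L := SummationFilter.unconditional _)
    (f := fun c : FreeGroup (Fin N) ⧸ Subgroup.zpowers g =>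
      (UU N).indicator (fun q => β q.1.2) (act2 c.out p)) (s := F) (by
    intro c hc
    refine Set.indicator_of_notMem (fun hU => hc ?_) _
    obtain ⟨m, hm⟩ : ∃ m : ℤ, ∃ j : ℕ, j < n ∧ ht c.out + m * n = ht d0 - j := by
      have n0 : (0 : ℤ) < n := by exact_mod_cast npos
      refine ⟨(ht d0 - ht c.out) / n, ((ht d0 - ht c.out) % n).toNat, ?_, ?_⟩
      · have := Int.emod_lt_of_pos (ht d0 - ht c.out) n0
        have := Int.emod_nonneg (ht d0 - ht c.out) n0.ne'
        omega
      · rw [Int.toNat_of_nonneg (Int.emod_nonneg _ n0.ne')]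
        have := Int.mul_ediv_add_emod (ht d0 - ht c.out) n
        linarith
    obtain ⟨j, hj, e⟩ := hm
    have : c.out * g ^ m = D j := inj _ _ (by rw [Uz]; exact hU) (DU j) (by rw [ht_z, Dh, e])
    refine Finset.mem_image.2 ⟨j, Finset.mem_range.2 hj, ?_⟩
    rw [← this, QuotientGroup.mk_mul_of_mem _ (Subgroup.zpow_mem_zpowers g m),
      QuotientGroup.out_eq'])
  convert hs using 1
  rw [Finset.sum_image, ← tel]
  · refine Finset.sum_congr rfl fun j _ => ?_
    rw [act2_out fx, Set.indicator_of_mem (DU j)]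
    rfl
  · intro i hi j hj e
    obtain ⟨m, hm⟩ := QuotientGroup.eq.1 e
    have e2 : D j = D i * g ^ m := by
      simp only at hm
      rw [hm]; group
    have e3 := congrArg ht e2
    rw [ht_z, Dh, Dh] at e3
    have hi' : i < n := Finset.mem_range.1 hi
    have hj' : j < n := Finset.mem_range.1 hj
    have : m = 0 := by
      by_contra c
      rcases lt_or_gt_of_ne c with c | c
      · have : m * n ≤ -n := by nlinarith
        omega
      · have : (n : ℤ) ≤ m * n := by nlinarith
        omega
    rw [this] at e3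
    omega

theorem exists_intersection (H : InCV N T) : ∃ I : Curr N → ℝ, IsIntersection N T I := by
  obtain ⟨x⟩ := H.1.nonempty
  obtain ⟨β, hc, hβ⟩ := exists_busemann H x
  let f0 : DBdry N → ℝ := (UU N).indicator fun q => β q.1.2 / 2
  have cf : Continuous f0 := isClopen_UU.continuous_indicator
    ((hc.comp (continuous_snd.comp continuous_subtype_val)).div_const 2)
  let f : CompactlySupportedContinuousMap (DBdry N) ℝ :=
    ⟨⟨f0, cf⟩, HasCompactSupport.intro isCompact_UU fun q hq =>
      Set.indicator_of_notMem hq fun q : DBdry N => β q.1.2 / 2⟩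
  have int : ∀ μ : Curr N, Integrable f μ.1 := fun μ => by
    have := μ.2.regular
    exact f.continuous.integrable_of_hasCompactSupport f.hasCompactSupport
  have ci : Continuous fun (μ : Curr N) (f : CompactlySupportedContinuousMap (DBdry N) ℝ) =>
      ∫ x, f x ∂μ.1 := continuous_induced_dom
  refine ⟨fun μ => ∫ q, f q ∂μ.1, (continuous_apply f).comp ci,
    fun μ ν ρ e => ?_, fun c μ ν e => ?_, fun g hg μ hμ => ?_⟩
  · simp only [e]
    exact integral_add_measure (int μ) (int ν)
  · simp only [e]
    rw [integral_smul_nnreal_measure]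
    rfl
  · obtain ⟨p, h1, h2, e⟩ := hμ
    unfold diracPair at e
    have i := int μ
    rw [e] at i
    have s := hasSum_integral_measure i
    have s1 := sum_busemann H x hβ hg h1 h2 _ rfl
    have s2 := sum_busemann H x hβ (inv_ne_one.2 hg) (p := flip2 p) (by rw [inv_inv]; exact h2) h1
      (Subgroup.zpowers g) Subgroup.zpowers_inv.symm
    have e2 : transLength T g⁻¹ = transLength T g := by
      unfold transLength
      congr 1
      funext y
      rw [dist_inv_smul H.1.isom, dist_comm]
    rw [e2] at s2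
    have s3 := (s1.add s2).div_const 2
    simp only [e]
    rw [add_self_div_two] at s3
    refine s.unique (s3.congr_fun fun c => ?_)
    rw [integral_add_measure (integrable_dirac (by simp)) (integrable_dirac (by simp)),
      integral_dirac, integral_dirac, ← flip2_act2, add_div]
    change f0 _ + f0 _ = _
    simp only [f0, Set.indicator]
    split_ifs <;> simp

end

end Pool.Agent.H183Z
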