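import Pool.Agent.H183Z.Words

set_option autoImplicit false

/-! Elementary folds `y ↦ x y` and their action on reduced words. -/

namespace Pool.Agent.H183Z

open FreeGroup

variable {α : Type*} [DecidableEq α]

/-- the automorphism `y ↦ x y` -/
def tau (x y : α) : FreeGroup α →* FreeGroup α :=
  FreeGroup.lift fun a => if a = y then of x * of y else of a

/-- the automorphism `y ↦ x⁻¹ y` -/
def tauInv (x y : α) : FreeGroup α →* FreeGroup α :=
  FreeGroup.lift fun a => if a = y then (of x)⁻¹ * of y else of a

lemma tau_bijective {x y : α} (hxy : x ≠ y) : Function.Bijective (tau x y) := by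
  have h1 : (tauInv x y).comp (tau x y) = MonoidHom.id _ := by
    ext a
    by_cases h : a = y
    · subst h; simp [tau, tauInv, hxy]
    · simp [tau, tauInv, h]
  have h2 : (tau x y).comp (tauInv x y) = MonoidHom.id _ := by
    ext a
    by_cases h : a = y
    · subst h; simp [tau, tauInv, hxy]
    · simp [tau, tauInv, h]
  refine Function.bijective_iff_has_inverse.2 ⟨tauInv x y, fun g => ?_, fun g => ?_⟩
  · exact DFunLike.congr_fun h1 g
  · exact DFunLike.congr_fun h2 g

/-- image of a letter -/
def tlet (x y : α) (s : α × Bool) : List (α × Bool) :=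
  if s = (y, true) then [(x, true), (y, true)]
  else if s = (y, false) then [(y, false), (x, false)] else [s]

/-- reduced image of a reduced word -/
def fold (x y : α) : List (α × Bool) → List (α × Bool)
  | [] => []
  | [s] => tlet x y s
  | s :: t :: l =>
    if s = (x, false) ∧ t = (y, true) then (y, true) :: fold x y l
    else if s = (y, false) ∧ t = (x, true) then (y, false) :: fold x y l
    else tlet x y s ++ fold x y (t :: l)

lemma fold3 (x y : α) (l : List (α × Bool)) :
    fold x y ((x, false) :: (y, true) :: l) = (y, true) :: fold x y l := by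
  rw [fold, if_pos ⟨rfl, rfl⟩]

lemma fold4 {x y : α} (hxy : x ≠ y) (l : List (α × Bool)) :
    fold x y ((y, false) :: (x, true) :: l) = (y, false) :: fold x y l := by
  rw [fold, if_neg (by simp [hxy]), if_pos ⟨rfl, rfl⟩]

lemma fold5 {x y : α} {s t : α × Bool} (h : ¬ (s = (x, false) ∧ t = (y, true)))
    (h' : ¬ (s = (y, false) ∧ t = (x, true))) (l : List (α × Bool)) :
    fold x y (s :: t :: l) = tlet x y s ++ fold x y (t :: l) := by
  rw [fold, if_neg h, if_neg h']

lemma tau_of_left {x y : α} (hxy : x ≠ y) : tau x y (of x) = of x := by simp [tau, hxy]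

lemma tau_of_right (x y : α) : tau x y (of y) = of x * of y := by simp [tau]

omit [DecidableEq α] in
lemma mk_true (a : α) : mk [(a, true)] = of a := rfl

omit [DecidableEq α] in
lemma mk_false (a : α) : mk [(a, false)] = (of a)⁻¹ := by
  rw [← mk_true, inv_mk]; rfl

lemma mk_tlet (x y : α) (s : α × Bool) : mk (tlet x y s) = tau x y (mk [s]) := by
  rcases s with ⟨a, b⟩
  unfold tlet
  by_cases h : a = y
  · subst h
    cases b
    · simp only [Prod.mk.injEq, Bool.false_eq_true, and_false, if_false, if_true]
      rw [mk_cons', mk_false, mk_false]; simp [tau]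
    · simp only [if_true]
      rw [mk_cons', mk_true, mk_true]; simp [tau]
  · cases b
    · simp only [Prod.mk.injEq, h, false_and, if_false]
      rw [mk_false]; simp [tau, h]
    · simp only [Prod.mk.injEq, h, false_and, if_false]
      rw [mk_true]; simp [tau, h]

lemma mk_fold {x y : α} (hxy : x ≠ y) (l : List (α × Bool)) :
    mk (fold x y l) = tau x y (mk l) := by
  induction l using fold.induct x y with
  | case1 => simp only [fold]; exact (_root_.map_one (tau x y)).symm
  | case2 s => simp only [fold]; exact mk_tlet x y s
  | case3 s t l h ih =>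
    obtain ⟨rfl, rfl⟩ := h
    rw [fold3, mk_cons' (y, true) (fold x y l), ih, mk_cons' (x, false) ((y, true) :: l),
      mk_cons' (y, true) l, mk_true, mk_false, _root_.map_mul, _root_.map_mul, _root_.map_inv,
      tau_of_left hxy, tau_of_right]
    group
  | case4 s t l h h' ih =>
    obtain ⟨rfl, rfl⟩ := h'
    rw [fold4 hxy, mk_cons' (y, false) (fold x y l), ih, mk_cons' (y, false) ((x, true) :: l),
      mk_cons' (x, true) l, mk_true, mk_false, _root_.map_mul, _root_.map_mul, _root_.map_inv,
      tau_of_left hxy, tau_of_right]
    group
  | case5 s t l h h' ih =>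
    rw [fold5 h h', ← mul_mk, ih, mk_tlet, mk_cons' s (t :: l), _root_.map_mul]

/-- first letter of the image -/
def fh (x y : α) (t : α × Bool) (l : List (α × Bool)) : α × Bool :=
  if t = (x, false) ∧ l.head? = some (y, true) then (y, true)
  else if t = (y, true) then (x, true) else t

lemma fold_cons (x y : α) (t : α × Bool) (l : List (α × Bool)) :
    ∃ r, fold x y (t :: l) = fh x y t l :: r := by
  have ht : ∃ r, tlet x y t = (if t = (y, true) then (x, true) else t) :: r := by
    unfold tlet
    split_ifs with h1 h2
    · exact ⟨_, rfl⟩
    · subst h2; exact ⟨_, rfl⟩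
    · exact ⟨_, rfl⟩
  obtain ⟨r, hr⟩ := ht
  cases l with
  | nil => exact ⟨r, by simp [fold, fh, hr]⟩
  | cons u l =>
    simp only [fold, fh, List.head?_cons, Option.some.injEq]
    split_ifs with h1 h2 h3 h4
    · exact ⟨_, rfl⟩
    · rw [h2.1] at h3; simp at h3
    · rw [h2.1]; exact ⟨_, rfl⟩
    · rw [hr, if_pos h4]; exact ⟨_, rfl⟩
    · rw [hr, if_neg h4]; exact ⟨_, rfl⟩

/-- the turn `{a, b}` -/
def bad (a b : α) (s t : α × Bool) : Prop :=
  (s = (a, false) ∧ t = (b, true)) ∨ (s = (b, false) ∧ t = (a, true))

instance (a b : α) (s t : α × Bool) : Decidable (bad a b s t) := by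
  unfold bad; infer_instance

/-- number of turns `{a, b}` -/
def cnt (a b : α) : List (α × Bool) → ℕ
  | s :: t :: l => (if bad a b s t then 1 else 0) + cnt a b (t :: l)
  | _ => 0

lemma cnt_symm (a b : α) (l : List (α × Bool)) : cnt a b l = cnt b a l := by
  induction l with
  | nil => rfl
  | cons s l ih =>
    cases l with
    | nil => rfl
    | cons t l =>
      simp only [cnt]
      rw [ih]
      have : bad a b s t ↔ bad b a s t := by unfold bad; tauto
      simp only [this]

lemma cnt_cons_true (a b c : α) (l : List (α × Bool)) : cnt a b ((c, true) :: l) = cnt a b l := by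
  cases l with
  | nil => rfl
  | cons t l => simp [cnt, bad]

lemma fold_reduced {x y : α} (hxy : x ≠ y) (l : List (α × Bool)) (hl : IsReduced l) :
    IsReduced (fold x y l) := by
  induction l using fold.induct x y with
  | case1 => simp [fold]
  | case2 s =>
    simp only [fold, tlet]
    split_ifs <;> simp
  | case3 s t l h ih =>
    obtain ⟨rfl, rfl⟩ := h
    simp only [fold, and_self, if_true]
    have h2 := isReduced_tail hl
    have h3 := ih (isReduced_tail h2)
    cases l with
    | nil => simp [fold]
    | cons u l =>
      obtain ⟨r, hr⟩ := fold_cons x y u l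
      rw [hr] at h3 ⊢
      rw [isReduced_cons_cons] at h2 ⊢
      refine ⟨?_, h3⟩
      have := h2.1
      rcases u with ⟨a, b⟩
      unfold fh
      split_ifs <;> simp_all
  | case4 s t l h h' ih =>
    obtain ⟨rfl, rfl⟩ := h'
    rw [fold4 hxy]
    have h2 := isReduced_tail hl
    have h3 := ih (isReduced_tail h2)
    cases l with
    | nil => simp [fold]
    | cons u l =>
      obtain ⟨r, hr⟩ := fold_cons x y u l
      rw [hr] at h3 ⊢
      rw [isReduced_cons_cons] at h2 ⊢
      refine ⟨?_, h3⟩
      have := h2.1
      rcases u with ⟨a, b⟩
      unfold fh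
      split_ifs with c1 c2
      · simp_all
      · simp [hxy.symm]
      · cases b <;> simp_all
        intro hh; exact c2 hh.symm
  | case5 s t l h h' ih =>
    rw [fold5 h h']
    have h3 := ih (isReduced_tail hl)
    obtain ⟨r, hr⟩ := fold_cons x y t l
    rw [hr] at h3 ⊢
    rw [isReduced_cons_cons] at hl
    have h1 := hl.1
    rcases s with ⟨a, b⟩
    rcases t with ⟨c, d⟩
    unfold tlet
    split_ifs with c1 c2
    · simp only [List.cons_append, List.nil_append, isReduced_cons_cons]
      refine ⟨by simp, ?_, h3⟩
      unfold fh
      split_ifs <;> simp_all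
    · simp only [List.cons_append, List.nil_append, isReduced_cons_cons]
      refine ⟨by simp, ?_, h3⟩
      unfold fh
      split_ifs with e1 e2
      · simp [hxy]
      · simp_all
      · cases d <;> simp_all
        intro hh; exact h' hh.symm
    · simp only [List.cons_append, List.nil_append, isReduced_cons_cons]
      refine ⟨?_, h3⟩
      unfold fh
      split_ifs with e1 e2
      · cases b <;> simp_all
      · cases b <;> simp_all
      · exact h1

lemma cnt_fold_aux {x y z : α} (hxy : x ≠ y) (hxz : x ≠ z) (hyz : y ≠ z)
    (l : List (α × Bool)) :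
    cnt y x (fold x y l) + cnt y z (fold x y l) +
      (if l.head? = some (x, false) ∧ l.tail.head? = some (y, true) then 1 else 0) ≤
      cnt x y l := by
  induction l using fold.induct x y with
  | case1 => simp [fold, cnt]
  | case2 s =>
    simp only [fold, tlet]
    split_ifs <;> simp_all [cnt, bad]
  | case3 s t l h ih =>
    obtain ⟨rfl, rfl⟩ := h
    simp only [fold, and_self, if_true, cnt_cons_true, cnt, bad, true_or, List.head?_cons,
      List.tail_cons]
    omega
  | case4 s t l h h' ih =>
    obtain ⟨rfl, rfl⟩ := h'
    rw [fold4 hxy]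
    have e : cnt x y ((y, false) :: (x, true) :: l) = 1 + cnt x y l := by
      simp [cnt, bad, cnt_cons_true]
    rw [e]
    have e2 : ∀ m : List (α × Bool), cnt y x ((y, false) :: m) + cnt y z ((y, false) :: m) ≤
        1 + cnt y x m + cnt y z m := by
      intro m
      cases m with
      | nil => simp [cnt]
      | cons u m =>
        simp only [cnt]
        by_cases q : bad y x (y, false) u
        · have : ¬ bad y z (y, false) u := by
            unfold bad at q ⊢
            rcases u with ⟨a, b⟩
            simp_all
            grind
          rw [if_pos q, if_neg this]; omega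
        · rw [if_neg q]; split_ifs <;> omega
    have := e2 (fold x y l)
    have e3 : ¬ (((y, false) :: (x, true) :: l).head? = some (x, false) ∧
        ((y, false) :: (x, true) :: l).tail.head? = some (y, true)) := by simp [hxy.symm]
    rw [if_neg e3]
    split_ifs at ih <;> omega
  | case5 s t l h h' ih =>
    rw [fold5 h h']
    obtain ⟨r, hr⟩ := fold_cons x y t l
    have e : cnt x y (s :: t :: l) = cnt x y (t :: l) := by
      have : ¬ bad x y s t := by unfold bad; tauto
      simp [cnt, this]
    have e3 : ¬ ((s :: t :: l).head? = some (x, false) ∧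
        (s :: t :: l).tail.head? = some (y, true)) := by simpa using h
    rw [if_neg e3, e]
    simp only [List.head?_cons, List.tail_cons, Option.some.injEq] at ih
    have key : cnt y x (tlet x y s ++ fold x y (t :: l)) + cnt y z (tlet x y s ++ fold x y (t :: l))
        ≤ cnt y x (fold x y (t :: l)) + cnt y z (fold x y (t :: l)) +
          (if t = (x, false) ∧ l.head? = some (y, true) then 1 else 0) := by
      rw [hr]
      have k2 : ∀ s' : α × Bool, s' ≠ (y, false) →
          (if bad y x s' (fh x y t l) then 1 else 0) + (if bad y z s' (fh x y t l) then 1 else 0) ≤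
          (if t = (x, false) ∧ l.head? = some (y, true) then 1 else 0) := by
        intro s' hs'
        by_cases q : t = (x, false) ∧ l.head? = some (y, true)
        · rw [if_pos q]
          by_cases q1 : bad y x s' (fh x y t l)
          · have q2 : ¬ bad y z s' (fh x y t l) := by
              unfold bad at q1 ⊢
              rintro (⟨a, -⟩ | ⟨a, -⟩)
              · exact hs' a
              · rcases q1 with ⟨b, -⟩ | ⟨b, -⟩
                · exact hs' b
                · rw [a] at b; exact hxz (congrArg Prod.fst b).symm
            rw [if_pos q1, if_neg q2]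
          · rw [if_neg q1]; split_ifs <;> omega
        · have q0 : fh x y t l ≠ (y, true) := by
            unfold fh
            rw [if_neg q]
            split_ifs with c
            · simp [hxy]
            · exact c
          have q1 : ∀ w, ¬ bad y w s' (fh x y t l) := by
            intro w
            rintro (⟨a, -⟩ | ⟨-, a⟩)
            · exact hs' a
            · exact q0 a
          rw [if_neg (q1 x), if_neg (q1 z)]; omega
      have cc : ∀ (a b : α) (s t : α × Bool) (l : List (α × Bool)),
          cnt a b (s :: t :: l) = (if bad a b s t then 1 else 0) + cnt a b (t :: l) :=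
        fun _ _ _ _ _ => rfl
      unfold tlet
      by_cases c1 : s = (y, true)
      · rw [if_pos c1]
        simp only [List.cons_append, List.nil_append, cnt_cons_true]
        omega
      · rw [if_neg c1]
        by_cases c2 : s = (y, false)
        · rw [if_pos c2]
          simp only [List.cons_append, List.nil_append]
          have := k2 (x, false) (by simp [hxy])
          rw [cc, cc, cc y z, cc y z, if_neg (by simp [bad]), if_neg (by simp [bad] : ¬ bad y z _ _)]
          omega
        · rw [if_neg c2]
          simp only [List.cons_append, List.nil_append]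
          have := k2 s c2
          rw [cc, cc y z]
          omega
    omega

lemma cnt_fold {x y z : α} (hxy : x ≠ y) (hxz : x ≠ z) (hyz : y ≠ z) (l : List (α × Bool)) :
    cnt y x (fold x y l) + cnt y z (fold x y l) ≤ cnt x y l :=
  le_trans (Nat.le_add_right _ _) (cnt_fold_aux hxy hxz hyz l)

lemma wl_tlet {x y : α} (hxy : x ≠ y) (ω : α → ℝ) (s : α × Bool) :
    wl (Function.update ω y (ω y - ω x)) (tlet x y s) = ω s.1 := by
  rcases s with ⟨a, b⟩
  unfold tlet
  split_ifs with c1 c2
  · simp only [Prod.mk.injEq] at c1
    simp [Function.update_of_ne hxy, c1.1]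
  · simp only [Prod.mk.injEq] at c2
    simp [Function.update_of_ne hxy, c2.1]
  · have : a ≠ y := by
      rintro rfl
      cases b <;> simp_all
    simp [Function.update_of_ne this]

lemma wl_fold {x y : α} (hxy : x ≠ y) (ω : α → ℝ) (l : List (α × Bool)) (hl : cnt x y l = 0) :
    wl (Function.update ω y (ω y - ω x)) (fold x y l) = wl ω l := by
  induction l using fold.induct x y with
  | case1 => simp [fold]
  | case2 s => simp [fold, wl_tlet hxy]
  | case3 s t l h ih =>
    obtain ⟨rfl, rfl⟩ := h
    simp [cnt, bad] at hl
  | case4 s t l h h' ih =>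
    obtain ⟨rfl, rfl⟩ := h'
    simp [cnt, bad] at hl
  | case5 s t l h h' ih =>
    rw [fold5 h h', wl_append, wl_tlet hxy, ih, wl_cons ω s]
    simp only [cnt] at hl
    omega

lemma toWord_tau {x y : α} (hxy : x ≠ y) (g : FreeGroup α) :
    (tau x y g).toWord = fold x y g.toWord := by
  conv_lhs => rw [← mk_toWord (x := g), ← mk_fold hxy]
  exact toWord_mk_of_reduced (fold_reduced hxy _ isReduced_toWord)

end Pool.Agent.H183Z
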