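import Mathlib

set_option autoImplicit false

/-! Generic functionals separate countably many finite dimensional spaces. -/

namespace Pool.Agent.H183Z

open Filter Topology

lemma exists_weights {ι : Type*} [Countable ι] (f : ℕ → ι → ℝ) :
    ∃ w : ι → ℝ, (∀ g, 0 < w g) ∧ ∀ k, Summable fun g => w g * |f k g| := by
  obtain ⟨e, he⟩ := exists_injective_nat ι
  have pos : ∀ g, 0 < 1 + ∑ k ∈ Finset.range (e g + 1), |f k g| := fun g => by positivity
  refine ⟨fun g => (1 / 2) ^ (e g) / (1 + ∑ k ∈ Finset.range (e g + 1), |f k g|),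
    fun g => by have := pos g; positivity, fun k => ?_⟩
  refine Summable.of_norm_bounded_eventually (summable_geometric_two.comp_injective he) ?_
  have fin : {g | e g < k}.Finite := (Set.finite_lt_nat k).preimage he.injOn
  refine Filter.mem_of_superset fin.compl_mem_cofinite fun g hg => ?_
  simp only [Set.mem_compl_iff, Set.mem_ofPred_eq, not_lt] at hg
  have h1 : |f k g| ≤ ∑ k ∈ Finset.range (e g + 1), |f k g| :=
    Finset.single_le_sum (f := fun k => |f k g|) (fun _ _ => abs_nonneg _)
      (Finset.mem_range.2 (by omega))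
  have p := pos g
  simp only [Set.mem_ofPred_eq, Function.comp]
  rw [Real.norm_eq_abs, abs_of_nonneg (by positivity), div_mul_eq_mul_div, div_le_iff₀ p]
  have : (0 : ℝ) < (1 / 2) ^ (e g) := by positivity
  nlinarith

lemma summable_aux {ι : Type*} {w a f : ι → ℝ} (hw : ∀ g, 0 < w g) (ha : ∀ g, 1 ≤ a g ∧ a g ≤ 3)
    (hs : Summable fun g => w g * |f g|) : Summable fun g => w g * a g * f g := by
  refine Summable.of_norm_bounded (hs.mul_left 3) fun g => ?_
  have := ha g
  have := hw g
  rw [Real.norm_eq_abs, abs_mul, abs_of_nonneg (by nlinarith : 0 ≤ w g * a g)]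
  have : 0 ≤ w g * |f g| := by positivity
  nlinarith

lemma exists_generic_one {ι J : Type*} [Countable ι] [Countable J] (w : ι → ℝ)
    (hw : ∀ g, 0 < w g) (f : J → ι → ℝ) (hf : ∀ j, f j ≠ 0)
    (hs : ∀ j, Summable fun g => w g * |f j g|) :
    ∃ a : ι → ℝ, (∀ g, 1 ≤ a g ∧ a g ≤ 3) ∧ ∀ j, ∑' g, w g * a g * f j g ≠ 0 := by
  classical
  let A : ℝ → ℝ := fun t => 2 + Real.arctan t / 2
  have hA : ∀ t, 1 ≤ A t ∧ A t ≤ 3 := by
    intro t
    have h1 := Real.arctan_lt_pi_div_two t
    have h2 := Real.neg_pi_div_two_lt_arctan t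
    have h3 := Real.pi_le_four
    simp only [A]
    constructor <;> linarith
  have cA : Continuous A := by simp only [A]; fun_prop
  have iA : Function.Injective A := by
    intro s t h
    apply Real.arctan_injective
    simp only [A] at h
    linarith
  let U : J → Set (ι → ℝ) := fun j => {b | ∑' g, w g * A (b g) * f j g ≠ 0}
  have hU : ∀ j, IsOpen (U j) := by
    intro j
    refine isOpen_ne_fun (continuous_tsum (fun g => by fun_prop) ((hs j).mul_left 3)
      fun g b => ?_) continuous_const
    have := hA (b g)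
    have := hw g
    rw [Real.norm_eq_abs, abs_mul, abs_of_nonneg (by nlinarith : 0 ≤ w g * A (b g))]
    have : 0 ≤ w g * |f j g| := by positivity
    nlinarith
  have hD : ∀ j, Dense (U j) := by
    intro j b
    by_cases hb : b ∈ U j
    · exact subset_closure hb
    obtain ⟨g0, hg0⟩ := Function.ne_iff.1 (hf j)
    simp only [Pi.zero_apply] at hg0
    have t : Tendsto (fun t => Function.update b g0 t) (𝓝[≠] (b g0)) (𝓝 b) := by
      have : Continuous fun t => Function.update b g0 t := continuous_const.update g0 continuous_id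
      have := this.tendsto (b g0)
      rw [Function.update_eq_self] at this
      exact this.mono_left nhdsWithin_le_nhds
    refine mem_closure_of_tendsto t (eventually_nhdsWithin_of_forall fun t ht => ?_)
    simp only [U, Set.mem_ofPred_eq, not_not] at hb ⊢
    have s1 := summable_aux hw (fun g => hA (b g)) (hs j)
    have s2 := summable_aux hw (fun g => hA (Function.update b g0 t g)) (hs j)
    rw [s2.tsum_eq_add_tsum_ite g0]
    rw [s1.tsum_eq_add_tsum_ite g0] at hb
    have e : (∑' g, if g = g0 then 0 else w g * A (Function.update b g0 t g) * f j g) =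
        ∑' g, if g = g0 then 0 else w g * A (b g) * f j g := by
      congr 1
      funext g
      split_ifs with c
      · rfl
      · rw [Function.update_of_ne c]
    rw [e, Function.update_self]
    intro h0
    have : w g0 * (A t - A (b g0)) * f j g0 = 0 := by linarith
    rcases mul_eq_zero.1 this with h | h
    · rcases mul_eq_zero.1 h with h | h
      · exact (hw g0).ne' h
      · exact ht (iA (sub_eq_zero.1 h))
    · exact hg0 h
  obtain ⟨b, hb⟩ := (dense_iInter_of_isOpen hU hD).nonempty
  exact ⟨fun g => A (b g), fun g => hA _, fun j => Set.mem_iInter.1 hb j⟩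

lemma exists_generic {ι J : Type*} [Countable ι] [Countable J] (w : ι → ℝ) (hw : ∀ g, 0 < w g)
    (d : ℕ) (W : J → Submodule ℝ (ι → ℝ)) (hfin : ∀ j, FiniteDimensional ℝ (W j))
    (hd : ∀ j, Module.finrank ℝ (W j) ≤ d)
    (hs : ∀ j, ∀ f ∈ W j, Summable fun g => w g * |f g|) :
    ∃ a : Fin d → ι → ℝ, (∀ i g, 1 ≤ a i g ∧ a i g ≤ 3) ∧
      ∀ j, ∀ f ∈ W j, (∀ i, ∑' g, w g * a i g * f g = 0) → f = 0 := by
  induction d generalizing W with
  | zero =>
    refine ⟨fun i => i.elim0, fun i => i.elim0, fun j f hf _ => ?_⟩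
    have := hfin j
    have h0 : W j = ⊥ := Submodule.finrank_eq_zero.1 (Nat.le_zero.1 (hd j))
    rw [h0] at hf
    exact (Submodule.mem_bot ℝ).1 hf
  | succ d ih =>
    have ex : ∀ j : {j // W j ≠ ⊥}, ∃ f ∈ W j.1, f ≠ 0 := fun j =>
      Submodule.exists_mem_ne_zero_of_ne_bot j.2
    choose f hf1 hf2 using ex
    obtain ⟨a0, ha0, ha0'⟩ := exists_generic_one w hw f hf2 (fun j => hs j.1 _ (hf1 j))
    let W' : J → Submodule ℝ (ι → ℝ) := fun j =>
      { carrier := {f | f ∈ W j ∧ ∑' g, w g * a0 g * f g = 0}
        add_mem' := by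
          rintro f1 f2 ⟨h1, h1'⟩ ⟨h2, h2'⟩
          refine ⟨(W j).add_mem h1 h2, ?_⟩
          simp only [Pi.add_apply, mul_add]
          rw [(summable_aux hw ha0 (hs j _ h1)).tsum_add (summable_aux hw ha0 (hs j _ h2)),
            h1', h2', add_zero]
        zero_mem' := ⟨(W j).zero_mem, by simp⟩
        smul_mem' := by
          rintro c f1 ⟨h1, h1'⟩
          refine ⟨(W j).smul_mem c h1, ?_⟩
          have : (fun g => w g * a0 g * (c • f1) g) = fun g => c * (w g * a0 g * f1 g) := by
            funext g; simp only [Pi.smul_apply, smul_eq_mul]; ring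
          rw [this, tsum_mul_left, h1', mul_zero] }
    have le : ∀ j, W' j ≤ W j := fun j f hf => hf.1
    obtain ⟨a, ha, ha'⟩ := ih W' (fun j => by
        have := hfin j
        exact Submodule.finiteDimensional_of_le (le j))
      (fun j => by
        have := hfin j
        by_cases c : W j = ⊥
        · have : W' j = ⊥ := le_bot_iff.1 (c ▸ le j)
          rw [this]; simp
        · have lt : W' j < W j := lt_of_le_of_ne (le j) fun e => by
            have : f ⟨j, c⟩ ∈ W' j := e ▸ hf1 ⟨j, c⟩
            exact ha0' ⟨j, c⟩ this.2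
          have := Submodule.finrank_lt_finrank_of_lt lt
          have := hd j
          omega)
      (fun j f hf => hs j f hf.1)
    refine ⟨Fin.cons a0 a, fun i => Fin.cases ha0 (fun i => ha i) i, fun j f hf h0 => ?_⟩
    exact ha' j f ⟨hf, h0 0⟩ fun i => h0 i.succ

end Pool.Agent.H183Z
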