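import Pool.Agent.H183Z.Aut

set_option autoImplicit false

/-! Lines of a conjugacy class, shifts and turns. -/

namespace Pool.Agent.H183Z

open MeasureTheory Filter FreeGroup Topology

variable {N : ℕ}

lemma Bdry.ne_linv (ξ : Bdry N) (n : ℕ) : ξ.1 (n + 1) ≠ linv (ξ.1 n) := ne_linv_of_red (ξ.2 n)

lemma linv_ne {α : Type*} (s : α × Bool) : linv s ≠ s := by
  rcases s with ⟨a, b⟩
  cases b <;> simp [linv]

lemma linv_inj {α : Type*} {s t : α × Bool} (h : linv s = linv t) : s = t := by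
  rw [← linv_linv s, h, linv_linv]

lemma act_inv_act (g : FreeGroup (Fin N)) (ξ : Bdry N) : act g⁻¹ (act g ξ) = ξ := by
  rw [← act_mul, inv_mul_cancel, act_one]

lemma act_act_inv (g : FreeGroup (Fin N)) (ξ : Bdry N) : act g (act g⁻¹ ξ) = ξ := by
  rw [← act_mul, mul_inv_cancel, act_one]

lemma act2_inv_act2 (g : FreeGroup (Fin N)) (q : DBdry N) : act2 g⁻¹ (act2 g q) = q := by
  rw [← act2_mul, inv_mul_cancel, act2_one]

lemma act2_act2_inv (g : FreeGroup (Fin N)) (q : DBdry N) : act2 g (act2 g⁻¹ q) = q := by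
  rw [← act2_mul, mul_inv_cancel, act2_one]

lemma act_cons_zero {s : Fin N × Bool} {ξ : Bdry N} (h : ξ.1 0 ≠ linv s) :
    (act (mk [s]) ξ).1 0 = s := by
  rw [act_letter, push_val, if_neg h]
  rfl

lemma act_cons_succ {s : Fin N × Bool} {ξ : Bdry N} (h : ξ.1 0 ≠ linv s) (n : ℕ) :
    (act (mk [s]) ξ).1 (n + 1) = ξ.1 n := by
  rw [act_letter, push_val, if_neg h]

lemma act_inv_zero {s : Fin N × Bool} {ξ : Bdry N} (h : ξ.1 0 ≠ s) :
    (act (mk [s])⁻¹ ξ).1 0 = linv s := by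
  rw [← mk_linv]; exact act_cons_zero (by rwa [linv_linv])

lemma act_inv_succ {s : Fin N × Bool} {ξ : Bdry N} (h : ξ.1 0 ≠ s) (n : ℕ) :
    (act (mk [s])⁻¹ ξ).1 (n + 1) = ξ.1 n := by
  rw [← mk_linv]; exact act_cons_succ (by rwa [linv_linv]) n

lemma act_tail {s : Fin N × Bool} {ξ : Bdry N} (h : ξ.1 0 = s) (n : ℕ) :
    (act (mk [s])⁻¹ ξ).1 n = ξ.1 (n + 1) := by
  rw [← mk_linv, act_letter, push_val, if_pos (by rwa [linv_linv])]

lemma ne_of_act_zero {s : Fin N × Bool} {ξ : Bdry N} (h : (act (mk [s]) ξ).1 0 = s) :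
    ξ.1 0 ≠ linv s := by
  intro e
  rw [act_letter, push_val, if_pos e] at h
  have := ξ.ne_linv 0
  rw [e, linv_linv] at this
  exact this h

/-- the lines of the conjugacy class of `g` -/
def Lines (g : FreeGroup (Fin N)) : Set (DBdry N) :=
  {q | ∃ p : DBdry N, IsAttr g⁻¹ p.1.1 ∧ IsAttr g p.1.2 ∧
    ∃ h, q = act2 h p ∨ q = flip2 (act2 h p)}

lemma Lines.act {g : FreeGroup (Fin N)} {q : DBdry N} (h : q ∈ Lines g) (k : FreeGroup (Fin N)) :
    act2 k q ∈ Lines g := by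
  obtain ⟨p, h1, h2, x, hx | hx⟩ := h
  · exact ⟨p, h1, h2, k * x, Or.inl (by rw [hx, act2_mul])⟩
  · exact ⟨p, h1, h2, k * x, Or.inr (by rw [hx, act2_mul, flip2_act2 k])⟩

lemma Lines.flip {g : FreeGroup (Fin N)} {q : DBdry N} (h : q ∈ Lines g) : flip2 q ∈ Lines g := by
  obtain ⟨p, h1, h2, x, hx | hx⟩ := h
  · exact ⟨p, h1, h2, x, Or.inr (by rw [hx])⟩
  · exact ⟨p, h1, h2, x, Or.inl (by rw [hx, flip2_flip2])⟩

lemma Lines.aut (A : AutData N) {g : FreeGroup (Fin N)} {q : DBdry N} (h : q ∈ Lines g) :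
    A.f2 q ∈ Lines (A.φ g) := by
  obtain ⟨p, h1, h2, x, hx⟩ := h
  have a := A.hf.attr h1
  rw [_root_.map_inv] at a
  refine ⟨A.f2 p, a, A.hf.attr h2, A.φ x, ?_⟩
  rcases hx with hx | hx
  · left; rw [hx, A.f2_act2]
  · right; rw [hx, A.f2_flip2, A.f2_act2]

lemma Lines.exists_fix {g : FreeGroup (Fin N)} (hg : g ≠ 1) {q : DBdry N} (h : q ∈ Lines g) :
    ∃ k, k ≠ 1 ∧ act2 k q = q := by
  obtain ⟨p, h1, h2, x, hx⟩ := h
  have e : act2 (x * g * x⁻¹) (act2 x p) = act2 x p := by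
    rw [act2_mul, act2_inv_act2, act2_mul, act2_fixed h1 h2]
  refine ⟨x * g * x⁻¹, by simpa using hg, ?_⟩
  rcases hx with hx | hx
  · rw [hx, e]
  · rw [hx, ← flip2_act2, e]

lemma IsCounting.ae_lines {g : FreeGroup (Fin N)} {μ : Measure (DBdry N)} (h : IsCounting g μ) :
    ∀ᵐ q ∂μ, q ∈ Lines g := by
  obtain ⟨p, h1, h2, rfl⟩ := h
  have : Countable (FreeGroup (Fin N) ⧸ Subgroup.zpowers g) :=
    QuotientGroup.mk_surjective.countable
  rw [Measure.ae_sum_iff]
  intro c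
  unfold diracPair
  rw [ae_add_measure_iff, ae_dirac_eq, ae_dirac_eq]
  exact ⟨⟨p, h1, h2, _, Or.inl rfl⟩, ⟨p, h1, h2, _, Or.inr rfl⟩⟩

/-- the shift along a line -/
def sh (q : DBdry N) : DBdry N := act2 (mk [q.1.2.1 0])⁻¹ q

lemma sh_mem {q : DBdry N} (h : q ∈ UU N) : sh q ∈ UU N := succ_mem_UU h

lemma sh_snd (q : DBdry N) (n : ℕ) : (sh q).1.2.1 n = q.1.2.1 (n + 1) := act_tail rfl n

lemma sh_fst_zero {q : DBdry N} (h : q ∈ UU N) : (sh q).1.1.1 0 = linv (q.1.2.1 0) :=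
  act_inv_zero h

lemma sh_fst_succ {q : DBdry N} (h : q ∈ UU N) (n : ℕ) : (sh q).1.1.1 (n + 1) = q.1.1.1 n :=
  act_inv_succ h n

lemma iter_mem {q : DBdry N} (h : q ∈ UU N) (j : ℕ) : sh^[j] q ∈ UU N := by
  induction j with
  | zero => exact h
  | succ j ih => rw [Function.iterate_succ_apply']; exact sh_mem ih

lemma iter_snd (q : DBdry N) (j n : ℕ) : (sh^[j] q).1.2.1 n = q.1.2.1 (j + n) := by
  induction j generalizing n with
  | zero => simp
  | succ j ih => rw [Function.iterate_succ_apply', sh_snd, ih, add_assoc, add_comm 1]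

lemma iter_fst {q : DBdry N} (h : q ∈ UU N) (i n : ℕ) :
    (sh^[i + n + 1] q).1.1.1 n = linv (q.1.2.1 i) := by
  induction n with
  | zero => rw [Function.iterate_succ_apply', sh_fst_zero (iter_mem h _), iter_snd]; rfl
  | succ n ih =>
    rw [Function.iterate_succ_apply', sh_fst_succ (iter_mem h _), ← add_assoc, ih]

lemma Lines.iter {g : FreeGroup (Fin N)} {q : DBdry N} (h : q ∈ Lines g) (j : ℕ) :
    sh^[j] q ∈ Lines g := by
  induction j with
  | zero => exact h
  | succ j ih => rw [Function.iterate_succ_apply']; exact Lines.act ih _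

lemma act_inv_last (l : List (Fin N × Bool)) (s : Fin N × Bool) (hl : IsReduced (s :: l)) :
    ∃ t, ∀ ξ : Bdry N, ξ.1 0 ≠ s → (act (mk (s :: l))⁻¹ ξ).1 0 = t := by
  induction l generalizing s with
  | nil => exact ⟨_, fun ξ h => act_inv_zero h⟩
  | cons r l ih =>
    obtain ⟨t, ht⟩ := ih r (isReduced_tail hl)
    refine ⟨t, fun ξ h => ?_⟩
    rw [mk_cons', mul_inv_rev, act_mul]
    refine ht _ ?_
    rw [act_inv_zero h]
    exact (ne_linv_of_red (isReduced_cons_cons.1 hl).1).symm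

lemma ret_aux (l : List (Fin N × Bool)) (hl : IsReduced l) (q : DBdry N) (hq : q ∈ UU N)
    (h : act2 (mk l)⁻¹ q ∈ UU N) (h0 : l.head? ≠ some (q.1.1.1 0)) :
    act2 (mk l)⁻¹ q = sh^[l.length] q := by
  induction l generalizing q with
  | nil =>
    have : (mk ([] : List (Fin N × Bool))) = 1 := rfl
    rw [this, inv_one, act2_one]; rfl
  | cons s l ih =>
    have hs : q.1.2.1 0 = s := by
      by_contra c
      obtain ⟨t, ht⟩ := act_inv_last l s hl
      exact h ((ht _ fun e => h0 (by rw [e]; rfl)).trans (ht _ c).symm)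
    rw [mk_cons', mul_inv_rev, act2_mul] at h ⊢
    subst hs
    refine ih (isReduced_tail hl) (sh q) (sh_mem hq) h ?_
    rw [sh_fst_zero hq]
    cases l with
    | nil => simp
    | cons r l =>
      simp only [List.head?_cons, ne_eq, Option.some.injEq]
      exact ne_linv_of_red (isReduced_cons_cons.1 hl).1

lemma ret {q : DBdry N} (hq : q ∈ UU N) {h : FreeGroup (Fin N)} (hh : act2 h q ∈ UU N) :
    act2 h q = sh^[h⁻¹.toWord.length] q ∨
      flip2 (act2 h q) = sh^[h⁻¹.toWord.length] (flip2 q) := by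
  have e : h = (mk h⁻¹.toWord)⁻¹ := by rw [mk_toWord, inv_inv]
  by_cases c : h⁻¹.toWord.head? = some (q.1.1.1 0)
  · right
    rw [flip2_act2]
    conv_lhs => rw [e]
    refine ret_aux _ isReduced_toWord _ (Ne.symm hq) ?_ ?_
    · rw [← e]; exact Ne.symm hh
    · rw [c]; exact fun z => hq (Option.some_injective _ z)
  · left
    conv_lhs => rw [e]
    exact ret_aux _ isReduced_toWord _ hq (by rw [← e]; exact hh) c

lemma Lines.period {g : FreeGroup (Fin N)} (hg : g ≠ 1) {q : DBdry N} (h : q ∈ Lines g)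
    (hq : q ∈ UU N) : ∃ n, sh^[n + 1] q = q ∨ sh^[n + 1] (flip2 q) = flip2 q := by
  obtain ⟨k, hk, e⟩ := Lines.exists_fix hg h
  have a := ret hq (h := k) (by rw [e]; exact hq)
  have p : k⁻¹.toWord.length ≠ 0 := by
    rw [ne_eq, List.length_eq_zero_iff, toWord_eq_nil_iff]; exact inv_ne_one.2 hk
  obtain ⟨n, hn⟩ := Nat.exists_eq_succ_of_ne_zero p
  rw [hn, e] at a
  exact ⟨n, a.imp Eq.symm Eq.symm⟩

/-- the constant ray -/
def cray (s : Fin N × Bool) : Bdry N := ⟨fun _ => s, fun _ _ => rfl⟩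

/-- the axis of a letter -/
def axis (s : Fin N × Bool) : DBdry N :=
  ⟨(cray (linv s), cray s), fun e => linv_ne s (congrArg (fun ξ : Bdry N => ξ.1 0) e)⟩

lemma axis_mem (s : Fin N × Bool) : axis s ∈ UU N := linv_ne s

lemma flip_axis (s : Fin N × Bool) : flip2 (axis s) = axis (linv s) := by
  apply Subtype.ext
  simp [flip2, axis]

lemma sh_axis (s : Fin N × Bool) : sh (axis s) = axis s := by
  refine Subtype.ext (Prod.ext (Subtype.ext (funext fun n => ?_)) (Subtype.ext (funext fun n => ?_)))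
  · cases n with
    | zero => exact sh_fst_zero (axis_mem s)
    | succ n => exact sh_fst_succ (axis_mem s) n
  · exact sh_snd _ n

lemma toWord_letter_pow {α : Type*} [DecidableEq α] (s : α × Bool) (n : ℕ) :
    (mk [s] ^ n).toWord = List.replicate n s := by
  induction n with
  | zero => simp
  | succ n ih =>
    rw [pow_succ', toWord_letter_mul, ih, if_neg, List.replicate_succ]
    cases n with
    | zero => simp
    | succ n => simpa [List.replicate_succ] using (linv_ne s).symm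

lemma attr_cray (s : Fin N × Bool) : IsAttr (mk [s]) (cray s) := by
  intro k
  filter_upwards [eventually_gt_atTop k] with n hn
  rw [toWord_letter_pow, List.getElem?_replicate, if_pos hn]
  rfl

lemma axis_mem_lines (s : Fin N × Bool) : axis s ∈ Lines (mk [s]) :=
  ⟨axis s, by rw [← mk_linv]; exact attr_cray _, attr_cray s, 1, Or.inl (act2_one _).symm⟩

lemma lines_letter {s : Fin N × Bool} {q : DBdry N} (h : q ∈ Lines (mk [s])) :
    ∃ k, q = act2 k (axis s) ∨ q = flip2 (act2 k (axis s)) := by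
  obtain ⟨p, h1, h2, k, hk⟩ := h
  rw [← mk_linv] at h1
  have : p = axis s := Subtype.ext (Prod.ext (Lim.unique h1 (attr_cray _)) (Lim.unique h2 (attr_cray _)))
  exact ⟨k, this ▸ hk⟩

lemma lines_letter_mem {s : Fin N × Bool} {q : DBdry N} (h : q ∈ Lines (mk [s])) (hq : q ∈ UU N) :
    q = axis s ∨ q = axis (linv s) := by
  have key : ∀ k, act2 k (axis s) ∈ UU N → act2 k (axis s) = axis s := by
    intro k hk
    rcases ret (axis_mem s) hk with a | a
    · rw [a, Function.iterate_fixed (sh_axis s)]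
    · rw [flip_axis, Function.iterate_fixed (sh_axis _), ← flip_axis] at a
      rw [← flip2_flip2 (act2 k (axis s)), a, flip2_flip2]
  obtain ⟨k, hk | hk⟩ := lines_letter h
  · left; rw [hk] at hq ⊢; exact key k hq
  · right
    rw [hk] at hq ⊢
    rw [key k (Ne.symm hq), flip_axis]

/-- two lines agree up to depth `M` -/
def Agree (M : ℕ) (q p : DBdry N) : Prop :=
  ∀ j < M, q.1.1.1 j = p.1.1.1 j ∧ q.1.2.1 j = p.1.2.1 j

lemma exists_agree {p : DBdry N} {O : Set (DBdry N)} (hO : O ∈ 𝓝 p) :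
    ∃ M, ∀ q, Agree M q p → q ∈ O := by
  by_contra c
  push Not at c
  choose q h1 h2 using c
  have t : Tendsto q atTop (𝓝 p) := by
    refine tendsto_subtype_rng.2 ((Prod.tendsto_iff _ _).2 ⟨?_, ?_⟩) <;>
      refine tendsto_subtype_rng.2 (tendsto_pi_nhds.2 fun j => tendsto_const_nhds.congr' ?_) <;>
      filter_upwards [eventually_gt_atTop j] with M hM
    · exact (h1 M j hM).1.symm
    · exact (h1 M j hM).2.symm
  obtain ⟨M, hM⟩ := (t.eventually hO).exists
  exact h2 M hM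

lemma exists_depth {Y : Set (Bdry N)} (hY : IsClopen Y) :
    ∃ m, ∀ ξ ξ' : Bdry N, (∀ j < m, ξ.1 j = ξ'.1 j) → ξ ∈ Y → ξ' ∈ Y := by
  by_contra c
  push Not at c
  let Z : ℕ → Set (Bdry N × Bdry N) := fun m =>
    {z | ∀ j < m, z.1.1 j = z.2.1 j} ∩ (Prod.fst ⁻¹' Y ∩ Prod.snd ⁻¹' Yᶜ)
  have cl : ∀ m, IsClosed (Z m) := by
    intro m
    refine IsClosed.inter ?_ ((hY.isClosed.preimage continuous_fst).inter
      (hY.compl.isClosed.preimage continuous_snd))
    simp only [Set.ofPred_forall]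
    exact isClosed_iInter fun j => isClosed_iInter fun _ =>
      isClosed_eq ((continuous_coord j).comp continuous_fst) ((continuous_coord j).comp continuous_snd)
  obtain ⟨z, hz⟩ := IsCompact.nonempty_iInter_of_sequence_nonempty_isCompact_isClosed Z
    (fun m z hz => ⟨fun j hj => hz.1 j (by omega), hz.2⟩)
    (fun m => by
      obtain ⟨ξ, ξ', h1, h2, h3⟩ := c m
      exact ⟨(ξ, ξ'), h1, h2, h3⟩) (cl 0).isCompact cl
  rw [Set.mem_iInter] at hz
  have : z.1 = z.2 := Subtype.ext (funext fun j => (hz (j + 1)).1 j (by omega))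
  exact (hz 0).2.2 (this ▸ (hz 0).2.1)

end Pool.Agent.H183Z
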