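import Pool.Agent.H183Z.Tree

set_option autoImplicit false

/-! Real valued Lyndon length functions and Chiswell's construction of the tree. -/

namespace Pool.Agent.H183Z

variable {G : Type*} [Group G]

/-- The Gromov product for a length function. -/
noncomputable def lc (L : G → ℝ) (g h : G) : ℝ := (L g + L h - L (g⁻¹ * h)) / 2

/-- Lyndon length functions. -/
structure Lyndon (L : G → ℝ) : Prop where
  one : L 1 = 0
  inv : ∀ g, L g⁻¹ = L g
  hyp : ∀ g h k, lc L g k ≤ lc L g h ∨ lc L h k ≤ lc L g h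

namespace Lyndon
variable {L : G → ℝ}

lemma comm (H : Lyndon L) (g h : G) : lc L g h = lc L h g := by
  unfold lc
  rw [← H.inv (g⁻¹ * h), mul_inv_rev, inv_inv]; ring

lemma one_right (H : Lyndon L) (g : G) : lc L g 1 = 0 := by
  unfold lc; rw [mul_one, H.inv, H.one]; ring

lemma one_left (H : Lyndon L) (g : G) : lc L 1 g = 0 := by rw [H.comm, H.one_right]

lemma self (H : Lyndon L) (g : G) : lc L g g = L g := by
  unfold lc; rw [inv_mul_cancel, H.one]; ring

lemma nonneg (H : Lyndon L) (g h : G) : 0 ≤ lc L g h := by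
  have := H.hyp g h 1
  rw [H.one_right, H.one_right] at this
  tauto

lemma len_nonneg (H : Lyndon L) (g : G) : 0 ≤ L g := by
  rw [← H.self]; exact H.nonneg _ _

lemma add_eq (H : Lyndon L) (t W : G) : lc L t (t * W) + lc L t⁻¹ W = L t := by
  unfold lc
  rw [inv_mul_cancel_left, inv_inv, H.inv]; ring

lemma le_left (H : Lyndon L) (g h : G) : lc L g h ≤ L g := by
  have := H.add_eq g (g⁻¹ * h)
  rw [mul_inv_cancel_left] at this
  have := H.nonneg g⁻¹ (g⁻¹ * h)
  linarith

lemma le_right (H : Lyndon L) (g h : G) : lc L g h ≤ L h := by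
  rw [H.comm]; exact H.le_left _ _

lemma mul_eq (H : Lyndon L) (g h : G) : L (g * h) = L g + L h - 2 * lc L g⁻¹ h := by
  unfold lc; rw [inv_inv, H.inv]; ring

lemma min_eq (H : Lyndon L) {g h : G} {t : ℝ} (ht : t ≤ lc L g h) (k : G) :
    min t (lc L g k) = min t (lc L h k) := by
  have a1 := H.hyp g k h
  have a2 := H.hyp h k g
  rw [H.comm k h] at a1
  rw [H.comm h g, H.comm k g] at a2
  simp only [min_def]
  split_ifs <;> rcases a1 with a1 | a1 <;> rcases a2 with a2 | a2 <;> linarith

end Lyndon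

lemma lyndon_of_action {T : Type*} [MetricSpace T] [MulAction G T] (h : IsRTree T)
    (hi : ∀ (g : G) (x y : T), dist (g • x) (g • y) = dist x y) (x : T) :
    Lyndon (fun g : G => dist x (g • x)) := by
  have e : ∀ g k : G, lc (fun g : G => dist x (g • x)) g k = gp x (g • x) (k • x) := by
    intro g k
    unfold lc gp
    simp only []
    rw [mul_smul, dist_inv_smul hi]
  refine ⟨by simp, fun g => ?_, fun g k m => ?_⟩
  · rw [dist_inv_smul hi, dist_comm]
  · rw [e, e, e]; exact h.hyp' _ _ _ _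

/-- The point at distance `t` from the base point in the direction of `g`, as a function. -/
noncomputable def cpt (L : G → ℝ) (g : G) (t : ℝ) : G → ℝ :=
  fun h => t + L h - 2 * min t (lc L g h)

/-- Chiswell's tree. -/
def CTree {L : G → ℝ} (_H : Lyndon L) : Type _ :=
  {φ : G → ℝ // ∃ g t, 0 ≤ t ∧ t ≤ L g ∧ φ = cpt L g t}

namespace CTree
variable {L : G → ℝ} {H : Lyndon L}

/-- points -/
noncomputable def mk' (H : Lyndon L) (g : G) (t : ℝ) (h0 : 0 ≤ t) (h1 : t ≤ L g) : CTree H :=
  ⟨cpt L g t, g, t, h0, h1, rfl⟩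

lemma exists_mk' (x : CTree H) : ∃ g t h0 h1, x = mk' H g t h0 h1 := by
  obtain ⟨φ, g, t, h0, h1, rfl⟩ := x
  exact ⟨g, t, h0, h1, rfl⟩

lemma abs_le_aux (H : Lyndon L) (g h k : G) (s t : ℝ) :
    |cpt L g s k - cpt L h t k| ≤ s + t - 2 * min s (min t (lc L g h)) := by
  have a1 := H.hyp g k h
  have a2 := H.hyp h k g
  rw [H.comm k h] at a1
  rw [H.comm h g, H.comm k g] at a2
  unfold cpt
  rw [abs_le]
  simp only [min_def]
  constructor <;> split_ifs <;> rcases a1 with a1 | a1 <;> rcases a2 with a2 | a2 <;> linarith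

lemma bdd (x y : CTree H) : BddAbove (Set.range fun k => |x.1 k - y.1 k|) := by
  obtain ⟨g, s, -, -, hx⟩ := x.2
  obtain ⟨h, t, -, -, hy⟩ := y.2
  refine ⟨s + t - 2 * min s (min t (lc L g h)), ?_⟩
  rintro _ ⟨k, rfl⟩
  simp only [hx, hy]
  exact abs_le_aux H g h k s t

noncomputable instance : MetricSpace (CTree H) where
  dist x y := ⨆ k, |x.1 k - y.1 k|
  dist_self x := by simp
  dist_comm x y := by simp only [abs_sub_comm]
  dist_triangle x y z := by
    refine ciSup_le fun k => ?_
    have a := le_ciSup (bdd x y) k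
    have b := le_ciSup (bdd y z) k
    have := abs_sub_le (x.1 k) (y.1 k) (z.1 k)
    linarith
  eq_of_dist_eq_zero := by
    intro x y hxy
    apply Subtype.ext
    funext k
    have a := le_ciSup (bdd x y) k
    have b : (⨆ k, |x.1 k - y.1 k|) = 0 := hxy
    rw [b] at a
    exact sub_eq_zero.1 (abs_nonpos_iff.1 a)

lemma dist_def (x y : CTree H) : dist x y = ⨆ k, |x.1 k - y.1 k| := rfl

lemma dist_mk' (g h : G) (s t : ℝ) (h0 : 0 ≤ s) (h1 : s ≤ L g) (h2 : 0 ≤ t) (h3 : t ≤ L h) :
    dist (mk' H g s h0 h1) (mk' H h t h2 h3) = s + t - 2 * min s (min t (lc L g h)) := by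
  apply le_antisymm
  · exact ciSup_le fun k => abs_le_aux H g h k s t
  · have a := le_ciSup (bdd (mk' H g s h0 h1) (mk' H h t h2 h3)) g
    have b := le_ciSup (bdd (mk' H g s h0 h1) (mk' H h t h2 h3)) 1
    rw [← dist_def] at a b
    simp only [mk', cpt] at a b
    rw [H.self, H.comm h g, min_eq_left h1] at a
    rw [H.one_right, H.one_right, min_eq_right h0, min_eq_right h2] at b
    have a' := (abs_le.1 a).1
    have b' := (abs_le.1 b).1
    simp only [mk']
    rcases le_total s (min t (lc L g h)) with c | c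
    · rw [min_eq_left c]; linarith
    · rw [min_eq_right c]; linarith

lemma shift_mem (x : CTree H) (k : G) :
    ∃ g t, 0 ≤ t ∧ t ≤ L g ∧ (fun h => x.1 (k⁻¹ * h)) = cpt L g t := by
  obtain ⟨g, t, h0, h1, hx⟩ := x.2
  rw [hx]
  rcases le_total t (lc L k⁻¹ g) with c | c
  · refine ⟨k, L k - t, ?_, by linarith, ?_⟩
    · have := H.le_left k⁻¹ g
      rw [H.inv] at this
      linarith
    · funext h
      have e := H.min_eq c (k⁻¹ * h)
      have e2 := H.add_eq k (k⁻¹ * h)
      rw [mul_inv_cancel_left] at e2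
      have e3 : 2 * lc L k h = L k + L h - L (k⁻¹ * h) := by unfold lc; ring
      unfold cpt
      rw [← e]
      simp only [min_def]
      split_ifs <;> linarith
  · have m := H.mul_eq k g
    have l := H.le_left k⁻¹ g
    rw [H.inv] at l
    refine ⟨k * g, L k + t - 2 * lc L k⁻¹ g, by linarith, by linarith, ?_⟩
    funext h
    have eA : 2 * lc L k⁻¹ (k⁻¹ * h) = L k + L (k⁻¹ * h) - L h := by
      unfold lc; rw [inv_inv, mul_inv_cancel_left, H.inv]; ring
    have eC : 2 * lc L g (k⁻¹ * h) = L g + L (k⁻¹ * h) - L (g⁻¹ * (k⁻¹ * h)) := by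
      unfold lc; ring
    have eD : 2 * lc L (k * g) h = L (k * g) + L h - L (g⁻¹ * (k⁻¹ * h)) := by
      unfold lc; rw [mul_inv_rev, mul_assoc]; ring
    have a1 := H.hyp k⁻¹ g (k⁻¹ * h)
    have a2 := H.hyp k⁻¹ (k⁻¹ * h) g
    have a3 := H.hyp g (k⁻¹ * h) k⁻¹
    rw [H.comm (k⁻¹ * h) g] at a2
    rw [H.comm g k⁻¹, H.comm (k⁻¹ * h) k⁻¹] at a3
    unfold cpt
    simp only [min_def]
    split_ifs <;> rcases a1 with a1 | a1 <;> rcases a2 with a2 | a2 <;>
      rcases a3 with a3 | a3 <;> linarith

noncomputable instance : MulAction G (CTree H) where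
  smul k x := ⟨fun h => x.1 (k⁻¹ * h), shift_mem x k⟩
  one_smul x := by
    apply Subtype.ext; funext h
    change x.1 (1⁻¹ * h) = x.1 h
    simp
  mul_smul k m x := by
    apply Subtype.ext; funext h
    change x.1 ((k * m)⁻¹ * h) = x.1 (m⁻¹ * (k⁻¹ * h))
    rw [mul_inv_rev, mul_assoc]

lemma smul_val (k : G) (x : CTree H) (h : G) : (k • x).1 h = x.1 (k⁻¹ * h) := rfl

lemma isom (k : G) (x y : CTree H) : dist (k • x) (k • y) = dist x y := by
  rw [dist_def, dist_def]
  simp only [smul_val]
  exact (Equiv.mulLeft k⁻¹).iSup_comp (g := fun h => |x.1 h - y.1 h|)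

/-- base point -/
noncomputable def base (H : Lyndon L) : CTree H := mk' H 1 0 le_rfl (H.len_nonneg 1)

lemma smul_base (k : G) : k • base H = mk' H k (L k) (H.len_nonneg k) le_rfl := by
  apply Subtype.ext; funext h
  rw [smul_val]
  simp only [base, mk', cpt]
  rw [H.one_left, min_self, min_eq_right (H.le_left k h)]
  unfold lc; ring

lemma dist_base_mk' (g : G) (s : ℝ) (h0 : 0 ≤ s) (h1 : s ≤ L g) :
    dist (base H) (mk' H g s h0 h1) = s := by
  unfold base
  rw [dist_mk', H.one_left, min_eq_right h0, min_self]; ring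

lemma dist_base_smul (k : G) : dist (base H) (k • base H) = L k := by
  rw [smul_base, dist_base_mk']

lemma gp_base (g h : G) (s t : ℝ) (h0 : 0 ≤ s) (h1 : s ≤ L g) (h2 : 0 ≤ t) (h3 : t ≤ L h) :
    gp (base H) (mk' H g s h0 h1) (mk' H h t h2 h3) = min s (min t (lc L g h)) := by
  unfold gp
  rw [dist_base_mk', dist_base_mk', dist_mk']; ring

lemma hyp_base (x y z : CTree H) :
    gp (base H) x z ≤ gp (base H) x y ∨ gp (base H) y z ≤ gp (base H) x y := by
  obtain ⟨g, s, h0, h1, rfl⟩ := exists_mk' x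
  obtain ⟨h, t, h2, h3, rfl⟩ := exists_mk' y
  obtain ⟨k, u, h4, h5, rfl⟩ := exists_mk' z
  rw [gp_base, gp_base, gp_base]
  rcases H.hyp g h k with a | a
  · rcases le_total t (min s (min u (lc L g k))) with c | c
    · right
      simp only [min_def] at c ⊢
      split_ifs at c ⊢ <;> linarith
    · left
      simp only [min_def] at c ⊢
      split_ifs at c ⊢ <;> linarith
  · rcases le_total s (min t (min u (lc L h k))) with c | c
    · left
      simp only [min_def] at c ⊢
      split_ifs at c ⊢ <;> linarith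
    · right
      simp only [min_def] at c ⊢
      split_ifs at c ⊢ <;> linarith

lemma isRTree : IsRTree (CTree H) := by
  constructor
  · intro x y
    obtain ⟨g, s, h0, h1, rfl⟩ := exists_mk' x
    obtain ⟨h, t, h2, h3, rfl⟩ := exists_mk' y
    rw [dist_mk']
    set m := min s (min t (lc L g h)) with hm
    have m0 : 0 ≤ m := le_min h0 (le_min h2 (H.nonneg _ _))
    have m1 : m ≤ s := min_le_left _ _
    have m2 : m ≤ t := (min_le_right _ _).trans (min_le_left _ _)
    have m3 : m ≤ lc L g h := (min_le_right _ _).trans (min_le_right _ _)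
    have m4 : m = s ∨ m = t ∨ m = lc L g h := by
      rcases min_choice s (min t (lc L g h)) with a | a
      · exact Or.inl a
      · rcases min_choice t (lc L g h) with b | b
        · exact Or.inr (Or.inl (a.trans b))
        · exact Or.inr (Or.inr (a.trans b))
    classical
    let γ : ℝ → CTree H := fun r =>
      if hr : 0 ≤ r ∧ r ≤ s - m then mk' H g (s - r) (by linarith [hr.2]) (by linarith [hr.1])
      else if hr' : s - m ≤ r ∧ r ≤ s + t - 2 * m then
        mk' H h (r - s + 2 * m) (by linarith [hr'.1]) (by linarith [hr'.2])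
      else base H
    have key : ∀ r ∈ Set.Icc 0 (s + t - 2 * m),
        (∃ (hr0 : 0 ≤ r) (hr : r ≤ s - m),
          γ r = mk' H g (s - r) (by linarith) (by linarith)) ∨
        (∃ (hr0 : s - m < r) (hr : r ≤ s + t - 2 * m),
          γ r = mk' H h (r - s + 2 * m) (by linarith) (by linarith)) := by
      rintro r ⟨hr0, hr1⟩
      rcases le_or_gt r (s - m) with c | c
      · left; exact ⟨hr0, c, by simp only [γ]; rw [dif_pos ⟨hr0, c⟩]⟩
      · right
        refine ⟨c, hr1, ?_⟩
        simp only [γ]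
        rw [dif_neg (fun hh => by linarith [hh.2]), dif_pos ⟨c.le, hr1⟩]
    refine ⟨γ, ?_, ?_, ?_⟩
    · simp only [γ]
      rw [dif_pos ⟨le_rfl, by linarith⟩]
      congr 1; ring
    · rcases key (s + t - 2 * m) ⟨by linarith, le_rfl⟩ with ⟨a, b, e⟩ | ⟨a, b, e⟩
      · rw [e]
        apply eq_of_dist_eq_zero
        rw [dist_mk']
        simp only [min_def]
        split_ifs <;> linarith
      · rw [e]; congr 1; ring
    · intro r hr r' hr'
      have sg := H.self g
      have sh := H.self h
      have cm := H.comm h g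
      rcases key r hr with ⟨a, b, e⟩ | ⟨a, b, e⟩ <;>
        rcases key r' hr' with ⟨a', b', e'⟩ | ⟨a', b', e'⟩ <;>
        rw [e, e', dist_mk'] <;> simp only [min_def] <;>
        rcases abs_cases (r - r') with ⟨q1, q2⟩ | ⟨q1, q2⟩ <;> rw [q1] <;>
        rcases m4 with m4 | m4 | m4 <;> split_ifs <;> linarith
  · intro x y z w
    have a1 := hyp_base x y z
    have a2 := hyp_base x y w
    have a3 := hyp_base z w x
    have a4 := hyp_base z w y
    rw [gp_comm _ z x, gp_comm _ w x] at a3
    rw [gp_comm _ z y, gp_comm _ w y] at a4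
    unfold gp at a1 a2 a3 a4
    by_contra hc
    rw [not_le, max_lt_iff] at hc
    obtain ⟨c1, c2⟩ := hc
    rcases a1 with a1 | a1 <;> rcases a2 with a2 | a2 <;> rcases a3 with a3 | a3 <;>
      rcases a4 with a4 | a4 <;> linarith

lemma isMinimal (hM : ∀ R : ℝ, ∃ k : G, L (k * k) = 2 * L k ∧ R < L k) :
    IsMinimalTreeAction G (CTree H) := by
  refine ⟨⟨base H⟩, isRTree, isom, fun S hS hinv => ?_⟩
  have hb : base H ∈ S := by
    apply mem_of_axis isRTree isom (base H) _ S hS hinv
    intro R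
    obtain ⟨k, hk1, hk2⟩ := hM R
    exact ⟨k, by rw [dist_base_smul, dist_base_smul, hk1], by rw [dist_base_smul]; exact hk2⟩
  refine Set.eq_univ_of_forall fun x => ?_
  obtain ⟨g, s, h0, h1, rfl⟩ := exists_mk' x
  apply hS.2 _ hb _ (hinv g _ hb)
  rw [dist_base_smul, dist_base_mk', smul_base, dist_mk', H.self, min_self, min_eq_left h1]
  ring

lemma transLength_eq' (g : G) (hg : L g < L (g * g)) :
    transLength (CTree H) g = L (g * g) - L g := by
  rw [transLength_eq isRTree isom g (base H) (by rw [dist_base_smul, dist_base_smul]; exact hg),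
    dist_base_smul, dist_base_smul]

lemma free (g : G) (hg : L g < L (g * g)) (y : CTree H) : g • y ≠ y :=
  no_fixed_of_lt isom isRTree g (base H) (by rw [dist_base_smul, dist_base_smul]; exact hg) y

end CTree

end Pool.Agent.H183Z
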