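import Pool.Agent.H183Z.Coarse

set_option autoImplicit false

/-! Marker maps from the free group of rank two to a wreath product. -/

namespace Pool.Agent.H183Z.Coarse

open LaurentPolynomial Finset FreeGroup

/-- the wreath product of two copies of the integers -/
@[ext] structure WG where
  /-- lamp part -/
  c : Lau
  /-- height -/
  h : ℤ

noncomputable instance : Mul WG := ⟨fun x y => ⟨x.c + T x.h * y.c, x.h + y.h⟩⟩
noncomputable instance : One WG := ⟨⟨0, 0⟩⟩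
noncomputable instance : Inv WG := ⟨fun x => ⟨-(T (-x.h) * x.c), -x.h⟩⟩

@[simp] lemma mul_c (x y : WG) : (x * y).c = x.c + T x.h * y.c := rfl
@[simp] lemma mul_h (x y : WG) : (x * y).h = x.h + y.h := rfl
@[simp] lemma one_c : (1 : WG).c = 0 := rfl
@[simp] lemma one_h : (1 : WG).h = 0 := rfl
@[simp] lemma inv_c (x : WG) : x⁻¹.c = -(T (-x.h) * x.c) := rfl
@[simp] lemma inv_h (x : WG) : x⁻¹.h = -x.h := rfl

noncomputable instance : Group WG := Group.ofLeftAxioms
  (fun x y z => WG.ext (by simp only [mul_c, mul_h, T_add]; ring) (by simp [add_assoc]))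
  (fun x => WG.ext (by simp) (by simp)) (fun x => WG.ext (by simp) (by simp))

/-- sign of a letter -/
def sg (s : Fin 2 × Bool) : ℤ := if s.2 then 1 else -1

lemma sg_linv (s : Fin 2 × Bool) : sg (linv s) = -sg s := by
  rcases s with ⟨a, b⟩
  cases b <;> simp [sg, linv]

/-- exponent of the first block -/
def kk : List (Fin 2 × Bool) → ℤ
  | [] => 0
  | s :: l => if s.1 = 0 then 0 else sg s + kk l

section
variable {G : Type*} [Group G] (B : ℤ → G) (A : Fin 2 × Bool → G)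

/-- value after the first block -/
def rest : List (Fin 2 × Bool) → G
  | [] => 1
  | s :: l => if s.1 = 0 then A s * (B (kk l) * rest l) else rest l

/-- blockwise evaluation -/
def Th (l : List (Fin 2 × Bool)) : G := B (kk l) * rest B A l

variable {B A}

lemma Th_append (hB : ∀ n, B (-n) = (B n)⁻¹) (hA : ∀ s, A (linv s) = (A s)⁻¹)
    (l m : List (Fin 2 × Bool)) :
    Th B A (l ++ m) = (rest B A (invRev l))⁻¹ * B (-kk (invRev l) + kk m) * rest B A m := by
  induction l using List.reverseRecOn generalizing m with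
  | nil => simp [Th, rest, kk]
  | append_singleton l s ih =>
    have e : invRev (l ++ [s]) = linv s :: invRev l := by simp [invRev, linv]
    have e2 : (linv s).1 = s.1 := rfl
    rw [List.append_assoc, List.singleton_append, ih, e]
    simp only [kk, rest, e2]
    split_ifs
    · simp only [add_zero, neg_zero, zero_add, hA, hB]
      group
    · rw [sg_linv]; congr 3; ring

lemma Th_inv (hB : ∀ n, B (-n) = (B n)⁻¹) (hA : ∀ s, A (linv s) = (A s)⁻¹)
    (l : List (Fin 2 × Bool)) : Th B A (invRev l) = (Th B A l)⁻¹ := by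
  have := Th_append hB hA (invRev l) []
  rw [List.append_nil, invRev_invRev] at this
  rw [this, Th]
  simp [kk, rest, hB]

end

/-- value on a block -/
noncomputable def Bm (ω : Fin 2 → ℤ) (i : ℕ) (n : ℤ) : WG :=
  if n = i then ⟨C (n * ω 1), 1⟩ else if n = -i then ⟨T (-1) * C (n * ω 1), -1⟩
    else ⟨C (n * ω 1), 0⟩

/-- value on a letter -/
noncomputable def Al (ω : Fin 2 → ℤ) (s : Fin 2 × Bool) : WG := ⟨C (sg s * ω s.1), 0⟩

lemma Bm_of_ne (ω : Fin 2 → ℤ) {i : ℕ} {n : ℤ} (h : n.natAbs ≠ i) :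
    Bm ω i n = ⟨C (n * ω 1), 0⟩ := by
  rw [Bm, if_neg (by omega), if_neg (by omega)]

lemma Bm_zero (ω : Fin 2 → ℤ) {i : ℕ} (hi : 1 < i) : Bm ω i 0 = 1 := by
  rw [Bm_of_ne ω (by omega)]; ext1 <;> simp

lemma Bm_neg (ω : Fin 2 → ℤ) {i : ℕ} (hi : 1 < i) (n : ℤ) : Bm ω i (-n) = (Bm ω i n)⁻¹ := by
  by_cases h1 : n = i
  · rw [Bm, Bm, if_neg (by omega), if_pos (by omega), if_pos h1]; ext1 <;> simp
  · by_cases h2 : n = -i
    · rw [Bm, Bm, if_pos (by omega), if_neg h1, if_pos h2]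
      ext1
      · simp [← mul_assoc]
      · simp
    · rw [Bm_of_ne ω (by omega), Bm_of_ne ω (by omega)]; ext1 <;> simp

lemma Al_linv (ω : Fin 2 → ℤ) (s : Fin 2 × Bool) : Al ω (linv s) = (Al ω s)⁻¹ := by
  have e2 : (linv s).1 = s.1 := rfl
  ext1 <;> simp [Al, sg_linv, e2]

/-- the marker map on words -/
noncomputable def Tl (ω : Fin 2 → ℤ) (i : ℕ) : List (Fin 2 × Bool) → WG := Th (Bm ω i) (Al ω)

/-- the marker map -/
noncomputable def Tg (ω : Fin 2 → ℤ) (i : ℕ) (g : FreeGroup (Fin 2)) : WG := Tl ω i g.toWord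

lemma Tl_append (l m : List (Fin 2 × Bool)) : ∃ E : Finset ℕ, E.card ≤ 3 ∧ ∀ i ∉ E, 1 < i → ∀ ω,
    Tl ω i (l ++ m) = Tl ω i l * Tl ω i m := by
  refine ⟨{(-kk (invRev l)).natAbs, (kk m).natAbs, (-kk (invRev l) + kk m).natAbs}, card_le_three,
    fun i hE hi ω => ?_⟩
  simp only [mem_insert, mem_singleton, not_or] at hE
  have a := Th_append (Bm_neg ω hi) (Al_linv ω) l []
  rw [List.append_nil] at a
  have b : Bm ω i (-kk (invRev l) + kk m) = Bm ω i (-kk (invRev l)) * Bm ω i (kk m) := by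
    rw [Bm_of_ne ω (Ne.symm hE.1), Bm_of_ne ω (Ne.symm hE.2.1), Bm_of_ne ω (Ne.symm hE.2.2)]
    ext1 <;> simp [add_mul]
  unfold Tl
  rw [Th_append (Bm_neg ω hi) (Al_linv ω), a, b, Th]
  simp [kk, rest, mul_assoc]

lemma Tg_inv (ω : Fin 2 → ℤ) {i : ℕ} (hi : 1 < i) (g : FreeGroup (Fin 2)) :
    Tg ω i g⁻¹ = (Tg ω i g)⁻¹ := by
  rw [Tg, toWord_inv]
  exact Th_inv (Bm_neg ω hi) (Al_linv ω) _

lemma exists_tripod {α : Type*} [DecidableEq α] (l m : List (α × Bool)) (hl : IsReduced l)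
    (hm : IsReduced m) : ∃ c l' m', l = c ++ l' ∧ m = c ++ m' ∧ IsReduced (invRev l' ++ m') := by
  induction l generalizing m with
  | nil => exact ⟨[], [], m, rfl, rfl, by simpa using hm⟩
  | cons s l ih =>
    cases m with
    | nil => exact ⟨[], s :: l, [], rfl, rfl, by simpa using isReduced_invRev hl⟩
    | cons t m =>
      by_cases hst : s = t
      · subst hst
        obtain ⟨c, l', m', h1, h2, h3⟩ := ih m (isReduced_tail hl) (isReduced_tail hm)
        exact ⟨s :: c, l', m', by rw [h1]; rfl, by rw [h2]; rfl, h3⟩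
      · refine ⟨[], s :: l, t :: m, rfl, rfl, ?_⟩
        have h1 := isReduced_invRev hl
        rw [invRev_cons] at h1 ⊢
        refine IsReduced.append_overlap h1 ?_ (by simp [invRev])
        have : invRev [s] = [(s.1, !s.2)] := by simp [invRev]
        rw [this, List.singleton_append, isReduced_cons_cons]
        refine ⟨fun h => ?_, hm⟩
        rcases eq_or_linv (s := s) (r := t) h.symm with e | e
        · exact absurd e.symm hst
        · rw [e]; rfl

lemma Tg_mul (g g' : FreeGroup (Fin 2)) : ∃ E : Finset ℕ, E.card ≤ 9 ∧ ∀ i ∉ E, 1 < i → ∀ ω,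
    Tg ω i (g * g') = Tg ω i g * Tg ω i g' := by
  obtain ⟨c, l, m, h1, h2, h3⟩ := exists_tripod g⁻¹.toWord g'.toWord isReduced_toWord
    isReduced_toWord
  have e1 : g.toWord = invRev l ++ invRev c := by
    rw [← invRev_append, ← h1, toWord_inv, invRev_invRev]
  have e2 : (g * g').toWord = invRev l ++ m := by
    rw [← mk_toWord (x := g), ← mk_toWord (x := g'), e1, h2, ← toWord_mk_of_reduced h3]
    simp only [← mul_mk, ← inv_mk]
    congr 1
    group
  obtain ⟨E1, a1, b1⟩ := Tl_append (invRev l) (invRev c)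
  obtain ⟨E2, a2, b2⟩ := Tl_append c m
  obtain ⟨E3, a3, b3⟩ := Tl_append (invRev l) m
  refine ⟨E1 ∪ E2 ∪ E3, ?_, fun i hE hi ω => ?_⟩
  · have := card_union_le (E1 ∪ E2) E3
    have := card_union_le E1 E2
    omega
  · simp only [mem_union, not_or] at hE
    have : Tl ω i (invRev c) = (Tl ω i c)⁻¹ := Th_inv (Bm_neg ω hi) (Al_linv ω) _
    rw [Tg, Tg, Tg, e1, e2, h2, b1 i hE.1.1 hi, b2 i hE.1.2 hi, b3 i hE.2 hi, this]
    group

lemma Tg_letter (ω : Fin 2 → ℤ) {i : ℕ} (hi : 1 < i) (s : Fin 2 × Bool) :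
    Tg ω i (mk [s]) = Al ω s := by
  rw [Tg, toWord_mk_of_reduced IsReduced.singleton, Tl, Th]
  simp only [kk, rest]
  split_ifs with h
  · simp [Bm_zero ω hi]
  · have : s.1 = 1 := by omega
    rw [Bm_of_ne ω (by unfold sg; split_ifs <;> simp <;> omega), Al, this]
    simp

lemma Tg_err (Lz : List (FreeGroup (Fin 2)))
    (hL : ∀ x ∈ Lz, ∃ (g : FreeGroup (Fin 2)) (s : Fin 2 × Bool), x = g * mk [s] * g⁻¹)
    (g : FreeGroup (Fin 2)) : ∃ E : Finset ℕ, E.card ≤ 27 * Lz.length ∧ ∀ i ∉ E, 1 < i →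
      ∀ ω : Fin 2 → ℤ, (∀ j, |ω j| ≤ 1) → (Tg ω i (g * Lz.prod)).h = (Tg ω i g).h ∧
        ∃ e, Bd Lz.length e ∧ (Tg ω i (g * Lz.prod)).c = (Tg ω i g).c + e := by
  induction Lz generalizing g with
  | nil => exact ⟨∅, by simp, fun i _ _ ω _ => ⟨by simp, 0, Bd.zero, by simp⟩⟩
  | cons x Lz ih =>
    obtain ⟨k, s, rfl⟩ := hL x List.mem_cons_self
    obtain ⟨E, a, b⟩ := ih (fun y hy => hL y (List.mem_cons_of_mem _ hy)) (g * k * mk [s] * k⁻¹)
    obtain ⟨E1, a1, b1⟩ := Tg_mul g k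
    obtain ⟨E2, a2, b2⟩ := Tg_mul (g * k) (mk [s])
    obtain ⟨E3, a3, b3⟩ := Tg_mul (g * k * mk [s]) k⁻¹
    refine ⟨E ∪ E1 ∪ E2 ∪ E3, ?_, fun i hE hi ω hω => ?_⟩
    · have := card_union_le (E ∪ E1 ∪ E2) E3
      have := card_union_le (E ∪ E1) E2
      have := card_union_le E E1
      rw [List.length_cons]; omega
    · simp only [mem_union, not_or] at hE
      obtain ⟨c1, e, c2, c3⟩ := b i hE.1.1.1 hi ω hω
      rw [b3 i hE.2 hi, b2 i hE.1.2 hi, b1 i hE.1.1.2 hi, Tg_inv ω hi, Tg_letter ω hi] at c1 c3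
      rw [List.prod_cons, show g * (k * mk [s] * k⁻¹ * Lz.prod) =
        g * k * mk [s] * k⁻¹ * Lz.prod by group, c1, c3]
      refine ⟨by simp [Al], e + T ((Tg ω i g).h + (Tg ω i k).h) * C (sg s * ω s.1),
        c2.add ((Bd.const ?_).shift _), ?_⟩
      · rw [abs_mul]
        have := hω s.1
        unfold sg
        split_ifs <;> simpa using this
      · have : (T (Tg ω i k).h : Lau) * T (-(Tg ω i k).h) = 1 := by
          rw [← T_add, add_neg_cancel, T_zero]
        simp only [mul_c, mul_h, inv_c, Al, add_zero, T_add]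
        linear_combination (-T (Tg ω i g).h * (Tg ω i k).c) * this

lemma Tg_tri {D : ℕ} {f : ℕ → FreeGroup (Fin 2)} {m n : ℕ} {Lz : List (FreeGroup (Fin 2))}
    (hD : Lz.length ≤ D)
    (hL : ∀ x ∈ Lz, ∃ (g : FreeGroup (Fin 2)) (s : Fin 2 × Bool), x = g * mk [s] * g⁻¹)
    (h : Lz.prod = (f (m + n))⁻¹ * (f m * f n)) : ∃ E : Finset ℕ, E.card ≤ 27 * D + 9 ∧
      ∀ i ∉ E, 1 < i → ∀ ω : Fin 2 → ℤ, (∀ j, |ω j| ≤ 1) →
        Tri D (fun k => (Tg ω i (f k)).c) (fun k => (Tg ω i (f k)).h) m n := by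
  obtain ⟨E, a, b⟩ := Tg_err Lz hL (f (m + n))
  obtain ⟨E1, a1, b1⟩ := Tg_mul (f m) (f n)
  refine ⟨E ∪ E1, ?_, fun i hE hi ω hω => ?_⟩
  · have := card_union_le E E1
    omega
  · simp only [mem_union, not_or] at hE
    obtain ⟨c1, e, c2, c3⟩ := b i hE.1 hi ω hω
    rw [h, mul_inv_cancel_left, b1 i hE.2 hi] at c1 c3
    exact ⟨c1, e, c2.mono hD, c3⟩

lemma Bm_h (ω ω' : Fin 2 → ℤ) (i : ℕ) (n : ℤ) : (Bm ω i n).h = (Bm ω' i n).h := by
  unfold Bm
  split_ifs <;> rfl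

lemma Tl_h (ω ω' : Fin 2 → ℤ) (i : ℕ) (l : List (Fin 2 × Bool)) : (Tl ω i l).h = (Tl ω' i l).h := by
  have : (rest (Bm ω i) (Al ω) l).h = (rest (Bm ω' i) (Al ω') l).h := by
    induction l with
    | nil => rfl
    | cons s l ih =>
      simp only [rest]
      split_ifs
      · simp only [mul_h, ih, Bm_h ω ω', Al]
      · exact ih
  simp only [Tl, Th, mul_h, this, Bm_h ω ω']

/-- weighted exponent sum -/
def ab (ω : Fin 2 → ℤ) (g : FreeGroup (Fin 2)) : ℤ :=
  Multiplicative.toAdd (FreeGroup.lift (fun j => Multiplicative.ofAdd (ω j)) g)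

lemma ab_mul (ω : Fin 2 → ℤ) (g g' : FreeGroup (Fin 2)) : ab ω (g * g') = ab ω g + ab ω g' := by
  simp [ab]

lemma ab_inv (ω : Fin 2 → ℤ) (g : FreeGroup (Fin 2)) : ab ω g⁻¹ = -ab ω g := by simp [ab]

lemma ab_letter (ω : Fin 2 → ℤ) (s : Fin 2 × Bool) : ab ω (mk [s]) = sg s * ω s.1 := by
  rcases s with ⟨a, b⟩
  cases b
  · have : mk [(a, false)] = (of a)⁻¹ := by rw [of, inv_mk]; rfl
    rw [this]; simp [ab, sg]
  · have : mk [(a, true)] = of a := rfl
    rw [this]; simp [ab, sg]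

lemma sm_mul (x y : WG) :
    pr (fun _ => 1) (x * y).c = pr (fun _ => 1) x.c + pr (fun _ => 1) y.c := by
  rw [mul_c, map_add, pr_T_mul]

lemma sm_C (r : ℤ) : pr (fun _ => 1) (C r) = r := by simpa using pr_mono (fun _ => 1) r 0

lemma sm_Bm (ω : Fin 2 → ℤ) (i : ℕ) (n : ℤ) : pr (fun _ => 1) (Bm ω i n).c = n * ω 1 := by
  unfold Bm
  split_ifs <;> simp only [pr_T_mul, sm_C]

lemma sm_Tl (ω : Fin 2 → ℤ) (i : ℕ) (l : List (Fin 2 × Bool)) :
    pr (fun _ => 1) (Tl ω i l).c = ab ω (mk l) := by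
  rw [Tl, Th, sm_mul, sm_Bm]
  induction l with
  | nil =>
    have : (mk ([] : List (Fin 2 × Bool))) = 1 := rfl
    simp [this, kk, rest, ab]
  | cons s l ih =>
    rw [mk_cons', ab_mul, ab_letter, ← ih]
    simp only [kk, rest]
    split_ifs with h
    · rw [sm_mul, sm_mul, sm_Bm, Al, sm_C]; ring
    · have : s.1 = 1 := by omega
      rw [this]; ring

lemma sm_Tg (ω : Fin 2 → ℤ) (i : ℕ) (g : FreeGroup (Fin 2)) :
    pr (fun _ => 1) (Tg ω i g).c = ab ω g := by
  rw [Tg, sm_Tl, mk_toWord]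

lemma abs_ab_prod (ω : Fin 2 → ℤ) (hω : ∀ j, |ω j| ≤ 1) (Lz : List (FreeGroup (Fin 2)))
    (hL : ∀ x ∈ Lz, ∃ (g : FreeGroup (Fin 2)) (s : Fin 2 × Bool), x = g * mk [s] * g⁻¹) :
    |ab ω Lz.prod| ≤ Lz.length := by
  induction Lz with
  | nil => simp [ab]
  | cons x Lz ih =>
    obtain ⟨k, s, rfl⟩ := hL x List.mem_cons_self
    have a := ih fun y hy => hL y (List.mem_cons_of_mem _ hy)
    have b := hω s.1
    rw [List.prod_cons, ab_mul, ab_mul, ab_mul, ab_inv, ab_letter, List.length_cons]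
    rw [abs_le] at a b ⊢
    unfold sg
    split_ifs <;> push_cast <;> constructor <;> linarith

/-- a word containing each marker once -/
def UL : ℕ → List (Fin 2 × Bool)
  | 0 => []
  | M + 1 => List.replicate (M + 2) (1, true) ++ (0, true) :: UL M

lemma UL_pos (M : ℕ) : ∀ s ∈ UL M, s.2 = true := by
  induction M with
  | zero => simp [UL]
  | succ M ih =>
    intro s hs
    simp only [UL, List.mem_append, List.mem_replicate, List.mem_cons] at hs
    rcases hs with ⟨-, rfl⟩ | rfl | hs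
    · rfl
    · rfl
    · exact ih s hs

lemma red_of_pos {l : List (Fin 2 × Bool)} (h : ∀ s ∈ l, s.2 = true) : IsReduced l :=
  List.isChain_iff_getElem.2 fun i hi _ => by
    rw [h _ (List.getElem_mem _), h _ (List.getElem_mem _)]

lemma Tl_block (ω : Fin 2 → ℤ) (i j : ℕ) (l : List (Fin 2 × Bool)) :
    (Tl ω i (List.replicate j (1, true) ++ (0, true) :: l)).h = (Bm ω i j).h + (Tl ω i l).h := by
  have : kk (List.replicate j (1, true) ++ (0, true) :: l) = j ∧
      rest (Bm ω i) (Al ω) (List.replicate j (1, true) ++ (0, true) :: l) =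
        Al ω (0, true) * Tl ω i l := by
    induction j with
    | zero => simp [kk, rest, Tl, Th]
    | succ j ih =>
      rw [List.replicate_succ, List.cons_append]
      simp only [kk, rest, ih.1, ih.2, sg]
      simp [add_comm]
  rw [Tl, Th, this.1, this.2]
  simp [Al, Tl]

lemma Tl_UL (ω : Fin 2 → ℤ) {i : ℕ} (hi : 1 < i) (M : ℕ) :
    (Tl ω i (UL M)).h = if i ≤ M + 1 then 1 else 0 := by
  induction M with
  | zero => rw [if_neg (by omega)]; simp [UL, Tl, Th, kk, rest, Bm_zero ω hi]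
  | succ M ih =>
    rw [UL, Tl_block, ih]
    by_cases c : i = M + 2
    · rw [Bm, if_pos (by rw [c]), if_neg (by omega), if_pos (by omega)]; rfl
    · rw [Bm_of_ne ω (by omega), zero_add]
      split_ifs <;> omega

lemma Tl_pad (ω : Fin 2 → ℤ) {i : ℕ} (hi : 1 < i) (p : ℕ) (l : List (Fin 2 × Bool)) :
    (Tl ω i (List.replicate p (0, true) ++ l)).h = (Tl ω i l).h := by
  induction p with
  | zero => simp
  | succ p ih =>
    have := Tl_block ω i 0 (List.replicate p (0, true) ++ l)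
    rw [Nat.cast_zero, Bm_zero ω hi, ih] at this
    simpa [List.replicate_succ] using this

lemma ab_replicate (ω : Fin 2 → ℤ) (j : Fin 2) (p : ℕ) :
    ab ω (mk (List.replicate p (j, true))) = p * ω j := by
  induction p with
  | zero =>
    have : (mk ([] : List (Fin 2 × Bool))) = 1 := rfl
    simp [this, ab]
  | succ p ih => rw [List.replicate_succ, mk_cons', ab_mul, ih, ab_letter]; simp [sg]; ring

lemma ab_UL (M : ℕ) : ab ![1, 0] (mk (UL M)) = M ∧ (M : ℤ) ≤ ab ![0, 1] (mk (UL M)) := by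
  induction M with
  | zero =>
    have : (mk ([] : List (Fin 2 × Bool))) = 1 := rfl
    simp [UL, this, ab]
  | succ M ih =>
    simp only [UL, ← mul_mk, mk_cons' _ (UL M), ab_mul, ab_replicate, ab_letter, ih.1]
    simp [sg]
    omega

theorem slopes {D M p : ℕ} (hM : (4 * D + 4) * (27 * D + 9) < M) {f : ℕ → FreeGroup (Fin 2)}
    (h1 : f 1 = FreeGroup.mk (List.replicate p (0, true) ++ UL M))
    (hf : ∀ m n, ∃ Lz : List (FreeGroup (Fin 2)), Lz.length ≤ D ∧
      (∀ x ∈ Lz, ∃ (g : FreeGroup (Fin 2)) (s : Fin 2 × Bool), x = g * mk [s] * g⁻¹) ∧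
      Lz.prod = (f (m + n))⁻¹ * (f m * f n)) (N : ℕ) :
    ∃ L : ℤ, ∀ ω : Fin 2 → ℤ, (∀ j, |ω j| ≤ 1) →
      Nk (2 * (2 * D) + 1) (2 * D) L (2 * D * (2 * D * (2 * D))) (L * ab ω (f 1) - ab ω (f N)) := by
  choose E hE hT using fun m n => (hf m n).elim fun Lz h => Tg_tri h.1 h.2.1 h.2.2
  let Z := E N 1 ∪ E 1 N ∪ E ((4 * D + 1) * N) 1 ∪ E 1 ((4 * D + 1) * N) ∪
    (range (4 * D)).biUnion fun j => E ((j + 1) * N) N
  obtain ⟨i, hi, hZ⟩ := exists_mem_notMem_of_card_lt_card (s := Z) (t := Icc 2 (M + 1)) (by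
    have a1 := card_union_le (E N 1 ∪ E 1 N ∪ E ((4 * D + 1) * N) 1 ∪ E 1 ((4 * D + 1) * N))
      ((range (4 * D)).biUnion fun j => E ((j + 1) * N) N)
    have a2 := card_union_le (E N 1 ∪ E 1 N ∪ E ((4 * D + 1) * N) 1) (E 1 ((4 * D + 1) * N))
    have a3 := card_union_le (E N 1 ∪ E 1 N) (E ((4 * D + 1) * N) 1)
    have a4 := card_union_le (E N 1) (E 1 N)
    have a5 := card_biUnion_le_card_mul (range (4 * D)) (fun j => E ((j + 1) * N) N) _
      fun j _ => hE _ _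
    have := hE N 1
    have := hE 1 N
    have := hE ((4 * D + 1) * N) 1
    have := hE 1 ((4 * D + 1) * N)
    rw [card_range] at a5
    rw [add_mul] at hM
    simp only [Z, Nat.card_Icc]
    omega)
  simp only [Z, mem_union, not_or, mem_biUnion, mem_range, not_exists, not_and] at hZ
  rw [mem_Icc] at hi
  refine ⟨(Tg 0 i (f N)).h, fun ω hω => ?_⟩
  have := slope_lemma (D := D) (N := N) (c := fun k => (Tg ω i (f k)).c)
    (h := fun k => (Tg ω i (f k)).h) (by
      simp only [h1, Tg]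
      rw [toWord_mk_of_reduced (red_of_pos fun s hs => ?_), Tl_pad ω hi.1, Tl_UL ω hi.1, if_pos hi.2]
      rcases List.mem_append.1 hs with a | a
      · rw [(List.mem_replicate.1 a).2]
      · exact UL_pos M s a)
    (hT _ _ i hZ.1.1.1.1 hi.1 ω hω) (hT _ _ i hZ.1.1.1.2 hi.1 ω hω) (hT _ _ i hZ.1.1.2 hi.1 ω hω)
    (hT _ _ i hZ.1.2 hi.1 ω hω) fun j hj => hT _ _ i (hZ.2 j hj) hi.1 ω hω
  simp only [sm_Tg] at this
  rwa [Tg, Tl_h ω 0] at this

end Pool.Agent.H183Z.Coarse
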