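import Pool.Agent.H183Z.CurrDefs

set_option autoImplicit false

/-! Primitive elements, spectrally rigid sets of elements and projectivized currents. -/

namespace Pool.Agent.H183Z

open scoped NNReal

/-- `g` belongs to some free basis of the group. -/
def IsPrimitive {G : Type} [Group G] (g : G) : Prop :=
  ∃ (ι : Type) (b : FreeGroupBasis ι G) (i : ι), b i = g

/-- `S ⊆ F_N` is spectrally rigid: two trees of `cv_N` whose translation length functions agree
on `S` are equivariantly isometric. -/
def RigidSet (N : ℕ) (S : Set (FreeGroup (Fin N))) : Prop :=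
  ∀ (T T' : Type) [MetricSpace T] [MulAction (FreeGroup (Fin N)) T]
    [MetricSpace T'] [MulAction (FreeGroup (Fin N)) T'], InCV N T → InCV N T' →
    (∀ g ∈ S, transLength T g = transLength T' g) → EquivIsometric (FreeGroup (Fin N)) T T'

/-- Two currents are proportional. -/
def Proportional {N : ℕ} (μ ν : Curr N) : Prop := ∃ c : ℝ≥0, 0 < c ∧ ν.1 = c • μ.1

/-- The space of projectivized currents. -/
def PCurr (N : ℕ) : Type := Quot (Proportional (N := N))

/-- The quotient topology. -/
noncomputable instance (N : ℕ) : TopologicalSpace (PCurr N) :=
  TopologicalSpace.coinduced (Quot.mk Proportional) inferInstance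

/-- The set `{[η_g] : g ∈ S}` of projective classes of counting currents. -/
def classes {N : ℕ} (S : Set (FreeGroup (Fin N))) : Set (PCurr N) :=
  {x | ∃ g ∈ S, ∃ μ : Curr N, IsCounting g μ.1 ∧ x = Quot.mk Proportional μ}

/-- The minimal set `𝕄_N`: the closure of the classes of the counting currents of primitive
elements. -/
def MinSet (N : ℕ) : Set (PCurr N) := closure (classes {g | IsPrimitive g})

end Pool.Agent.H183Z
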