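import Pool.Agent.H183Z.Sparse
import Pool.Agent.H183Z.PrimDefs

set_option autoImplicit false

/-! Spectrally rigid sets of primitive elements are dense in the minimal set. -/

namespace Pool.Agent.H183Z

open MeasureTheory Filter FreeGroup Topology
open scoped NNReal ENNReal

variable {N : ℕ}

lemma IsPrimitive.exists_hom {g : FreeGroup (Fin N)} (h : IsPrimitive g) (c : Fin N) :
    ∃ φ : FreeGroup (Fin N) →* FreeGroup (Fin N), Function.Bijective φ ∧ φ (of c) = g := by
  obtain ⟨ι, b, i, rfl⟩ := h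
  let e : Fin N ≃ ι := Equiv.ofFreeGroupEquiv b.repr
  let b' := b.reindex (e.symm.trans (Equiv.swap c (e.symm i)))
  refine ⟨b'.repr.symm.toMonoidHom, b'.repr.symm.bijective, ?_⟩
  change b' c = b i
  simp [b']

lemma exists_ptwo (hN : 2 ≤ N) (a : Fin N) (K : ℕ) :
    ∃ (c : Fin N) (θ : FreeGroup (Fin N) →* FreeGroup (Fin N)), Function.Bijective θ ∧
      ∀ φ : FreeGroup (Fin N) →* FreeGroup (Fin N), Function.Bijective φ →
        (∃ q ∈ Lines (φ (of a)), Good a K q) → PTwo c (θ (φ (of a))) := by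
  obtain ⟨κ, hκ⟩ := exists_spread N K
  obtain ⟨A, hA⟩ := exists_autData a (tw_bijective a κ)
  rcases hN.eq_or_lt with rfl | hN
  · obtain ⟨c, hc⟩ := exists_ne a
    refine ⟨c, A.φ, A.bijective, fun φ hφ ⟨q, h1, h2⟩ => ?_⟩
    obtain ⟨B, hB⟩ := exists_autData a (φ := A.φ.comp φ) (A.bijective.comp hφ)
    have e : A.φ (φ (of a)) = B.φ (mk [(a, true)]) := by rw [hB]; rfl
    have := step_one A hA hκ h1 h2
    rw [e] at this ⊢
    exact step_two' B _ hc.symm this
  · obtain ⟨c, d, h1, h2, h3⟩ : ∃ c d : Fin N, a ≠ c ∧ a ≠ d ∧ c ≠ d := by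
      obtain ⟨c, hc, d, hd, h⟩ := Finset.one_lt_card.1 (show 1 < (Finset.univ.erase a).card by
        simp; omega)
      exact ⟨c, d, (Finset.ne_of_mem_erase hc).symm, (Finset.ne_of_mem_erase hd).symm, h⟩
    obtain ⟨B, hB⟩ := exists_autData a (tw_bijective d fun s => if s.1 = a then 1 else 0)
    exact ⟨c, B.φ.comp A.φ, B.bijective.comp A.bijective, fun φ _ ⟨q, hq, h⟩ =>
      step_two B h1 h2 h3 hB (step_one A hA hκ hq h)⟩

lemma exists_depth_turns (A : AutData N) (s : Fin N × Bool) :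
    ∃ M, ∀ h, (∃ q ∈ Lines h, Agree M q (axis s)) → Tn (A.φ (mk [s])) ⊆ Tn (A.φ h) := by
  have key : ∀ τ, ∃ M, τ ∈ Tn (A.φ (mk [s])) →
      ∀ h, ∀ q ∈ Lines h, Agree M q (axis s) → τ ∈ Tn (A.φ h) := by
    intro τ
    by_cases c : τ ∈ Tn (A.φ (mk [s]))
    swap
    · exact ⟨0, fun h => absurd h c⟩
    obtain ⟨h0, p, hp, h1, h2⟩ := c
    have a := Lines.aut A.symm hp
    rw [show A.symm.φ (A.φ (mk [s])) = mk [s] from A.li _] at a
    obtain ⟨G, c1, c2, c3⟩ : ∃ G : DBdry N → DBdry N, Continuous G ∧ G (axis s) = p ∧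
        ∀ h, ∀ q ∈ Lines h, G q ∈ Lines (A.φ h) := by
      obtain ⟨k, hk | hk⟩ := lines_letter a
      · exact ⟨fun q => A.f2 (act2 k q), A.continuous_f2.comp (continuous_act2 k),
          by simp only [← hk, A.f2_symm_f2], fun h q hq => Lines.aut A (Lines.act hq k)⟩
      · exact ⟨fun q => A.f2 (flip2 (act2 k q)),
          A.continuous_f2.comp (continuous_flip2.comp (continuous_act2 k)),
          by simp only [← hk, A.f2_symm_f2],
          fun h q hq => Lines.aut A (Lines.flip (Lines.act hq k))⟩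
    have c : Continuous fun q : DBdry N => ((G q).1.1.1 0, (G q).1.2.1 0) :=
      (((continuous_coord 0).comp (continuous_fst.comp continuous_subtype_val)).prodMk
        ((continuous_coord 0).comp (continuous_snd.comp continuous_subtype_val))).comp c1
    obtain ⟨M, hM⟩ := exists_agree (p := axis s) (((isOpen_discrete {τ}).preimage c).mem_nhds (by
      simp only [Set.mem_preimage, c2, h1, h2, Set.mem_singleton_iff]))
    refine ⟨M, fun _ h q hq ha => ⟨h0, G q, c3 h q hq, ?_, ?_⟩⟩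
    · exact congrArg Prod.fst (hM q ha)
    · exact congrArg Prod.snd (hM q ha)
  choose M hM using key
  refine ⟨Finset.univ.sup M, fun h ⟨q, hq, ha⟩ τ hτ => hM τ hτ h q hq fun j hj => ha j ?_⟩
  exact lt_of_lt_of_le hj (Finset.le_sup (Finset.mem_univ τ))

lemma not_rigid (hN : 2 ≤ N) {S : Set (FreeGroup (Fin N))} (hS : ∀ g ∈ S, IsPrimitive g)
    (A : AutData N) (a : Fin N) (K : ℕ) (hG : ∀ g ∈ S, ∃ q ∈ Lines (A.φ g), Good a K q) :
    ¬ RigidSet N S := by
  intro hR
  obtain ⟨c, θ, hθ, h2⟩ := exists_ptwo hN a K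
  obtain ⟨_, ⟨φ, hφ, rfl⟩, hmax⟩ := (Set.toFinite {T | ∃ φ : FreeGroup (Fin N) →* FreeGroup (Fin N),
    Function.Bijective φ ∧ Tn (φ (of c)) = T}).exists_maximal
      ⟨_, MonoidHom.id _, Function.bijective_id, rfl⟩
  obtain ⟨B, rfl⟩ := exists_autData a hφ
  obtain ⟨M, hM⟩ := exists_depth_turns B (c, true)
  obtain ⟨κ, hκ⟩ := exists_spread N (2 * M + 1)
  obtain ⟨C, hC⟩ := exists_autData a (tw_bijective c κ)
  let Ψ := B.φ.comp (C.φ.comp (θ.comp A.φ))
  have bΨ : Function.Bijective Ψ := B.bijective.comp (C.bijective.comp (hθ.comp A.bijective))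
  have sub : ∀ g ∈ S, Tn (Ψ g) ⊆ Tn (B.φ (of c)) := by
    intro g hg
    obtain ⟨α, h3, h4⟩ := (hS g hg).exists_hom a
    obtain ⟨β, h5, h6⟩ := (hS g hg).exists_hom c
    have := h2 (A.φ.comp α) (A.bijective.comp h3) (by
      rw [MonoidHom.comp_apply, h4]; exact hG g hg)
    rw [MonoidHom.comp_apply, h4] at this
    exact hmax ⟨Ψ.comp β, bΨ.comp h5, by rw [MonoidHom.comp_apply, h6]⟩
      (hM _ (step_three C hC hκ this))
  obtain ⟨L, HL, l1, ⟨k, l2⟩, l3, g0, l4, l5⟩ :=
    deform (fun _ _ => Tn_symm) (whitehead hN B (c, true))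
  have ne : ∀ g, g ≠ 1 → Ψ g ≠ 1 := fun g hg e => hg (bΨ.1 (e.trans (_root_.map_one _).symm))
  have t1 : ∀ g, g ≠ 1 → transLength (CTree (lyndon_len1.comp Ψ)) g =
      len1 (Ψ g * Ψ g) - len1 (Ψ g) := by
    intro g hg
    rw [CTree.transLength_eq', _root_.map_mul]
    rw [_root_.map_mul]
    exact wlen_lt_sq (fun _ => one_pos) (ne g hg)
  have t2 : ∀ g, g ≠ 1 → transLength (CTree (HL.comp Ψ)) g = L (Ψ g * Ψ g) - L (Ψ g) := by
    intro g hg
    rw [CTree.transLength_eq', _root_.map_mul]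
    rw [_root_.map_mul]
    linarith [l1 _ (ne g hg)]
  have cv : InCV N (CTree (HL.comp Ψ)) := by
    refine inCV_ctree _ one_half_pos (fun g hg => ?_) ?_
    · rw [_root_.map_mul]; exact l1 _ (ne g hg)
    · obtain ⟨k', hk⟩ := bΨ.2 k
      exact exists_big (L := fun g => L (Ψ g)) (k := k') one_pos fun m => by
        rw [_root_.map_pow, hk, l2]
  have E := hR _ _ (inCV_aut a bΨ) cv fun g hg => by
    have g1 : g ≠ 1 := by
      obtain ⟨α, h3, h4⟩ := (hS g hg).exists_hom a
      rw [← h4]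
      exact fun e => of_ne_one a (h3.1 (e.trans (_root_.map_one _).symm))
    rw [t1 g g1, t2 g g1, l3 _ (ne g g1) (sub g hg)]
  obtain ⟨g, rfl⟩ := bΨ.2 g0
  have g1 : g ≠ 1 := fun e => l4 (by rw [e, _root_.map_one])
  have := E.transLength_eq g
  rw [t1 g g1, t2 g g1] at this
  exact l5 this.symm

lemma IsCurrent.pos {μ : Measure (DBdry N)} (h : IsCurrent μ) : μ (UU N) ≠ 0 := by
  intro e
  apply h.ne_zero
  rw [← Measure.measure_univ_eq_zero]
  refine measure_mono_null (t := ⋃ k : FreeGroup (Fin N), act2 k ⁻¹' UU N)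
    (fun q _ => Set.mem_iUnion.2 (exists_act2_mem q)) (measure_iUnion_null fun k => ?_)
  rw [← Measure.map_apply (measurable_act2 k) meas_UU, h.inv, e]

namespace AutData
variable (A : AutData N)

lemma isCurrent_map {μ : Measure (DBdry N)} (h : IsCurrent μ) : IsCurrent (μ.map A.f2) := by
  have m := A.continuous_f2.measurable
  have inv : ∀ g, (μ.map A.f2).map (act2 g) = μ.map A.f2 := by
    intro g
    conv_rhs => rw [← h.inv (A.ψ g)]
    rw [Measure.map_map (measurable_act2 g) m, Measure.map_map m (measurable_act2 _)]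
    congr 1
    funext q
    simp only [Function.comp, A.f2_act2, A.ri]
  refine ⟨fun e => h.ne_zero ((Measure.map_eq_zero_iff m.aemeasurable).1 e),
    regular_of_UU inv ?_, inv, ?_⟩
  · have := h.regular
    rw [Measure.map_apply m meas_UU]
    exact (A.homeo.isCompact_preimage.2 isCompact_UU).measure_lt_top
  · conv_rhs => rw [← h.flip]
    rw [Measure.map_map measurable_flip2 m, Measure.map_map m measurable_flip2]
    rfl

/-- action on currents -/
noncomputable def push (μ : Curr N) : Curr N := ⟨μ.1.map A.f2, A.isCurrent_map μ.2⟩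

lemma map_symm (μ : Measure (DBdry N)) : (μ.map A.symm.f2).map A.f2 = μ := by
  rw [Measure.map_map A.continuous_f2.measurable A.symm.continuous_f2.measurable,
    show A.f2 ∘ A.symm.f2 = id from funext A.f2_symm_f2, Measure.map_id]

lemma continuous_push : Continuous A.push := by
  refine continuous_induced_rng.2 (continuous_pi fun f => ?_)
  let f' : CompactlySupportedContinuousMap (DBdry N) ℝ :=
    ⟨⟨f ∘ A.homeo, f.continuous.comp A.homeo.continuous⟩,
      f.hasCompactSupport.comp_homeomorph A.homeo⟩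
  have c : Continuous (pairing : Curr N → _) := continuous_induced_dom
  refine ((continuous_apply f').comp c).congr fun μ => ?_
  exact (integral_map A.continuous_f2.measurable.aemeasurable f.continuous.aestronglyMeasurable).symm

lemma ae_push {g : FreeGroup (Fin N)} {μ : Curr N} (h : IsCounting g μ.1) :
    ∀ᵐ q ∂(A.push μ).1, q ∈ Lines (A.φ g) :=
  A.homeo.measurableEmbedding.ae_map_iff.2 (h.ae_lines.mono fun _ hq => Lines.aut A hq)

end AutData

theorem rigid_dense (hN : 2 ≤ N) {S : Set (FreeGroup (Fin N))} (hS : ∀ g ∈ S, IsPrimitive g)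
    (hR : RigidSet N S) : closure (classes S) = MinSet N := by
  refine Set.Subset.antisymm (closure_mono fun x ⟨g, hg, h⟩ => ⟨g, hS g hg, h⟩)
    (closure_minimal ?_ isClosed_closure)
  rintro _ ⟨p, hp, μ, hμ, rfl⟩
  let a : Fin N := ⟨0, by omega⟩
  obtain ⟨φ, hφ, rfl⟩ := IsPrimitive.exists_hom hp a
  obtain ⟨A, rfl⟩ := exists_autData a hφ
  have H : ∀ K, ∃ g ∈ S, ∀ q ∈ Lines (A.symm.φ g), ¬ Good a K q := by
    intro K
    by_contra c
    push Not at c
    exact not_rigid hN hS A.symm a K c hR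
  choose g hg H using H
  have ex : ∀ K, ∃ η : Curr N, IsCounting (g K) η.1 := by
    intro K
    obtain ⟨α, h3, h4⟩ := (hS _ (hg K)).exists_hom a
    obtain ⟨η, hη⟩ := exists_counting (g := g K) (by
      rw [← h4]
      exact fun e => of_ne_one a (h3.1 (e.trans (_root_.map_one _).symm)))
    exact ⟨⟨η, hη.isCurrent⟩, hη⟩
  choose η hη using ex
  let ρ := A.symm.push μ
  let c : ℕ → ℝ≥0 := fun K => (ρ.1 (UU N) / (A.symm.push (η K)).1 (UU N)).toNNReal
  have fin : ∀ K, ρ.1 (UU N) / (A.symm.push (η K)).1 (UU N) ≠ ∞ := fun K =>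
    ENNReal.div_ne_top ρ.2.lt_top.ne (A.symm.push (η K)).2.pos
  have c0 : ∀ K, c K ≠ 0 := fun K => ENNReal.toNNReal_ne_zero.2
    ⟨ENNReal.div_ne_zero.2 ⟨ρ.2.pos, (A.symm.push (η K)).2.lt_top.ne⟩, fin K⟩
  let ν : ℕ → Curr N := fun K => ⟨c K • (A.symm.push (η K)).1, (A.symm.push (η K)).2.smul (c0 K)⟩
  have sp : Sp a (ρ.1 (UU N)) ν := by
    intro K
    refine ⟨?_, Measure.ae_smul_measure ((A.symm.ae_push (hη K)).mono (H K)) _⟩
    simp only [ν, c, Measure.smul_apply, ENNReal.smul_def, smul_eq_mul]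
    rw [ENNReal.coe_toNNReal (fin K),
      ENNReal.div_mul_cancel (A.symm.push (η K)).2.pos (A.symm.push (η K)).2.lt_top.ne]
  have t := sp.tendsto fun K => (A.symm.ae_push hμ).mono fun q hq hG => by
    rw [show A.symm.φ (A.φ (of a)) = mk [(a, true)] from A.li _] at hq
    rcases lines_letter_mem hq hG.1 with e | e <;> exact hG.2.1 (by rw [e]; rfl)
  have t2 := (A.continuous_push.tendsto _).comp t
  rw [show A.push ρ = μ from Subtype.ext (A.map_symm _)] at t2
  have cq : Continuous (Quot.mk Proportional : Curr N → PCurr N) := continuous_coinduced_rng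
  refine mem_closure_of_tendsto ((cq.tendsto _).comp t2) (Eventually.of_forall fun K => ?_)
  refine ⟨g K, hg K, η K, hη K, (Quot.sound ⟨c K, pos_iff_ne_zero.2 (c0 K), ?_⟩).symm⟩
  change Measure.map A.f2 (c K • Measure.map A.symm.f2 (η K).1) = _
  rw [Measure.map_smul, A.map_symm]

end Pool.Agent.H183Z
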