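import Pool.Agent.H183Z.Words

set_option autoImplicit false

/-! Free minimal actions with discrete orbits are metrically proper. -/

namespace Pool.Agent.H183Z

open FreeGroup

section
variable {T : Type*} [MetricSpace T]

lemma IsRTree.exists_compact_seg (h : IsRTree T) (a b : T) :
    ∃ C : Set T, IsCompact C ∧ ∀ z, dist a z + dist z b = dist a b → z ∈ C := by
  obtain ⟨γ, ha, hb, hγ⟩ := h.geodesic a b
  refine ⟨γ '' Set.Icc 0 (dist a b), isCompact_Icc.image_of_continuousOn ?_, fun z hz => ?_⟩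
  · have : LipschitzOnWith 1 γ (Set.Icc 0 (dist a b)) := by
      refine LipschitzOnWith.of_dist_le_mul fun s hs t ht => ?_
      rw [hγ s hs t ht, Real.dist_eq]; simp
    exact this.continuousOn
  · have h0 : 0 ≤ dist a z := dist_nonneg
    have h1 : dist a z ≤ dist a b := by have := dist_nonneg (x := z) (y := b); linarith
    refine ⟨dist a z, ⟨h0, h1⟩, ?_⟩
    have e1 := hγ 0 ⟨le_rfl, dist_nonneg⟩ _ ⟨h0, h1⟩
    have e2 := hγ _ ⟨h0, h1⟩ (dist a b) ⟨dist_nonneg, le_rfl⟩
    rw [ha, zero_sub, abs_neg, abs_of_nonneg h0] at e1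
    rw [hb, abs_of_nonpos (by linarith)] at e2
    apply h.eq_of_between (p := a) (x := b) (y := b) (by linarith) hz e1
    unfold gp; rw [dist_self]; linarith

end

variable {α : Type*} [Fintype α] {T : Type*} [MetricSpace T] [MulAction (FreeGroup α) T]

lemma exists_cocompact (H : IsMinimalTreeAction (FreeGroup α) T) (x : T) :
    ∃ C : Set T, IsCompact C ∧ x ∈ C ∧ ∀ y : T, ∃ g : FreeGroup α, ∃ z ∈ C, y = g • z := by
  classical
  choose Cs hCs using fun s : α × Bool => H.tree.exists_compact_seg x (mk [s] • x)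
  refine ⟨{x} ∪ ⋃ s, Cs s, isCompact_singleton.union (isCompact_iUnion fun s => (hCs s).1),
    Or.inl rfl, fun y => ?_⟩
  obtain ⟨g, hg⟩ := H.exists_between x y
  rw [← mk_toWord (x := g)] at hg
  generalize g.toWord = l at hg
  induction l generalizing y with
  | nil =>
    have e : (mk ([] : List (α × Bool))) = 1 := rfl
    rw [e, one_smul, dist_self, dist_comm y x] at hg
    have : dist x y = 0 := by linarith
    exact ⟨1, x, Or.inl rfl, by rw [one_smul]; exact (dist_eq_zero.1 this).symm⟩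
  | cons s l ih =>
    rcases H.tree.between_or (mk [s] • x) hg with h1 | h1
    · refine ⟨1, y, Or.inr (Set.mem_iUnion.2 ⟨s, (hCs s).2 y ?_⟩), by rw [one_smul]⟩
      rw [dist_comm x y, dist_comm y (mk [s] • x), dist_comm x (mk [s] • x)]; linarith
    · obtain ⟨k, z, hz, e⟩ := ih ((mk [s])⁻¹ • y) (by
        rw [mk_cons' s l, mul_smul, H.isom] at h1
        rw [← h1, dist_inv_smul H.isom, ← H.isom (mk [s]) ((mk [s])⁻¹ • y), smul_inv_smul])
      exact ⟨mk [s] * k, z, hz, by rw [mul_smul, ← e, smul_inv_smul]⟩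

theorem proper_of_discrete (H : IsMinimalTreeAction (FreeGroup α) T)
    (hd : ∀ y : T, ∃ ε > 0, ∀ g : FreeGroup α, g ≠ 1 → ε ≤ dist y (g • y)) (x : T) (R : ℝ) :
    {g : FreeGroup α | dist x (g • x) ≤ R}.Finite := by
  obtain ⟨C, hC, hx, hcov⟩ := exists_cocompact H x
  obtain ⟨ε, hε, hu⟩ : ∃ ε > 0, ∀ z ∈ C, ∀ g : FreeGroup α, g ≠ 1 → ε ≤ dist z (g • z) := by
    refine hC.induction_on (p := fun S => ∃ ε > 0, ∀ z ∈ S, ∀ g : FreeGroup α, g ≠ 1 →
      ε ≤ dist z (g • z)) ⟨1, one_pos, by simp⟩ ?_ ?_ ?_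
    · rintro s t hst ⟨ε, h0, h1⟩
      exact ⟨ε, h0, fun z hz => h1 z (hst hz)⟩
    · rintro s t ⟨ε, h0, h1⟩ ⟨ε', h0', h1'⟩
      refine ⟨min ε ε', lt_min h0 h0', ?_⟩
      rintro z (hz | hz) g hg
      · exact (min_le_left _ _).trans (h1 z hz g hg)
      · exact (min_le_right _ _).trans (h1' z hz g hg)
    · intro y _
      obtain ⟨ε, h0, h1⟩ := hd y
      refine ⟨Metric.ball y (ε / 3), mem_nhdsWithin_of_mem_nhds (Metric.ball_mem_nhds _ (by linarith)),
        ε / 3, by linarith, fun z hz g hg => ?_⟩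
      have a := h1 g hg
      have b := dist_triangle4 y z (g • z) (g • y)
      rw [H.isom, dist_comm y z] at b
      rw [Metric.mem_ball] at hz
      linarith
  have hF : {g : FreeGroup α | ∃ y ∈ C, ∃ y' ∈ C, dist y (g • y') < ε / 4}.Finite := by
    obtain ⟨Z, hZC, hZ, hcv⟩ := finite_cover_balls_of_compact hC (e := ε / 8) (by linarith)
    have : {g : FreeGroup α | ∃ y ∈ C, ∃ y' ∈ C, dist y (g • y') < ε / 4} ⊆
        ⋃ z ∈ Z, ⋃ z' ∈ Z, {g : FreeGroup α | dist z (g • z') < ε / 2} := by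
      rintro g ⟨y, hy, y', hy', hg⟩
      obtain ⟨z, hz, hyz⟩ := Set.mem_iUnion₂.1 (hcv hy)
      obtain ⟨z', hz', hyz'⟩ := Set.mem_iUnion₂.1 (hcv hy')
      refine Set.mem_iUnion₂.2 ⟨z, hz, Set.mem_iUnion₂.2 ⟨z', hz', ?_⟩⟩
      have b := dist_triangle4 z y (g • y') (g • z')
      rw [H.isom, dist_comm z y] at b
      rw [Metric.mem_ball] at hyz hyz'
      change dist z (g • z') < ε / 2
      linarith
    refine Set.Finite.subset (hZ.biUnion fun z _ => hZ.biUnion fun z' hz' => ?_) this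
    refine Set.Subsingleton.finite fun g hg g' hg' => ?_
    by_contra hne
    have a := hu z' (hZC hz') (g⁻¹ * g') (fun e => hne (inv_mul_eq_one.1 e))
    rw [mul_smul, dist_inv_smul H.isom] at a
    have b := dist_triangle_left (g • z') (g' • z') z
    change dist z (g • z') < ε / 2 at hg
    change dist z (g' • z') < ε / 2 at hg'
    linarith
  have hA : ∀ n : ℕ, {h : FreeGroup α | ∃ y ∈ C, dist x (h • y) ≤ n * (ε / 8)}.Finite := by
    intro n
    induction n with
    | zero =>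
      refine hF.subset ?_
      rintro h ⟨y, hy, hh⟩
      exact ⟨x, hx, y, hy, by simp only [Nat.cast_zero, zero_mul] at hh; linarith⟩
    | succ n ih =>
      refine (ih.mul hF).subset ?_
      rintro h ⟨y, hy, hh⟩
      have d0 : 0 ≤ dist x (h • y) := dist_nonneg
      obtain ⟨w, hw1, hw2⟩ := H.tree.exists_pt x (h • y) (max 0 (dist x (h • y) - ε / 8))
        (le_max_left _ _) (max_le d0 (by linarith))
      obtain ⟨h', y', hy', rfl⟩ := hcov w
      refine ⟨h', ⟨y', hy', ?_⟩, h'⁻¹ * h, ⟨y', hy', y, hy, ?_⟩, by simp⟩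
      · rw [hw1]
        push_cast at hh
        exact max_le (by positivity) (by linarith)
      · rw [mul_smul, dist_inv_smul H.isom, hw2]
        have := le_max_right 0 (dist x (h • y) - ε / 8)
        linarith
  obtain ⟨n, hn⟩ := exists_nat_ge (R / (ε / 8))
  refine (hA n).subset fun g hg => ⟨x, hx, ?_⟩
  rw [div_le_iff₀ (by linarith)] at hn
  exact le_trans hg hn

end Pool.Agent.H183Z
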