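import Pool.Agent.H183Z.Curr
import Pool.Agent.H183Z.Proper
import Pool.Agent.H183Z.CM
import Pool.Agent.H183Z.Generic

set_option autoImplicit false

/-! A finite spectrally rigid set of currents. -/

namespace Pool.Agent.H183Z

open MeasureTheory Filter FreeGroup Topology
open scoped NNReal ENNReal

variable {N : ℕ}

/-- the counting functions attached to a basis -/
noncomputable def cfun (B : Fin N → FreeGroup (Fin N))
    (q : (Fin N × Bool) × Option (Fin N × Bool)) (g : {g : FreeGroup (Fin N) // g ≠ 1}) : ℝ :=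
  nq q (Function.invFun (FreeGroup.lift B) (g.1 * g.1)).toWord -
    nq q (Function.invFun (FreeGroup.lift B) g.1).toWord

section
variable {T : Type*} [MetricSpace T] [MulAction (FreeGroup (Fin N)) T]

lemma InCV.no_fixed (H : InCV N T) {g : FreeGroup (Fin N)} (hg : g ≠ 1) (y : T) : g • y ≠ y :=
  fun e => hg (H.2.1 g y e)

lemma InCV.proper (H : InCV N T) (x : T) (R : ℝ) :
    {g : FreeGroup (Fin N) | dist x (g • x) ≤ R}.Finite :=
  proper_of_discrete H.1 (fun y => by
    obtain ⟨ε, h0, h1⟩ := H.2.2 y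
    exact ⟨ε, h0, fun g hg => h1 g (H.no_fixed hg y)⟩) x R

lemma InCV.transLength_eq (H : InCV N T) (x : T) {g : FreeGroup (Fin N)} (hg : g ≠ 1) :
    transLength T g = dist x ((g * g) • x) - dist x (g • x) := by
  have a := lt_of_no_fixed H.1.tree H.1.isom g x (H.no_fixed hg)
  have b := gp_inv_self H.1.isom g x
  exact Pool.Agent.H183Z.transLength_eq H.1.tree H.1.isom g x (by linarith)

lemma InCV.nielsen (H : InCV N T) (x : T) :
    ∃ φ : FreeGroup (Fin N) →* FreeGroup (Fin N), Function.Bijective φ ∧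
      NTwo (fun g => dist x (g • x)) φ := by
  refine exists_nielsen (lyndon_of_action H.1.tree H.1.isom x) (H.proper x) fun g hg => ?_
  have a := lt_of_no_fixed H.1.tree H.1.isom g x (H.no_fixed hg)
  have b := gp_inv_self H.1.isom g x
  unfold lc
  simp only [inv_inv]
  rw [dist_inv_smul H.1.isom, dist_comm (g • x) x]
  linarith

lemma InCV.mem_span (H : InCV N T) : ∃ B : Fin N → FreeGroup (Fin N),
    (fun g : {g : FreeGroup (Fin N) // g ≠ 1} => transLength T g.1) ∈
      Submodule.span ℝ (Set.range (cfun B)) := by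
  obtain ⟨x⟩ := H.1.nonempty
  obtain ⟨φ, hb, h2⟩ := H.nielsen x
  have Ly := lyndon_of_action H.1.tree H.1.isom x
  refine ⟨fun i => φ (of i), ?_⟩
  have e : FreeGroup.lift (fun i => φ (of i)) = φ := by ext i; simp
  have key : ∀ k, dist x (k • x) = ∑ q, lam (fun g => dist x (g • x)) φ q *
      nq q (Function.invFun φ k).toWord := by
    intro k
    have := h2.len_word Ly _ (isReduced_toWord (x := Function.invFun φ k))
    rwa [mk_toWord, Function.rightInverse_invFun hb.2 k] at this
  rw [Submodule.mem_span_range_iff_exists_fun]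
  refine ⟨lam (fun g => dist x (g • x)) φ, ?_⟩
  funext g
  rw [H.transLength_eq x g.2, key, key, ← Finset.sum_sub_distrib, Finset.sum_apply]
  refine Finset.sum_congr rfl fun q _ => ?_
  simp only [Pi.smul_apply, smul_eq_mul, cfun, e]
  ring

lemma InCV.equiv (hN : 2 ≤ N) {T' : Type*} [MetricSpace T'] [MulAction (FreeGroup (Fin N)) T']
    (H : InCV N T) (H' : InCV N T')
    (hl : ∀ g : FreeGroup (Fin N), g ≠ 1 → transLength T g = transLength T' g) :
    EquivIsometric (FreeGroup (Fin N)) T T' := by
  obtain ⟨x⟩ := H.1.nonempty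
  obtain ⟨x'⟩ := H'.1.nonempty
  obtain ⟨φ, hb, h2⟩ := H.nielsen x
  have Ly := lyndon_of_action H.1.tree H.1.isom x
  have hij : (⟨0, by omega⟩ : Fin N) ≠ ⟨1, by omega⟩ := by simp
  have d := h2.disjoint_axes Ly hij
  simp only at d
  set a := φ (of (⟨0, by omega⟩ : Fin N))
  set b := φ (of (⟨1, by omega⟩ : Fin N) * of (⟨0, by omega⟩ : Fin N) *
    (of (⟨1, by omega⟩ : Fin N))⁻¹) with hbdef
  have ha : a ≠ 1 := fun e => of_ne_one _ (hb.1 (e.trans (_root_.map_one φ).symm))
  have hb1 : b ≠ 1 := by
    intro e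
    have := hb.1 (e.trans (_root_.map_one φ).symm)
    rw [mul_inv_eq_one, mul_eq_left] at this
    exact of_ne_one _ this
  have hab : a * b ≠ 1 := by
    intro e
    have p1 := H.transLength_eq x ha
    have p2 := H.transLength_eq x hb1
    have n1 : 0 ≤ transLength T a := Real.iInf_nonneg fun _ => dist_nonneg
    have n2 : 0 ≤ transLength T b := Real.iInf_nonneg fun _ => dist_nonneg
    rw [e, one_mul] at d
    linarith
  refine culler_morgan H.1 H'.1 (fun g => ?_) (H.no_fixed ha) (H.no_fixed hb1) (H'.no_fixed ha)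
    (H'.no_fixed hb1) ?_
  · by_cases hg : g = 1
    · subst hg
      have : Nonempty T := ⟨x⟩
      have : Nonempty T' := ⟨x'⟩
      simp [transLength]
    · exact hl g hg
  · rw [H.transLength_eq x ha, H.transLength_eq x hb1, H.transLength_eq x hab]
    exact d

end

theorem exists_rigid (hN : 2 ≤ N) : ∃ S : Set (Curr N), S.Finite ∧
    ∀ (T T' : Type*) [MetricSpace T] [MulAction (FreeGroup (Fin N)) T]
      [MetricSpace T'] [MulAction (FreeGroup (Fin N)) T'], InCV N T → InCV N T' →
      ∀ I I' : Curr N → ℝ, IsIntersection N T I → IsIntersection N T' I' →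
        (∀ μ ∈ S, I μ = I' μ) → EquivIsometric (FreeGroup (Fin N)) T T' := by
  classical
  have : Countable (FreeGroup (Fin N)) := toWord_injective.countable
  have : Nonempty {g : FreeGroup (Fin N) // g ≠ 1} := ⟨⟨of ⟨0, by omega⟩, of_ne_one _⟩⟩
  choose η hη using fun g : {g : FreeGroup (Fin N) // g ≠ 1} => exists_counting g.2
  let fam : Option ((Fin N → FreeGroup (Fin N)) × ((Fin N × Bool) × Option (Fin N × Bool))) →
      {g : FreeGroup (Fin N) // g ≠ 1} → ℝ := fun o =>
    match o with
    | none => fun g => (η g (UU N)).toReal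
    | some (B, q) => cfun B q
  obtain ⟨e, he⟩ := exists_surjective_nat
    (Option ((Fin N → FreeGroup (Fin N)) × ((Fin N × Bool) × Option (Fin N × Bool))))
  obtain ⟨w, hw, hs⟩ := exists_weights fun k => fam (e k)
  have hs' : ∀ o, Summable fun g => w g * |fam o g| := fun o => by
    obtain ⟨k, rfl⟩ := he o
    exact hs k
  let W : (Fin N → FreeGroup (Fin N)) → Submodule ℝ ({g : FreeGroup (Fin N) // g ≠ 1} → ℝ) :=
    fun B => Submodule.span ℝ (Set.range (cfun B))
  have Wfin : ∀ B, FiniteDimensional ℝ (W B) := fun B =>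
    FiniteDimensional.span_of_finite ℝ (Set.finite_range _)
  let SS : Submodule ℝ ({g : FreeGroup (Fin N) // g ≠ 1} → ℝ) :=
    { carrier := {f | Summable fun g => w g * |f g|}
      add_mem' := by
        intro f1 f2 h1 h2
        refine Summable.of_nonneg_of_le (fun g => by have := hw g; positivity) (fun g => ?_)
          (Summable.add h1 h2)
        rw [← mul_add]
        exact mul_le_mul_of_nonneg_left (abs_add_le _ _) (hw g).le
      zero_mem' := by simp
      smul_mem' := by
        intro c f hf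
        have := Summable.mul_left |c| hf
        refine this.congr fun g => ?_
        simp only [Pi.smul_apply, smul_eq_mul, abs_mul]; ring }
  have WS : ∀ B, W B ≤ SS := fun B => Submodule.span_le.2 (by
    rintro _ ⟨q, rfl⟩
    exact hs' (some (B, q)))
  let D := Fintype.card ((Fin N × Bool) × Option (Fin N × Bool))
  obtain ⟨a, ha, hgen⟩ := exists_generic w hw (D + D)
    (fun j : (Fin N → FreeGroup (Fin N)) × (Fin N → FreeGroup (Fin N)) => W j.1 ⊔ W j.2)
    (fun j => by have := Wfin j.1; have := Wfin j.2; infer_instance)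
    (fun j => by
      have := Wfin j.1
      have := Wfin j.2
      exact (Submodule.finrank_add_le_finrank_add_finrank _ _).trans
        (add_le_add (finrank_range_le_card _) (finrank_range_le_card _)))
    (fun j f hf => sup_le (WS j.1) (WS j.2) hf)
  have cpos : ∀ i g, 0 < w g * a i g := fun i g => mul_pos (hw g) (by linarith [(ha i g).1])
  let c : Fin (D + D) → {g : FreeGroup (Fin N) // g ≠ 1} → ℝ≥0 :=
    fun i g => ⟨w g * a i g, (cpos i g).le⟩
  let ν : Fin (D + D) → {g : FreeGroup (Fin N) // g ≠ 1} → Curr N := fun i g =>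
    ⟨c i g • η g, (hη g).isCurrent.smul (fun e => (cpos i g).ne' (congrArg NNReal.toReal e))⟩
  have hcur : ∀ i, IsCurrent (Measure.sum fun g => (ν i g).1) := by
    intro i
    refine isCurrent_sum _ (fun g => (ν i g).2) ?_
    have s := summable_aux hw (ha i) (hs' none)
    refine lt_of_eq_of_lt ?_ s.tsum_ofReal_lt_top
    congr 1
    funext g
    simp only [ν, fam, Measure.smul_apply]
    rw [ENNReal.ofReal_mul (cpos i g).le, ENNReal.ofReal_toReal (hη g).facts.2.1.ne,
      ENNReal.smul_def, smul_eq_mul, ENNReal.ofReal_eq_coe_nnreal (cpos i g).le]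
    rfl
  refine ⟨Set.range fun i => (⟨_, hcur i⟩ : Curr N), Set.finite_range _, ?_⟩
  intro T T' _ _ _ _ H H' I I' hI hI' hS
  obtain ⟨B, hB⟩ := H.mem_span
  obtain ⟨B', hB'⟩ := H'.mem_span
  have v : ∀ i g, I (ν i g) = w g * a i g * transLength T g.1 := fun i g => by
    rw [hI.smul (c i g) ⟨η g, (hη g).isCurrent⟩ (ν i g) rfl,
      hI.counting g.1 g.2 ⟨η g, (hη g).isCurrent⟩ (hη g)]
    rfl
  have v' : ∀ i g, I' (ν i g) = w g * a i g * transLength T' g.1 := fun i g => by
    rw [hI'.smul (c i g) ⟨η g, (hη g).isCurrent⟩ (ν i g) rfl,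
      hI'.counting g.1 g.2 ⟨η g, (hη g).isCurrent⟩ (hη g)]
    rfl
  have z := hgen (B, B') _ (Submodule.sub_mem _ (Submodule.mem_sup_left hB)
    (Submodule.mem_sup_right hB')) (fun i => by
      have s1 := summable_aux hw (ha i) (WS B hB)
      have s2 := summable_aux hw (ha i) (WS B' hB')
      have e1 := eval_sum (ν i) (hcur i) hI.cont hI.add (by simpa only [v] using s1)
      have e2 := eval_sum (ν i) (hcur i) hI'.cont hI'.add (by simpa only [v'] using s2)
      have e3 := hS _ ⟨i, rfl⟩
      simp only [v] at e1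
      simp only [v'] at e2
      simp only [Pi.sub_apply, mul_sub]
      rw [s1.tsum_sub s2, ← e1, ← e2]
      exact sub_eq_zero.2 e3)
  exact H.equiv hN H' fun g hg => sub_eq_zero.1 (congrFun z ⟨g, hg⟩)

end Pool.Agent.H183Z
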