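import Pool.Agent.H183Z.TreeDefs

set_option autoImplicit false

/-! The closure of Outer space: very small actions. -/

namespace Pool.Agent.H183Z

/-- `H` is a nontrivial cyclic subgroup which is maximal among cyclic subgroups. -/
def IsMaximalCyclic {G : Type*} [Group G] (H : Subgroup G) : Prop :=
  (∃ g : G, g ≠ 1 ∧ H = Subgroup.zpowers g) ∧
    ∀ h : G, H ≤ Subgroup.zpowers h → Subgroup.zpowers h = H

/-- Very small actions: the pointwise stabiliser of an arc `[x, y]` (the elements fixing both end
points) is trivial or maximal cyclic, and the stabiliser of a tripod (three points none of which is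
on the segment joining the other two) is trivial. -/
structure IsVerySmall (G : Type*) (T : Type*) [Group G] [MetricSpace T] [MulAction G T] :
    Prop where
  arc : ∀ x y : T, x ≠ y →
    MulAction.stabilizer G x ⊓ MulAction.stabilizer G y = ⊥ ∨
      IsMaximalCyclic (MulAction.stabilizer G x ⊓ MulAction.stabilizer G y)
  tripod : ∀ x y z : T, dist x y < dist x z + dist z y → dist x z < dist x y + dist y z →
    dist y z < dist y x + dist x z →
    MulAction.stabilizer G x ⊓ MulAction.stabilizer G y ⊓ MulAction.stabilizer G z = ⊥

/-- `T` is a point of the closure of unprojectivized Outer space of `F_N`: a minimal, nontrivial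
(no global fixed point), very small isometric action of `F_N` on an `ℝ`-tree. -/
def InClosedCV (N : ℕ) (T : Type) [MetricSpace T] [MulAction (FreeGroup (Fin N)) T] : Prop :=
  IsMinimalTreeAction (FreeGroup (Fin N)) T ∧
    (∀ x : T, ∃ g : FreeGroup (Fin N), g • x ≠ x) ∧ IsVerySmall (FreeGroup (Fin N)) T

/-- `S` pins down `T`: every point `T'` of the closure of Outer space with the same translation
lengths on `S` is equivariantly isometric to `T`. -/
def PinsDown (N : ℕ) (S : Set (FreeGroup (Fin N))) (T : Type) [MetricSpace T]
    [MulAction (FreeGroup (Fin N)) T] : Prop :=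
  ∀ (T' : Type) [MetricSpace T'] [MulAction (FreeGroup (Fin N)) T'], InClosedCV N T' →
    (∀ g ∈ S, transLength T' g = transLength T g) → EquivIsometric (FreeGroup (Fin N)) T' T

end Pool.Agent.H183Z
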