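import Pool.Agent.H183Z.Deform

set_option autoImplicit false

/-! Currents with sparse letters are close to the current of a generator. -/

namespace Pool.Agent.H183Z

open MeasureTheory Filter FreeGroup Topology
open scoped NNReal ENNReal

variable {N : ℕ}

lemma continuous_sh : Continuous (sh : DBdry N → DBdry N) := by
  have c : Continuous fun z : DBdry N × (Fin N × Bool) => act2 (mk [z.2])⁻¹ z.1 :=
    continuous_prod_of_discrete_right.2 fun s => continuous_act2 (mk [s])⁻¹
  exact c.comp (continuous_id.prodMk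
    ((continuous_coord 0).comp (continuous_snd.comp continuous_subtype_val)))

lemma meas_fst (j : ℕ) (P : Fin N × Bool → Prop) : MeasurableSet {q : DBdry N | P (q.1.1.1 j)} :=
  ((isOpen_discrete {s | P s}).preimage
    ((continuous_coord j).comp (continuous_fst.comp continuous_subtype_val))).measurableSet

lemma meas_snd (j : ℕ) (P : Fin N × Bool → Prop) : MeasurableSet {q : DBdry N | P (q.1.2.1 j)} :=
  ((isOpen_discrete {s | P s}).preimage
    ((continuous_coord j).comp (continuous_snd.comp continuous_subtype_val))).measurableSet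

lemma meas_UU : MeasurableSet (UU N) := isClopen_UU.isOpen.measurableSet

lemma meas_sh {μ : Measure (DBdry N)} (hi : ∀ g, μ.map (act2 g) = μ) {E : Set (DBdry N)}
    (hE : MeasurableSet E) : μ (UU N ∩ sh ⁻¹' E) = μ (UU N ∩ E) := by
  let X : Fin N × Bool → Set (DBdry N) := fun s => UU N ∩ E ∩ {q | q.1.1.1 0 = linv s}
  have mX : ∀ s, MeasurableSet (X s) := fun s =>
    (meas_UU.inter hE).inter (meas_fst 0 fun t => t = linv s)
  have key : ∀ s q, act2 (mk [s])⁻¹ q ∈ X s → q ∈ UU N ∧ q.1.2.1 0 = s := by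
    rintro s q ⟨⟨h1, -⟩, h2⟩
    have a : q.1.2.1 0 = s := by
      by_contra c
      exact h1 (Eq.trans h2 (act_inv_zero c).symm)
    refine ⟨fun c => ?_, a⟩
    have b : (act (mk [s])⁻¹ q.1.1).1 0 = linv s := h2
    rw [act_tail (c.trans a), ← a, ← c] at b
    exact q.1.1.ne_linv 0 b
  have e1 : UU N ∩ sh ⁻¹' E = ⋃ s, act2 (mk [s])⁻¹ ⁻¹' X s := by
    ext q
    simp only [Set.mem_iUnion, Set.mem_preimage]
    constructor
    · rintro ⟨h1, h2⟩
      exact ⟨_, ⟨sh_mem h1, h2⟩, sh_fst_zero h1⟩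
    · rintro ⟨s, h⟩
      obtain ⟨h1, h2⟩ := key s q h
      subst h2
      exact ⟨h1, h.1.2⟩
  have e2 : UU N ∩ E = ⋃ s, X s := by
    ext q
    simp only [Set.mem_iUnion]
    exact ⟨fun h => ⟨linv (q.1.1.1 0), h, (linv_linv _).symm⟩, fun ⟨s, h⟩ => h.1⟩
  rw [e1, e2, measure_iUnion _ fun s => measurable_act2 _ (mX s), measure_iUnion _ mX]
  · congr 1
    funext s
    rw [← Measure.map_apply (measurable_act2 _) (mX s), hi]
  · intro s t h
    exact Set.disjoint_left.2 fun q a b => h (linv_inj (a.2.symm.trans b.2))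
  · intro s t h
    exact Set.disjoint_left.2 fun q a b => h ((key s q a).2.symm.trans (key t q b).2)

lemma meas_iter {μ : Measure (DBdry N)} (hi : ∀ g, μ.map (act2 g) = μ) {E : Set (DBdry N)}
    (hE : MeasurableSet E) (j : ℕ) : μ (UU N ∩ sh^[j] ⁻¹' E) = μ (UU N ∩ E) := by
  induction j with
  | zero => rfl
  | succ j ih =>
    rw [Function.iterate_succ, Set.preimage_comp,
      meas_sh hi ((continuous_sh.iterate j).measurable hE), ih]

lemma mul_meas_le {μ : Measure (DBdry N)} (hi : ∀ g, μ.map (act2 g) = μ) {E : Set (DBdry N)}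
    (hE : MeasurableSet E) (K : ℕ)
    (hd : ∀ q ∈ UU N, ∀ i j, i < j → j < K → sh^[i] q ∈ E → sh^[j] q ∉ E) :
    K * μ (UU N ∩ E) ≤ μ (UU N) := by
  have a := measure_biUnion_finset (μ := μ) (s := Finset.range K)
    (f := fun j => UU N ∩ sh^[j] ⁻¹' E) (fun i hi' j hj h => Set.disjoint_left.2 fun q a b => by
      rcases lt_or_gt_of_ne h with c | c
      · exact hd q a.1 i j c (Finset.mem_range.1 hj) a.2 b.2
      · exact hd q a.1 j i c (Finset.mem_range.1 hi') b.2 a.2)
    fun j _ => meas_UU.inter ((continuous_sh.iterate j).measurable hE)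
  simp only [meas_iter hi hE, Finset.sum_const, Finset.card_range, nsmul_eq_mul] at a
  rw [← a]
  exact measure_mono (Set.iUnion₂_subset fun j _ => Set.inter_subset_left)

/-- lines whose next letter is not `a` -/
def VV (a : Fin N) : Set (DBdry N) := {q | (q.1.2.1 0).1 ≠ a}

lemma meas_VV (a : Fin N) : MeasurableSet (VV a) := meas_snd 0 fun s => s.1 ≠ a

lemma sparse_le {μ : Measure (DBdry N)} (hi : ∀ g, μ.map (act2 g) = μ) {a : Fin N} {K : ℕ}
    (h : ∀ᵐ q ∂μ, ¬ Good a K q) : K * μ (UU N ∩ VV a) ≤ 2 * μ (UU N) := by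
  let P : Set (DBdry N) := VV a ∩ ⋂ j, ⋂ _ : j < K, {q | (q.1.2.1 (j + 1)).1 = a}
  let Q : Set (DBdry N) := VV a ∩ ⋂ j, ⋂ _ : j < K, {q | (q.1.1.1 j).1 = a}
  have a1 := mul_meas_le hi (E := P) ((meas_VV a).inter (MeasurableSet.iInter fun j =>
    MeasurableSet.iInter fun _ => meas_snd (j + 1) fun s => s.1 = a)) K (by
      rintro q hq i j h1 h2 ⟨-, h3⟩ ⟨h4, -⟩
      simp only [Set.mem_iInter, Set.mem_ofPred_eq, iter_snd] at h3
      have := h3 (j - i - 1) (by omega)
      rw [show i + (j - i - 1 + 1) = j + 0 by omega, ← iter_snd] at this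
      exact h4 this)
  have a2 := mul_meas_le hi (E := Q) ((meas_VV a).inter (MeasurableSet.iInter fun j =>
    MeasurableSet.iInter fun _ => meas_fst j fun s => s.1 = a)) K (by
      rintro q hq i j h1 h2 ⟨h3, -⟩ ⟨-, h4⟩
      simp only [Set.mem_iInter, Set.mem_ofPred_eq] at h4
      have := h4 (j - i - 1) (by omega)
      have e := iter_fst hq i (j - i - 1)
      rw [show i + (j - i - 1) + 1 = j by omega] at e
      rw [e] at this
      exact h3 (by rw [iter_snd]; exact this))
  have b : μ (UU N ∩ VV a) ≤ μ (UU N ∩ P) + μ (UU N ∩ Q) := by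
    refine le_trans (measure_mono_ae ?_) (measure_union_le _ _)
    filter_upwards [h] with q hq ⟨h1, h2⟩
    by_contra c
    refine hq ⟨h1, h2, ?_, ?_⟩
    · by_contra d
      push Not at d
      exact c (Or.inr ⟨h1, h2, Set.mem_iInter₂.2 d⟩)
    · by_contra d
      push Not at d
      exact c (Or.inl ⟨h1, h2, Set.mem_iInter₂.2 d⟩)
  calc (K : ℝ≥0∞) * μ (UU N ∩ VV a) ≤ K * (μ (UU N ∩ P) + μ (UU N ∩ Q)) := by gcongr
    _ ≤ μ (UU N) + μ (UU N) := by rw [mul_add]; exact add_le_add a1 a2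
    _ = _ := (two_mul _).symm

lemma const_of_fst {ξ : Bdry N} {a : Fin N} {M : ℕ} (h : ∀ j < M, (ξ.1 j).1 = a) :
    ∀ j < M, ξ.1 j = ξ.1 0 := by
  intro j hj
  induction j with
  | zero => rfl
  | succ j ih =>
    rw [← ih (by omega)]
    rcases eq_or_linv ((h _ hj).trans (h j (by omega)).symm) with e | e
    · exact e
    · exact absurd e (ξ.ne_linv j)

lemma far_le {μ : Measure (DBdry N)} (h : IsCurrent μ) (a : Fin N) (M : ℕ) :
    μ {q | q ∈ UU N ∧ ¬ Agree M q (axis (a, true)) ∧ ¬ Agree M q (axis (a, false))} ≤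
      2 * (M * μ (UU N ∩ VV a)) := by
  let E : Set (DBdry N) := ⋃ j ∈ Finset.range M, UU N ∩ sh^[j] ⁻¹' VV a
  have mE : MeasurableSet E := Finset.measurableSet_biUnion _ fun j _ =>
    meas_UU.inter ((continuous_sh.iterate j).measurable (meas_VV a))
  have a1 : μ E ≤ M * μ (UU N ∩ VV a) := by
    refine (measure_biUnion_finset_le _ _).trans ?_
    simp only [meas_iter h.inv (meas_VV a), Finset.sum_const, Finset.card_range, nsmul_eq_mul,
      le_refl]
  have a2 : μ (flip2 ⁻¹' E) = μ E := by rw [← Measure.map_apply measurable_flip2 mE, h.flip]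
  have key : ∀ q ∈ UU N, q ∉ E → ∀ j < M, (q.1.2.1 j).1 = a := by
    intro q hq hE j hj
    by_contra c
    exact hE (Set.mem_biUnion (Finset.mem_coe.2 (Finset.mem_range.2 hj))
      ⟨hq, by simpa only [Set.mem_preimage, VV, Set.mem_ofPred_eq, iter_snd, add_zero] using c⟩)
  refine le_trans (measure_mono (t := E ∪ flip2 ⁻¹' E) ?_) ((measure_union_le _ _).trans ?_)
  · rintro q ⟨h1, h2, h3⟩
    by_contra c
    rw [Set.mem_union, not_or] at c
    have k1 := key q h1 c.1
    have k2 : ∀ j < M, (q.1.1.1 j).1 = a := key (flip2 q) (Ne.symm h1) c.2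
    have fin : Agree M q (axis (q.1.2.1 0)) := by
      intro j hj
      refine ⟨?_, const_of_fst k1 j hj⟩
      rw [const_of_fst k2 j hj]
      rcases eq_or_linv ((k2 0 (by omega)).trans (k1 0 (by omega)).symm) with e | e
      · exact absurd e h1
      · exact e
    rcases M with _ | M
    · exact h2 fun j hj => by omega
    · have := k1 0 (by omega)
      rcases eq_or_linv (s := (a, true)) this with e | e
      · exact h2 (e ▸ fin)
      · exact h3 (by rw [e] at fin; exact fin)
  · rw [a2, two_mul]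
    exact add_le_add a1 a1

/-- a normalized sequence of sparser and sparser currents -/
def Sp (a : Fin N) (m : ℝ≥0∞) (ν : ℕ → Curr N) : Prop :=
  ∀ K, (ν K).1 (UU N) = m ∧ ∀ᵐ q ∂(ν K).1, ¬ Good a K q

lemma Sp.far {a : Fin N} {m : ℝ≥0∞} {ν : ℕ → Curr N} (h : Sp a m ν) {O : Set (DBdry N)}
    (h1 : O ∈ 𝓝 (axis (a, true))) (h2 : O ∈ 𝓝 (axis (a, false))) :
    Tendsto (fun K => (ν K).1.real (UU N \ O)) atTop (𝓝 0) := by
  obtain ⟨M1, k1⟩ := exists_agree h1
  obtain ⟨M2, k2⟩ := exists_agree h2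
  have fin : m ≠ ∞ := (h 0).1 ▸ (ν 0).2.lt_top.ne
  have t := tendsto_const_div_atTop_nhds_zero_nat (2 * (((M1 + M2 : ℕ) : ℝ) * (2 * m.toReal)))
  refine squeeze_zero' (Eventually.of_forall fun _ => measureReal_nonneg) ?_ t
  filter_upwards [eventually_gt_atTop 0] with K hK
  have a1 := sparse_le (ν K).2.inv (h K).2
  have a2 : (ν K).1 (UU N \ O) ≤ 2 * (((M1 + M2 : ℕ) : ℝ≥0∞) * (ν K).1 (UU N ∩ VV a)) := by
    refine le_trans (measure_mono fun q hq => ?_) (far_le (ν K).2 a (M1 + M2))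
    exact ⟨hq.1, fun c => hq.2 (k1 q fun j hj => c j (by omega)),
      fun c => hq.2 (k2 q fun j hj => c j (by omega))⟩
  have a3 : K * (ν K).1 (UU N \ O) ≤ 2 * (((M1 + M2 : ℕ) : ℝ≥0∞) * (2 * m)) := by
    rw [← (h K).1]
    calc _ ≤ (K : ℝ≥0∞) * (2 * (((M1 + M2 : ℕ) : ℝ≥0∞) * (ν K).1 (UU N ∩ VV a))) := by gcongr
      _ = 2 * (((M1 + M2 : ℕ) : ℝ≥0∞) * (K * (ν K).1 (UU N ∩ VV a))) := by ring
      _ ≤ _ := by gcongr
  have a4 := ENNReal.toReal_mono (by finiteness) a3
  simp only [ENNReal.toReal_mul, ENNReal.toReal_natCast, ENNReal.toReal_ofNat] at a4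
  rw [le_div_iff₀ (by exact_mod_cast hK), mul_comm]
  exact a4

lemma integrable_curr (μ : Curr N) {f : DBdry N → ℝ} (hf : Continuous f) (hc : HasCompactSupport f) :
    Integrable f μ.1 := by
  have := μ.2.regular
  exact hf.integrable_of_hasCompactSupport hc

lemma Sp.tend_U {a : Fin N} {m : ℝ≥0∞} {ν : ℕ → Curr N} (h : Sp a m ν) {f : DBdry N → ℝ}
    (hf : Continuous f) (h0 : ∀ q, q ∉ UU N → f q = 0) :
    Tendsto (fun K => ∫ q, f q ∂(ν K).1) atTop
      (𝓝 ((f (axis (a, true)) + f (axis (a, false))) / 2 * m.toReal)) := by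
  set γ := (f (axis (a, true)) + f (axis (a, false))) / 2
  let H : DBdry N → ℝ := fun q => (f q + f (flip2 q)) / 2 - γ
  have cH : Continuous H := ((hf.add (hf.comp continuous_flip2)).div_const 2).sub continuous_const
  obtain ⟨C, hC⟩ := isCompact_UU.exists_bound_of_continuousOn cH.continuousOn
  have e : ∀ K, ∫ q, f q ∂(ν K).1 - γ * m.toReal = ∫ q in UU N, H q ∂(ν K).1 := by
    intro K
    have := (ν K).2.regular
    have i1 := integrable_curr (ν K) hf (HasCompactSupport.intro isCompact_UU h0)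
    have i2 : Integrable (fun q => f (flip2 q)) (ν K).1 :=
      integrable_curr (ν K) (hf.comp continuous_flip2)
        (HasCompactSupport.intro isCompact_UU fun q hq => h0 _ fun c => hq (Ne.symm c))
    have i3 : IntegrableOn (fun q => (f q + f (flip2 q)) / 2) (UU N) (ν K).1 :=
      ((i1.add i2).div_const 2).integrableOn
    have e2 : ∫ q, f (flip2 q) ∂(ν K).1 = ∫ q, f q ∂(ν K).1 := by
      rw [← integral_map measurable_flip2.aemeasurable hf.aestronglyMeasurable, (ν K).2.flip]
    simp only [H]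
    rw [integral_sub i3 (integrableOn_const (ν K).2.lt_top.ne), setIntegral_const,
      setIntegral_eq_integral_of_forall_compl_eq_zero (fun q hq => by
        rw [h0 q hq, h0 _ fun c => hq (Ne.symm c)]; simp), integral_div, integral_add i1 i2, e2,
      measureReal_def, (h K).1]
    simp only [smul_eq_mul]; ring
  rw [← tendsto_sub_nhds_zero_iff]
  simp only [e]
  rw [NormedAddGroup.tendsto_nhds_zero]
  intro ε hε
  obtain ⟨δ, d0, d1⟩ : ∃ δ > 0, δ * m.toReal < ε := exists_pos_mul_lt hε _ |>.imp fun δ hδ =>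
    ⟨hδ.1, by rw [mul_comm]; exact hδ.2⟩
  let O : Set (DBdry N) := {q | ‖H q‖ < δ}
  have oO : IsOpen O := isOpen_lt cH.norm continuous_const
  have t := (h.far (O := O) (oO.mem_nhds (by simp [O, H, γ, flip_axis, linv, d0.lt]))
    (oO.mem_nhds (by simp [O, H, γ, flip_axis, linv, d0.lt, add_comm]))).const_mul C
  rw [mul_zero] at t
  filter_upwards [t.eventually (gt_mem_nhds (sub_pos.2 d1))] with K hK
  have := (ν K).2.regular
  have lt := (ν K).2.lt_top
  rw [← integral_inter_add_sdiff oO.measurableSet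
    (cH.continuousOn.integrableOn_compact isCompact_UU)]
  have b1 := norm_setIntegral_le_of_norm_le_const (μ := (ν K).1) (s := UU N ∩ O) (f := H) (C := δ)
    ((measure_mono Set.inter_subset_left).trans_lt lt) fun q hq => hq.2.le
  have b2 := norm_setIntegral_le_of_norm_le_const (μ := (ν K).1) (s := UU N \ O) (f := H) (C := C)
    ((measure_mono Set.sdiff_subset).trans_lt lt) fun q hq => hC q hq.1
  have b3 : (ν K).1.real (UU N ∩ O) ≤ m.toReal := by
    rw [← (h K).1]
    exact measureReal_mono Set.inter_subset_left lt.ne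
  have b4 := mul_le_mul_of_nonneg_left b3 d0.le
  refine (norm_add_le _ _).trans_lt ?_
  linarith

lemma compact_of_cover (s : Finset (FreeGroup (Fin N))) {f : DBdry N → ℝ}
    (h0 : ∀ q, (∀ h ∈ s, act2 h q ∉ UU N) → f q = 0) : HasCompactSupport f := by
  refine HasCompactSupport.intro (s.isCompact_biUnion fun h _ =>
    isCompact_UU.image (continuous_act2 h⁻¹)) fun q hq => h0 q fun h hh c => hq ?_
  exact Set.mem_biUnion hh ⟨_, c, act2_inv_act2 _ _⟩

lemma tend_cover (a : Fin N) (m : ℝ≥0∞) (s : Finset (FreeGroup (Fin N))) (f : DBdry N → ℝ)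
    (hf : Continuous f) (h0 : ∀ q, (∀ h ∈ s, act2 h q ∉ UU N) → f q = 0) :
    ∃ γ, ∀ ν, Sp a m ν → Tendsto (fun K => ∫ q, f q ∂(ν K).1) atTop (𝓝 γ) := by
  classical
  induction s using Finset.induction_on generalizing f with
  | empty =>
    refine ⟨0, fun ν _ => ?_⟩
    simp [fun q => h0 q (by simp)]
  | insert h s _ ih =>
    have cl : IsClopen (act2 h ⁻¹' UU N) := isClopen_UU.preimage (continuous_act2 h)
    have c1 := cl.continuous_indicator hf
    have c2 := cl.compl.continuous_indicator hf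
    have z2 : ∀ q, (∀ k ∈ s, act2 k q ∉ UU N) → (act2 h ⁻¹' UU N)ᶜ.indicator f q = 0 := by
      intro q hq
      refine Set.indicator_apply_eq_zero.2 fun c => h0 q fun k hk => ?_
      rcases Finset.mem_insert.1 hk with e | e
      · rw [e]; exact c
      · exact hq k e
    obtain ⟨γ, hγ⟩ := ih _ c2 z2
    refine ⟨_ + γ, fun ν hν => (Tendsto.add (hν.tend_U (c1.comp (continuous_act2 h⁻¹))
      fun q hq => Set.indicator_of_notMem (by rwa [Set.mem_preimage, act2_act2_inv]) _)
      (hγ ν hν)).congr fun K => ?_⟩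
    simp only [Function.comp]
    rw [← integral_map (measurable_act2 h⁻¹).aemeasurable c1.aestronglyMeasurable, (ν K).2.inv,
      ← integral_add (integrable_curr _ c1 (compact_of_cover {h} fun q hq =>
        Set.indicator_of_notMem (s := act2 h ⁻¹' UU N) (hq h (Finset.mem_singleton_self h)) _))
        (integrable_curr _ c2 (compact_of_cover s z2))]
    congr 1
    funext q
    exact congrFun (Set.indicator_self_add_compl _ f) q

theorem Sp.tendsto {a : Fin N} {ν : ℕ → Curr N} {μ : Curr N} (h : Sp a (μ.1 (UU N)) ν)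
    (hμ : ∀ K, ∀ᵐ q ∂μ.1, ¬ Good a K q) : Tendsto ν atTop (𝓝 μ) := by
  refine (Topology.IsInducing.induced _).tendsto_nhds_iff.2 (tendsto_pi_nhds.2 fun f => ?_)
  obtain ⟨s, hs⟩ := f.hasCompactSupport.isCompact.elim_finite_subcover
    (fun h : FreeGroup (Fin N) => act2 h ⁻¹' UU N)
    (fun h => isClopen_UU.isOpen.preimage (continuous_act2 h))
    fun q _ => Set.mem_iUnion.2 (exists_act2_mem q)
  obtain ⟨γ, hγ⟩ := tend_cover a (μ.1 (UU N)) s f f.continuous fun q hq => by
    by_contra c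
    obtain ⟨k, hk, e⟩ := Set.mem_iUnion₂.1 (hs (subset_tsupport _ c))
    exact hq k hk e
  have e := tendsto_nhds_unique (hγ (fun _ => μ) fun K => ⟨rfl, hμ K⟩) tendsto_const_nhds
  have := hγ ν h
  rw [e] at this
  exact this

end Pool.Agent.H183Z
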