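import Pool.Agent.H183Z.TreeDefs

set_option autoImplicit false

namespace Pool.Agent.H183Z

section gp
variable {T : Type*} [MetricSpace T]

/-- Gromov product of `x` and `y` at `p`. -/
noncomputable def gp (p x y : T) : ℝ := (dist p x + dist p y - dist x y) / 2

lemma gp_comm (p x y : T) : gp p x y = gp p y x := by
  unfold gp; rw [dist_comm x y]; ring

lemma gp_nonneg (p x y : T) : 0 ≤ gp p x y := by
  unfold gp
  have := dist_triangle x p y
  rw [dist_comm x p] at this
  linarith

lemma gp_le_left (p x y : T) : gp p x y ≤ dist p x := by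
  unfold gp
  have := dist_triangle p x y
  linarith

lemma gp_le_right (p x y : T) : gp p x y ≤ dist p y := by
  rw [gp_comm]; exact gp_le_left _ _ _

lemma IsRTree.hyp (h : IsRTree T) (p x y z : T) : min (gp p x z) (gp p y z) ≤ gp p x y := by
  have h4 := h.fourPoint x y p z
  unfold gp
  rw [dist_comm x p, dist_comm y p] at h4
  rcases le_max_iff.1 h4 with h5 | h5
  · exact min_le_of_right_le (by linarith)
  · exact min_le_of_left_le (by linarith)

lemma IsRTree.hyp' (h : IsRTree T) (p x y z : T) : gp p x z ≤ gp p x y ∨ gp p y z ≤ gp p x y :=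
  min_le_iff.1 (h.hyp p x y z)

lemma IsRTree.exists_pt (h : IsRTree T) (x y : T) (t : ℝ) (h0 : 0 ≤ t) (h1 : t ≤ dist x y) :
    ∃ z : T, dist x z = t ∧ dist z y = dist x y - t := by
  obtain ⟨γ, hx, hy, hγ⟩ := h.geodesic x y
  refine ⟨γ t, ?_, ?_⟩
  · have := hγ 0 ⟨le_rfl, dist_nonneg⟩ t ⟨h0, h1⟩
    rw [hx] at this
    rw [this, zero_sub, abs_neg, abs_of_nonneg h0]
  · have := hγ t ⟨h0, h1⟩ (dist x y) ⟨dist_nonneg, le_rfl⟩
    rw [hy] at this
    rw [this, abs_of_nonpos (by linarith)]; ring

/-- Gromov product of points on two segments from `p`. -/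
lemma IsRTree.gp_between (h : IsRTree T) {p x y u v : T}
    (hu : dist p u + dist u x = dist p x) (hv : dist p v + dist v y = dist p y) :
    gp p u v = min (dist p u) (min (dist p v) (gp p x y)) := by
  have e1 : gp p u x = dist p u := by unfold gp; linarith
  have e2 : gp p v y = dist p v := by unfold gp; linarith
  have l1 := gp_le_left p u v
  have l2 := gp_le_right p u v
  apply le_antisymm
  · refine le_min l1 (le_min l2 ?_)
    have a1 := h.hyp' p x y u
    have a2 := h.hyp' p y u v
    rw [gp_comm p x u, gp_comm p y u] at a1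
    rw [gp_comm p y v, gp_comm p y u] at a2
    rcases a1 with a1 | a1
    · linarith
    · rcases a2 with a2 | a2 <;> linarith
  · have a1 := h.hyp' p u v x
    have a2 := h.hyp' p v x y
    rcases a1 with a1 | a1
    · exact min_le_of_left_le (by linarith)
    · rcases a2 with a2 | a2
      · exact min_le_of_right_le (min_le_of_left_le (by linarith))
      · exact min_le_of_right_le (min_le_of_right_le (by linarith))

lemma IsRTree.dist_between (h : IsRTree T) {p x y u v : T}
    (hu : dist p u + dist u x = dist p x) (hv : dist p v + dist v y = dist p y) :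
    dist u v = dist p u + dist p v - 2 * min (dist p u) (min (dist p v) (gp p x y)) := by
  rw [← h.gp_between hu hv]; unfold gp; ring

lemma IsRTree.eq_of_between (h : IsRTree T) {p x y u v : T}
    (hu : dist p u + dist u x = dist p x) (hv : dist p v + dist v y = dist p y)
    (huv : dist p u = dist p v) (hle : dist p u ≤ gp p x y) : u = v := by
  have := h.dist_between hu hv
  rw [← huv, min_eq_left hle, min_self] at this
  exact dist_eq_zero.1 (by linarith)

lemma IsRTree.between_or (h : IsRTree T) {u v w : T} (p : T)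
    (hw : dist u w + dist w v = dist u v) :
    dist p w + dist w u = dist p u ∨ dist p w + dist w v = dist p v := by
  have h4 := h.fourPoint p w u v
  have t1 := dist_triangle p w u
  have t2 := dist_triangle p w v
  rw [dist_comm u w] at hw
  rcases le_max_iff.1 h4 with h5 | h5
  · left; linarith
  · right; linarith

/-- Concatenation. -/
lemma IsRTree.concat (h : IsRTree T) {x y z w : T} (h1 : gp y x z = 0) (h2 : gp z y w = 0)
    (hyz : y ≠ z) : dist x w = dist x y + dist y z + dist z w := by
  have hp : 0 < dist y z := dist_pos.2 hyz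
  have e : gp y z w = dist y z := by
    unfold gp at h2 ⊢
    rw [dist_comm z y] at h2
    linarith
  have a := h.hyp' y x z w
  have n := gp_nonneg y x w
  have : gp y x w = 0 := by
    rcases a with a | a <;> linarith
  unfold gp at this h2
  rw [dist_comm y x] at this
  rw [dist_comm z y] at h2
  linarith

end gp

section act
variable {G : Type*} {T : Type*} [Group G] [MetricSpace T] [MulAction G T]

lemma transLength_le (g : G) (x : T) : transLength T g ≤ dist x (g • x) :=
  ciInf_le ⟨0, by rintro _ ⟨y, rfl⟩; exact dist_nonneg⟩ x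

lemma dist_inv_smul (hi : ∀ (g : G) (x y : T), dist (g • x) (g • y) = dist x y) (g : G) (x y : T) :
    dist x (g⁻¹ • y) = dist (g • x) y := by
  rw [← hi g x, smul_inv_smul]

lemma transLength_of_axis (h : IsRTree T)
    (hi : ∀ (g : G) (x y : T), dist (g • x) (g • y) = dist x y) (g : G) (p : T)
    (hp : dist (g⁻¹ • p) (g • p) = 2 * dist p (g • p)) : transLength T g = dist p (g • p) := by
  have : Nonempty T := ⟨p⟩
  apply le_antisymm (transLength_le g p)
  refine le_ciInf fun y => ?_
  have e1 : dist (g⁻¹ • p) p = dist p (g • p) := by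
    rw [dist_comm, dist_inv_smul hi, dist_comm]
  have hb : dist (g⁻¹ • p) p + dist p (g • p) = dist (g⁻¹ • p) (g • p) := by linarith
  rcases h.between_or y hb with h1 | h1
  · rw [dist_inv_smul hi g y p, dist_comm p (g⁻¹ • p), e1] at h1
    have t := dist_triangle (g • y) y p
    rw [dist_comm (g • y) y] at t
    linarith
  · have t := dist_triangle y (g • y) (g • p)
    rw [hi] at t
    linarith

/-- The point of the axis of `g` nearest to `x`. -/
lemma exists_axis_pt (h : IsRTree T)
    (hi : ∀ (g : G) (x y : T), dist (g • x) (g • y) = dist x y) (g : G) (x : T)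
    (hlt : 2 * gp x (g⁻¹ • x) (g • x) < dist x (g • x)) :
    ∃ m : T, dist x m = gp x (g⁻¹ • x) (g • x) ∧
      dist m (g • m) = dist x (g • x) - 2 * gp x (g⁻¹ • x) (g • x) ∧
      dist (g⁻¹ • m) (g • m) = 2 * dist m (g • m) ∧
      gp m x (g • m) = 0 ∧ gp m x (g⁻¹ • m) = 0 := by
  set c := gp x (g⁻¹ • x) (g • x) with hc
  set a := dist x (g • x) with ha
  have c0 : 0 ≤ c := gp_nonneg _ _ _
  have ea : dist x (g⁻¹ • x) = a := by rw [dist_inv_smul hi, dist_comm]
  obtain ⟨m, hm1, hm2⟩ := h.exists_pt x (g • x) c c0 (by linarith)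
  obtain ⟨m', hm1', hm2'⟩ := h.exists_pt x (g⁻¹ • x) c c0 (by linarith)
  have hmm : m = m' := by
    apply h.eq_of_between (p := x) (x := g • x) (y := g⁻¹ • x) (by linarith) (by linarith)
      (by linarith)
    rw [gp_comm]; linarith
  subst hmm
  rw [ea] at hm2'
  rw [← ha] at hm2
  -- distances from `x` to the translates of `m`
  have d1 : dist x (g • m) = a - c := by
    rw [← hm2', ← hi g⁻¹ x (g • m), inv_smul_smul, dist_comm]
  have d1' : dist (g • m) (g • x) = c := by rw [hi, dist_comm, hm1]
  have d2 : dist x (g⁻¹ • m) = a - c := by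
    rw [dist_inv_smul hi, dist_comm, hm2]
  have d2' : dist (g⁻¹ • m) (g⁻¹ • x) = c := by rw [hi, dist_comm, hm1]
  have gxx : gp x (g • x) (g • x) = a := by unfold gp; rw [dist_self]; linarith
  have e1 : dist m (g • m) = a - 2 * c := by
    rw [h.dist_between (p := x) (x := g • x) (y := g • x) (u := m) (v := g • m) (by linarith)
      (by linarith), hm1, d1, gxx, min_eq_left (by linarith : a - c ≤ a),
      min_eq_left (by linarith : c ≤ a - c)]
    ring
  have e2 : dist (g⁻¹ • m) (g • m) = 2 * (a - 2 * c) := by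
    rw [h.dist_between (p := x) (x := g⁻¹ • x) (y := g • x) (u := g⁻¹ • m) (v := g • m)
      (by linarith) (by linarith), d1, d2, ← hc, min_eq_right (by linarith : c ≤ a - c),
      min_eq_right (by linarith : c ≤ a - c)]
    ring
  have e3 : dist m (g⁻¹ • m) = a - 2 * c := by
    rw [dist_inv_smul hi, dist_comm, e1]
  refine ⟨m, hm1, e1, by rw [e1, e2], ?_, ?_⟩
  · unfold gp; rw [dist_comm m x, hm1, e1, d1]; ring
  · unfold gp; rw [dist_comm m x, hm1, e3, d2]; ring

lemma gp_inv_self (hi : ∀ (g : G) (x y : T), dist (g • x) (g • y) = dist x y) (g : G) (x : T) :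
    2 * gp x (g⁻¹ • x) (g • x) = 2 * dist x (g • x) - dist x ((g * g) • x) := by
  unfold gp
  rw [dist_inv_smul hi g x x, dist_comm (g • x) x, ← hi g (g⁻¹ • x) (g • x), smul_inv_smul,
    mul_smul]
  ring

lemma transLength_eq (h : IsRTree T)
    (hi : ∀ (g : G) (x y : T), dist (g • x) (g • y) = dist x y) (g : G) (x : T)
    (hlt : dist x (g • x) < dist x ((g * g) • x)) :
    transLength T g = dist x ((g * g) • x) - dist x (g • x) := by
  have e := gp_inv_self hi g x
  obtain ⟨m, -, h2, h3, -⟩ := exists_axis_pt h hi g x (by linarith)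
  rw [transLength_of_axis h hi g m h3, h2]
  linarith

lemma lt_of_no_fixed (h : IsRTree T)
    (hi : ∀ (g : G) (x y : T), dist (g • x) (g • y) = dist x y) (g : G) (x : T)
    (hf : ∀ y : T, g • y ≠ y) : 2 * gp x (g⁻¹ • x) (g • x) < dist x (g • x) := by
  by_contra hc
  push Not at hc
  set a := dist x (g • x) with ha
  have a0 : 0 ≤ a := dist_nonneg
  have ea : dist x (g⁻¹ • x) = a := by rw [dist_inv_smul hi, dist_comm]
  obtain ⟨m, hm1, hm2⟩ := h.exists_pt x (g • x) (a / 2) (by linarith) (by linarith)
  rw [← ha] at hm2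
  have d2 : dist x (g⁻¹ • m) = a / 2 := by
    rw [dist_inv_smul hi, dist_comm, hm2]; ring
  have d2' : dist (g⁻¹ • m) (g⁻¹ • x) = a / 2 := by rw [hi, dist_comm, hm1]
  have : m = g⁻¹ • m := by
    apply h.eq_of_between (p := x) (x := g • x) (y := g⁻¹ • x) (by linarith) (by linarith)
      (by linarith)
    rw [gp_comm]; linarith
  apply hf m
  conv_lhs => rw [this]
  rw [smul_inv_smul]

lemma no_fixed_of_lt (hi : ∀ (g : G) (x y : T), dist (g • x) (g • y) = dist x y)
    (h : IsRTree T) (g : G) (x : T)
    (hlt : dist x (g • x) < dist x ((g * g) • x)) (y : T) : g • y ≠ y := by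
  intro hy
  have h1 := transLength_eq h hi g x hlt
  have h2 := transLength_le g y
  rw [hy, dist_self] at h2
  linarith

lemma EquivIsometric.transLength_eq {T' : Type*} [MetricSpace T'] [MulAction G T']
    (h : EquivIsometric G T T') (g : G) : transLength T g = transLength T' g := by
  obtain ⟨e, he⟩ := h
  unfold transLength
  rw [← e.toEquiv.iInf_comp (g := fun y : T' => dist y (g • y))]
  congr 1
  ext x
  change _ = dist (e x) (g • e x)
  rw [← he, e.dist_eq]

/-- An invariant subtree contains every base point that lies on long axes. -/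
lemma mem_of_axis (h : IsRTree T)
    (hi : ∀ (g : G) (x y : T), dist (g • x) (g • y) = dist x y) (p : T)
    (hM : ∀ R : ℝ, ∃ k : G, dist p ((k * k) • p) = 2 * dist p (k • p) ∧ R < dist p (k • p))
    (S : Set T) (hS : IsSubtree S) (hinv : ∀ g : G, ∀ x ∈ S, g • x ∈ S) : p ∈ S := by
  obtain ⟨⟨y, hy⟩, hconv⟩ := hS
  obtain ⟨k, hk1, hk2⟩ := hM (dist p y)
  have e0 : gp p (k⁻¹ • p) (k • p) = 0 := by
    have := gp_inv_self hi k p
    linarith
  have e1 : 0 < gp p (k • y) (k • p) := by
    have t := dist_triangle p (k • y) (k • p)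
    have t2 := dist_triangle p (k • y) (k • p)
    have := gp_nonneg (k • p) p (k • y)
    have l := gp_le_right (k • p) p (k • y)
    unfold gp at l ⊢
    rw [hi, dist_comm (k • p) p] at l
    rw [hi, dist_comm y p]
    linarith
  have e2 : 0 < gp p (k⁻¹ • p) (k⁻¹ • y) := by
    have l := gp_le_right (k⁻¹ • p) p (k⁻¹ • y)
    have ek : dist p (k⁻¹ • p) = dist p (k • p) := by rw [dist_inv_smul hi, dist_comm]
    unfold gp at l ⊢
    rw [hi, dist_comm (k⁻¹ • p) p] at l
    rw [hi]
    linarith
  have e3 : gp p (k⁻¹ • y) (k • y) = 0 := by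
    have n := gp_nonneg p (k⁻¹ • y) (k • y)
    have a1 := h.hyp' p (k⁻¹ • p) (k • p) (k⁻¹ • y)
    have a2 := h.hyp' p (k⁻¹ • y) (k • p) (k • y)
    rw [gp_comm p (k • p) (k⁻¹ • y)] at a1
    rw [gp_comm p (k • p) (k • y)] at a2
    rcases a1 with a1 | a1
    · linarith
    · rcases a2 with a2 | a2 <;> linarith
  apply hconv _ (hinv k⁻¹ y hy) _ (hinv k y hy)
  unfold gp at e3
  rw [dist_comm (k⁻¹ • y) p]
  linarith

/-- In a minimal action every point lies on a segment from the base point to a translate. -/
lemma IsMinimalTreeAction.exists_between (H : IsMinimalTreeAction G T) (p y : T) :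
    ∃ g : G, dist p y + dist y (g • p) = dist p (g • p) := by
  have h := H.tree
  have hS := H.minimal {y | ∃ g : G, dist p y + dist y (g • p) = dist p (g • p)} ?_ ?_
  · have : y ∈ {y | ∃ g : G, dist p y + dist y (g • p) = dist p (g • p)} := by
      rw [hS]; trivial
    exact this
  · refine ⟨⟨p, 1, by simp⟩, ?_⟩
    rintro u ⟨g, hg⟩ v ⟨k, hk⟩ w hw
    rcases h.between_or p hw with h1 | h1
    · refine ⟨g, le_antisymm ?_ (dist_triangle _ _ _)⟩
      have := dist_triangle w u (g • p)
      linarith
    · refine ⟨k, le_antisymm ?_ (dist_triangle _ _ _)⟩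
      have := dist_triangle w v (k • p)
      linarith
  · rintro g u ⟨k, hk⟩
    have hw : dist (g • p) (g • u) + dist (g • u) ((g * k) • p) = dist (g • p) ((g * k) • p) := by
      rw [mul_smul, H.isom, H.isom, H.isom, hk]
    rcases h.between_or p hw with h1 | h1
    · exact ⟨g, h1⟩
    · exact ⟨g * k, h1⟩

end act

end Pool.Agent.H183Z
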