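import Mathlib

set_option autoImplicit false

/-! Isometric actions of groups on `ℝ`-trees: definitions. -/

namespace Pool.Agent.H183Z

/-- An `ℝ`-tree: a geodesic metric space which is `0`-hyperbolic (four point condition). -/
structure IsRTree (T : Type*) [MetricSpace T] : Prop where
  geodesic : ∀ x y : T, ∃ γ : ℝ → T, γ 0 = x ∧ γ (dist x y) = y ∧
    ∀ s ∈ Set.Icc 0 (dist x y), ∀ t ∈ Set.Icc 0 (dist x y), dist (γ s) (γ t) = |s - t|
  fourPoint : ∀ x y z w : T,
    dist x y + dist z w ≤ max (dist x z + dist y w) (dist x w + dist y z)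

/-- A subtree: a nonempty set which contains the geodesic segment between any two of its points. -/
def IsSubtree {T : Type*} [MetricSpace T] (S : Set T) : Prop :=
  S.Nonempty ∧ ∀ x ∈ S, ∀ y ∈ S, ∀ z : T, dist x z + dist z y = dist x y → z ∈ S

/-- The action of `G` on `T` is a minimal isometric action on a nonempty `ℝ`-tree: there is no
proper invariant subtree. -/
structure IsMinimalTreeAction (G : Type*) (T : Type*) [Group G] [MetricSpace T] [MulAction G T] :
    Prop where
  nonempty : Nonempty T
  tree : IsRTree T
  isom : ∀ (g : G) (x y : T), dist (g • x) (g • y) = dist x y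
  minimal : ∀ S : Set T, IsSubtree S → (∀ g : G, ∀ x ∈ S, g • x ∈ S) → S = Set.univ

/-- The translation length `‖g‖_T = inf_x d(x, g x)`. -/
noncomputable def transLength {G : Type*} (T : Type*) [Group G] [MetricSpace T] [MulAction G T]
    (g : G) : ℝ :=
  ⨅ x : T, dist x (g • x)

/-- The two actions are the same point of Outer space: there is an equivariant isometry. -/
def EquivIsometric (G : Type*) (T T' : Type*) [Group G] [MetricSpace T] [MulAction G T]
    [MetricSpace T'] [MulAction G T'] : Prop :=
  ∃ e : T ≃ᵢ T', ∀ (g : G) (x : T), e (g • x) = g • e x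

end Pool.Agent.H183Z
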