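import Pool.Agent.H183Z.White

set_option autoImplicit false

/-! Twists along a generator. -/

namespace Pool.Agent.H183Z

open MeasureTheory Filter FreeGroup Topology

variable {N : ℕ}

/-- the twist along `y` with exponents `κ` -/
def tw (y : Fin N) (κ : Fin N × Bool → ℤ) : FreeGroup (Fin N) →* FreeGroup (Fin N) :=
  FreeGroup.lift fun i =>
    if i = y then of y else of y ^ κ (i, true) * of i * (of y ^ κ (i, false))⁻¹

lemma tw_self (y : Fin N) (κ : Fin N × Bool → ℤ) : tw y κ (of y) = of y := by simp [tw]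

lemma tw_zpow (y : Fin N) (κ : Fin N × Bool → ℤ) (k : ℤ) : tw y κ (of y ^ k) = of y ^ k := by
  rw [map_zpow, tw_self]

lemma tw_letter {y : Fin N} (κ : Fin N × Bool → ℤ) {s : Fin N × Bool} (h : s.1 ≠ y) :
    tw y κ (mk [s]) = of y ^ κ s * mk [s] * (of y ^ κ (linv s))⁻¹ := by
  rcases s with ⟨i, b⟩
  cases b
  · rw [mk_false, _root_.map_inv]
    simp only [tw, lift_apply_of, if_neg h, linv, Bool.not_false]
    group
  · rw [mk_true]
    simp only [tw, lift_apply_of, if_neg h, linv, Bool.not_true]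

lemma tw_comp (y : Fin N) (κ : Fin N × Bool → ℤ) (g : FreeGroup (Fin N)) :
    tw y (-κ) (tw y κ g) = g := by
  have : (tw y (-κ)).comp (tw y κ) = MonoidHom.id _ := by
    ext i
    by_cases h : i = y
    · simp [h, tw_self]
    · have a := tw_letter κ (s := (i, true)) h
      have b := tw_letter (-κ) (s := (i, true)) h
      rw [mk_true] at a b
      rw [MonoidHom.comp_apply, a, _root_.map_mul, _root_.map_mul, _root_.map_inv, tw_zpow, tw_zpow,
        b]
      simp only [Pi.neg_apply, MonoidHom.id_apply]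
      group
  exact DFunLike.congr_fun this g

lemma tw_bijective (y : Fin N) (κ : Fin N × Bool → ℤ) : Function.Bijective (tw y κ) :=
  Function.bijective_iff_has_inverse.2 ⟨tw y (-κ), tw_comp y κ, fun g => by
    have := tw_comp y (-κ) g
    rwa [neg_neg] at this⟩

lemma letter_eq_zpow {y : Fin N} {s : Fin N × Bool} (h : s.1 = y) :
    ∃ t : ℤ, |t| = 1 ∧ mk [s] = of y ^ t := by
  rcases s with ⟨i, b⟩
  subst h
  cases b
  · exact ⟨-1, rfl, by rw [mk_false]; simp⟩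
  · exact ⟨1, rfl, by rw [mk_true]; simp⟩

lemma zpow_eq_letter (y : Fin N) {k : ℤ} (hk : k ≠ 0) :
    ∃ (s : Fin N × Bool) (n : ℕ), s.1 = y ∧ of y ^ k = mk [s] ^ (n + 1) := by
  rcases k with n | n
  · obtain ⟨m, rfl⟩ := Nat.exists_eq_succ_of_ne_zero (n := n) (by rintro rfl; exact hk rfl)
    exact ⟨(y, true), m, rfl, by rw [mk_true]; exact zpow_natCast _ _⟩
  · exact ⟨(y, false), n, rfl, by rw [mk_false, zpow_negSucc, inv_pow]⟩

lemma hd_letter_mul {s : Fin N × Bool} {z : FreeGroup (Fin N)} (h : z.toWord.head? ≠ some (linv s)) :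
    (mk [s] * z).toWord.head? = some s := by
  rw [toWord_letter_mul, if_neg h]; rfl

lemma hd_pow_mul {s : Fin N × Bool} {z : FreeGroup (Fin N)} (h : z.toWord.head? ≠ some (linv s))
    (n : ℕ) : (mk [s] ^ (n + 1) * z).toWord.head? = some s := by
  induction n with
  | zero => simpa using hd_letter_mul h
  | succ n ih =>
    rw [pow_succ', mul_assoc]
    refine hd_letter_mul ?_
    rw [ih]
    exact fun e => linv_ne s (Option.some_injective _ e).symm

lemma exp_eq_zero {y : Fin N} {u : Fin N × Bool} {z : FreeGroup (Fin N)} {e : ℤ} (hu : u.1 ≠ y)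
    (hz : ∀ v, z.toWord.head? = some v → v.1 ≠ y) (h : (of y ^ e * z).toWord.head? = some u) :
    e = 0 := by
  by_contra c
  obtain ⟨s, n, h1, h2⟩ := zpow_eq_letter y c
  rw [h2, hd_pow_mul (fun a => hz _ a h1)] at h
  exact hu (Option.some_injective _ h ▸ h1)

lemma hd_tw_aux (y : Fin N) (κ : Fin N × Bool → ℤ) (l : List (Fin N × Bool)) (hl : IsReduced l) :
    (∀ s, l.head? = some s → s.1 ≠ y →
      ((of y ^ κ s)⁻¹ * tw y κ (mk l)).toWord.head? = some s) ∧
    ∀ (k : ℤ) u, u.1 ≠ y → (of y ^ k * ((of y ^ κ u)⁻¹ * tw y κ (mk l))).toWord.head? = some u →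
      (of y ^ k * mk l).toWord.head? = some u := by
  induction l with
  | nil =>
    refine ⟨by simp, fun k u hu h => ?_⟩
    have e : (mk ([] : List (Fin N × Bool))) = 1 := rfl
    rw [e, _root_.map_one, ← mul_assoc, ← zpow_neg, ← zpow_add] at h
    have := exp_eq_zero hu (by simp) h
    rw [this] at h
    simp at h
  | cons s l ih =>
    obtain ⟨-, ih⟩ := ih (isReduced_tail hl)
    have main : s.1 ≠ y → ((of y ^ κ s)⁻¹ * tw y κ (mk (s :: l))).toWord.head? = some s := by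
      intro hs
      rw [mk_cons', _root_.map_mul, tw_letter κ hs]
      simp only [mul_assoc, inv_mul_cancel_left]
      refine hd_letter_mul fun c => ?_
      have := ih 0 (linv s) hs (by simpa using c)
      rw [zpow_zero, one_mul, toWord_mk_of_reduced (isReduced_tail hl)] at this
      cases l with
      | nil => simp at this
      | cons r l =>
        exact ne_linv_of_red (isReduced_cons_cons.1 hl).1 (Option.some_injective _ this)
    refine ⟨fun s' h => Option.some_injective _ h ▸ main, fun k u hu h => ?_⟩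
    by_cases hs : s.1 = y
    · obtain ⟨t, -, ht⟩ := letter_eq_zpow hs
      rw [mk_cons', ht, ← mul_assoc, ← zpow_add]
      refine ih _ u hu ?_
      rw [mk_cons', ht, _root_.map_mul, tw_zpow] at h
      convert h using 3
      group
    · have m := main hs
      have e : of y ^ k * ((of y ^ κ u)⁻¹ * tw y κ (mk (s :: l))) =
          of y ^ (k - κ u + κ s) * ((of y ^ κ s)⁻¹ * tw y κ (mk (s :: l))) := by group
      rw [e] at h
      have z := exp_eq_zero hu (fun v hv => by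
        rw [m] at hv; exact Option.some_injective _ hv ▸ hs) h
      rw [z, zpow_zero, one_mul, m] at h
      have us : s = u := Option.some_injective _ h
      subst us
      have : k = 0 := by omega
      rw [this, zpow_zero, one_mul, toWord_mk_of_reduced hl]
      rfl

lemma ray_tw {y : Fin N} {κ : Fin N × Bool → ℤ} {f : Bdry N → Bdry N} (h : BMap (tw y κ) f)
    {ξ : Bdry N} (hs : (ξ.1 0).1 ≠ y) : (act (of y ^ κ (ξ.1 0))⁻¹ (f ξ)).1 0 = ξ.1 0 := by
  obtain ⟨n, h1, h2⟩ := (((h.lim _ _ (lim_pre ξ)).mul (of y ^ κ (ξ.1 0))⁻¹ 0).and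
    (lim_pre ξ 0)).exists
  rw [toWord_mk_of_reduced (pre_reduced ξ n), ← List.head?_eq_getElem?] at h2
  rw [← List.head?_eq_getElem?, (hd_tw_aux y κ _ (pre_reduced ξ n)).1 _ h2 hs] at h1
  exact (Option.some_injective _ h1).symm

lemma ray_tw' {y : Fin N} {κ : Fin N × Bool → ℤ} {f : Bdry N → Bdry N} (h : BMap (tw y κ) f)
    {ρ : Bdry N} {t : ℤ} {v : Fin N × Bool} (hv : (act (of y ^ t)⁻¹ ρ).1 0 = v) (hs : v.1 ≠ y) :
    ∃ ρ' : Bdry N, ρ'.1 0 = v ∧ ∀ m : ℤ, act (of y ^ m)⁻¹ (f ρ) = act (of y ^ (t + κ v - m)) ρ' := by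
  refine ⟨_, (ray_tw h (ξ := act (of y ^ t)⁻¹ ρ) (by rwa [hv])).trans hv, fun m => ?_⟩
  rw [hv, h.equivariant, _root_.map_inv, tw_zpow, ← act_mul, ← act_mul]
  congr 1
  group

lemma act_pow_val {s : Fin N × Bool} {ρ : Bdry N} (h : ρ.1 0 ≠ linv s) (n : ℕ) :
    (act (mk [s] ^ n) ρ).1 0 ≠ linv s ∧ ∀ j < n, (act (mk [s] ^ n) ρ).1 j = s := by
  induction n with
  | zero => exact ⟨by rwa [pow_zero, act_one], fun j hj => by omega⟩
  | succ n ih =>
    rw [pow_succ', act_mul]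
    refine ⟨by rw [act_cons_zero ih.1]; exact (linv_ne s).symm, fun j hj => ?_⟩
    cases j with
    | zero => exact act_cons_zero ih.1
    | succ j => rw [act_cons_succ ih.1]; exact ih.2 j (by omega)

lemma act_zpow_fst {y : Fin N} {ρ : Bdry N} (h : (ρ.1 0).1 ≠ y) {k : ℤ} (hk : k ≠ 0) :
    ((act (of y ^ k) ρ).1 0).1 = y := by
  obtain ⟨s, n, h1, h2⟩ := zpow_eq_letter y hk
  rw [h2, (act_pow_val (fun c => h (by rw [c]; exact h1)) _).2 0 (by omega), h1]

lemma act_zpow_pos {y : Fin N} {ρ : Bdry N} (h : (ρ.1 0).1 ≠ y) {k : ℤ} {j : ℕ} (hk : j < k) :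
    (act (of y ^ k) ρ).1 j = (y, true) := by
  obtain ⟨n, rfl⟩ := Int.eq_ofNat_of_zero_le (a := k) (by omega)
  rw [zpow_natCast, ← mk_true]
  exact (act_pow_val (fun c => h (by rw [c]; rfl)) _).2 j (by omega)

lemma act_zpow_neg {y : Fin N} {ρ : Bdry N} (h : (ρ.1 0).1 ≠ y) {k : ℤ} {j : ℕ} (hk : j < -k) :
    (act (of y ^ k) ρ).1 j = (y, false) := by
  obtain ⟨n, hn⟩ := Int.eq_ofNat_of_zero_le (a := -k) (by omega)
  rw [show k = -(n : ℤ) by omega, zpow_neg, zpow_natCast, ← inv_pow, ← mk_false]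
  exact (act_pow_val (fun c => h (by rw [c]; rfl)) _).2 j (by omega)

lemma near_exp {y : Fin N} (K : ℕ) {ρ : Bdry N} (h : ∃ j < K, (ρ.1 j).1 ≠ y) :
    ∃ t : ℤ, |t| < K ∧ ((act (of y ^ t)⁻¹ ρ).1 0).1 ≠ y := by
  induction K generalizing ρ with
  | zero => obtain ⟨j, hj, -⟩ := h; omega
  | succ K ih =>
    by_cases c : (ρ.1 0).1 = y
    · obtain ⟨e, he, h1⟩ := letter_eq_zpow c
      obtain ⟨j, hj, h2⟩ := h
      obtain ⟨t, ht, h3⟩ := ih (ρ := act (mk [ρ.1 0])⁻¹ ρ) (by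
        cases j with
        | zero => exact absurd c h2
        | succ j => exact ⟨j, by omega, by rwa [act_tail rfl]⟩)
      refine ⟨e + t, ?_, ?_⟩
      · have := abs_add_le e t
        push_cast; omega
      · rwa [h1, ← act_mul, ← mul_inv_rev, ← zpow_add] at h3
    · exact ⟨0, by simp, by rwa [zpow_zero, inv_one, act_one]⟩

lemma exists_spread (N R : ℕ) :
    ∃ κ : Fin N × Bool → ℤ, ∀ u v, u ≠ v → (R : ℤ) ≤ |κ u - κ v| := by
  let e := Fintype.equivFin (Fin N × Bool)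
  refine ⟨fun s => R * ((e s : ℕ) : ℤ), fun u v h => ?_⟩
  have : ((e u : ℕ) : ℤ) - (e v : ℕ) ≠ 0 := by
    intro c
    exact h (e.injective (Fin.ext (by omega)))
  simp only
  rw [← mul_sub, abs_mul, Nat.abs_cast]
  exact le_mul_of_one_le_right (Int.natCast_nonneg _) (Int.one_le_abs this)

lemma tw_near {y : Fin N} {κ : Fin N × Bool → ℤ} {f : Bdry N → Bdry N} (h : BMap (tw y κ) f)
    {K : ℕ} (hκ : ∀ u v, u ≠ v → (K : ℤ) ≤ |κ u - κ v|) {ρ : Bdry N} {u : Fin N × Bool}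
    (hu : ρ.1 0 ≠ u) (hn : ∃ j < K, (ρ.1 j).1 ≠ y) :
    ((act (of y ^ κ u)⁻¹ (f ρ)).1 0).1 = y := by
  obtain ⟨t, ht, h1⟩ := near_exp K hn
  obtain ⟨ρ', h2, h3⟩ := ray_tw' h rfl h1
  rw [h3]
  refine act_zpow_fst (by rwa [h2]) fun c => ?_
  by_cases e : (act (of y ^ t)⁻¹ ρ).1 0 = u
  · rw [e] at c
    have : t = 0 := by omega
    rw [this, zpow_zero, inv_one, act_one] at e
    exact hu e
  · have := hκ _ _ e
    rw [show κ ((act (of y ^ t)⁻¹ ρ).1 0) - κ u = -t by omega, abs_neg] at this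
    omega

/-- three letters other than `a` occur close to each other -/
def Good (a : Fin N) (K : ℕ) (q : DBdry N) : Prop :=
  q ∈ UU N ∧ (q.1.2.1 0).1 ≠ a ∧ (∃ j < K, (q.1.1.1 j).1 ≠ a) ∧ ∃ j < K, (q.1.2.1 (j + 1)).1 ≠ a

/-- an isolated letter other than `a` -/
def POne (a : Fin N) (h : FreeGroup (Fin N)) : Prop :=
  ∃ q ∈ Lines h, (q.1.1.1 0).1 = a ∧ (q.1.2.1 0).1 ≠ a ∧ (q.1.2.1 1).1 = a

/-- a short gap between letters other than `c` -/
def PTwo (c : Fin N) (h : FreeGroup (Fin N)) : Prop :=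
  ∃ q ∈ Lines h, ∃ t : ℤ, |t| ≤ 1 ∧ (q.1.1.1 0).1 ≠ c ∧ ((act (of c ^ t)⁻¹ q.1.2).1 0).1 ≠ c ∧
    q.1.1.1 0 ≠ (act (of c ^ t)⁻¹ q.1.2).1 0

lemma step_one (A : AutData N) {a : Fin N} {κ : Fin N × Bool → ℤ} (hA : A.φ = tw a κ) {K : ℕ}
    (hκ : ∀ u v, u ≠ v → (K : ℤ) ≤ |κ u - κ v|) {g : FreeGroup (Fin N)} {q : DBdry N}
    (hq : q ∈ Lines g) (h : Good a K q) : POne a (A.φ g) := by
  obtain ⟨h1, h2, h3, h4⟩ := h
  have H : BMap (tw a κ) A.f := hA ▸ A.hf
  have e := ray_tw H h2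
  refine ⟨_, Lines.act (Lines.aut A hq) (of a ^ κ (q.1.2.1 0))⁻¹, tw_near H hκ h1 h3, ?_, ?_⟩
  · change ((act _ (A.f q.1.2)).1 0).1 ≠ a
    rwa [e]
  · change ((act _ (A.f q.1.2)).1 (0 + 1)).1 = a
    have := tw_near H hκ (ρ := act (mk [q.1.2.1 0])⁻¹ q.1.2) (u := linv (q.1.2.1 0))
      (by rw [act_tail rfl]; exact q.1.2.ne_linv 0) (by simpa only [act_tail rfl] using h4)
    rw [H.equivariant, _root_.map_inv, tw_letter κ h2, ← act_mul] at this
    rw [← act_tail e, ← act_mul]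
    convert this using 4
    group

lemma step_two (A : AutData N) {a c d : Fin N} (hac : a ≠ c) (had : a ≠ d) (hcd : c ≠ d)
    (hA : A.φ = tw d fun s => if s.1 = a then 1 else 0) {h : FreeGroup (Fin N)} (hp : POne a h) :
    PTwo c (A.φ h) := by
  obtain ⟨q, hq, h1, h2, h3⟩ := hp
  have H : BMap (tw d fun s => if s.1 = a then 1 else 0) A.f := hA ▸ A.hf
  have e := ray_tw H (ξ := q.1.1) (by rwa [h1])
  rw [if_pos h1] at e
  have e2 : ((act (of d ^ (1 : ℤ))⁻¹ (A.f q.1.2)).1 0).1 = d := by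
    by_cases hd : (q.1.2.1 0).1 = d
    · obtain ⟨t, ht, h4⟩ := letter_eq_zpow hd
      obtain ⟨ρ, h5, h6⟩ := ray_tw' H (ρ := q.1.2) (t := t) (v := q.1.2.1 1)
        (by rw [← h4, act_tail rfl]) (by rwa [h3])
      rw [h6, if_pos h3]
      refine act_zpow_fst (by rwa [h5, h3]) fun c => ?_
      rw [show t = 0 by omega] at ht
      simp at ht
    · obtain ⟨ρ, h5, h6⟩ := ray_tw' H (ρ := q.1.2) (t := 0) (v := q.1.2.1 0)
        (by rw [zpow_zero, inv_one, act_one]) hd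
      rw [h6, if_neg h2]
      exact act_zpow_fst (by rwa [h5]) (by simp)
  refine ⟨_, Lines.act (Lines.aut A hq) (of d ^ (1 : ℤ))⁻¹, 0, by simp, ?_, ?_, ?_⟩
  · change ((act _ (A.f q.1.1)).1 0).1 ≠ c
    rwa [e, h1]
  · rw [zpow_zero, inv_one, act_one]
    change ((act _ (A.f q.1.2)).1 0).1 ≠ c
    rw [e2]; exact hcd.symm
  · rw [zpow_zero, inv_one, act_one]
    change (act _ (A.f q.1.1)).1 0 ≠ (act _ (A.f q.1.2)).1 0
    intro z
    rw [← z, e, h1] at e2
    exact had e2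

lemma step_two' (A : AutData 2) (s : Fin 2 × Bool) {a c : Fin 2} (hac : a ≠ c)
    (hp : POne a (A.φ (mk [s]))) : PTwo c (A.φ (mk [s])) := by
  obtain ⟨q, hq, h1, h2, h3⟩ := hp
  obtain ⟨t, ht, h4⟩ := letter_eq_zpow (y := c) (s := q.1.2.1 0) (by omega)
  refine ⟨q, hq, t, ht.le, by rwa [h1], ?_, ?_⟩
  · rwa [← h4, act_tail rfl, zero_add, h3]
  · rw [← h4, act_tail rfl]
    exact (rank_two A s hq (by rwa [h1])).symm

lemma step_three (A : AutData N) {c : Fin N} {κ : Fin N × Bool → ℤ} (hA : A.φ = tw c κ) {M : ℕ}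
    (hκ : ∀ u v, u ≠ v → ((2 * M + 1 : ℕ) : ℤ) ≤ |κ u - κ v|) {h : FreeGroup (Fin N)}
    (hp : PTwo c h) : ∃ q ∈ Lines (A.φ h), Agree M q (axis (c, true)) := by
  obtain ⟨q, hq, t, ht, h1, h2, h3⟩ := hp
  have H : BMap (tw c κ) A.f := hA ▸ A.hf
  obtain ⟨ζ, a1, a2⟩ := ray_tw' H (ρ := q.1.1) (t := 0) (v := q.1.1.1 0)
    (by rw [zpow_zero, inv_one, act_one]) h1
  obtain ⟨ξ, b1, b2⟩ := ray_tw' H rfl h2
  have k := hκ _ _ h3
  rw [← a1] at h1
  rw [← b1] at h2
  rw [abs_le] at ht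
  push_cast at k
  rcases le_abs.1 k with k | k
  · refine ⟨_, Lines.flip (Lines.act (Lines.aut A hq) (of c ^ (κ (q.1.1.1 0) - M))⁻¹),
      fun j hj => ⟨?_, ?_⟩⟩
    · change (act _ (A.f q.1.2)).1 j = _
      rw [b2]
      exact act_zpow_neg h2 (by omega)
    · change (act _ (A.f q.1.1)).1 j = _
      rw [a2]
      exact act_zpow_pos h1 (by omega)
  · refine ⟨_, Lines.act (Lines.aut A hq) (of c ^ (κ (q.1.1.1 0) + M))⁻¹,
      fun j hj => ⟨?_, ?_⟩⟩
    · change (act _ (A.f q.1.1)).1 j = _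
      rw [a2]
      exact act_zpow_neg h1 (by omega)
    · change (act _ (A.f q.1.2)).1 j = _
      rw [b2]
      exact act_zpow_pos h2 (by omega)

end Pool.Agent.H183Z
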