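import Pool.Agent.H183Z.Seq
import Pool.Agent.H183Z.SmallDefs

set_option autoImplicit false

namespace Pool.Agent.H183Z

lemma inClosedCV_ctree {N : ℕ} {L : FreeGroup (Fin N) → ℝ} (H : Lyndon L)
    (hf : ∀ g, g ≠ 1 → L g < L (g * g)) (hM : ∀ R : ℝ, ∃ k, L (k * k) = 2 * L k ∧ R < L k) :
    InClosedCV N (CTree H) := by
  have st : ∀ x : CTree H, MulAction.stabilizer (FreeGroup (Fin N)) x = ⊥ := by
    intro x
    rw [eq_bot_iff]
    intro g hg
    by_contra hc
    exact CTree.free g (hf g hc) x hg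
  refine ⟨CTree.isMinimal hM, fun x => ?_, fun x y _ => Or.inl (by rw [st, st]; simp),
    fun x y z _ _ _ => by rw [st, st, st]; simp⟩
  obtain ⟨k, -, hk⟩ := hM 0
  have : k ≠ 1 := by
    rintro rfl
    rw [H.one] at hk
    exact lt_irrefl _ hk
  exact ⟨k, CTree.free k (hf k this) x⟩

lemma transLength_ctree {G : Type*} [Group G] {L : G → ℝ} (H : Lyndon L)
    (hf : ∀ g, g ≠ 1 → L g < L (g * g)) (g : G) :
    transLength (CTree H) g = L (g * g) - L g := by
  by_cases hg : g = 1
  · subst hg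
    have : Nonempty (CTree H) := ⟨CTree.base H⟩
    simp [transLength]
  · exact CTree.transLength_eq' g (hf g hg)

theorem unpinned (N : ℕ) (hN : 3 ≤ N) :
    ∃ (T : Type) (_ : MetricSpace T) (_ : MulAction (FreeGroup (Fin N)) T),
      InClosedCV N T ∧ ∀ S : Set (FreeGroup (Fin N)), S.Finite → ¬ PinsDown N S T := by
  obtain ⟨s, hs⟩ := exists_good hN
  obtain ⟨L, H, hf, hM, hS⟩ := exists_unpinned hs
  refine ⟨CTree H, inferInstance, inferInstance, inClosedCV_ctree H hf hM, fun S hfin hp => ?_⟩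
  obtain ⟨L', H', hf', hM', hag, g, -, hg⟩ := hS S hfin
  have := hp (CTree H') (inClosedCV_ctree H' hf' hM') (fun k hk => by
    rw [transLength_ctree H hf, transLength_ctree H' hf', (hag k hk).1, (hag k hk).2])
  apply hg
  rw [← transLength_ctree H hf, ← transLength_ctree H' hf']
  exact this.transLength_eq g

end Pool.Agent.H183Z
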