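import Pool.Agent.H183Z.Lines

set_option autoImplicit false

/-! The cut vertex lemma of Whitehead. -/

namespace Pool.Agent.H183Z

open MeasureTheory Filter FreeGroup Topology

variable {N : ℕ}

/-- the turns taken by the lines of `g` -/
def Tn (g : FreeGroup (Fin N)) : Set ((Fin N × Bool) × (Fin N × Bool)) :=
  {τ | τ.1 ≠ τ.2 ∧ ∃ q ∈ Lines g, q.1.1.1 0 = τ.1 ∧ q.1.2.1 0 = τ.2}

lemma Tn_symm {g : FreeGroup (Fin N)} {s t : Fin N × Bool} (h : (s, t) ∈ Tn g) : (t, s) ∈ Tn g := by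
  obtain ⟨h1, q, hq, h2, h3⟩ := h
  exact ⟨h1.symm, flip2 q, Lines.flip hq, h3, h2⟩

lemma Tn_of_mem {g : FreeGroup (Fin N)} {q : DBdry N} (h : q ∈ Lines g) (hq : q ∈ UU N) :
    (q.1.1.1 0, q.1.2.1 0) ∈ Tn g := ⟨hq, q, h, rfl, rfl⟩

lemma Tn_succ {g : FreeGroup (Fin N)} {q : DBdry N} (h : q ∈ Lines g) (hq : q ∈ UU N) (j : ℕ) :
    (linv (q.1.2.1 j), q.1.2.1 (j + 1)) ∈ Tn g := by
  have := Tn_of_mem (Lines.iter h (j + 0 + 1)) (iter_mem hq _)
  rwa [iter_fst hq j 0, iter_snd] at this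

/-- the graph stays connected after removing any vertex -/
def TwoC {L : Type*} (T : Set (L × L)) : Prop :=
  ∀ (r : L) (χ : L → Prop), (∃ s, s ≠ r ∧ χ s) → (∃ t, t ≠ r ∧ ¬ χ t) →
    ∃ s t, s ≠ r ∧ t ≠ r ∧ χ s ∧ ¬ χ t ∧ (s, t) ∈ T

lemma exists_cross {g : FreeGroup (Fin N)} (h2 : TwoC (Tn g)) (m : ℕ) (Y : Set (Bdry N))
    (r : Fin N × Bool) (dep : ∀ ξ ξ' : Bdry N, ξ.1 0 ≠ r → ξ'.1 0 ≠ r →
      (∀ j < m, ξ.1 j = ξ'.1 j) → ξ ∈ Y → ξ' ∈ Y)
    {ξ ξ' : Bdry N} (h : ξ.1 0 ≠ r) (h' : ξ'.1 0 ≠ r) (hY : ξ ∈ Y) (hY' : ξ' ∉ Y) :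
    ∃ q ∈ Lines g, q.1.1 ∈ Y ∧ q.1.2 ∉ Y ∧ q.1.1.1 0 ≠ r ∧ q.1.2.1 0 ≠ r := by
  induction m generalizing Y r ξ ξ' with
  | zero => exact absurd (dep ξ ξ' h h' (fun j hj => by omega) hY) hY'
  | succ m ih =>
    by_cases mx : ∃ ρ ρ' : Bdry N, ρ.1 0 ≠ r ∧ ρ'.1 0 = ρ.1 0 ∧ ρ ∈ Y ∧ ρ' ∉ Y
    · obtain ⟨ρ, ρ', a1, a2, a3, a4⟩ := mx
      set s := ρ.1 0 with hs
      obtain ⟨q, b0, b1, b2, b3, b4⟩ := ih (act (mk [s]) ⁻¹' Y) (linv s) (fun z z' c c' e hz => by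
          refine dep _ _ (by rwa [act_cons_zero c]) (by rwa [act_cons_zero c']) (fun j hj => ?_) hz
          cases j with
          | zero => rw [act_cons_zero c, act_cons_zero c']
          | succ j => rw [act_cons_succ c, act_cons_succ c', e j (by omega)])
        (ξ := act (mk [s])⁻¹ ρ) (ξ' := act (mk [s])⁻¹ ρ')
        (by rw [act_tail hs.symm]; exact ρ.ne_linv 0)
        (by rw [act_tail a2, ← a2]; exact ρ'.ne_linv 0)
        (by rwa [Set.mem_preimage, act_act_inv]) (by rwa [Set.mem_preimage, act_act_inv])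
      refine ⟨act2 (mk [s]) q, Lines.act b0 _, b1, b2, ?_, ?_⟩
      · change (act _ _).1 0 ≠ r
        rwa [act_cons_zero b3]
      · change (act _ _).1 0 ≠ r
        rwa [act_cons_zero b4]
    · push Not at mx
      obtain ⟨s, t, a1, a2, ⟨ρ, a3, a4⟩, a5, -, q, b0, b1, b2⟩ :=
        h2 r (fun s => ∃ ρ ∈ Y, ρ.1 0 = s) ⟨_, h, ξ, hY, rfl⟩
          ⟨_, h', fun ⟨ρ, c1, c2⟩ => hY' (mx ρ ξ' (by rwa [c2]) c2.symm c1)⟩
      simp only at b1 b2
      exact ⟨q, b0, mx ρ _ (by rwa [a4]) (by rw [b1, a4]) a3, fun c => a5 ⟨_, c, b2⟩,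
        by rwa [b1], by rwa [b2]⟩

theorem whitehead (hN : 2 ≤ N) (A : AutData N) (s : Fin N × Bool) :
    ¬ TwoC (Tn (A.φ (mk [s]))) := by
  intro h2
  obtain ⟨h, hU⟩ := exists_act2_mem (A.f2 (axis s))
  set l := act2 h (A.f2 (axis s)) with hl
  let Y : Set (Bdry N) := (fun ξ => (A.f' (act h⁻¹ ξ)).1 0) ⁻¹' {linv s}
  have cl : IsClopen Y := (isClopen_discrete _).preimage
    ((continuous_coord 0).comp (A.hf'.continuous.comp (continuous_act _)))
  obtain ⟨m, hm⟩ := exists_depth cl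
  have e : A.symm.f2 (act2 h⁻¹ l) = axis s := by rw [hl, act2_inv_act2, A.symm_f2_f2]
  have y1 : l.1.1 ∈ Y := congrArg (fun q : DBdry N => q.1.1.1 0) e
  have y2 : l.1.2 ∉ Y := fun c =>
    linv_ne s (c.symm.trans (congrArg (fun q : DBdry N => q.1.2.1 0) e))
  have uniq : ∀ q ∈ Lines (A.φ (mk [s])), q.1.1 ∈ Y → q.1.2 ∉ Y → q = l := by
    intro q hq c1 c2
    have a := Lines.aut A.symm (Lines.act hq h⁻¹)
    rw [show A.symm.φ (A.φ (mk [s])) = mk [s] from A.li _] at a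
    rcases lines_letter_mem a (fun z => c2 (z.symm.trans c1)) with b | b
    · rw [hl, ← b, A.f2_symm_f2, act2_act2_inv]
    · have := congrArg (fun q : DBdry N => q.1.1.1 0) b
      exact absurd (c1.symm.trans this) (linv_ne _).symm
  obtain ⟨t, -, ht⟩ := Finset.exists_mem_notMem_of_card_lt_card
    (s := {l.1.1.1 0, l.1.2.1 0}) (t := Finset.univ) (by
      refine lt_of_le_of_lt Finset.card_le_two ?_
      simp; omega)
  simp only [Finset.mem_insert, Finset.mem_singleton, not_or] at ht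
  by_cases c : cray t ∈ Y
  · obtain ⟨q, b0, b1, b2, b3, -⟩ := exists_cross h2 m Y (l.1.1.1 0) (fun ξ ξ' _ _ => hm ξ ξ')
      (ξ := cray t) ht.1 (Ne.symm hU) c y2
    exact b3 (by rw [uniq q b0 b1 b2])
  · obtain ⟨q, b0, b1, b2, -, b3⟩ := exists_cross h2 m Y (l.1.2.1 0) (fun ξ ξ' _ _ => hm ξ ξ')
      (ξ' := cray t) hU ht.2 y1 c
    exact b3 (by rw [uniq q b0 b1 b2])

lemma twoC_cycle {L : Type*} {T : Set (L × L)} (sy : ∀ s t, (s, t) ∈ T → (t, s) ∈ T) {b x B X : L}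
    (all : ∀ u, u = b ∨ u = B ∨ u = x ∨ u = X) (n1 : b ≠ B) (n6 : x ≠ X) (e1 : (b, x) ∈ T) (e2 : (b, X) ∈ T) (e3 : (B, x) ∈ T)
    (e4 : (B, X) ∈ T) : TwoC T := by
  rintro r χ ⟨s, hs, hs'⟩ ⟨t, ht, ht'⟩
  by_contra c
  have k : ∀ u v, (u, v) ∈ T → u ≠ r → v ≠ r → (χ u ↔ χ v) := by
    intro u v h hu hv
    constructor
    · intro a; by_contra b; exact c ⟨u, v, hu, hv, a, b, h⟩
    · intro a; by_contra b; exact c ⟨v, u, hv, hu, a, b, sy _ _ h⟩
  have k1 := k _ _ e1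
  have k2 := k _ _ e2
  have k3 := k _ _ e3
  have k4 := k _ _ e4
  clear k c e1 e2 e3 e4 sy
  have r1 := all r
  have r2 := all s
  have r3 := all t
  grind

lemma two_turns {g : FreeGroup (Fin N)} {q : DBdry N} (h : q ∈ Lines g) (hq : q ∈ UU N)
    {b x : Fin N × Bool} (all : ∀ u, u = b ∨ u = linv b ∨ u = x ∨ u = linv x) (hx : x.1 ≠ b.1)
    (d i : ℕ) (h1 : q.1.2.1 i = b ∨ ((q.1.2.1 i).1 = x.1 ∧ (linv b, q.1.2.1 i) ∈ Tn g))
    (h2 : q.1.2.1 (i + d) = linv b) : (linv b, x) ∈ Tn g ∧ (linv b, linv x) ∈ Tn g := by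
  induction d generalizing i with
  | zero =>
    rw [add_zero] at h2
    rw [h2] at h1
    rcases h1 with h1 | h1
    · exact absurd h1 (linv_ne b)
    · exact absurd h1.1.symm hx
  | succ d ih =>
    have t := Tn_succ h hq i
    have n := q.1.2.ne_linv i
    have key : q.1.2.1 (i + 1) = linv b ∨ (q.1.2.1 (i + 1) = b ∨
        ((q.1.2.1 (i + 1)).1 = x.1 ∧ (linv b, q.1.2.1 (i + 1)) ∈ Tn g)) := by
      rcases all (q.1.2.1 (i + 1)) with c | c | c | c
      · exact Or.inr (Or.inl c)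
      · exact Or.inl c
      all_goals
        refine Or.inr (Or.inr ⟨by rw [c]; try rfl, ?_⟩)
        rcases h1 with h1 | h1
        · rwa [h1] at t
        · have : q.1.2.1 (i + 1) = q.1.2.1 i := by
            rcases eq_or_linv (s := q.1.2.1 i) (r := q.1.2.1 (i + 1))
              (by rw [c, h1.1]; try rfl) with z | z
            · exact z
            · exact absurd z n
          rw [this]; exact h1.2
    rcases key with c | c
    · rcases h1 with h1 | h1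
      · rw [h1] at n; exact absurd c n
      · rw [c] at t
        have t' := Tn_symm t
        rcases eq_or_linv h1.1 with z | z
        · rw [z] at t' h1; exact ⟨h1.2, t'⟩
        · rw [z] at t' h1; rw [linv_linv] at t'; exact ⟨t', h1.2⟩
    · exact ih (i + 1) c (by rw [← h2, add_assoc, add_comm 1])

lemma periodic_iter {q : DBdry N} {n : ℕ} (h : sh^[n] q = q) (k j : ℕ) :
    q.1.2.1 (k * n + j) = q.1.2.1 j := by
  have : sh^[k * n] q = q := by
    rw [mul_comm, Function.iterate_mul]; exact Function.iterate_fixed h k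
  rw [← iter_snd, this]

theorem rank_two (A : AutData 2) (s : Fin 2 × Bool) {q : DBdry 2} (h : q ∈ Lines (A.φ (mk [s])))
    (hx : (q.1.2.1 0).1 ≠ (q.1.1.1 0).1) : q.1.2.1 1 ≠ q.1.1.1 0 := by
  intro e
  set b := q.1.1.1 0 with hb
  set x := q.1.2.1 0 with hx'
  have hq : q ∈ UU 2 := fun z => hx (congrArg Prod.fst z).symm
  have all : ∀ u, u = b ∨ u = linv b ∨ u = x ∨ u = linv x := by
    intro u
    by_cases c : u.1 = b.1
    · rcases eq_or_linv c with z | z <;> simp [z]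
    · have : u.1 = x.1 := by omega
      rcases eq_or_linv this with z | z <;> simp [z]
  have g1 : A.φ (mk [s]) ≠ 1 := fun z =>
    mk_letter_ne_one s (A.bijective.1 (z.trans (_root_.map_one _).symm))
  have e1 : (b, x) ∈ Tn _ := Tn_of_mem h hq
  have e2 := Tn_symm (Tn_succ h hq 0)
  rw [zero_add, e] at e2
  have e3 : (linv b, x) ∈ Tn (A.φ (mk [s])) ∧ (linv b, linv x) ∈ Tn (A.φ (mk [s])) := by
    obtain ⟨n, hn | hn⟩ := Lines.period g1 h hq
    · have a := iter_fst hq n 0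
      rw [hn] at a
      refine two_turns h hq all hx (2 * n) 1 (Or.inl e) ?_
      rw [show 1 + 2 * n = 1 * (n + 1) + n by omega, periodic_iter hn, hb, a, linv_linv]
    · have hq' : flip2 q ∈ UU 2 := Ne.symm hq
      have hn2 : sh^[n + 1 + 1 + n] (flip2 q) = flip2 q := by
        rw [show n + 1 + 1 + n = (n + 1) + (n + 1) by omega, Function.iterate_add_apply, hn, hn]
      have a := iter_fst hq' (2 * n) 1
      rw [show 2 * n + 1 + 1 = n + 1 + 1 + n by omega, hn2] at a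
      refine two_turns (Lines.flip h) hq' all hx (2 * n) 0 (Or.inl rfl) ?_
      rw [zero_add, ← e]
      change _ = linv ((flip2 q).1.1.1 1)
      rw [a, linv_linv]
  exact whitehead le_rfl A s (twoC_cycle (fun _ _ => Tn_symm) all (linv_ne b).symm
    (linv_ne x).symm e1 e2 e3.1 e3.2)

end Pool.Agent.H183Z
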