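import Pool.Agent.H183Z.Lyndon

set_option autoImplicit false

/-! Weighted word lengths on free groups. -/

namespace Pool.Agent.H183Z

open FreeGroup

variable {α : Type*}

/-- weight of a word -/
noncomputable def wl (ω : α → ℝ) (l : List (α × Bool)) : ℝ := (l.map fun s => ω s.1).sum

@[simp] lemma wl_nil (ω : α → ℝ) : wl ω [] = 0 := rfl
@[simp] lemma wl_cons (ω : α → ℝ) (s : α × Bool) (l : List (α × Bool)) :
    wl ω (s :: l) = ω s.1 + wl ω l := by simp [wl]
@[simp] lemma wl_append (ω : α → ℝ) (l m : List (α × Bool)) :
    wl ω (l ++ m) = wl ω l + wl ω m := by simp [wl]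
@[simp] lemma wl_invRev (ω : α → ℝ) (l : List (α × Bool)) : wl ω (invRev l) = wl ω l := by
  induction l with
  | nil => simp
  | cons s l ih => rw [invRev_cons, wl_append, ih]; simp [invRev, add_comm]

lemma wl_nonneg {ω : α → ℝ} (h : ∀ a, 0 ≤ ω a) (l : List (α × Bool)) : 0 ≤ wl ω l := by
  induction l with
  | nil => simp
  | cons s l ih => rw [wl_cons]; have := h s.1; linarith

lemma wl_pos {ω : α → ℝ} (h : ∀ a, 0 < ω a) {l : List (α × Bool)} (hl : l ≠ []) : 0 < wl ω l := by
  obtain ⟨s, l, rfl⟩ := List.exists_cons_of_ne_nil hl
  rw [wl_cons]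
  have := h s.1
  have := wl_nonneg (fun a => (h a).le) l
  linarith

variable [DecidableEq α]

lemma isReduced_invRev {l : List (α × Bool)} (h : IsReduced l) : IsReduced (invRev l) := by
  rw [isReduced_iff_reduce_eq, reduce_invRev, h.reduce_eq]

lemma toWord_mk_of_reduced {l : List (α × Bool)} (h : IsReduced l) : (mk l).toWord = l := by
  rw [toWord_mk, h.reduce_eq]

omit [DecidableEq α] in
lemma mk_cons' (s : α × Bool) (l : List (α × Bool)) : mk (s :: l) = mk [s] * mk l := by
  rw [mul_mk]; rfl

omit [DecidableEq α] in
lemma isReduced_tail {s : α × Bool} {l : List (α × Bool)} (h : IsReduced (s :: l)) :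
    IsReduced l := by
  cases l with
  | nil => exact IsReduced.nil
  | cons t l => exact (isReduced_cons_cons.1 h).2

/-- weight of the common initial part -/
noncomputable def cw (ω : α → ℝ) : List (α × Bool) → List (α × Bool) → ℝ
  | s :: l, t :: m => if s = t then ω s.1 + cw ω l m else 0
  | _, _ => 0

/-- weighted word length -/
noncomputable def wlen (ω : α → ℝ) (g : FreeGroup α) : ℝ := wl ω g.toWord

lemma wlen_mk {ω : α → ℝ} {l : List (α × Bool)} (h : IsReduced l) : wlen ω (mk l) = wl ω l := by
  rw [wlen, toWord_mk_of_reduced h]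

lemma wlen_inv_mul (ω : α → ℝ) {l m : List (α × Bool)} (hl : IsReduced l) (hm : IsReduced m) :
    wlen ω ((mk l)⁻¹ * mk m) = wl ω l + wl ω m - 2 * cw ω l m := by
  induction l generalizing m with
  | nil =>
    have : (mk ([] : List (α × Bool))) = 1 := rfl
    rw [this, inv_one, one_mul, wlen_mk hm]; simp [cw]
  | cons s l ih =>
    cases m with
    | nil =>
      have : (mk ([] : List (α × Bool))) = 1 := rfl
      rw [this, mul_one, inv_mk, wlen_mk (isReduced_invRev hl), wl_invRev]; simp [cw]
    | cons t m =>
      by_cases hst : s = t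
      · subst hst
        rw [mk_cons' s l, mk_cons' s m, mul_inv_rev, mul_assoc, inv_mul_cancel_left,
          ih (isReduced_tail hl) (isReduced_tail hm)]
        simp only [cw, if_true, wl_cons]; ring
      · rw [inv_mk, mul_mk, wlen_mk, wl_append, wl_invRev]
        · simp [cw, hst]
        · have h1 := isReduced_invRev hl
          rw [invRev_cons] at h1 ⊢
          refine IsReduced.append_overlap h1 ?_ (by simp [invRev])
          have : invRev [s] = [(s.1, !s.2)] := by simp [invRev]
          rw [this, List.singleton_append, isReduced_cons_cons]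
          refine ⟨fun h => ?_, hm⟩
          by_contra hc
          apply hst
          rcases s with ⟨a, b⟩
          rcases t with ⟨c, d⟩
          simp only at h hc
          subst h
          cases b <;> cases d <;> simp_all

lemma cw_nonneg {ω : α → ℝ} (h : ∀ a, 0 ≤ ω a) (l m : List (α × Bool)) : 0 ≤ cw ω l m := by
  induction l generalizing m with
  | nil => simp [cw]
  | cons s l ih =>
    cases m with
    | nil => simp [cw]
    | cons t m =>
      simp only [cw]
      split_ifs
      · have := h s.1
        have := ih m
        linarith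
      · exact le_rfl

lemma cw_hyp {ω : α → ℝ} (h : ∀ a, 0 ≤ ω a) (l m k : List (α × Bool)) :
    cw ω l k ≤ cw ω l m ∨ cw ω m k ≤ cw ω l m := by
  induction k generalizing l m with
  | nil =>
    left
    have : cw ω l [] = 0 := by cases l <;> simp [cw]
    rw [this]; exact cw_nonneg h _ _
  | cons u k ih =>
    cases l with
    | nil => left; simp [cw]
    | cons s l =>
      cases m with
      | nil => right; simp [cw]
      | cons t m =>
        by_cases h1 : s = u
        · by_cases h2 : t = u
          · subst h1; subst h2
            simp only [cw, if_true]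
            rcases ih l m with a | a
            · left; linarith
            · right; linarith
          · right
            have : cw ω (t :: m) (u :: k) = 0 := by simp [cw, h2]
            rw [this]; exact cw_nonneg h _ _
        · left
          have : cw ω (s :: l) (u :: k) = 0 := by simp [cw, h1]
          rw [this]; exact cw_nonneg h _ _

lemma lc_wlen (ω : α → ℝ) (g h : FreeGroup α) : lc (wlen ω) g h = cw ω g.toWord h.toWord := by
  have := wlen_inv_mul ω (isReduced_toWord (x := g)) (isReduced_toWord (x := h))
  rw [mk_toWord, mk_toWord] at this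
  unfold lc
  rw [this]
  unfold wlen; ring

lemma lyndon_wlen {ω : α → ℝ} (h : ∀ a, 0 ≤ ω a) : Lyndon (wlen ω) := by
  refine ⟨by simp [wlen], fun g => by simp [wlen], fun g k m => ?_⟩
  rw [lc_wlen, lc_wlen, lc_wlen]
  exact cw_hyp h _ _ _

lemma Lyndon.comp {G G' : Type*} [Group G] [Group G'] {L : G' → ℝ} (H : Lyndon L) (ψ : G →* G') :
    Lyndon (fun g => L (ψ g)) := by
  have e : ∀ g k, lc (fun g => L (ψ g)) g k = lc L (ψ g) (ψ k) := by
    intro g k; simp [lc]
  refine ⟨by simp [H.one], fun g => by simp [H.inv], fun g k m => ?_⟩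
  rw [e, e, e]; exact H.hyp _ _ _

lemma core_ne_nil {g : FreeGroup α} (hg : g ≠ 1) : reduceCyclically g.toWord ≠ [] := by
  intro hc
  have h1 := reduceCyclically.reduce_flatten_replicate_succ (isReduced_toWord (x := g)) 1
  have h0 := reduceCyclically.conj_conjugator_reduceCyclically g.toWord
  rw [← toWord_pow, hc] at h1
  rw [hc] at h0
  simp only [List.append_nil] at h0
  simp only [List.flatten_replicate_nil, List.append_nil] at h1
  rw [h0, toWord_inj] at h1
  apply hg
  have : g * g = g * 1 := by rw [mul_one]; simpa [pow_succ] using h1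
  exact mul_left_cancel this

lemma wlen_lt_sq {ω : α → ℝ} (h : ∀ a, 0 < ω a) {g : FreeGroup α} (hg : g ≠ 1) :
    wlen ω g < wlen ω (g * g) := by
  have h1 := reduceCyclically.reduce_flatten_replicate_succ (isReduced_toWord (x := g)) 1
  have h0 := reduceCyclically.conj_conjugator_reduceCyclically g.toWord
  rw [← toWord_pow] at h1
  have e : g * g = g ^ (1 + 1) := by simp [pow_succ]
  have p := wl_pos h (core_ne_nil hg)
  unfold wlen
  rw [e, h1]
  conv_lhs => rw [← h0]
  simp only [wl_append, List.replicate_succ, List.replicate_zero, List.flatten_cons,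
    List.flatten_nil, wl_nil]
  linarith

end Pool.Agent.H183Z
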